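import Pool.Agent.Lib.MP_391fb1_pr.VD

/-!
# MP_391fb1_pr: convolution with the 9-fold B-spline preserves the absence of the sign pattern (-,+,-,+)
-/

namespace Pool.Agent.Lib.MP391fb1

open MeasureTheory Set Filter

/-- `h` has the strict sign pattern `(-,+,-,+)` -/
def Pat (h : ℝ → ℝ) : Prop :=
  ∃ x1 x2 x3 x4 : ℝ, x1 < x2 ∧ x2 < x3 ∧ x3 < x4 ∧ h x1 < 0 ∧ 0 < h x2 ∧ h x3 < 0 ∧ 0 < h x4

theorem cubic_zero_finite (A B C : ℝ) : {y : ℝ | y ^ 3 + A * y ^ 2 + B * y + C = 0}.Finite := by
  set p : Polynomial ℝ := Cubic.toPoly ⟨1, A, B, C⟩ with hp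
  have hne : p ≠ 0 := Cubic.ne_zero_of_a_ne_zero (by norm_num)
  refine (Polynomial.finite_setOfPred_isRoot hne).subset ?_
  intro y hy
  simp only [mem_ofPred_eq] at hy ⊢
  rw [Polynomial.IsRoot.def, hp, Cubic.toPoly]
  simp
  linarith

/-- one-sided cubic multiplier for a function without the pattern `(-,+,-,+)` -/
theorem exists_cubic {h : ℝ → ℝ} {R : ℝ} (hR : 0 ≤ R) (hz : ∀ y, R ≤ |y| → h y = 0) (hp : ¬ Pat h) :
    ∃ A B C : ℝ, ∀ y ∈ Ioo (-R) R, h y * (y ^ 3 + A * y ^ 2 + B * y + C) ≤ 0 := by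
  set N : Set ℝ := {y | h y < 0} with hN
  set P : Set ℝ := {y | 0 < h y} with hP
  have hb : ∀ y, h y ≠ 0 → -R < y ∧ y < R := by
    intro y hy
    by_contra hc
    apply hy
    apply hz
    rw [not_and_or, not_lt, not_lt] at hc
    rcases hc with hc | hc
    · rw [abs_of_nonpos (by linarith)]; linarith
    · exact hc.trans (le_abs_self y)
  rcases N.eq_empty_or_nonempty with hNe | hNn
  · refine ⟨-R, 1, -R, ?_⟩
    intro y hy
    have h0 : 0 ≤ h y := by
      by_contra hc
      have : y ∈ N := not_le.1 hc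
      rw [hNe] at this
      exact this
    have : y ^ 3 + -R * y ^ 2 + 1 * y + -R = (y - R) * (y ^ 2 + 1) := by ring
    rw [this]
    apply mul_nonpos_of_nonneg_of_nonpos h0
    apply mul_nonpos_of_nonpos_of_nonneg (by linarith [hy.2]) (by positivity)
  rcases P.eq_empty_or_nonempty with hPe | hPn
  · refine ⟨R, 1, R, ?_⟩
    intro y hy
    have h0 : h y ≤ 0 := by
      by_contra hc
      have : y ∈ P := not_le.1 hc
      rw [hPe] at this
      exact this
    have : y ^ 3 + R * y ^ 2 + 1 * y + R = (y + R) * (y ^ 2 + 1) := by ring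
    rw [this]
    apply mul_nonpos_of_nonpos_of_nonneg h0
    apply mul_nonneg (by linarith [hy.1]) (by positivity)
  have hNb : BddBelow N := ⟨-R, fun y hy => (hb y (ne_of_lt hy)).1.le⟩
  have hPa : BddAbove P := ⟨R, fun y hy => (hb y (ne_of_gt hy)).2.le⟩
  set y1 := sInf N with hy1
  set y3 := sSup P with hy3
  have l1 : ∀ y, y < y1 → 0 ≤ h y := by
    intro y hy
    by_contra hc
    have : y ∈ N := not_le.1 hc
    linarith [csInf_le hNb this]
  have l3 : ∀ y, y3 < y → h y ≤ 0 := by
    intro y hy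
    by_contra hc
    have : y ∈ P := not_le.1 hc
    linarith [le_csSup hPa this]
  rcases le_or_gt y3 y1 with h31 | h13
  · refine ⟨-y1, 1, -y1, ?_⟩
    intro y _
    have e : y ^ 3 + -y1 * y ^ 2 + 1 * y + -y1 = (y - y1) * (y ^ 2 + 1) := by ring
    rw [e]
    rcases lt_trichotomy y y1 with hlt | heq | hgt
    · apply mul_nonpos_of_nonneg_of_nonpos (l1 y hlt)
      apply mul_nonpos_of_nonpos_of_nonneg (by linarith) (by positivity)
    · rw [heq]; simp
    · apply mul_nonpos_of_nonpos_of_nonneg (l3 y (by linarith))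
      apply mul_nonneg (by linarith) (by positivity)
  · set P2 : Set ℝ := {y | y1 < y ∧ 0 < h y} with hP2
    have hP2n : P2.Nonempty := by
      obtain ⟨p, hp1, hp2⟩ := exists_lt_of_lt_csSup hPn h13
      exact ⟨p, hp2, hp1⟩
    have hP2b : BddBelow P2 := ⟨y1, fun y hy => hy.1.le⟩
    set y2 := sInf P2 with hy2
    have h12 : y1 ≤ y2 := le_csInf hP2n fun y hy => hy.1.le
    have h23 : y2 ≤ y3 := by
      obtain ⟨p, hp1⟩ := hP2n
      exact (csInf_le hP2b hp1).trans (le_csSup hPa hp1.2)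
    have l2 : ∀ y, y1 < y → y < y2 → h y ≤ 0 := by
      intro y hya hyb
      by_contra hc
      have : y ∈ P2 := ⟨hya, not_le.1 hc⟩
      linarith [csInf_le hP2b this]
    have l2' : ∀ y, y2 < y → y < y3 → 0 ≤ h y := by
      intro y hya hyb
      by_contra hc
      rw [not_le] at hc
      obtain ⟨p, hp1, hp2⟩ := exists_lt_of_csInf_lt hP2n hya
      obtain ⟨n, hn1, hn2⟩ := exists_lt_of_csInf_lt hNn hp1.1
      obtain ⟨p', hp1', hp2'⟩ := exists_lt_of_lt_csSup hPn hyb
      exact hp ⟨n, p, y, p', hn2, hp2, hp2', hn1, hp1.2, hc, hp1'⟩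
    refine ⟨-(y1+y2+y3), y1*y2+y1*y3+y2*y3, -(y1*y2*y3), ?_⟩
    intro y _
    have e : y ^ 3 + -(y1+y2+y3) * y ^ 2 + (y1*y2+y1*y3+y2*y3) * y + -(y1*y2*y3)
        = (y - y1) * (y - y2) * (y - y3) := by ring
    rw [e]
    rcases lt_trichotomy y y1 with hlt | heq | hgt
    · apply mul_nonpos_of_nonneg_of_nonpos (l1 y hlt)
      apply mul_nonpos_of_nonneg_of_nonpos
      · apply mul_nonneg_of_nonpos_of_nonpos <;> linarith
      · linarith
    · rw [heq]; simp
    rcases lt_trichotomy y y2 with hlt2 | heq2 | hgt2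
    · apply mul_nonpos_of_nonpos_of_nonneg (l2 y hgt hlt2)
      apply mul_nonneg_of_nonpos_of_nonpos
      · apply mul_nonpos_of_nonneg_of_nonpos <;> linarith
      · linarith
    · rw [heq2]; simp
    rcases lt_trichotomy y y3 with hlt3 | heq3 | hgt3
    · apply mul_nonpos_of_nonneg_of_nonpos (l2' y hgt2 hlt3)
      apply mul_nonpos_of_nonneg_of_nonpos
      · apply mul_nonneg <;> linarith
      · linarith
    · rw [heq3]; simp
    · apply mul_nonpos_of_nonpos_of_nonneg (l3 y hgt3)
      apply mul_nonneg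
      · apply mul_nonneg <;> linarith
      · linarith

/-- the strictly weighted version -/
theorem vd9_strict (hD : D9) {R : ℝ} (hR : 0 < R) (w : ℝ → ℝ) (hw : Continuous w)
    (hw0 : ∀ y, 0 < w y) (A B C : ℝ) :
    ¬ ∃ x1 x2 x3 x4 : ℝ, -(R + 9) < x1 ∧ x4 < R + 9 ∧ x1 < x2 ∧ x2 < x3 ∧ x3 < x4 ∧
      (∫ y in (-R)..R, bs 9 0 (x1 - y) * (- w y * (y ^ 3 + A * y ^ 2 + B * y + C))) < 0 ∧
      0 < (∫ y in (-R)..R, bs 9 0 (x2 - y) * (- w y * (y ^ 3 + A * y ^ 2 + B * y + C))) ∧
      (∫ y in (-R)..R, bs 9 0 (x3 - y) * (- w y * (y ^ 3 + A * y ^ 2 + B * y + C))) < 0 ∧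
      0 < (∫ y in (-R)..R, bs 9 0 (x4 - y) * (- w y * (y ^ 3 + A * y ^ 2 + B * y + C))) := by
  rintro ⟨x1, x2, x3, x4, hx1, hx4, h12, h23, h34, s1, s2, s3, s4⟩
  set F : ℕ → ℕ → ℝ → ℝ := fun i j x => ∫ y in (-R)..R, bs 9 i (x - y) * (w y * y ^ j) with hF
  have hFd : ∀ i j, i ≤ 6 → ∀ x, HasDerivAt (F i j) (F (i + 1) j x) x := by
    intro i j hi x
    exact hasDerivAt_conv (fun x => bs_hasDerivAt (by omega) x) (bs_continuous 9 (i + 1))
      (g := fun y => w y * y ^ j) (by fun_prop) hR.le x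
  -- integral over Ioo
  have hIoo : ∀ i j x, F i j x = ∫ y in Ioo (-R) R, bs 9 i (x - y) * (w y * y ^ j) := by
    intro i j x
    simp only [hF]
    rw [intervalIntegral.integral_of_le (by linarith), integral_Ioc_eq_integral_Ioo]
  have hJ : ∀ x ∈ Ioo (-(R + 9)) (R + 9), max (x - 9) (-R) < min (x + 9) R := by
    intro x hx
    rw [max_lt_iff, lt_min_iff, lt_min_iff]
    exact ⟨⟨by linarith, by linarith [hx.2]⟩, ⟨by linarith [hx.1], by linarith⟩⟩
  have gen : ∀ (k : ℕ), k ≤ 4 → ∀ x ∈ Ioo (-(R + 9)) (R + 9),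
      (∀ z : Fin k → ℝ, StrictMono z → (∀ l, z l ∈ Ioo (x - 9) (x + 9)) →
      0 < (Matrix.of fun (i : Fin k) l => bs 9 (i : ℕ) (x - z l)).det) →
      0 < (Matrix.of fun (i : Fin k) (j : Fin k) => F i j x).det := by
    intro k hk x hx hpos
    have := wronsk_pos (k := k) (R := R) (P := x - 9) (Q := x + 9) (fun i y => bs 9 (i : ℕ) (x - y))
      w hw hw0 (fun i => (bs_continuous 9 i).comp (by fun_prop)) hpos
      (fun i y hy => bs9_zero i (by have := i.2; omega) hy) (hJ x hx)
    have e : (Matrix.of fun (i : Fin k) (j : Fin k) => F i j x)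
        = Matrix.of fun (i : Fin k) (j : Fin k) =>
          ∫ y in Ioo (-R) R, bs 9 (i : ℕ) (x - y) * (w y * y ^ (j : ℕ)) := by
      ext i j
      exact hIoo _ _ _
    rw [e]
    exact this
  have W1 : ∀ x ∈ Ioo (-(R + 9)) (R + 9), 0 < F 0 0 x := by
    intro x hx
    have := gen 1 (by norm_num) x hx (by
      intro z _ hl
      simp only [Matrix.det_unique, Matrix.of_apply, Fin.default_eq_zero, Fin.val_zero]
      exact bs_pos (by norm_num) (by exact_mod_cast mem_window.1 (hl 0)))
    simpa using this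
  have W2 : ∀ x ∈ Ioo (-(R + 9)) (R + 9), 0 < F 0 0 x * F 1 1 x - F 1 0 x * F 0 1 x := by
    intro x hx
    have := gen 2 (by norm_num) x hx (by
      intro z hz hl
      rw [Matrix.det_fin_two]
      have := minor2 hD x (hl 0) (hl 1) (hz (by decide))
      simp only [Matrix.of_apply, Fin.val_zero, Fin.val_one]
      linarith)
    rw [Matrix.det_fin_two] at this
    simp only [Matrix.of_apply, Fin.val_zero, Fin.val_one] at this
    linarith
  have W3 : ∀ x ∈ Ioo (-(R + 9)) (R + 9), 0 < d3 (F 0 0 x) (F 0 1 x) (F 0 2 x)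
      (F 1 0 x) (F 1 1 x) (F 1 2 x) (F 2 0 x) (F 2 1 x) (F 2 2 x) := by
    intro x hx
    have := gen 3 (by norm_num) x hx (by
      intro z hz hl
      rw [det_fin3_eq]
      have := minor3 hD x (hl 0) (hl 2) (hz (by decide : (0 : Fin 3) < 1)) (hz (by decide : (1 : Fin 3) < 2))
      simpa using this)
    rw [← Matrix.det_transpose, det_fin3_eq] at this
    simpa using this
  have W4 : ∀ x ∈ Ioo (-(R + 9)) (R + 9), 0 < d4 (F 0 0 x) (F 0 1 x) (F 0 2 x) (F 0 3 x)
      (F 1 0 x) (F 1 1 x) (F 1 2 x) (F 1 3 x) (F 2 0 x) (F 2 1 x) (F 2 2 x) (F 2 3 x)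
      (F 3 0 x) (F 3 1 x) (F 3 2 x) (F 3 3 x) := by
    intro x hx
    have := gen 4 (by norm_num) x hx (by
      intro z hz hl
      rw [det_fin4_eq]
      have := minor4 hD x (hl 0) (hl 3) (hz (by decide : (0 : Fin 4) < 1))
        (hz (by decide : (1 : Fin 4) < 2)) (hz (by decide : (2 : Fin 4) < 3))
      simpa using this)
    rw [← Matrix.det_transpose, det_fin4_eq] at this
    simpa using this
  have D3 : ∀ x y z : ℝ, -(R + 9) < x → x < y → y < z → z < R + 9 →
      0 < d3 (F 0 0 x) (F 0 1 x) (F 0 2 x) (F 0 0 y) (F 0 1 y) (F 0 2 y)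
        (F 0 0 z) (F 0 1 z) (F 0 2 z) := by
    intro x y z h1 h2 h3 h4
    exact ect3 (p := -(R + 9)) (q := R + 9)
      (fun x _ => hFd 0 0 (by norm_num) x) (fun x _ => hFd 0 1 (by norm_num) x)
      (fun x _ => hFd 0 2 (by norm_num) x)
      (fun x _ => hFd 1 0 (by norm_num) x) (fun x _ => hFd 1 1 (by norm_num) x)
      (fun x _ => hFd 1 2 (by norm_num) x)
      W1 W2 W3 ⟨h1, by linarith⟩ ⟨by linarith, h4⟩ h2 h3
  have D4 := ect4 (p := -(R + 9)) (q := R + 9)
      (fun x _ => hFd 0 0 (by norm_num) x) (fun x _ => hFd 0 1 (by norm_num) x)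
      (fun x _ => hFd 0 2 (by norm_num) x) (fun x _ => hFd 0 3 (by norm_num) x)
      (fun x _ => hFd 1 0 (by norm_num) x) (fun x _ => hFd 1 1 (by norm_num) x)
      (fun x _ => hFd 1 2 (by norm_num) x) (fun x _ => hFd 1 3 (by norm_num) x)
      (fun x _ => hFd 2 0 (by norm_num) x) (fun x _ => hFd 2 1 (by norm_num) x)
      (fun x _ => hFd 2 2 (by norm_num) x) (fun x _ => hFd 2 3 (by norm_num) x)
      W1 W2 W3 W4 (x := x1) (y := x2) (z := x3) (t := x4)
      ⟨hx1, by linarith⟩ ⟨by linarith, hx4⟩ h12 h23 h34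
  have hG : ∀ x, (∫ y in (-R)..R, bs 9 0 (x - y) * (- w y * (y ^ 3 + A * y ^ 2 + B * y + C)))
      = -(F 0 3 x + A * F 0 2 x + B * F 0 1 x + C * F 0 0 x) := by
    intro x
    simp only [hF]
    have hbc := bs_continuous 9 0
    have i0 : ∀ j : ℕ, IntervalIntegrable (fun y => bs 9 0 (x - y) * (w y * y ^ j)) volume (-R) R :=
      fun j => Continuous.intervalIntegrable (by fun_prop) _ _
    rw [← intervalIntegral.integral_const_mul, ← intervalIntegral.integral_const_mul,
      ← intervalIntegral.integral_const_mul,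
      ← intervalIntegral.integral_add (i0 3) ((i0 2).const_mul A),
      ← intervalIntegral.integral_add ((i0 3).add ((i0 2).const_mul A)) ((i0 1).const_mul B),
      ← intervalIntegral.integral_add (((i0 3).add ((i0 2).const_mul A)).add ((i0 1).const_mul B))
        ((i0 0).const_mul C), ← intervalIntegral.integral_neg]
    apply intervalIntegral.integral_congr
    intro y _
    simp only
    ring
  rw [hG] at s1 s2 s3 s4
  have m1 := D3 x2 x3 x4 (by linarith) h23 h34 hx4
  have m2 := D3 x1 x3 x4 hx1 (by linarith) h34 hx4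
  have m3 := D3 x1 x2 x4 hx1 h12 (by linarith) hx4
  have m4 := D3 x1 x2 x3 hx1 h12 h23 (by linarith)
  generalize F 0 0 x1 = a1 at *
  generalize F 0 0 x2 = b1 at *
  generalize F 0 0 x3 = c1 at *
  generalize F 0 0 x4 = e1 at *
  generalize F 0 1 x1 = a2 at *
  generalize F 0 1 x2 = b2 at *
  generalize F 0 1 x3 = c2 at *
  generalize F 0 1 x4 = e2 at *
  generalize F 0 2 x1 = a3 at *
  generalize F 0 2 x2 = b3 at *
  generalize F 0 2 x3 = c3 at *
  generalize F 0 2 x4 = e3 at *
  generalize F 0 3 x1 = a4 at *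
  generalize F 0 3 x2 = b4 at *
  generalize F 0 3 x3 = c4 at *
  generalize F 0 3 x4 = e4 at *
  have key : d4 a1 a2 a3 a4 b1 b2 b3 b4 c1 c2 c3 c4 e1 e2 e3 e4
      = (-(a4 + A * a3 + B * a2 + C * a1)) * d3 b1 b2 b3 c1 c2 c3 e1 e2 e3
        - (-(b4 + A * b3 + B * b2 + C * b1)) * d3 a1 a2 a3 c1 c2 c3 e1 e2 e3
        + (-(c4 + A * c3 + B * c2 + C * c1)) * d3 a1 a2 a3 b1 b2 b3 e1 e2 e3
        - (-(e4 + A * e3 + B * e2 + C * e1)) * d3 a1 a2 a3 b1 b2 b3 c1 c2 c3 := by
    unfold d4 d3
    ring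
  have k1 := mul_neg_of_neg_of_pos s1 m1
  have k2 := mul_pos s2 m2
  have k3 := mul_neg_of_neg_of_pos s3 m3
  have k4 := mul_pos s4 m4
  rw [key] at D4
  linarith

/-- **Convolution with the 9-fold B-spline preserves the absence of the sign pattern
`(-,+,-,+)`.** -/
theorem vd9 (hD : D9) {h : ℝ → ℝ} (hc : Continuous h) {R : ℝ} (hR : 0 < R)
    (hz : ∀ y, R ≤ |y| → h y = 0) (hp : ¬ Pat h) :
    ¬ Pat (fun x => ∫ y in (-R)..R, bs 9 0 (x - y) * h y) := by
  obtain ⟨A, B, C, hq⟩ := exists_cubic hR.le hz hp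
  set q : ℝ → ℝ := fun y => y ^ 3 + A * y ^ 2 + B * y + C with hqd
  have hqc : Continuous q := by simp only [hqd]; fun_prop
  rintro ⟨x1, x2, x3, x4, h12, h23, h34, s1, s2, s3, s4⟩
  simp only at s1 s2 s3 s4
  -- positions
  have hout : ∀ x, R + 9 ≤ |x| → ∫ y in (-R)..R, bs 9 0 (x - y) * h y = 0 := by
    intro x hx
    rw [intervalIntegral.integral_congr (g := fun _ => (0:ℝ))]
    · simp
    · intro y hy
      rw [uIcc_of_le (by linarith)] at hy
      simp only
      have hy' : |y| ≤ R := abs_le.2 hy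
      rw [bs_zero (by norm_num), zero_mul]
      have : |x| ≤ |x - y| + |y| := by
        calc |x| = |(x - y) + y| := by ring_nf
          _ ≤ _ := abs_add_le _ _
      push_cast
      linarith
  have hx1 : -(R + 9) < x1 := by
    by_contra hcon
    rw [not_lt] at hcon
    have := hout x1 (by rw [abs_of_nonpos (by linarith)]; linarith)
    linarith
  have hx4 : x4 < R + 9 := by
    by_contra hcon
    rw [not_lt] at hcon
    have := hout x4 (by rw [abs_of_nonneg (by linarith)]; linarith)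
    linarith
  -- approximation
  set w : ℝ → ℝ → ℝ := fun δ y => |h y| / (|q y| + δ) + δ with hw
  have hwc : ∀ δ, 0 < δ → Continuous (w δ) := by
    intro δ hδ
    simp only [hw]
    refine (Continuous.div (by fun_prop) (by fun_prop) ?_).add continuous_const
    intro y
    have := abs_nonneg (q y)
    positivity
  have hw0 : ∀ δ, 0 < δ → ∀ y, 0 < w δ y := by
    intro δ hδ y
    simp only [hw]
    have := abs_nonneg (q y)
    positivity
  have lim : ∀ x, Tendsto (fun m : ℕ => ∫ y in (-R)..R, bs 9 0 (x - y) *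
      (- w (1 / ((m:ℝ) + 1)) y * (y ^ 3 + A * y ^ 2 + B * y + C))) atTop
      (nhds (∫ y in (-R)..R, bs 9 0 (x - y) * h y)) := by
    intro x
    have hbc := bs_continuous 9 0
    apply intervalIntegral.tendsto_integral_filter_of_dominated_convergence
      (fun y => |bs 9 0 (x - y)| * (|h y| + |q y|))
    · refine Eventually.of_forall fun m => ?_
      have hδ : 0 < 1 / ((m:ℝ) + 1) := by positivity
      have := hwc _ hδ
      exact (by fun_prop : Continuous fun y => bs 9 0 (x - y) *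
        (- w (1 / ((m:ℝ) + 1)) y * (y ^ 3 + A * y ^ 2 + B * y + C))).aestronglyMeasurable
    · refine Eventually.of_forall fun m => ?_
      refine Eventually.of_forall fun y _ => ?_
      have hδ : 0 < 1 / ((m:ℝ) + 1) := by positivity
      have hδ1 : 1 / ((m:ℝ) + 1) ≤ 1 := by
        rw [div_le_one (by positivity)]
        linarith [(Nat.cast_nonneg m : (0:ℝ) ≤ m)]
      rw [norm_mul, Real.norm_eq_abs, Real.norm_eq_abs]
      apply mul_le_mul_of_nonneg_left _ (abs_nonneg _)
      show |-w (1 / ((m:ℝ) + 1)) y * q y| ≤ _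
      rw [abs_mul, abs_neg, abs_of_pos (hw0 _ hδ y)]
      simp only [hw]
      have hq0 := abs_nonneg (q y)
      have hh0 := abs_nonneg (h y)
      rw [add_mul]
      apply add_le_add
      · rw [div_mul_eq_mul_div, div_le_iff₀ (by positivity)]
        apply mul_le_mul_of_nonneg_left _ hh0
        linarith
      · calc 1 / ((m:ℝ) + 1) * |q y| ≤ 1 * |q y| := by gcongr
          _ = |q y| := one_mul _
    · exact (by fun_prop : Continuous fun y => |bs 9 0 (x - y)| * (|h y| + |q y|)).intervalIntegrable _ _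
    · have hfin := cubic_zero_finite A B C
      have hae : ∀ᵐ y : ℝ, y ∉ {y : ℝ | y ^ 3 + A * y ^ 2 + B * y + C = 0} :=
        measure_eq_zero_iff_ae_notMem.1 (hfin.measure_zero _)
      have hae2 : ∀ᵐ y : ℝ, y ≠ R := by
        have : volume ({R} : Set ℝ) = 0 := by simp
        have := measure_eq_zero_iff_ae_notMem.1 this
        simpa using this
      filter_upwards [hae, hae2] with y hy hyR hyI
      rw [uIoc_of_le (by linarith)] at hyI
      have hyIoo : y ∈ Ioo (-R) R := ⟨hyI.1, lt_of_le_of_ne hyI.2 hyR⟩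
      have hqy : q y ≠ 0 := hy
      have hqy' := hq y hyIoo
      have hδ : Tendsto (fun m : ℕ => 1 / ((m:ℝ) + 1)) atTop (nhds 0) :=
        tendsto_one_div_add_atTop_nhds_zero_nat
      have hlim : Tendsto (fun δ : ℝ => bs 9 0 (x - y) * (-(|h y| / (|q y| + δ) + δ) * q y)) (nhds 0)
          (nhds (bs 9 0 (x - y) * (-(|h y| / (|q y| + 0) + 0) * q y))) := by
        apply ContinuousAt.tendsto
        have h1 : |q y| + 0 ≠ 0 := by rw [add_zero]; exact abs_ne_zero.2 hqy
        have h2 : ContinuousAt (fun δ : ℝ => |h y| / (|q y| + δ)) 0 :=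
          ContinuousAt.div continuousAt_const (by fun_prop) h1
        fun_prop
      have := hlim.comp hδ
      have e : -(|h y| / (|q y| + 0) + 0) * q y = h y := by
        rw [add_zero, add_zero]
        rcases lt_or_gt_of_ne hqy with hneg | hpos
        · have h0 : 0 ≤ h y := by
            by_contra hcon
            rw [not_le] at hcon
            have := mul_pos_of_neg_of_neg hcon hneg
            simp only [hqd] at this
            linarith
          rw [abs_of_nonneg h0, abs_of_neg hneg]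
          field_simp
        · have h0 : h y ≤ 0 := by
            by_contra hcon
            rw [not_le] at hcon
            have := mul_pos hcon hpos
            simp only [hqd] at this
            linarith
          rw [abs_of_nonpos h0, abs_of_pos hpos]
          field_simp
      rw [e] at this
      exact this
  have e1 := (lim x1).eventually_lt_const s1
  have e2 := (lim x2).eventually_const_lt s2
  have e3 := (lim x3).eventually_lt_const s3
  have e4 := (lim x4).eventually_const_lt s4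
  obtain ⟨m, t1, t2, t3, t4⟩ := (e1.and (e2.and (e3.and e4))).exists
  have hδ : 0 < 1 / ((m:ℝ) + 1) := by positivity
  exact vd9_strict hD hR (w (1 / ((m:ℝ) + 1))) (hwc _ hδ) (hw0 _ hδ) A B C
    ⟨x1, x2, x3, x4, hx1, hx4, h12, h23, h34, t1, t2, t3, t4⟩

/-- the 9-fold average as a convolution -/
theorem Ex9_eq {h : ℝ → ℝ} (hc : Continuous h) {R : ℝ} (hR : 0 < R)
    (hz : ∀ y, R ≤ |y| → h y = 0) (x : ℝ) :
    Ex (List.replicate 9 1) h x = ∫ y in (-R)..R, bs 9 0 (x - y) * h y := by
  have hbc := bs_continuous 9 0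
  rw [Ex_replicate (by norm_num) hc]
  have e1 : (∫ y in (-((9:ℕ):ℝ))..((9:ℕ):ℝ), h (x + y) * bs 9 0 y)
      = ∫ y in (x - 9)..(x + 9), bs 9 0 (x - y) * h y := by
    have := intervalIntegral.integral_comp_add_left (a := -9) (b := 9)
      (fun y => bs 9 0 (x - y) * h y) x
    rw [← sub_eq_add_neg] at this
    rw [← this]
    push_cast
    apply intervalIntegral.integral_congr
    intro y _
    simp only
    rw [show x - (x + y) = -y by ring, bs_even (by norm_num)]
    ring
  rw [e1]
  set g : ℝ → ℝ := fun y => bs 9 0 (x - y) * h y with hg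
  have hgc : Continuous g := by simp only [hg]; fun_prop
  have hg0 : ∀ y, (9 ≤ |x - y| ∨ R ≤ |y|) → g y = 0 := by
    intro y hy
    simp only [hg]
    rcases hy with hy | hy
    · rw [bs_zero (by norm_num) (by exact_mod_cast hy), zero_mul]
    · rw [hz y hy, mul_zero]
  set L := |x| + 9 + R with hL
  have wide : ∀ a b : ℝ, a ≤ b → -L ≤ a → b ≤ L → (∀ y, y ≤ a → g y = 0) → (∀ y, b ≤ y → g y = 0) →
      ∫ y in a..b, g y = ∫ y in (-L)..L, g y := by
    intro a b hab h1 h2 h3 h4
    have z1 : ∫ y in (-L)..a, g y = 0 := by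
      rw [intervalIntegral.integral_congr (g := fun _ => (0:ℝ))]
      · simp
      · intro y hy
        rw [uIcc_of_le h1] at hy
        exact h3 y hy.2
    have z2 : ∫ y in b..L, g y = 0 := by
      rw [intervalIntegral.integral_congr (g := fun _ => (0:ℝ))]
      · simp
      · intro y hy
        rw [uIcc_of_le h2] at hy
        exact h4 y hy.1
    have s1 := intervalIntegral.integral_add_adjacent_intervals (μ := volume)
      (hgc.intervalIntegrable (-L) a) (hgc.intervalIntegrable a b)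
    have s2 := intervalIntegral.integral_add_adjacent_intervals (μ := volume)
      (hgc.intervalIntegrable (-L) b) (hgc.intervalIntegrable b L)
    rw [← s2, ← s1, z1, z2]
    ring
  have hax := abs_nonneg x
  have hx1 := neg_abs_le x
  have hx2 := le_abs_self x
  rw [wide (x - 9) (x + 9) (by linarith) (by linarith) (by linarith)
    (fun y hy => hg0 y (Or.inl (by rw [abs_of_nonneg (by linarith)]; linarith)))
    (fun y hy => hg0 y (Or.inl (by rw [abs_of_nonpos (by linarith)]; linarith)))]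
  rw [wide (-R) R (by linarith) (by linarith) (by linarith)
    (fun y hy => hg0 y (Or.inr (by rw [abs_of_nonpos (by linarith)]; linarith)))
    (fun y hy => hg0 y (Or.inr (by rw [abs_of_nonneg (by linarith)]; linarith)))]

theorem vd9_Ex (hD : D9) {h : ℝ → ℝ} (hc : Continuous h) {R : ℝ} (hR : 0 < R)
    (hz : ∀ y, R ≤ |y| → h y = 0) (hp : ¬ Pat h) : ¬ Pat (Ex (List.replicate 9 1) h) := by
  have : Ex (List.replicate 9 1) h = fun x => ∫ y in (-R)..R, bs 9 0 (x - y) * h y := by
    funext x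
    exact Ex9_eq hc hR hz x
  rw [this]
  exact vd9 hD hc hR hz hp

end Pool.Agent.Lib.MP391fb1
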