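import Pool.Agent.Lib.MP_391fb1_pr.Cert2
import Pool.Agent.Lib.MP_391fb1_pr.VD2

/-!
# MP_391fb1_pr: monotonicity of `V2 n` for `n ≥ 7`
-/

namespace Pool.Agent.Lib.MP391fb1

open Set

/-- `f² f''' - 3 f f' f'' + 2 f'³` -/
noncomputable def E3 (n : ℕ) (x : ℝ) : ℝ :=
  (bs n 0 x) ^ 2 * bs n 3 x - 3 * bs n 0 x * bs n 1 x * bs n 2 x + 2 * (bs n 1 x) ^ 3

theorem E3_interval {n j r : ℕ} (hn : 5 ≤ n) (hj : j ≤ n) (hr : r ≤ 2) (h : allNN (eL n j r) = true)
    {s : ℝ} (hs : 0 ≤ s) (hs1 : s < 1) : 0 ≤ E3 n (-(n:ℝ) + 2 * j + r * s) := by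
  have hu : 0 < 1 - s := by linarith
  have hy : 0 ≤ s / (1 - s) := div_nonneg hs hu.le
  have h0 := ev_nonneg h hy
  unfold E3
  rw [bs_interval (i := 0) (by omega) hj hr hs hs1, bs_interval (i := 1) (by omega) hj hr hs hs1,
    bs_interval (i := 2) (by omega) hj hr hs hs1, bs_interval (i := 3) (by omega) hj hr hs hs1]
  simp only [eL, ev_addL, ev_smulL, ev_mulL] at h0
  obtain ⟨m, rfl⟩ : ∃ m, n = m + 4 := ⟨n - 4, by omega⟩
  have e0 : m + 4 - 1 - 0 = m + 3 := by omega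
  have e1 : m + 4 - 1 - 1 = m + 2 := by omega
  have e2 : m + 4 - 1 - 2 = m + 1 := by omega
  have e3 : m + 4 - 1 - 3 = m := by omega
  have e4 : m + 4 - 1 = m + 3 := by omega
  rw [e4] at h0
  rw [e0, e1, e2, e3]
  generalize ev (pL (m + 4) 0 j r) (s / (1 - s)) = p0 at h0 ⊢
  generalize ev (pL (m + 4) 1 j r) (s / (1 - s)) = p1 at h0 ⊢
  generalize ev (pL (m + 4) 2 j r) (s / (1 - s)) = p2 at h0 ⊢
  generalize ev (pL (m + 4) 3 j r) (s / (1 - s)) = p3 at h0 ⊢
  generalize (1 - s) = u at hu ⊢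
  push_cast [Nat.factorial_succ] at h0 ⊢
  have hf : (0:ℝ) < (m.factorial : ℝ) := by positivity
  generalize (m.factorial : ℝ) = F at hf ⊢
  have h2 : (0:ℝ) < 2 ^ (m + 4) := by positivity
  generalize (2:ℝ) ^ (m + 4) = K at h2 ⊢
  have hm : (0:ℝ) ≤ m := Nat.cast_nonneg m
  generalize (m : ℝ) = M at hm h0 ⊢
  have hup : 0 < u ^ m := by positivity
  have key : (u ^ (m + 3) * p0 / (K * ((M + 2 + 1) * ((M + 1 + 1) * ((M + 1) * F))))) ^ 2 *
        (u ^ m * p3 / (K * F)) -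
      3 * (u ^ (m + 3) * p0 / (K * ((M + 2 + 1) * ((M + 1 + 1) * ((M + 1) * F))))) *
        (u ^ (m + 2) * p1 / (K * ((M + 1 + 1) * ((M + 1) * F)))) *
        (u ^ (m + 1) * p2 / (K * ((M + 1) * F))) +
      2 * (u ^ (m + 2) * p1 / (K * ((M + 1 + 1) * ((M + 1) * F)))) ^ 3
      = (u ^ m) ^ 3 * u ^ 6 / (K ^ 3 * ((M + 3) ^ 2 * (M + 2) ^ 3 * (M + 1) ^ 3 * F ^ 3)) *
        ((M + 3 - 1) * (M + 3 - 2) * (p0 * p0 * p3) + (-3 * (M + 3) * (M + 3 - 1) * (p0 * p1 * p2)
          + 2 * (M + 3) ^ 2 * (p1 * p1 * p1))) := by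
    rw [pow_add, pow_add, pow_add]
    field_simp
    ring
  rw [key]
  apply mul_nonneg
  · positivity
  · exact h0

theorem E3_nonneg {n : ℕ} (hn : 5 ≤ n) (h : checkE n = true) {x : ℝ} (h1 : -(n:ℝ) < x)
    (h2 : x < 0) : 0 ≤ E3 n x := by
  obtain ⟨j, s, hs, hs1, hx, -⟩ := exists_knot h1
  have hjn : 2 * (j:ℝ) < n := by
    rw [hx] at h2
    push_cast at h2
    linarith
  have hjn' : 2 * j < n := by exact_mod_cast hjn
  unfold checkE at h
  simp only [Bool.and_eq_true, List.all_eq_true, List.mem_range, Bool.or_eq_true, beq_iff_eq] at h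
  rcases Nat.lt_or_ge j (n / 2) with hj | hj
  · rw [hx]
    exact E3_interval hn (by omega) le_rfl (h.1 j hj) hs hs1
  · have hj' : j = n / 2 := by omega
    have hodd : n % 2 = 1 := by omega
    have hc := h.2.resolve_left (by omega)
    have hn2 : n = 2 * j + 1 := by omega
    have hn2' : (n:ℝ) = 2 * j + 1 := by exact_mod_cast hn2
    have hx' : x = -(n:ℝ) + 2 * j + (1:ℕ) * (2 * s) := by rw [hx]; push_cast; ring
    rw [hx']
    rw [← hj'] at hc
    refine E3_interval hn (by omega) (by norm_num) hc (by linarith) ?_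
    rw [hx'] at h2
    push_cast at h2
    linarith

theorem V2_hasDerivAt {n : ℕ} (hn : 5 ≤ n) {x : ℝ} (hx : |x| < n) :
    HasDerivAt (V2 n) (- E3 n x / (bs n 0 x) ^ 3) x := by
  have h0 := bs_hasDerivAt (n := n) (i := 0) (by omega) x
  have h1 := bs_hasDerivAt (n := n) (i := 1) (by omega) x
  have h2 := bs_hasDerivAt (n := n) (i := 2) (by omega) x
  have hp := bs_pos (by omega : 2 ≤ n) hx
  have := ((h1.pow 2).sub (h0.mul h2)).div (h0.pow 2) (pow_ne_zero 2 hp.ne')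
  refine this.congr_deriv ?_
  unfold E3
  simp only [zero_add, Nat.reduceAdd, Pi.pow_apply, Pi.sub_apply, Pi.mul_apply]
  field_simp
  ring

theorem V2_even {n : ℕ} (hn : 4 ≤ n) (x : ℝ) : V2 n (-x) = V2 n x := by
  unfold V2
  rw [bs_even (by omega), bs_one_odd (by omega), bs_two_even hn]
  ring

theorem V2_continuousOn {n : ℕ} (hn : 2 ≤ n) : ContinuousOn (V2 n) (Ioo (-(n:ℝ)) n) := by
  unfold V2
  have h0 := bs_continuous n 0
  have h1 := bs_continuous n 1
  have h2 := bs_continuous n 2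
  apply ContinuousOn.div (by fun_prop) (by fun_prop)
  intro x hx
  have := bs_pos hn (abs_lt.2 hx)
  positivity

theorem V2_monotoneOn_of_check {n : ℕ} (hn : 5 ≤ n) (h : checkE n = true) :
    MonotoneOn (V2 n) (Ico 0 (n:ℝ)) := by
  have hpos : (0:ℝ) < n := by exact_mod_cast (by omega : 0 < n)
  have hanti : AntitoneOn (V2 n) (Ioc (-(n:ℝ)) 0) := by
    apply antitoneOn_of_deriv_nonpos (convex_Ioc _ _)
    · exact (V2_continuousOn (by omega)).mono fun x hx => ⟨hx.1, by linarith [hx.2]⟩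
    · intro x hx
      rw [interior_Ioc] at hx
      exact (V2_hasDerivAt hn (abs_lt.2 ⟨hx.1, by linarith [hx.2]⟩)).differentiableAt.differentiableWithinAt
    · intro x hx
      rw [interior_Ioc] at hx
      have hax := abs_lt.2 ⟨hx.1, by linarith [hx.2]⟩
      rw [(V2_hasDerivAt hn hax).deriv]
      have hp := bs_pos (by omega : 2 ≤ n) hax
      have := E3_nonneg hn h hx.1 hx.2
      apply div_nonpos_of_nonpos_of_nonneg (by linarith) (by positivity)
  intro x hx y hy hxy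
  rw [← V2_even (by omega) x, ← V2_even (by omega) y]
  exact hanti ⟨by linarith [hy.2], by linarith [hy.1]⟩ ⟨by linarith [hx.2], by linarith [hx.1]⟩
    (by linarith)

/-! ### pattern property -/

noncomputable def Fb (n : ℕ) (c b x : ℝ) : ℝ := bs n 1 x + (c * x + b) * bs n 0 x

def NP (n : ℕ) : Prop := ∀ c : ℝ, 0 < c → ∀ b : ℝ, ¬ Pat (Fb n c b)

theorem Fb_continuous (n : ℕ) (c b : ℝ) : Continuous (Fb n c b) := by
  have h0 := bs_continuous n 0
  have h1 := bs_continuous n 1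
  unfold Fb
  fun_prop

theorem Fb_zero {n : ℕ} (hn : 3 ≤ n) (c b : ℝ) {x : ℝ} (hx : (n:ℝ) ≤ |x|) : Fb n c b x = 0 := by
  unfold Fb
  rw [bs_zero (by omega) hx, bs_zero' (by omega) hx]
  simp

theorem T_Fb {n : ℕ} (hn : 3 ≤ n) (c b : ℝ) :
    T 1 (Fb n c b) = Fb (n + 1) (c * (n / (n + 1))) b := by
  have h0 := bs_continuous n 0
  have h1 := bs_continuous n 1
  have e : Fb n c b = fun x => (bs n 1 x + c * (x * bs n 0 x)) + b * bs n 0 x := by
    funext x; unfold Fb; ring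
  rw [e, T_add 1 (by fun_prop) (by fun_prop), T_add 1 (by fun_prop) (by fun_prop),
    T_smul, T_smul, T_id_bs (by omega), T_bs (by omega : 1 + 2 ≤ n), T_bs (by omega : 0 + 2 ≤ n)]
  funext x
  simp only [Fb]
  ring

theorem Ex_Fb {n : ℕ} (hn : 3 ≤ n) (c b : ℝ) (k : ℕ) :
    Ex (List.replicate k 1) (Fb n c b) = Fb (n + k) (c * (n / (n + k))) b := by
  have hn0 : (0:ℝ) < n := by exact_mod_cast (by omega : 0 < n)
  induction k with
  | zero => simp [hn0.ne']
  | succ k ih =>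
    rw [List.replicate_succ, Ex_cons, ih, T_Fb (by omega)]
    have : c * (n / (n + k)) * (((n + k : ℕ) : ℝ) / ((n + k : ℕ) + 1)) = c * (n / (n + (k + 1 : ℕ))) := by
      push_cast
      have : (n:ℝ) + k ≠ 0 := by positivity
      have : (n:ℝ) + k + 1 ≠ 0 := by positivity
      have : (n:ℝ) + (k + 1) ≠ 0 := by positivity
      field_simp
      ring
    rw [this]
    rfl

theorem NP_add9 {n : ℕ} (hn : 3 ≤ n) (h : NP n) : NP (n + 9) := by
  intro c hc b
  have hn0 : (0:ℝ) < n := by exact_mod_cast (by omega : 0 < n)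
  have hc' : 0 < c * ((n + 9) / n) := by positivity
  have := vd9_Ex D9_holds (Fb_continuous n (c * ((n + 9) / n)) b) hn0
    (fun y hy => Fb_zero hn _ b hy) (h _ hc' b)
  rw [Ex_Fb hn] at this
  have e : c * ((n + 9) / n) * (n / (n + (9:ℕ))) = c := by
    push_cast
    field_simp
  rw [e] at this
  exact this

end Pool.Agent.Lib.MP391fb1
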