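import Pool.Agent.Lib.MP_391fb1_pr.Frame

/-!
# MP_391fb1_pr: basic facts on the B-spline densities `bs`
-/

namespace Pool.Agent.Lib.MP391fb1

open MeasureTheory Set intervalIntegral

theorem hasDerivAt_maxpow (m : ℕ) (x : ℝ) :
    HasDerivAt (fun x : ℝ => (max x 0) ^ (m + 2)) ((m + 2 : ℕ) * (max x 0) ^ (m + 1)) x := by
  have hne : ∀ y : ℝ, y ≠ 0 →
      HasDerivAt (fun x : ℝ => (max x 0) ^ (m + 2)) ((m + 2 : ℕ) * (max y 0) ^ (m + 1)) y := by
    intro y hy
    rcases lt_or_gt_of_ne hy with h | h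
    · have e : (fun x : ℝ => (max x 0) ^ (m + 2)) =ᶠ[nhds y] fun _ => 0 := by
        filter_upwards [Iio_mem_nhds h] with z hz
        rw [max_eq_right (le_of_lt hz)]
        simp
      rw [max_eq_right h.le]
      simpa using (hasDerivAt_const y (0:ℝ)).congr_of_eventuallyEq e
    · have e : (fun x : ℝ => (max x 0) ^ (m + 2)) =ᶠ[nhds y] fun x => x ^ (m + 2) := by
        filter_upwards [Ioi_mem_nhds h] with z hz
        rw [max_eq_left (le_of_lt hz)]
      rw [max_eq_left h.le]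
      exact (hasDerivAt_pow (m + 2) y).congr_of_eventuallyEq e
  rcases eq_or_ne x 0 with rfl | hx
  · exact hasDerivAt_of_hasDerivAt_of_ne
      (g := fun y => ((m + 2 : ℕ) : ℝ) * (max y 0) ^ (m + 1)) hne
      (by fun_prop) (by fun_prop)
  · exact hne x hx

theorem bs_continuous (n i : ℕ) : Continuous (bs n i) := by
  unfold bs
  fun_prop

theorem bs_hasDerivAt {n i : ℕ} (h : i + 3 ≤ n) (x : ℝ) :
    HasDerivAt (bs n i) (bs n (i + 1) x) x := by
  obtain ⟨m, hm⟩ : ∃ m, n = m + i + 3 := ⟨n - i - 3, by omega⟩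
  have e1 : n - 1 - i = m + 2 := by omega
  have e2 : n - 1 - (i + 1) = m + 1 := by omega
  unfold bs
  rw [e1, e2]
  have key : ∀ k : ℕ, HasDerivAt (fun x : ℝ => (-1 : ℝ) ^ k * (n.choose k : ℝ) *
      (max (x + n - 2 * k) 0) ^ (m + 2))
      ((-1 : ℝ) ^ k * (n.choose k : ℝ) * (((m + 2 : ℕ) : ℝ) * (max (x + n - 2 * k) 0) ^ (m + 1))) x := by
    intro k
    have h1 : HasDerivAt (fun x : ℝ => x + n - 2 * k) 1 x := by
      simpa using ((hasDerivAt_id x).add_const (n:ℝ)).sub_const (2 * (k:ℝ))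
    have := (hasDerivAt_maxpow m (x + n - 2 * k)).comp x h1
    simp only [mul_one] at this
    exact this.const_mul _
  have hs := HasDerivAt.fun_sum (u := Finset.range (n + 1)) (fun k _ => key k)
  have := hs.const_mul (1 / (2 ^ n * (((m + 2).factorial : ℕ) : ℝ)))
  refine this.congr_deriv ?_
  rw [Finset.mul_sum, Finset.mul_sum]
  apply Finset.sum_congr rfl
  intro k _
  rw [Nat.factorial_succ (m + 1)]
  push_cast
  have : ((m : ℝ) + 1 + 1) ≠ 0 := by positivity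
  have h2 : (((m + 1).factorial : ℕ) : ℝ) ≠ 0 := by positivity
  field_simp
  ring

/-- Pascal: a symmetric difference raises the order. -/
theorem pascal_sum (n m : ℕ) (x : ℝ) :
    (∑ k ∈ Finset.range (n + 1),
        (-1 : ℝ) ^ k * (n.choose k : ℝ) * (max (x + 1 + n - 2 * k) 0) ^ m)
      - ∑ k ∈ Finset.range (n + 1),
        (-1 : ℝ) ^ k * (n.choose k : ℝ) * (max (x - 1 + n - 2 * k) 0) ^ m
      = ∑ k ∈ Finset.range (n + 2),
        (-1 : ℝ) ^ k * ((n + 1).choose k : ℝ) * (max (x + ((n + 1 : ℕ) : ℝ) - 2 * k) 0) ^ m := by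
  rw [Finset.sum_range_succ' _ (n + 1)]
  rw [Finset.sum_range_succ' _ n]
  have e : ∀ k : ℕ, (-1 : ℝ) ^ (k + 1) * ((n + 1).choose (k + 1) : ℝ) *
      (max (x + ((n + 1 : ℕ) : ℝ) - 2 * ((k + 1 : ℕ) : ℝ)) 0) ^ m
      = (-1 : ℝ) ^ (k + 1) * (n.choose (k + 1) : ℝ) *
        (max (x + 1 + n - 2 * ((k + 1 : ℕ) : ℝ)) 0) ^ m
        - (-1 : ℝ) ^ k * (n.choose k : ℝ) * (max (x - 1 + n - 2 * k) 0) ^ m := by
    intro k
    rw [Nat.choose_succ_succ]
    have e1 : x + ((n + 1 : ℕ) : ℝ) - 2 * ((k + 1 : ℕ) : ℝ) = x - 1 + n - 2 * k := by push_cast; ring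
    have e2 : x + 1 + n - 2 * ((k + 1 : ℕ) : ℝ) = x - 1 + n - 2 * k := by push_cast; ring
    rw [e1, e2, pow_succ]
    push_cast
    ring
  have hA : ∑ k ∈ Finset.range (n + 1), (-1 : ℝ) ^ (k + 1) * (n.choose (k + 1) : ℝ) *
        (max (x + 1 + n - 2 * ((k + 1 : ℕ) : ℝ)) 0) ^ m
      = ∑ k ∈ Finset.range n, (-1 : ℝ) ^ (k + 1) * (n.choose (k + 1) : ℝ) *
        (max (x + 1 + n - 2 * ((k + 1 : ℕ) : ℝ)) 0) ^ m := by
    rw [Finset.sum_range_succ]
    simp
  rw [Finset.sum_congr rfl fun k _ => e k, Finset.sum_sub_distrib, hA]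
  simp only [Nat.cast_zero, mul_zero, pow_zero,
    Nat.choose_zero_right, Nat.cast_one, mul_one, one_mul, sub_zero]
  have e3 : x + ((n + 1 : ℕ) : ℝ) = x + 1 + n := by push_cast; ring
  rw [e3]
  ring

theorem bs_succ_eq {n i : ℕ} (h : i + 1 ≤ n) (x : ℝ) :
    bs (n + 1) (i + 1) x = (bs n i (x + 1) - bs n i (x - 1)) / 2 := by
  unfold bs
  have e1 : n + 1 - 1 - (i + 1) = n - 1 - i := by omega
  rw [e1, ← pascal_sum]
  rw [pow_succ]
  have h2 : (((n - 1 - i).factorial : ℕ) : ℝ) ≠ 0 := by positivity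
  field_simp

theorem T_bs {n i : ℕ} (h : i + 2 ≤ n) : T 1 (bs n i) = bs (n + 1) i := by
  funext x
  have h1 : ∀ x, HasDerivAt (bs (n + 1) i) (bs (n + 1) (i + 1) x) x := fun x =>
    bs_hasDerivAt (by omega) x
  -- a primitive of bs n i
  have hF : ∀ x : ℝ, HasDerivAt (fun x : ℝ => (1 / (2 ^ n * (((n - i).factorial : ℕ) : ℝ))) *
    ∑ k ∈ Finset.range (n + 1),
      (-1 : ℝ) ^ k * (n.choose k : ℝ) * (max (x + n - 2 * k) 0) ^ (n - i)) (bs n i x) x := by
    intro x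
    obtain ⟨m, hm⟩ : ∃ m, n = m + i + 2 := ⟨n - i - 2, by omega⟩
    have e1 : n - 1 - i = m + 1 := by omega
    have e2 : n - i = m + 2 := by omega
    unfold bs
    rw [e1, e2]
    have key : ∀ k : ℕ, HasDerivAt (fun x : ℝ => (-1 : ℝ) ^ k * (n.choose k : ℝ) *
        (max (x + n - 2 * k) 0) ^ (m + 2))
        ((-1 : ℝ) ^ k * (n.choose k : ℝ) *
          (((m + 2 : ℕ) : ℝ) * (max (x + n - 2 * k) 0) ^ (m + 1))) x := by
      intro k
      have h1 : HasDerivAt (fun x : ℝ => x + n - 2 * k) 1 x := by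
        simpa using ((hasDerivAt_id x).add_const (n:ℝ)).sub_const (2 * (k:ℝ))
      have := (hasDerivAt_maxpow m (x + n - 2 * k)).comp x h1
      simp only [mul_one] at this
      exact this.const_mul _
    have hs := HasDerivAt.fun_sum (u := Finset.range (n + 1)) (fun k _ => key k)
    have := hs.const_mul (1 / (2 ^ n * (((m + 2).factorial : ℕ) : ℝ)))
    refine this.congr_deriv ?_
    rw [Finset.mul_sum, Finset.mul_sum]
    apply Finset.sum_congr rfl
    intro k _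
    rw [Nat.factorial_succ (m + 1)]
    push_cast
    have : ((m : ℝ) + 1 + 1) ≠ 0 := by positivity
    have h2 : (((m + 1).factorial : ℕ) : ℝ) ≠ 0 := by positivity
    field_simp
    ring
  rw [T_eq_antideriv one_ne_zero (bs_continuous n i) hF]
  rw [← mul_sub, pascal_sum]
  unfold bs
  have e1 : n + 1 - 1 - i = n - i := by omega
  rw [e1, pow_succ]
  have h2 : (((n - i).factorial : ℕ) : ℝ) ≠ 0 := by positivity
  field_simp

theorem max_eq_half (y : ℝ) : max y 0 = (y + |y|) / 2 := by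
  rcases max_cases y 0 with ⟨h1, h1'⟩ | ⟨h1, h1'⟩
  · rw [h1, abs_of_nonneg h1']; ring
  · rw [h1, abs_of_neg h1']; ring

theorem bs_two (x : ℝ) : bs 2 0 x = max (2 - |x|) 0 / 4 := by
  unfold bs
  simp only [Finset.sum_range_succ, Finset.sum_range_zero]
  norm_num [Nat.choose]
  simp only [max_eq_half]
  rcases le_total 0 x with h | h
  · rw [abs_of_nonneg h, abs_of_nonneg (by linarith : (0:ℝ) ≤ x + 2)]
    rcases le_total x 2 with h2 | h2
    · rw [abs_of_nonneg (by linarith : 0 ≤ 2 - x), abs_of_nonpos (by linarith : x + 2 - 4 ≤ 0)]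
      ring
    · rw [abs_of_nonpos (by linarith : 2 - x ≤ 0), abs_of_nonneg (by linarith : 0 ≤ x + 2 - 4)]
      ring
  · rw [abs_of_nonpos h, abs_of_nonpos (by linarith : x + 2 - 4 ≤ 0)]
    rcases le_total (-2) x with h2 | h2
    · rw [abs_of_nonneg (by linarith : 0 ≤ x + 2), abs_of_nonneg (by linarith : 0 ≤ 2 - -x)]
      ring
    · rw [abs_of_nonpos (by linarith : x + 2 ≤ 0), abs_of_nonpos (by linarith : 2 - -x ≤ 0)]
      ring

end Pool.Agent.Lib.MP391fb1
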