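import Pool.Agent.Lib.MP_391fb1_pr.Bs

/-!
# MP_391fb1_pr: more facts on the B-spline densities `bs`
-/

namespace Pool.Agent.Lib.MP391fb1

open MeasureTheory Set intervalIntegral

theorem bs_even {n : ℕ} (hn : 2 ≤ n) (x : ℝ) : bs n 0 (-x) = bs n 0 x := by
  induction n, hn using Nat.le_induction generalizing x with
  | base => rw [bs_two, bs_two, abs_neg]
  | succ n hn ih =>
    rw [← T_bs (by omega : 0 + 2 ≤ n)]
    exact T_even 1 ih x

theorem bs_zero {n : ℕ} (hn : 2 ≤ n) {x : ℝ} (hx : (n:ℝ) ≤ |x|) : bs n 0 x = 0 := by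
  induction n, hn using Nat.le_induction generalizing x with
  | base =>
    rw [bs_two, max_eq_right (by push_cast at hx; linarith)]
    simp
  | succ n hn ih =>
    rw [← T_bs (by omega : 0 + 2 ≤ n)]
    have : T 1 (bs n 0) x = T 1 (fun _ => (0:ℝ)) x := by
      apply T_congr zero_le_one
      intro y hy
      apply ih
      have h1 : |x| ≤ |y - x| + |y| := by
        rw [abs_sub_comm]
        calc |x| = |(x - y) + y| := by ring_nf
          _ ≤ |x - y| + |y| := abs_add_le _ _
      push_cast at hx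
      linarith
    rw [this, T_const]

theorem bs_zero' {n i : ℕ} (hn : i + 2 ≤ n) {x : ℝ} (hx : (n:ℝ) ≤ |x|) : bs n i x = 0 := by
  induction i generalizing n x with
  | zero => exact bs_zero (by omega) hx
  | succ i ih =>
    obtain ⟨m, rfl⟩ : ∃ m, n = m + 1 := ⟨n - 1, by omega⟩
    rw [bs_succ_eq (by omega)]
    push_cast at hx
    rw [ih (by omega), ih (by omega)]
    · simp
    · have h1 : |x| ≤ |x - 1| + 1 := by
        calc |x| = |(x - 1) + 1| := by ring_nf
          _ ≤ |x - 1| + |1| := abs_add_le _ _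
          _ = _ := by simp
      linarith
    · have h1 : |x| ≤ |x + 1| + 1 := by
        calc |x| = |(x + 1) + (-1)| := by ring_nf
          _ ≤ |x + 1| + |-1| := abs_add_le _ _
          _ = _ := by simp
      linarith

theorem bs_nonneg {n : ℕ} (hn : 2 ≤ n) (x : ℝ) : 0 ≤ bs n 0 x := by
  induction n, hn using Nat.le_induction generalizing x with
  | base => rw [bs_two]; positivity
  | succ n hn ih =>
    rw [← T_bs (by omega : 0 + 2 ≤ n)]
    have := T_mono zero_le_one continuous_const (bs_continuous n 0) (x := x) (φ := fun _ => 0)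
      (fun y _ => ih y)
    rwa [T_const] at this

theorem bs_pos {n : ℕ} (hn : 2 ≤ n) {x : ℝ} (hx : |x| < n) : 0 < bs n 0 x := by
  induction n, hn using Nat.le_induction generalizing x with
  | base =>
    rw [bs_two]
    push_cast at hx
    have : 0 < 2 - |x| := by linarith
    have := lt_max_of_lt_left (c := 0) this
    positivity
  | succ n hn ih =>
    rw [← T_bs (by omega : 0 + 2 ≤ n)]
    unfold T
    push_cast at hx
    have hx' := abs_lt.1 hx
    apply mul_pos (by norm_num)
    have hc : Continuous fun u : ℝ => bs n 0 (x + 1 * u) :=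
      (bs_continuous n 0).comp (by fun_prop)
    apply intervalIntegral.integral_pos (by norm_num) hc.continuousOn
    · intro u _; exact bs_nonneg hn _
    · have hn' : (2:ℝ) ≤ n := by exact_mod_cast hn
      rcases le_total 0 x with h | h
      · refine ⟨-1, by simp, ih ?_⟩
        rw [abs_lt]; constructor <;> linarith
      · refine ⟨1, by simp, ih ?_⟩
        rw [abs_lt]; constructor <;> linarith

theorem bs_antitoneOn {n : ℕ} (hn : 2 ≤ n) : AntitoneOn (bs n 0) (Ici 0) := by
  have key : ∀ X : ℝ, MonotoneOn (fun x => -bs n 0 x) (Icc 0 X) := by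
    induction n, hn using Nat.le_induction with
    | base =>
      intro X x hx y hy hxy
      simp only [bs_two]
      rw [abs_of_nonneg hx.1, abs_of_nonneg hy.1]
      have : max (2 - y) 0 ≤ max (2 - x) 0 := max_le_max (by linarith) le_rfl
      linarith
    | succ n hn ih =>
      intro X
      have h := T_monotoneOn zero_le_one (g := fun x => -bs n 0 x) (bs_continuous n 0).neg
        (fun x => by simp only [bs_even hn]) (X := X) (ih _)
      have e : T 1 (fun x => -bs n 0 x) = fun x => -bs (n+1) 0 x := by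
        have := T_smul 1 (-1) (bs n 0)
        rw [T_bs (by omega : 0 + 2 ≤ n)] at this
        simpa using this
      rw [e] at h
      exact h
  intro x hx y hy hxy
  have := key y ⟨hx, hxy⟩ ⟨hy, le_rfl⟩ hxy
  simp only at this
  linarith

theorem bs_one_odd {n : ℕ} (hn : 3 ≤ n) (x : ℝ) : bs n 1 (-x) = - bs n 1 x := by
  have h1 := bs_hasDerivAt (n := n) (i := 0) (by omega) (-x)
  have h2 := (bs_hasDerivAt (n := n) (i := 0) (by omega) x)
  have h3 : HasDerivAt (fun y => bs n 0 (-y)) (bs n 1 (-x) * (-1)) x :=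
    HasDerivAt.comp (h₂ := bs n 0) (h := fun y => -y) x h1 (hasDerivAt_neg x)
  have h4 : (fun y => bs n 0 (-y)) = bs n 0 := by
    funext y; exact bs_even (by omega) y
  rw [h4] at h3
  have := h3.unique h2
  simp only [zero_add] at this
  linarith

theorem bs_two_even {n : ℕ} (hn : 4 ≤ n) (x : ℝ) : bs n 2 (-x) = bs n 2 x := by
  have h1 := bs_hasDerivAt (n := n) (i := 1) (by omega) (-x)
  have h2 := (bs_hasDerivAt (n := n) (i := 1) (by omega) x)
  have h3 : HasDerivAt (fun y => bs n 1 (-y)) (bs n 2 (-x) * (-1)) x :=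
    HasDerivAt.comp (h₂ := bs n 1) (h := fun y => -y) x h1 (hasDerivAt_neg x)
  have h4 : (fun y => bs n 1 (-y)) = fun y => -bs n 1 y := by
    funext y; exact bs_one_odd (by omega) y
  rw [h4] at h3
  have := h3.unique h2.neg
  simp only [Nat.reduceAdd] at this
  linarith

/-! ### the relation `E[U; S = x]` -/

/-- `Tu φ x = E[U φ(x+U)]` -/
noncomputable def Tu (φ : ℝ → ℝ) (x : ℝ) : ℝ := (1/2) * ∫ u in (-1:ℝ)..1, u * φ (x + u)

theorem T_mul_id {φ : ℝ → ℝ} (h : Continuous φ) (x : ℝ) :
    T 1 (fun y => y * φ y) x = x * T 1 φ x + Tu φ x := by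
  unfold T Tu
  have h1 : Continuous fun u : ℝ => x * φ (x + 1 * u) := by fun_prop
  have h2 : Continuous fun u : ℝ => u * φ (x + u) := by fun_prop
  have e0 : x * (1 / 2 * ∫ u in (-1:ℝ)..1, φ (x + 1 * u)) = 1 / 2 * ∫ u in (-1:ℝ)..1, x * φ (x + 1 * u) := by
    rw [intervalIntegral.integral_const_mul]; ring
  rw [e0, ← mul_add,
    ← intervalIntegral.integral_add (h1.intervalIntegrable _ _) (h2.intervalIntegrable _ _)]
  congr 1
  apply intervalIntegral.integral_congr
  intro u _
  simp only [one_mul]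
  ring

theorem Tu_T {φ : ℝ → ℝ} (h : Continuous φ) (x : ℝ) : Tu (T 1 φ) x = T 1 (Tu φ) x := by
  unfold T Tu
  simp_rw [mul_left_comm _ (1/2 : ℝ)]
  rw [intervalIntegral.integral_const_mul, intervalIntegral.integral_const_mul]
  congr 2
  simp_rw [← intervalIntegral.integral_const_mul]
  simp_rw [intervalIntegral.integral_of_le (by norm_num : (-1:ℝ) ≤ 1)]
  rw [MeasureTheory.integral_integral_swap]
  · congr 1
    funext u
    congr 1
    funext v
    congr 2
    ring
  · have hc : Continuous (Function.uncurry fun u v : ℝ => u * φ (x + u + 1 * v)) := by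
      unfold Function.uncurry
      fun_prop
    rw [Measure.prod_restrict]
    exact (hc.continuousOn.integrableOn_compact (isCompact_Icc.prod isCompact_Icc)).mono_set
      (Set.prod_mono Ioc_subset_Icc_self Ioc_subset_Icc_self)

theorem Tu_bs_two (x : ℝ) : Tu (bs 2 0) x = - x * bs 3 0 x / 3 := by
  have hF1 : ∀ x : ℝ, HasDerivAt (fun x : ℝ => (1 / 8 : ℝ) * ((max (x + 2) 0) ^ 2
      - 2 * (max x 0) ^ 2 + (max (x - 2) 0) ^ 2)) (bs 2 0 x) x := by
    intro x
    have a1 := (hasDerivAt_maxpow 0 (x + 2)).comp_add_const x 2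
    have a2 := (hasDerivAt_maxpow 0 x)
    have a3 := (hasDerivAt_maxpow 0 (x - 2)).comp_sub_const x 2
    have := ((a1.sub (a2.const_mul 2)).add a3).const_mul (1/8 : ℝ)
    simp only [zero_add] at this
    refine this.congr_deriv ?_
    unfold bs
    simp only [Finset.sum_range_succ, Finset.sum_range_zero]
    norm_num [Nat.choose]
    have e2 : x + 2 - 4 = x - 2 := by ring
    rw [e2]
    ring
  have hF2 : ∀ x : ℝ, HasDerivAt (fun x : ℝ => (1 / 24 : ℝ) * ((max (x + 2) 0) ^ 3
      - 2 * (max x 0) ^ 3 + (max (x - 2) 0) ^ 3)) ((1 / 8 : ℝ) * ((max (x + 2) 0) ^ 2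
      - 2 * (max x 0) ^ 2 + (max (x - 2) 0) ^ 2)) x := by
    intro x
    have a1 := (hasDerivAt_maxpow 1 (x + 2)).comp_add_const x 2
    have a2 := (hasDerivAt_maxpow 1 x)
    have a3 := (hasDerivAt_maxpow 1 (x - 2)).comp_sub_const x 2
    have := ((a1.sub (a2.const_mul 2)).add a3).const_mul (1/24 : ℝ)
    simp only [Nat.reduceAdd] at this
    refine this.congr_deriv ?_
    push_cast
    ring
  set F1 : ℝ → ℝ := fun x : ℝ => (1 / 8 : ℝ) * ((max (x + 2) 0) ^ 2
      - 2 * (max x 0) ^ 2 + (max (x - 2) 0) ^ 2) with hF1d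
  set F2 : ℝ → ℝ := fun x : ℝ => (1 / 24 : ℝ) * ((max (x + 2) 0) ^ 3
      - 2 * (max x 0) ^ 3 + (max (x - 2) 0) ^ 3) with hF2d
  have hG : ∀ u : ℝ, HasDerivAt (fun u => u * F1 (x + u) - F2 (x + u)) (u * bs 2 0 (x + u)) u := by
    intro u
    have b1 : HasDerivAt (fun u => F1 (x + u)) (bs 2 0 (x + u)) u := by
      simpa using (hF1 (x + u)).comp_const_add x u
    have b2 : HasDerivAt (fun u => F2 (x + u)) (F1 (x + u)) u :=
      (hF2 (x + u)).comp_const_add x u
    have := ((hasDerivAt_id u).mul b1).sub b2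
    refine this.congr_deriv ?_
    simp
  unfold Tu
  rw [intervalIntegral.integral_eq_sub_of_hasDerivAt (fun u _ => hG u)
    (Continuous.intervalIntegrable (by
      have := bs_continuous 2 0
      fun_prop) _ _)]
  simp only [hF1d, hF2d]
  unfold bs
  simp only [Finset.sum_range_succ, Finset.sum_range_zero]
  norm_num [Nat.choose]
  have c : ∀ y : ℝ, (max y 0) ^ 3 = y * (max y 0) ^ 2 := by
    intro y
    rcases max_cases y 0 with ⟨h1, h1'⟩ | ⟨h1, h1'⟩ <;> rw [h1] <;> ring
  rw [c, c, c, c, c, c]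
  have e1 : x + 1 + 2 = x + 3 := by ring
  have e2 : x + 1 - 2 = x - 1 := by ring
  have e3 : x - 1 + 2 = x + 1 := by ring
  have e4 : x - 1 - 2 = x - 3 := by ring
  have e5 : x + -1 = x - 1 := by ring
  have e6 : x + 3 - 2 = x + 1 := by ring
  have e7 : x + 3 - 4 = x - 1 := by ring
  have e8 : x + 3 - 6 = x - 3 := by ring
  simp only [e1, e2, e3, e4, e5, e6, e7, e8]
  ring

theorem Tu_bs {n : ℕ} (hn : 2 ≤ n) (x : ℝ) : Tu (bs n 0) x = - x * bs (n + 1) 0 x / (n + 1) := by
  induction n, hn using Nat.le_induction generalizing x with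
  | base => rw [Tu_bs_two]; norm_num
  | succ n hn ih =>
    have h1 : T 1 (bs n 0) = bs (n + 1) 0 := T_bs (by omega : 0 + 2 ≤ n)
    have h2 : T 1 (bs (n + 1) 0) = bs (n + 2) 0 := T_bs (by omega : 0 + 2 ≤ n + 1)
    have h3 : Tu (bs (n + 1) 0) x = T 1 (Tu (bs n 0)) x := by
      rw [← h1]; exact Tu_T (bs_continuous n 0) x
    have h4 : Tu (bs n 0) = fun y => (-1 / ((n:ℝ) + 1)) * (y * bs (n + 1) 0 y) := by
      funext y; rw [ih]; ring
    rw [h4, T_smul] at h3
    simp only at h3
    rw [T_mul_id (bs_continuous _ _), h2] at h3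
    have hpos : (0:ℝ) < (n:ℝ) + 1 := by positivity
    have hpos2 : ((n:ℝ) + 1 + 1) ≠ 0 := by positivity
    push_cast
    field_simp at h3 ⊢
    linarith

theorem T_id_bs {n : ℕ} (hn : 2 ≤ n) :
    T 1 (fun y => y * bs n 0 y) = fun x => (n / (n + 1) : ℝ) * (x * bs (n + 1) 0 x) := by
  funext x
  rw [T_mul_id (bs_continuous n 0), Tu_bs hn, T_bs (by omega : 0 + 2 ≤ n)]
  have hpos : ((n:ℝ) + 1) ≠ 0 := by positivity
  field_simp
  ring

/-! ### the law of `U_1 + … + U_n` -/

theorem Ex_replicate_two {φ : ℝ → ℝ} (hφ : Continuous φ) (x : ℝ) :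
    Ex (List.replicate 2 1) φ x = ∫ y in (-2:ℝ)..2, φ (x + y) * bs 2 0 y := by
  set F1 : ℝ → ℝ := fun x => ∫ y in (0:ℝ)..x, φ y with hF1d
  have h1 : ∀ x, HasDerivAt F1 (φ x) x := fun x => hasDerivAt_primitive hφ 0 x
  have hF1 : Continuous F1 := continuous_iff_continuousAt.2 fun y => (h1 y).continuousAt
  set F2 : ℝ → ℝ := fun x => ∫ y in (0:ℝ)..x, F1 y with hF2d
  have h2 : ∀ x, HasDerivAt F2 (F1 x) x := fun x => hasDerivAt_primitive hF1 0 x
  have hF2 : Continuous F2 := continuous_iff_continuousAt.2 fun y => (h2 y).continuousAt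
  have lhs : Ex (List.replicate 2 1) φ x = (F2 (x + 2) - 2 * F2 x + F2 (x - 2)) / 4 := by
    show T 1 (T 1 φ) x = _
    have e : T 1 φ = fun x => (F1 (x + 1) - F1 (x - 1)) / (2 * 1) := by
      funext x; exact T_eq_antideriv one_ne_zero hφ h1 x
    rw [e]
    have hG : ∀ x, HasDerivAt (fun x => (F2 (x + 1) - F2 (x - 1)) / (2 * 1))
        ((F1 (x + 1) - F1 (x - 1)) / (2 * 1)) x := by
      intro x
      refine HasDerivAt.div_const (HasDerivAt.sub ?_ ?_) _
      · simpa using (h2 (x + 1)).comp_add_const x 1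
      · simpa using (h2 (x - 1)).comp_sub_const x 1
    rw [T_eq_antideriv one_ne_zero (by fun_prop) hG]
    have e1 : x + 1 + 1 = x + 2 := by ring
    have e2 : x + 1 - 1 = x := by ring
    have e3 : x - 1 + 1 = x := by ring
    have e4 : x - 1 - 1 = x - 2 := by ring
    rw [e1, e2, e3, e4]
    ring
  rw [lhs]
  have hc : Continuous fun y => φ (x + y) * bs 2 0 y := by
    have := bs_continuous 2 0
    fun_prop
  rw [← intervalIntegral.integral_add_adjacent_intervals (b := 0)
    (hc.intervalIntegrable _ _) (hc.intervalIntegrable _ _)]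
  have hl : ∫ y in (-2:ℝ)..0, φ (x + y) * bs 2 0 y
      = ((2 * F1 x - F2 x) - (- F2 (x - 2))) / 4 := by
    have e : ∫ y in (-2:ℝ)..0, φ (x + y) * bs 2 0 y
        = ∫ y in (-2:ℝ)..0, (φ (x + y) * (2 + y)) / 4 := by
      apply intervalIntegral.integral_congr
      intro y hy
      rw [uIcc_of_le (by norm_num)] at hy
      simp only [bs_two]
      rw [abs_of_nonpos hy.2, max_eq_left (by linarith [hy.1])]
      ring
    rw [e]
    have hG : ∀ y : ℝ, HasDerivAt (fun y => ((2 + y) * F1 (x + y) - F2 (x + y)) / 4)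
        (φ (x + y) * (2 + y) / 4) y := by
      intro y
      have b1 : HasDerivAt (fun u => F1 (x + u)) (φ (x + y)) y := by
        simpa using (h1 (x + y)).comp_const_add x y
      have b2 : HasDerivAt (fun u => F2 (x + u)) (F1 (x + y)) y := by
        simpa using (h2 (x + y)).comp_const_add x y
      have := ((((hasDerivAt_id y).const_add 2).mul b1).sub b2).div_const 4
      refine this.congr_deriv ?_
      simp
      ring
    rw [intervalIntegral.integral_eq_sub_of_hasDerivAt (fun u _ => hG u)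
      (Continuous.intervalIntegrable (by fun_prop) _ _)]
    simp only [add_zero, zero_mul, add_neg_cancel]
    rw [← sub_eq_add_neg]
    ring
  have hr : ∫ y in (0:ℝ)..2, φ (x + y) * bs 2 0 y
      = (F2 (x + 2) - (2 * F1 x + F2 x)) / 4 := by
    have e : ∫ y in (0:ℝ)..2, φ (x + y) * bs 2 0 y
        = ∫ y in (0:ℝ)..2, (φ (x + y) * (2 - y)) / 4 := by
      apply intervalIntegral.integral_congr
      intro y hy
      rw [uIcc_of_le (by norm_num)] at hy
      simp only [bs_two]
      rw [abs_of_nonneg hy.1, max_eq_left (by linarith [hy.2])]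
      ring
    rw [e]
    have hG : ∀ y : ℝ, HasDerivAt (fun y => ((2 - y) * F1 (x + y) + F2 (x + y)) / 4)
        (φ (x + y) * (2 - y) / 4) y := by
      intro y
      have b1 : HasDerivAt (fun u => F1 (x + u)) (φ (x + y)) y := by
        simpa using (h1 (x + y)).comp_const_add x y
      have b2 : HasDerivAt (fun u => F2 (x + u)) (F1 (x + y)) y := by
        simpa using (h2 (x + y)).comp_const_add x y
      have := ((((hasDerivAt_id y).const_sub 2).mul b1).add b2).div_const 4
      refine this.congr_deriv ?_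
      simp
      ring
    rw [intervalIntegral.integral_eq_sub_of_hasDerivAt (fun u _ => hG u)
      (Continuous.intervalIntegrable (by fun_prop) _ _)]
    simp only [add_zero]
    ring
  rw [hl, hr]
  ring

theorem Ex_replicate {n : ℕ} (hn : 2 ≤ n) {φ : ℝ → ℝ} (hφ : Continuous φ) (x : ℝ) :
    Ex (List.replicate n 1) φ x = ∫ y in (-(n:ℝ))..n, φ (x + y) * bs n 0 y := by
  induction n, hn using Nat.le_induction generalizing x with
  | base => exact_mod_cast Ex_replicate_two hφ x
  | succ n hn ih =>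
    rw [List.replicate_succ, Ex_cons]
    have e : Ex (List.replicate n 1) φ = fun x => ∫ y in (-(n:ℝ))..n, φ (x + y) * bs n 0 y := by
      funext x; exact ih x
    rw [e]
    have hbc := bs_continuous n 0
    -- widen the inner integral and translate
    have key : ∀ u ∈ Icc (-1:ℝ) 1, (∫ y in (-(n:ℝ))..n, φ (x + 1 * u + y) * bs n 0 y)
        = ∫ z in (-((n:ℝ)+1))..(n+1), φ (x + z) * bs n 0 (z - u) := by
      intro u hu
      have e1 : (∫ y in (-(n:ℝ))..n, φ (x + 1 * u + y) * bs n 0 y)
          = ∫ z in (-(n:ℝ) + u)..(n + u), φ (x + z) * bs n 0 (z - u) := by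
        have := intervalIntegral.integral_comp_add_right (a := -(n:ℝ)) (b := n)
          (fun z => φ (x + z) * bs n 0 (z - u)) u
        rw [← this]
        apply intervalIntegral.integral_congr
        intro y _
        show φ (x + 1 * u + y) * bs n 0 y = φ (x + (y + u)) * bs n 0 (y + u - u)
        rw [add_sub_cancel_right]
        congr 2
        ring
      rw [e1]
      have hc : Continuous fun z => φ (x + z) * bs n 0 (z - u) := by fun_prop
      have z1 : ∫ z in (-((n:ℝ)+1))..(-(n:ℝ) + u), φ (x + z) * bs n 0 (z - u) = 0 := by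
        rw [intervalIntegral.integral_congr (g := fun _ => (0:ℝ))]
        · simp
        · intro z hz
          rw [uIcc_of_le (by linarith [hu.1])] at hz
          simp only
          rw [bs_zero hn, mul_zero]
          rw [abs_of_nonpos (by linarith [hz.2, (Nat.cast_nonneg n : (0:ℝ) ≤ n)])]
          linarith [hz.2]
      have z2 : ∫ z in ((n:ℝ) + u)..(n+1), φ (x + z) * bs n 0 (z - u) = 0 := by
        rw [intervalIntegral.integral_congr (g := fun _ => (0:ℝ))]
        · simp
        · intro z hz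
          rw [uIcc_of_le (by linarith [hu.2])] at hz
          simp only
          rw [bs_zero hn, mul_zero]
          rw [abs_of_nonneg (by linarith [hz.1, (Nat.cast_nonneg n : (0:ℝ) ≤ n)])]
          linarith [hz.1]
      have s1 := intervalIntegral.integral_add_adjacent_intervals (μ := volume)
        (hc.intervalIntegrable (-((n:ℝ)+1)) (-(n:ℝ) + u)) (hc.intervalIntegrable _ ((n:ℝ) + u))
      have s2 := intervalIntegral.integral_add_adjacent_intervals (μ := volume)
        (hc.intervalIntegrable (-((n:ℝ)+1)) ((n:ℝ) + u)) (hc.intervalIntegrable _ ((n:ℝ)+1))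
      rw [← s2, ← s1, z1, z2]
      ring
    unfold T
    have e2 : (∫ u in (-1:ℝ)..1, ∫ y in (-(n:ℝ))..n, φ (x + 1 * u + y) * bs n 0 y)
        = ∫ u in (-1:ℝ)..1, ∫ z in (-((n:ℝ)+1))..(n+1), φ (x + z) * bs n 0 (z - u) := by
      apply intervalIntegral.integral_congr
      intro u hu
      rw [uIcc_of_le (by norm_num)] at hu
      exact key u hu
    rw [e2]
    -- swap
    have hle : (-((n:ℝ)+1)) ≤ (n:ℝ)+1 := by linarith [(Nat.cast_nonneg n : (0:ℝ) ≤ n)]
    have e3 : (∫ u in (-1:ℝ)..1, ∫ z in (-((n:ℝ)+1))..(n+1), φ (x + z) * bs n 0 (z - u))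
        = ∫ z in (-((n:ℝ)+1))..(n+1), ∫ u in (-1:ℝ)..1, φ (x + z) * bs n 0 (z - u) := by
      simp_rw [intervalIntegral.integral_of_le (by norm_num : (-1:ℝ) ≤ 1),
        intervalIntegral.integral_of_le hle]
      rw [MeasureTheory.integral_integral_swap]
      have hc : Continuous (Function.uncurry fun u z : ℝ => φ (x + z) * bs n 0 (z - u)) := by
        unfold Function.uncurry
        fun_prop
      rw [Measure.prod_restrict]
      exact (hc.continuousOn.integrableOn_compact (isCompact_Icc.prod isCompact_Icc)).mono_set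
        (Set.prod_mono Ioc_subset_Icc_self Ioc_subset_Icc_self)
    rw [e3, ← intervalIntegral.integral_const_mul]
    push_cast
    apply intervalIntegral.integral_congr
    intro z _
    show 1 / 2 * ∫ u in (-1:ℝ)..1, φ (x + z) * bs n 0 (z - u) = φ (x + z) * bs (n+1) 0 z
    rw [intervalIntegral.integral_const_mul, ← T_bs (by omega : 0 + 2 ≤ n)]
    unfold T
    have := intervalIntegral.integral_comp_neg (a := (-1:ℝ)) (b := 1) (fun u => bs n 0 (z + 1 * u))
    rw [neg_neg] at this
    rw [← this]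
    have e4 : (∫ u in (-1:ℝ)..1, bs n 0 (z - u)) = ∫ u in (-1:ℝ)..1, bs n 0 (z + 1 * -u) := by
      apply intervalIntegral.integral_congr
      intro u _
      show bs n 0 (z - u) = bs n 0 (z + 1 * -u)
      congr 1
      ring
    rw [e4]
    ring

theorem integral_bs {n : ℕ} (hn : 2 ≤ n) : ∫ y in (-(n:ℝ))..n, bs n 0 y = 1 := by
  have := Ex_replicate hn (φ := fun _ => (1:ℝ)) continuous_const 0
  rw [Ex_const] at this
  simpa using this.symm

end Pool.Agent.Lib.MP391fb1
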