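import Pool.Agent.Lib.MP_391fb1_pr.Frame

/-!
# MP_391fb1_pr: remaining weights for n = 3, 4 (reference density with Gaussian tails)
-/

namespace Pool.Agent.Lib.MP391fb1

open MeasureTheory Set intervalIntegral

/-- `Psi x0 x = (|x| - x0)_+²`. -/
noncomputable def Psi (x0 x : ℝ) : ℝ := (max (|x| - x0) 0) ^ 2

theorem Psi_continuous (x0 : ℝ) : Continuous (Psi x0) := by
  unfold Psi
  fun_prop

theorem Psi_nonneg (x0 x : ℝ) : 0 ≤ Psi x0 x := sq_nonneg _

theorem hasDerivAt_cube_max (x : ℝ) :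
    HasDerivAt (fun x : ℝ => (max x 0) ^ 3) (3 * (max x 0) ^ 2) x := by
  have hne : ∀ y : ℝ, y ≠ 0 →
      HasDerivAt (fun x : ℝ => (max x 0) ^ 3) (3 * (max y 0) ^ 2) y := by
    intro y hy
    rcases lt_or_gt_of_ne hy with h | h
    · have e : (fun x : ℝ => (max x 0) ^ 3) =ᶠ[nhds y] fun _ => 0 := by
        filter_upwards [Iio_mem_nhds h] with z hz
        rw [max_eq_right (le_of_lt hz)]
        simp
      rw [max_eq_right h.le]
      simpa using (hasDerivAt_const y (0:ℝ)).congr_of_eventuallyEq e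
    · have e : (fun x : ℝ => (max x 0) ^ 3) =ᶠ[nhds y] fun x => x ^ 3 := by
        filter_upwards [Ioi_mem_nhds h] with z hz
        rw [max_eq_left (le_of_lt hz)]
      rw [max_eq_left h.le]
      have := (hasDerivAt_pow 3 y).congr_of_eventuallyEq e
      simpa using this
  rcases eq_or_ne x 0 with rfl | hx
  · exact hasDerivAt_of_hasDerivAt_of_ne (g := fun y => (3:ℝ) * (max y 0) ^ 2) hne
      (by fun_prop) (by fun_prop)
  · exact hne x hx

theorem Psi_prim {x0 : ℝ} (hx0 : 0 ≤ x0) (x : ℝ) :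
    HasDerivAt (fun x : ℝ => ((max (x - x0) 0) ^ 3 - (max (-x - x0) 0) ^ 3) / 3) (Psi x0 x) x := by
  have h1 : HasDerivAt (fun x : ℝ => (max (x - x0) 0) ^ 3) (3 * (max (x - x0) 0) ^ 2) x := by
    have := HasDerivAt.comp (h₂ := fun x : ℝ => (max x 0) ^ 3) (h := fun x : ℝ => x - x0) x
      (hasDerivAt_cube_max (x - x0)) ((hasDerivAt_id x).sub_const x0)
    refine this.congr_deriv ?_
    ring
  have h2 : HasDerivAt (fun x : ℝ => (max (-x - x0) 0) ^ 3) (-(3 * (max (-x - x0) 0) ^ 2)) x := by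
    have := HasDerivAt.comp (h₂ := fun x : ℝ => (max x 0) ^ 3) (h := fun x : ℝ => -x - x0) x
      (hasDerivAt_cube_max (-x - x0)) ((hasDerivAt_neg x).sub_const x0)
    refine this.congr_deriv ?_
    ring
  refine ((h1.sub h2).div_const 3).congr_deriv ?_
  unfold Psi
  rcases abs_cases x with ⟨h, h'⟩ | ⟨h, h'⟩ <;> rw [h]
  · rw [max_eq_right (by linarith : -x - x0 ≤ 0)]
    ring
  · rw [max_eq_right (by linarith : x - x0 ≤ 0)]
    ring

theorem T_Psi {x0 a : ℝ} (hx0 : 0 ≤ x0) (ha : 0 < a) {y : ℝ} (hy0 : 0 ≤ y) (hy : y ≤ a + x0) :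
    T a (Psi x0) y = ((max (y + a - x0) 0) ^ 3 + (max (a - y - x0) 0) ^ 3) / (6 * a) := by
  rw [T_eq_antideriv ha.ne' (Psi_continuous x0) (Psi_prim hx0)]
  rw [max_eq_right (by linarith : -(y + a) - x0 ≤ 0), max_eq_right (by linarith : y - a - x0 ≤ 0)]
  have e : -(y - a) - x0 = a - y - x0 := by ring
  rw [e]
  field_simp
  ring

theorem cube_bound {a0 R K z : ℝ} (hR : 0 < R) (ha0 : 0 ≤ a0) (hK : (R - a0) ^ 3 ≤ K * R ^ 2)
    (hz : a0 ≤ z) (hzR : z ≤ R) : (z - a0) ^ 3 ≤ K * z ^ 2 := by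
  have h1 : (z - a0) * R ≤ (R - a0) * z := by nlinarith
  have h0 : 0 ≤ (z - a0) * R := mul_nonneg (by linarith) hR.le
  have h2 : ((z - a0) * R) ^ 2 ≤ ((R - a0) * z) ^ 2 := by
    apply pow_le_pow_left₀ h0 h1
  have h3 : (z - a0) ^ 3 * R ^ 2 ≤ (R - a0) ^ 3 * z ^ 2 := by
    calc (z - a0) ^ 3 * R ^ 2 = (z - a0) * ((z - a0) * R) ^ 2 := by ring
      _ ≤ (R - a0) * ((R - a0) * z) ^ 2 := by
          apply mul_le_mul (by linarith) h2 (sq_nonneg _) (by linarith)
      _ = (R - a0) ^ 3 * z ^ 2 := by ring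
  have h4 : (z - a0) ^ 3 * R ^ 2 ≤ (K * z ^ 2) * R ^ 2 := by
    calc _ ≤ (R - a0) ^ 3 * z ^ 2 := h3
      _ ≤ (K * R ^ 2) * z ^ 2 := mul_le_mul_of_nonneg_right hK (sq_nonneg _)
      _ = _ := by ring
  exact le_of_mul_le_mul_right h4 (by positivity)

theorem T_Psi_le {x0 a a0 R K : ℝ} (hx0 : 0 ≤ x0) (ha : 0 < a) (ha0 : 0 ≤ a0)
    (haa : a0 ≤ a - x0) (hR : 0 < R) (hRa : R ≤ a + x0) (haR : a0 ≤ R)
    (hK : (R - a0) ^ 3 ≤ K * R ^ 2)
    {y : ℝ} (hy : |y| ≤ R) :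
    T a (Psi x0) y ≤ (a - x0) ^ 3 / (3 * a) + (6 * (a - x0) + K) / (6 * a) * y ^ 2 := by
  have hK0 : 0 ≤ K := by
    by_contra h
    push Not at h
    have : 0 ≤ (R - a0) ^ 3 := pow_nonneg (by linarith) 3
    nlinarith [mul_pos hR hR]
  wlog hy0 : 0 ≤ y generalizing y with H
  · have := H (y := -y) (by rwa [abs_neg]) (by linarith)
    rw [T_even a (by intro x; simp [Psi])] at this
    simpa using this
  rw [abs_of_nonneg hy0] at hy
  rw [T_Psi hx0 ha hy0 (by linarith)]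
  rw [max_eq_left (by linarith : 0 ≤ y + a - x0)]
  have key : (y + a - x0) ^ 3 + (max (a - y - x0) 0) ^ 3
      ≤ 2 * (a - x0) ^ 3 + (6 * (a - x0) + K) * y ^ 2 := by
    rcases le_total y (a - x0) with h | h
    · rw [max_eq_left (by linarith : 0 ≤ a - y - x0)]
      nlinarith [mul_nonneg hK0 (sq_nonneg y)]
    · rw [max_eq_right (by linarith : a - y - x0 ≤ 0)]
      have h1 : (y - (a - x0)) ^ 3 ≤ (y - a0) ^ 3 :=
        pow_le_pow_left₀ (by linarith) (by linarith) 3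
      have h2 := cube_bound hR ha0 hK (haa.trans h) hy
      have : (y + a - x0) ^ 3 + 0 ^ 3
        = 2 * (a - x0) ^ 3 + 6 * (a - x0) * y ^ 2 + (y - (a - x0)) ^ 3 := by ring
      rw [this]
      nlinarith
  calc _ ≤ (2 * (a - x0) ^ 3 + (6 * (a - x0) + K) * y ^ 2) / (6 * a) := by
        gcongr
    _ = _ := by field_simp; ring

theorem Ex_snoc (l : List ℝ) (a : ℝ) (φ : ℝ → ℝ) : Ex (l ++ [a]) φ = Ex l (T a φ) := by
  simp [Ex, List.foldr_append]

theorem T_sq (c x : ℝ) : T c (fun y => y ^ 2) x = x ^ 2 + c ^ 2 / 3 := by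
  rcases eq_or_ne c 0 with rfl | hc
  · rw [T_zero]; simp
  rw [T_eq_antideriv (F := fun x => x ^ 3 / 3) hc (by fun_prop) (fun x => by
    have := (hasDerivAt_pow 3 x).div_const 3
    refine this.congr_deriv ?_
    norm_num)]
  field_simp
  ring

theorem Ex_quad (l : List ℝ) (α β x : ℝ) :
    Ex l (fun y => α + β * y ^ 2) x = α + β * (x ^ 2 + (l.map (fun c => c ^ 2)).sum / 3) := by
  induction l generalizing α β x with
  | nil => simp
  | cons c l ih =>
    rw [Ex_cons]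
    have e : Ex l (fun y => α + β * y ^ 2)
        = fun x => (α + β * ((l.map (fun c => c ^ 2)).sum / 3)) + β * x ^ 2 := by
      funext z
      rw [ih]
      ring
    rw [e, T_add c (by fun_prop) (by fun_prop), T_const, T_smul]
    simp only [T_sq, List.map_cons, List.sum_cons]
    ring

theorem Ex_Psi_le {x0 a a0 R K : ℝ} {l : List ℝ} (hl : ∀ c ∈ l, 0 ≤ c) (hsum : l.sum ≤ R)
    (hx0 : 0 ≤ x0) (ha : 0 < a) (ha0 : 0 ≤ a0)
    (haa : a0 ≤ a - x0) (hR : 0 < R) (hRa : R ≤ a + x0) (haR : a0 ≤ R)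
    (hK : (R - a0) ^ 3 ≤ K * R ^ 2) :
    Ex (a :: l) (Psi x0) 0 ≤ (a - x0) ^ 3 / (3 * a)
      + (6 * (a - x0) + K) / (6 * a) * ((l.map (fun c => c ^ 2)).sum / 3) := by
  have hp : (a :: l).Perm (l ++ [a]) := by
    simpa using (List.perm_append_singleton a l).symm
  rw [Ex_perm hp (Psi_continuous x0), Ex_snoc]
  calc Ex l (T a (Psi x0)) 0 ≤ Ex l (fun y => (a - x0) ^ 3 / (3 * a)
        + (6 * (a - x0) + K) / (6 * a) * y ^ 2) 0 := by
        apply Ex_mono hl (T_continuous a (Psi_continuous x0)) (by fun_prop)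
        intro y hy
        rw [sub_zero] at hy
        exact T_Psi_le hx0 ha ha0 haa hR hRa haR hK (hy.trans hsum)
    _ = _ := by
        rw [Ex_quad]
        ring

theorem sqrt_two_pi_le : √(2 * Real.pi) ≤ 2.50663 := by
  rw [Real.sqrt_le_left (by norm_num)]
  have := Real.pi_lt_d6
  norm_num at this ⊢
  linarith

theorem log_two_add_sqrt_three_le : Real.log (2 + √3) ≤ 19 / 10 * Real.log 2 := by
  have h3 : √3 ≤ 1.7320509 := by
    rw [Real.sqrt_le_left (by norm_num)]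
    norm_num
  have h0 : 0 < 2 + √3 := by positivity
  have h1 : (2 + √3) ^ 10 ≤ 2 ^ 19 := by
    calc (2 + √3) ^ 10 ≤ (2 + 1.7320509) ^ 10 := by gcongr
      _ ≤ 2 ^ 19 := by norm_num
  have h2 := Real.log_le_log (by positivity) h1
  rw [Real.log_pow, Real.log_pow] at h2
  push_cast at h2
  linarith

theorem rhs3_ge : (1.4124 : ℝ) ≤ 2 * Real.log 2 + 7 / 6 - (√3 / 2) * Real.log (2 + √3) := by
  have h3 : √3 ≤ 1.7320509 := by
    rw [Real.sqrt_le_left (by norm_num)]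
    norm_num
  have h0 := Real.log_two_gt_d9
  have h0' := Real.log_two_lt_d9
  have h1 := log_two_add_sqrt_three_le
  have h2 : 0 ≤ Real.log (2 + √3) := Real.log_nonneg (by have := Real.sqrt_nonneg 3; linarith)
  have h4 : (√3 / 2) * Real.log (2 + √3) ≤ (1.7320509 / 2) * (19 / 10 * Real.log 2) := by
    apply mul_le_mul (by linarith) h1 h2 (by norm_num)
  norm_num at h4 h0 h0' ⊢
  linarith

theorem log_four_thirds_ge : (0.2873 : ℝ) ≤ Real.log (4 / 3) := by
  have h0 := Real.log_two_gt_d9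
  have h1 : Real.log ((4 / 3) ^ 5) = 2 * Real.log 2 - Real.log (243 / 256) := by
    rw [show ((4:ℝ) / 3) ^ 5 = 2 ^ 2 / (243 / 256) by norm_num, Real.log_div (by norm_num) (by norm_num),
      Real.log_pow]
    norm_num
  have h2 : Real.log (243 / 256) ≤ 243 / 256 - 1 := Real.log_le_sub_one_of_pos (by norm_num)
  rw [Real.log_pow] at h1
  norm_num at h1 h2 h0 ⊢
  linarith

theorem log_norm3_le : Real.log (2 * (3 / 5) + 18 / 25 * √(2 * Real.pi)) ≤ 1.1005 := by
  have h := sqrt_two_pi_le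
  have h0' := Real.log_two_lt_d9
  have h1 : 2 * (3 / 5) + 18 / 25 * √(2 * Real.pi) ≤ 3.0048 := by
    norm_num at h ⊢
    linarith
  have hp : 0 < 2 * (3 / 5) + 18 / 25 * √(2 * Real.pi) := by positivity
  have h2 : Real.log (2 * (3 / 5) + 18 / 25 * √(2 * Real.pi)) ≤ Real.log 3.0048 :=
    Real.log_le_log hp h1
  have h3 : Real.log (3.0048 ^ 5) ≤ 8 * Real.log 2 + Real.log 0.957 := by
    rw [show 8 * Real.log 2 = Real.log (2 ^ 8) by rw [Real.log_pow]; norm_num,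
      ← Real.log_mul (by norm_num) (by norm_num)]
    apply Real.log_le_log (by norm_num)
    norm_num
  have h4 : Real.log 0.957 ≤ 0.957 - 1 := Real.log_le_sub_one_of_pos (by norm_num)
  rw [Real.log_pow] at h3
  norm_num at h2 h3 h4 h0' ⊢
  linarith

theorem log_norm4_le : Real.log (2 * (1 / 2) + 93 / 100 * √(2 * Real.pi)) ≤ 1.2036 := by
  have h := sqrt_two_pi_le
  have h0' := Real.log_two_lt_d9
  have h1 : 2 * (1 / 2) + 93 / 100 * √(2 * Real.pi) ≤ 3.3312 := by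
    norm_num at h ⊢
    linarith
  have hp : 0 < 2 * (1 / 2) + 93 / 100 * √(2 * Real.pi) := by positivity
  have h2 : Real.log (2 * (1 / 2) + 93 / 100 * √(2 * Real.pi)) ≤ Real.log 3.3312 :=
    Real.log_le_log hp h1
  have h3 : Real.log (3.3312 ^ 4) ≤ 7 * Real.log 2 + Real.log 0.9621 := by
    rw [show 7 * Real.log 2 = Real.log (2 ^ 7) by rw [Real.log_pow]; norm_num,
      ← Real.log_mul (by norm_num) (by norm_num)]
    apply Real.log_le_log (by norm_num)
    norm_num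
  have h4 : Real.log 0.9621 ≤ 0.9621 - 1 := Real.log_le_sub_one_of_pos (by norm_num)
  rw [Real.log_pow] at h3
  norm_num at h2 h3 h4 h0' ⊢
  linarith

theorem Ex_Psi3_le {a : ℝ} {l : List ℝ} (ha : 3 / 2 ≤ a) (hlen : l.length = 2)
    (hl : ∀ c ∈ l, 0 ≤ c) (hs : a ^ 2 + (l.map (fun c => c ^ 2)).sum = 3) :
    Ex (a :: l) (Psi (3 / 5)) 0 ≤ 0.3127 := by
  obtain ⟨b, c, rfl⟩ : ∃ b c, l = [b, c] := by
    match l, hlen with
    | [b, c], _ => exact ⟨b, c, rfl⟩
  simp only [List.map_cons, List.map_nil, List.sum_cons, List.sum_nil, add_zero] at hs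
  have hb : 0 ≤ b := hl b (by simp)
  have hc : 0 ≤ c := hl c (by simp)
  have hv : b ^ 2 + c ^ 2 ≤ 3 / 4 := by nlinarith
  have hsum : [b, c].sum ≤ 1.225 := by
    simp only [List.sum_cons, List.sum_nil, add_zero]
    apply le_of_sq_le_sq _ (by norm_num)
    norm_num
    nlinarith [sq_nonneg (b - c)]
  have h := Ex_Psi_le (x0 := 3 / 5) (a := a) (a0 := 9 / 10) (R := 1.225) (K := 0.0229) hl hsum
    (by norm_num) (by linarith) (by norm_num) (by linarith) (by norm_num)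
    (by norm_num; linarith) (by norm_num) (by norm_num)
  refine h.trans ?_
  simp only [List.map_cons, List.map_nil, List.sum_cons, List.sum_nil, add_zero]
  have e : b ^ 2 + c ^ 2 = 3 - a ^ 2 := by linarith
  rw [e]
  have ha0 : 0 < a := by linarith
  rw [div_add' _ _ _ (by positivity), div_le_iff₀ (by positivity)]
  have : (a - 3 / 5) ^ 3 + (6 * (a - 3 / 5) + 0.0229) / (6 * a) * ((3 - a ^ 2) / 3) * (3 * a)
      = (a - 3 / 5) ^ 3 + (6 * (a - 3 / 5) + 0.0229) * (3 - a ^ 2) / 6 := by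
    field_simp
  rw [this]
  norm_num
  nlinarith

theorem Ex_Psi4_le {a : ℝ} {l : List ℝ} (ha : 17 / 10 ≤ a) (hlen : l.length = 3)
    (hl : ∀ c ∈ l, 0 ≤ c) (hs : a ^ 2 + (l.map (fun c => c ^ 2)).sum = 4) :
    Ex (a :: l) (Psi (1 / 2)) 0 ≤ 0.6027 := by
  obtain ⟨b, c, d, rfl⟩ : ∃ b c d, l = [b, c, d] := by
    match l, hlen with
    | [b, c, d], _ => exact ⟨b, c, d, rfl⟩
  simp only [List.map_cons, List.map_nil, List.sum_cons, List.sum_nil, add_zero] at hs
  have hb : 0 ≤ b := hl b (by simp)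
  have hc : 0 ≤ c := hl c (by simp)
  have hd : 0 ≤ d := hl d (by simp)
  have hv : b ^ 2 + (c ^ 2 + d ^ 2) ≤ 1.11 := by norm_num; nlinarith
  have hsum : [b, c, d].sum ≤ 1.825 := by
    simp only [List.sum_cons, List.sum_nil, add_zero]
    apply le_of_sq_le_sq _ (by norm_num)
    norm_num at hv ⊢
    nlinarith [sq_nonneg (b - c), sq_nonneg (b - d), sq_nonneg (c - d)]
  have h := Ex_Psi_le (x0 := 1 / 2) (a := a) (a0 := 12 / 10) (R := 1.825) (K := 0.0734) hl hsum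
    (by norm_num) (by linarith) (by norm_num) (by linarith) (by norm_num)
    (by norm_num; linarith) (by norm_num) (by norm_num)
  refine h.trans ?_
  simp only [List.map_cons, List.map_nil, List.sum_cons, List.sum_nil, add_zero]
  have e : b ^ 2 + (c ^ 2 + d ^ 2) = 4 - a ^ 2 := by linarith
  rw [e]
  have ha0 : 0 < a := by linarith
  rw [div_add' _ _ _ (by positivity), div_le_iff₀ (by positivity)]
  have : (a - 1 / 2) ^ 3 + (6 * (a - 1 / 2) + 0.0734) / (6 * a) * ((4 - a ^ 2) / 3) * (3 * a)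
      = (a - 1 / 2) ^ 3 + (6 * (a - 1 / 2) + 0.0734) * (4 - a ^ 2) / 6 := by
    field_simp
  rw [this]
  norm_num
  nlinarith

/-- cross-entropy bound for `n = 3`, largest weight at least `3/2`. -/
theorem reg3 {a : ℝ} {l : List ℝ} (ha : 3 / 2 ≤ a) (hlen : l.length = 2)
    (hl : ∀ c ∈ l, 0 ≤ c) (hs : a ^ 2 + (l.map (fun c => c ^ 2)).sum = 3) :
    Real.log (2 * (3 / 5) + 18 / 25 * √(2 * Real.pi))
        + Ex (a :: l) (Psi (3 / 5)) 0 / (2 * (18 / 25) ^ 2)
      ≤ 2 * Real.log 2 + 7 / 6 - (√3 / 2) * Real.log (2 + √3) := by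
  have h1 := Ex_Psi3_le ha hlen hl hs
  have h2 := log_norm3_le
  have h3 := rhs3_ge
  have h4 : Ex (a :: l) (Psi (3 / 5)) 0 / (2 * (18 / 25) ^ 2) ≤ 0.3017 := by
    rw [div_le_iff₀ (by norm_num)]
    refine h1.trans ?_
    norm_num
  refine le_trans ?_ h3
  refine (add_le_add h2 h4).trans ?_
  norm_num

/-- cross-entropy bound for `n = 4`, largest weight at least `17/10`. -/
theorem reg4 {a : ℝ} {l : List ℝ} (ha : 17 / 10 ≤ a) (hlen : l.length = 3)
    (hl : ∀ c ∈ l, 0 ≤ c) (hs : a ^ 2 + (l.map (fun c => c ^ 2)).sum = 4) :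
    Real.log (2 * (1 / 2) + 93 / 100 * √(2 * Real.pi))
        + Ex (a :: l) (Psi (1 / 2)) 0 / (2 * (93 / 100) ^ 2)
      ≤ 2 * Real.log 2 + 7 / 6 - (√3 / 2) * Real.log (2 + √3) + 1 / 2 * Real.log (4 / 3) := by
  have h1 := Ex_Psi4_le ha hlen hl hs
  have h2 := log_norm4_le
  have h3 := rhs3_ge
  have h5 := log_four_thirds_ge
  have h4 : Ex (a :: l) (Psi (1 / 2)) 0 / (2 * (93 / 100) ^ 2) ≤ 0.3485 := by
    rw [div_le_iff₀ (by norm_num)]
    refine h1.trans ?_
    norm_num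
  refine (add_le_add h2 h4).trans ?_
  refine le_trans ?_ (add_le_add h3 (mul_le_mul_of_nonneg_left h5 (by norm_num)))
  norm_num

end Pool.Agent.Lib.MP391fb1
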