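import Pool.Agent.Lib.MP_391fb1_pr.Steps
import Pool.Agent.Lib.MP_391fb1_pr.Reg

/-!
# MP_391fb1_pr: one rotation step when `V2 n = lam x² + (nondecreasing) + (bump)`
-/

namespace Pool.Agent.Lib.MP391fb1

open MeasureTheory Set intervalIntegral

/-! ### moments of `aU + bV` -/

theorem hasDerivAt_absF1 (x : ℝ) :
    HasDerivAt (fun x : ℝ => (max x 0) ^ 2 - x ^ 2 / 2) |x| x := by
  have h1 := hasDerivAt_maxpow 0 x
  have h2 := (hasDerivAt_pow 2 x).div_const 2
  refine (h1.sub h2).congr_deriv ?_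
  rw [show |x| = 2 * max x 0 - x by rw [max_eq_half]; ring]
  push_cast
  ring

theorem hasDerivAt_absF2 (x : ℝ) :
    HasDerivAt (fun x : ℝ => (max x 0) ^ 3 / 3 - x ^ 3 / 6) ((max x 0) ^ 2 - x ^ 2 / 2) x := by
  have h1 := (hasDerivAt_maxpow 1 x).div_const 3
  have h2 := (hasDerivAt_pow 3 x).div_const 6
  refine (h1.sub h2).congr_deriv ?_
  push_cast
  ring

theorem TT_abs {a b : ℝ} (ha : 0 < a) (hb : 0 ≤ b) (hba : b ≤ a) :
    T a (T b (fun x => |x|)) 0 = (3 * a ^ 2 + b ^ 2) / (6 * a) := by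
  rcases hb.eq_or_lt with rfl | hb
  · rw [T_zero, T_at_zero ha.ne' continuous_abs hasDerivAt_absF1, max_eq_left ha.le,
      max_eq_right (by linarith : -a ≤ 0)]
    field_simp
    ring
  · rw [TT_eq ha.ne' hb.ne' continuous_abs hasDerivAt_absF1 hasDerivAt_absF2,
      max_eq_left (by linarith : 0 ≤ a + b), max_eq_left (by linarith : 0 ≤ a - b),
      max_eq_right (by linarith : b - a ≤ 0), max_eq_right (by linarith : -a - b ≤ 0)]
    field_simp
    ring

theorem TT_four {a b : ℝ} (ha : 0 < a) (hb : 0 ≤ b) :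
    T a (T b (fun x => x ^ 4)) 0 = (3 * a ^ 4 + 10 * a ^ 2 * b ^ 2 + 3 * b ^ 4) / 15 := by
  have h1 : ∀ x : ℝ, HasDerivAt (fun x : ℝ => x ^ 5 / 5) (x ^ 4) x := by
    intro x
    refine ((hasDerivAt_pow 5 x).div_const 5).congr_deriv ?_
    push_cast
    ring
  have h2 : ∀ x : ℝ, HasDerivAt (fun x : ℝ => x ^ 6 / 30) (x ^ 5 / 5) x := by
    intro x
    refine ((hasDerivAt_pow 6 x).div_const 30).congr_deriv ?_
    push_cast
    ring
  rcases hb.eq_or_lt with rfl | hb
  · rw [T_zero, T_at_zero ha.ne' (by fun_prop) h1]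
    field_simp
    ring
  · rw [TT_eq ha.ne' hb.ne' (by fun_prop) h1 h2]
    field_simp
    ring

/-- gain of the quartic part dominates the loss of the linear part -/
theorem moment_ineq {a b p m lam κ η : ℝ} (hη : 0 < η) (hp : η ≤ p) (hpa : p ≤ a) (hb : 0 ≤ b)
    (hbη : b < η) (hr : p ^ 2 + m ^ 2 = a ^ 2 + b ^ 2) (hlam : 0 ≤ lam) (hκ0 : 0 ≤ κ)
    (hκ : κ ≤ 4 / 15 * lam * η ^ 3) :
    κ * ((3 * a ^ 2 + b ^ 2) / (6 * a)) + lam / 12 * ((3 * a ^ 4 + 10 * a ^ 2 * b ^ 2 + 3 * b ^ 4) / 15)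
      ≤ κ * ((3 * p ^ 2 + m ^ 2) / (6 * p)) +
        lam / 12 * ((3 * p ^ 4 + 10 * p ^ 2 * m ^ 2 + 3 * m ^ 4) / 15) := by
  have hp0 : 0 < p := hη.trans_le hp
  have ha0 : 0 < a := hp0.trans_le hpa
  have hm : m ^ 2 = a ^ 2 + b ^ 2 - p ^ 2 := by linarith
  have hm4 : m ^ 4 = (a ^ 2 + b ^ 2 - p ^ 2) ^ 2 := by
    rw [← hm]; ring
  set k := κ / (6 * a * p) with hk
  have hk0 : 0 ≤ k := by positivity
  have hkk : κ = k * (6 * a * p) := by rw [hk]; field_simp
  have hQ : 0 ≤ p ^ 2 - b ^ 2 := by nlinarith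
  have hk1 : k ≤ lam / 45 * (a + p) := by
    rw [hk, div_le_iff₀ (by positivity)]
    refine hκ.trans ?_
    have h1 : η ^ 2 ≤ a * p := by nlinarith
    have h2 : 2 * η ≤ a + p := by linarith
    have h3 : η ^ 2 * (2 * η) ≤ (a * p) * (a + p) := mul_le_mul h1 h2 (by positivity) (by positivity)
    nlinarith [mul_le_mul_of_nonneg_left h3 hlam]
  have e1 : κ * ((3 * a ^ 2 + b ^ 2) / (6 * a)) = k * (p * (3 * a ^ 2 + b ^ 2)) := by
    rw [hkk]; field_simp
  have e2 : κ * ((3 * p ^ 2 + m ^ 2) / (6 * p)) = k * (a * (3 * p ^ 2 + m ^ 2)) := by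
    rw [hkk]; field_simp
  rw [e1, e2, hm4, hm]
  have hd : 0 ≤ a - p := by linarith
  have h5 : k * (2 * a * p - (a ^ 2 + b ^ 2)) ≤ lam / 45 * (a + p) * (p ^ 2 - b ^ 2) := by
    calc k * (2 * a * p - (a ^ 2 + b ^ 2)) ≤ k * (p ^ 2 - b ^ 2) := by
          apply mul_le_mul_of_nonneg_left _ hk0
          nlinarith [sq_nonneg (a - p)]
      _ ≤ _ := mul_le_mul_of_nonneg_right hk1 hQ
  have h6 := mul_le_mul_of_nonneg_left h5 hd
  nlinarith [h6]

theorem moment_step {a b η lam κ : ℝ} (hb : 0 ≤ b) (hbη : b < η) (hηa : η < a)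
    (hlam : 0 ≤ lam) (hκ0 : 0 ≤ κ) (hκ : κ ≤ 4 / 15 * lam * η ^ 3) :
    κ * T a (T b (fun x => |x|)) 0 + lam / 12 * T a (T b (fun x => x ^ 4)) 0 ≤
      κ * T η (T (√(a ^ 2 + b ^ 2 - η ^ 2)) (fun x => |x|)) 0 +
        lam / 12 * T η (T (√(a ^ 2 + b ^ 2 - η ^ 2)) (fun x => x ^ 4)) 0 := by
  have hη : 0 < η := hb.trans_lt hbη
  have ha : 0 < a := hη.trans hηa
  set b' := √(a ^ 2 + b ^ 2 - η ^ 2) with hb'd
  have hb'0 : 0 ≤ b' := Real.sqrt_nonneg _
  have hpos : 0 < a ^ 2 + b ^ 2 - η ^ 2 := by nlinarith [sq_nonneg b]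
  have hb'pos : 0 < b' := Real.sqrt_pos.2 hpos
  have hb'sq : b' ^ 2 = a ^ 2 + b ^ 2 - η ^ 2 := Real.sq_sqrt hpos.le
  rw [TT_abs ha hb (by linarith), TT_four ha hb]
  rcases le_total b' η with h | h
  · rw [TT_abs hη hb'0 h, TT_four hη hb'0]
    exact moment_ineq hη le_rfl hηa.le hb hbη (by rw [hb'sq]; ring) hlam hκ0 hκ
  · have hb'a : b' ≤ a := by
      rw [← Real.sqrt_sq ha.le]
      apply Real.sqrt_le_sqrt
      nlinarith
    rw [T_comm η b' continuous_abs, T_comm η b' (by fun_prop), TT_abs hb'pos hη.le h,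
      TT_four hb'pos hη.le]
    exact moment_ineq hη h hb'a hb hbη (by rw [hb'sq]; ring) hlam hκ0 hκ

theorem TT_lin {χ ψ φ G : ℝ → ℝ} {a b κ μ : ℝ} (hχ : Continuous χ) (hψ : Continuous ψ)
    (hφ : Continuous φ) (hG : ∀ x, G x = χ x + κ * ψ x + μ * φ x) :
    T a (T b G) 0 = T a (T b χ) 0 + κ * T a (T b ψ) 0 + μ * T a (T b φ) 0 := by
  have e : G = fun x => (χ x + κ * ψ x) + μ * φ x := by funext x; exact hG x
  have c1 : Continuous fun x => κ * ψ x := by fun_prop
  have c2 : Continuous fun x => μ * φ x := by fun_prop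
  have c3 : Continuous fun x => χ x + κ * ψ x := by fun_prop
  have t1 := T_continuous b hχ
  have t2 := T_continuous b hψ
  have t3 := T_continuous b hφ
  have d1 : Continuous fun x => κ * T b ψ x := by fun_prop
  have d2 : Continuous fun x => μ * T b φ x := by fun_prop
  have d3 : Continuous fun x => T b χ x + κ * T b ψ x := by fun_prop
  rw [e, T_add b c3 c2, T_add b hχ c1, T_smul, T_smul, T_add a d3 d2, T_add a t1 d1, T_smul, T_smul]

/-- the odd primitive of an even function -/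
theorem odd_primitive {f : ℝ → ℝ} (he : ∀ x, f (-x) = f x) (x : ℝ) :
    ∫ y in (0:ℝ)..(-x), f y = - ∫ y in (0:ℝ)..x, f y := by
  have := intervalIntegral.integral_comp_neg (a := (0:ℝ)) (b := x) f
  rw [neg_zero] at this
  rw [intervalIntegral.integral_symm, ← this]
  congr 1
  apply intervalIntegral.integral_congr
  intro y _
  exact he y

theorem even_primitive {f : ℝ → ℝ} (ho : ∀ x, f (-x) = - f x) (x : ℝ) :
    ∫ y in (0:ℝ)..(-x), f y = ∫ y in (0:ℝ)..x, f y := by
  have := intervalIntegral.integral_comp_neg (a := (0:ℝ)) (b := x) f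
  rw [neg_zero] at this
  rw [intervalIntegral.integral_symm, ← this, ← intervalIntegral.integral_neg]
  apply intervalIntegral.integral_congr
  intro y _
  show -f (-y) = f y
  rw [ho, neg_neg]

/-- **One rotation step in the presence of a bump.** -/
theorem step_bump {n : ℕ} {R X lam κ a b η : ℝ} {l : List ℝ} {Rb : ℝ → ℝ} (hn : 4 ≤ n)
    (h0 : 0 ≤ R) (hR : R < n) (hRc : Continuous Rb) (hRe : ∀ x, Rb (-x) = Rb x)
    (hR0 : ∀ x, 0 ≤ Rb x) (hK : ∀ x, ∫ y in (0:ℝ)..x, Rb y ≤ κ) (hl : ∀ c ∈ l, 0 ≤ c)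
    (hMo : MonotoneOn (fun x => w2 n R x - lam * x ^ 2 - Rb x) (Icc 0 (X + l.sum)))
    (hlam : 0 ≤ lam) (hb : 0 ≤ b) (hbη : b < η) (hηa : η < a) (hκ : κ ≤ 4 / 15 * lam * η ^ 3)
    (hX : η + √(a ^ 2 + b ^ 2 - η ^ 2) ≤ X) :
    T a (T b (Ex l (w0 n R))) 0 ≤ T η (T (√(a ^ 2 + b ^ 2 - η ^ 2)) (Ex l (w0 n R))) 0 := by
  have hκ0 : 0 ≤ κ := by simpa using hK 0
  set K1 : ℝ → ℝ := fun x => ∫ y in (0:ℝ)..x, Rb y with hK1
  set K0 : ℝ → ℝ := fun x => ∫ y in (0:ℝ)..x, K1 y with hK0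
  have dK1 : ∀ x, HasDerivAt K1 (Rb x) x := hasDerivAt_primitive hRc 0
  have cK1 : Continuous K1 := continuous_iff_continuousAt.2 fun x => (dK1 x).continuousAt
  have dK0 : ∀ x, HasDerivAt K0 (K1 x) x := hasDerivAt_primitive cK1 0
  have cK0 : Continuous K0 := continuous_iff_continuousAt.2 fun x => (dK0 x).continuousAt
  have oK1 : ∀ x, K1 (-x) = - K1 x := odd_primitive hRe
  have eK0 : ∀ x, K0 (-x) = K0 x := even_primitive oK1
  have dEK1 := Ex_hasDerivAt l dK1 hRc
  have dEK0 := Ex_hasDerivAt l dK0 cK1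
  have EK1_zero : Ex l K1 0 = 0 := deriv_even_zero (Ex_even l eK0) (dEK0 0)
  have cw0 := w0_continuous (n := n) (by omega) h0 hR
  have cw1 := w1_continuous (n := n) (by omega) h0 hR
  have cw2 := w2_continuous (n := n) (by omega) h0 hR
  have dE0 := Ex_hasDerivAt l (w0_hasDerivAt (n := n) (by omega) h0 hR) cw1
  have dE1 := Ex_hasDerivAt l (w1_hasDerivAt (n := n) (by omega) h0 hR) cw2
  have eE0 := Ex_even l (w0_even hn h0)
  have E1_zero : Ex l (w1 n R) 0 = 0 := deriv_even_zero eE0 (dE0 0)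
  have cE0 := Ex_continuous l cw0
  -- `Ex l K1` is monotone and bounded by κ
  have ERb_nonneg : ∀ x, 0 ≤ Ex l Rb x := by
    intro x
    have := Ex_mono (l := l) hl (φ := fun _ => 0) (ψ := Rb) continuous_const hRc (x := x)
      (fun y _ => hR0 y)
    rwa [Ex_const] at this
  have EK1_mono : Monotone (Ex l K1) := by
    apply monotone_of_deriv_nonneg (fun x => (dEK1 x).differentiableAt)
    intro x
    rw [(dEK1 x).deriv]
    exact ERb_nonneg x
  have EK1_le : ∀ x, Ex l K1 x ≤ κ := by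
    intro x
    have := Ex_mono (l := l) hl (φ := K1) (ψ := fun _ => κ) cK1 continuous_const (x := x)
      (fun y _ => hK y)
    rwa [Ex_const] at this
  -- the monotone part
  set S := (l.map (fun c => c ^ 2)).sum with hS
  have hg : MonotoneOn (fun x => Ex l (w2 n R) x - lam * x ^ 2 - Ex l Rb x) (Icc 0 X) := by
    have e : ∀ x, Ex l (w2 n R) x - lam * x ^ 2 - Ex l Rb x =
        Ex l (fun x => w2 n R x - lam * x ^ 2 - Rb x) x + lam * (S / 3) := by
      intro x
      have c1 : Continuous fun x : ℝ => lam * x ^ 2 := by fun_prop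
      have c2 : Continuous fun x : ℝ => w2 n R x - lam * x ^ 2 := by fun_prop
      have hq := Ex_quad l 0 lam x
      simp only [zero_add] at hq
      rw [Ex_sub l c2 hRc, Ex_sub l cw2 c1]
      simp only
      rw [hq]
      ring
    have hm := Ex_monotoneOn hl (g := fun x => w2 n R x - lam * x ^ 2 - Rb x) (by fun_prop)
      (fun x => by simp only [w2_even hn h0, hRe, neg_sq]) hMo
    intro x hx y hy hxy
    have := hm hx hy hxy
    show Ex l (w2 n R) x - lam * x ^ 2 - Ex l Rb x ≤ Ex l (w2 n R) y - lam * y ^ 2 - Ex l Rb y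
    rw [e x, e y]
    linarith
  have dA : ∀ x, HasDerivAt (fun x => Ex l (w1 n R) x - lam / 3 * x ^ 3 - Ex l K1 x)
      (Ex l (w2 n R) x - lam * x ^ 2 - Ex l Rb x) x := by
    intro x
    refine (((dE1 x).sub ((hasDerivAt_pow 3 x).const_mul (lam / 3))).sub (dEK1 x)).congr_deriv ?_
    push_cast
    ring
  have hA := avg_mono (X := X) (by simp [E1_zero, EK1_zero]) dA hg
  -- the comparison function
  set χ : ℝ → ℝ := fun x => Ex l (w0 n R) x - κ * |x| - lam / 12 * x ^ 4 with hχ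
  have cχ : Continuous χ := by
    have := cE0
    fun_prop
  have eχ : ∀ x, χ (-x) = χ x := by
    intro x
    simp only [hχ, abs_neg, eE0]
    ring
  have dχ : ∀ x ∈ Ioo 0 X, HasDerivAt χ (Ex l (w1 n R) x - κ - lam / 3 * x ^ 3) x := by
    intro x hx
    refine (((dE0 x).sub ((hasDerivAt_abs_pos hx.1).const_mul κ)).sub
      ((hasDerivAt_pow 4 x).const_mul (lam / 12))).congr_deriv ?_
    push_cast
    ring
  have mχ : MonotoneOn (fun x => (Ex l (w1 n R) x - κ - lam / 3 * x ^ 3) / x) (Ioo 0 X) := by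
    intro x hx y hy hxy
    have h1 := hA hx hy hxy
    simp only at h1 ⊢
    have hx0 := hx.1
    have hy0 := hy.1
    have h2 : (Ex l K1 x - κ) / x ≤ (Ex l K1 y - κ) / y := by
      rw [div_le_div_iff₀ hx0 hy0]
      have h3 := EK1_mono hxy
      have h4 := EK1_le y
      nlinarith
    have e : ∀ z, (Ex l (w1 n R) z - κ - lam / 3 * z ^ 3) / z =
        (Ex l (w1 n R) z - lam / 3 * z ^ 3 - Ex l K1 z) / z + (Ex l K1 z - κ) / z := by
      intro z
      rw [← add_div]
      congr 1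
      ring
    rw [e x, e y]
    exact add_le_add h1 h2
  have hstep := step_of_div_mono cχ eχ dχ mχ hb hbη hηa hX
  have hmom := moment_step (κ := κ) hb hbη hηa hlam hκ0 hκ
  have lin : ∀ a b : ℝ, T a (T b (Ex l (w0 n R))) 0 = T a (T b χ) 0 +
      κ * T a (T b (fun x => |x|)) 0 + lam / 12 * T a (T b (fun x => x ^ 4)) 0 := by
    intro a b
    apply TT_lin cχ continuous_abs (by fun_prop)
    intro x
    simp only [hχ]
    ring
  rw [lin, lin]
  linarith

/-! ### the explicit bump -/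

/-- `V2 n x - lam x²` -/
noncomputable def Wf (n : ℕ) (lam x : ℝ) : ℝ := V2 n x - lam * x ^ 2

/-- clamp to `[A,B]` -/
noncomputable def clp (A B x : ℝ) : ℝ := max A (min x B)

/-- the bump on `[0,∞)` -/
noncomputable def rho (n : ℕ) (lam A B s y : ℝ) : ℝ :=
  Wf n lam (clp A B y) - Wf n lam B + s * (B - clp A B y)

theorem clp_mem {A B : ℝ} (hAB : A ≤ B) (x : ℝ) : clp A B x ∈ Icc A B :=
  ⟨le_max_left _ _, max_le hAB (min_le_right _ _)⟩

theorem clp_left {A B x : ℝ} (hx : x ≤ A) : clp A B x = A :=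
  max_eq_left ((min_le_left _ _).trans hx)

theorem clp_mid {A B x : ℝ} (h1 : A ≤ x) (h2 : x ≤ B) : clp A B x = x := by
  unfold clp
  rw [min_eq_left h2, max_eq_right h1]

theorem clp_right {A B x : ℝ} (hAB : A ≤ B) (h2 : B ≤ x) : clp A B x = B := by
  unfold clp
  rw [min_eq_right h2, max_eq_right hAB]

theorem Wf_continuousAt {n : ℕ} (hn : 2 ≤ n) (lam : ℝ) {x : ℝ} (hx : |x| < n) :
    ContinuousAt (Wf n lam) x := by
  unfold Wf
  have h1 := V2_continuousAt hn hx
  have h2 : ContinuousAt (fun x : ℝ => lam * x ^ 2) x := by fun_prop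
  exact h1.sub h2

section
variable {n : ℕ} {lam A B s : ℝ}

theorem rho_continuous (hn : 2 ≤ n) (hA : 0 ≤ A) (hAB : A ≤ B) (hB : B < n) :
    Continuous (rho n lam A B s) := by
  have hc : Continuous (clp A B) := by unfold clp; fun_prop
  have h1 : Continuous fun y => Wf n lam (clp A B y) := by
    rw [continuous_iff_continuousAt]
    intro y
    have hm := clp_mem hAB y
    have h2 : ContinuousAt (Wf n lam) (clp A B y) := Wf_continuousAt hn lam
      (abs_lt.2 ⟨by linarith [hm.1], by linarith [hm.2]⟩)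
    exact ContinuousAt.comp h2 hc.continuousAt
  unfold rho
  fun_prop

theorem rho_nonneg (hAB : A ≤ B)
    (hpos : ∀ x ∈ Icc A B, Wf n lam B - s * (B - x) ≤ Wf n lam x) (y : ℝ) :
    0 ≤ rho n lam A B s y := by
  have := hpos _ (clp_mem hAB y)
  unfold rho
  linarith

theorem rho_right (hAB : A ≤ B) {y : ℝ} (hy : B ≤ y) : rho n lam A B s y = 0 := by
  unfold rho
  rw [clp_right hAB hy]
  ring

theorem integral_rho (hn : 4 ≤ n) (hA : 0 ≤ A) (hAB : A ≤ B) (hB : B < n) :
    ∫ y in (0:ℝ)..B, rho n lam A B s |y| =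
      A * (Wf n lam A - Wf n lam B + s * (B - A)) + (Va n B - Va n A - lam * (B ^ 3 - A ^ 3) / 3
        - (B - A) * Wf n lam B + s * (B - A) ^ 2 / 2) := by
  have hc : Continuous fun y => rho n lam A B s |y| :=
    (rho_continuous (by omega) hA hAB hB).comp continuous_abs
  rw [← intervalIntegral.integral_add_adjacent_intervals (b := A)
    (hc.intervalIntegrable _ _) (hc.intervalIntegrable _ _)]
  have e1 : ∫ y in (0:ℝ)..A, rho n lam A B s |y| =
      ∫ y in (0:ℝ)..A, (Wf n lam A - Wf n lam B + s * (B - A)) := by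
    apply intervalIntegral.integral_congr
    intro y hy
    rw [uIcc_of_le hA] at hy
    simp only
    rw [abs_of_nonneg hy.1]
    unfold rho
    rw [clp_left hy.2]
  have e2 : ∫ y in A..B, rho n lam A B s |y| =
      ∫ y in A..B, (V2 n y - lam * y ^ 2 - Wf n lam B + s * (B - y)) := by
    apply intervalIntegral.integral_congr
    intro y hy
    rw [uIcc_of_le hAB] at hy
    simp only
    rw [abs_of_nonneg (hA.trans hy.1)]
    unfold rho
    rw [clp_mid hy.1 hy.2]
    unfold Wf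
    rfl
  have hF : ∀ y ∈ uIcc A B, HasDerivAt
      (fun y => Va n y - lam * (y ^ 3 / 3) - Wf n lam B * y - s * ((B - y) ^ 2 / 2))
      (V2 n y - lam * y ^ 2 - Wf n lam B + s * (B - y)) y := by
    intro y hy
    rw [uIcc_of_le hAB] at hy
    have h1 := Va_hasDeriv hn (x := y) (abs_lt.2 ⟨by linarith [hy.1], by linarith [hy.2]⟩)
    have h2 := ((hasDerivAt_pow 3 y).div_const 3).const_mul lam
    have h3 := (hasDerivAt_id y).const_mul (Wf n lam B)
    have h4 := ((((hasDerivAt_id y).const_sub B).pow 2).div_const 2).const_mul s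
    refine (((h1.sub h2).sub h3).sub h4).congr_deriv ?_
    simp only [id]
    push_cast
    ring
  have hint : IntervalIntegrable (fun y => V2 n y - lam * y ^ 2 - Wf n lam B + s * (B - y))
      volume A B := by
    apply ContinuousOn.intervalIntegrable
    intro y hy
    rw [uIcc_of_le hAB] at hy
    have h1 := V2_continuousAt (n := n) (by omega) (x := y)
      (abs_lt.2 ⟨by linarith [hy.1], by linarith [hy.2]⟩)
    have h2 : ContinuousAt (fun y : ℝ => lam * y ^ 2) y := by fun_prop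
    have h3 : ContinuousAt (fun y : ℝ => s * (B - y)) y := by fun_prop
    exact (((h1.sub h2).sub continuousAt_const).add h3).continuousWithinAt
  rw [e1, e2, intervalIntegral.integral_const, intervalIntegral.integral_eq_sub_of_hasDerivAt hF hint]
  simp only [smul_eq_mul]
  ring

theorem Mo_monotone {R : ℝ} (h0 : 0 ≤ R) (hR : R < n) (hA : 0 ≤ A) (hAB : A ≤ B)
    (hs : 0 ≤ s) (hL : MonotoneOn (Wf n lam) (Icc 0 A)) (hRr : MonotoneOn (Wf n lam) (Ico B n))
    (hB : B < n) :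
    MonotoneOn (fun x => w2 n R x - lam * x ^ 2 - rho n lam A B s |x|) (Icc 0 R) := by
  have e : ∀ x ∈ Icc 0 R, w2 n R x - lam * x ^ 2 - rho n lam A B s |x| =
      (Wf n lam (min x A) - Wf n lam A) + (Wf n lam B - s * (B - clp A B x)) +
        (Wf n lam (max x B) - Wf n lam B) := by
    intro x hx
    have hw : w2 n R x - lam * x ^ 2 = Wf n lam x := by
      unfold w2 Wf
      rw [cl_eq (abs_le.2 ⟨by linarith [hx.1], hx.2⟩)]
    rw [hw, abs_of_nonneg hx.1]
    unfold rho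
    rcases le_total x A with h1 | h1
    · rw [clp_left h1, min_eq_left h1, max_eq_right (h1.trans hAB)]
      ring
    · rcases le_total x B with h2 | h2
      · rw [clp_mid h1 h2, min_eq_right h1, max_eq_right h2]
        ring
      · rw [clp_right hAB h2, min_eq_right h1, max_eq_left h2]
        ring
  intro x hx y hy hxy
  show w2 n R x - lam * x ^ 2 - rho n lam A B s |x| ≤ w2 n R y - lam * y ^ 2 - rho n lam A B s |y|
  rw [e x hx, e y hy]
  have a1 : Wf n lam (min x A) ≤ Wf n lam (min y A) :=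
    hL ⟨le_min hx.1 hA, min_le_right _ _⟩ ⟨le_min hy.1 hA, min_le_right _ _⟩
      (min_le_min_right _ hxy)
  have a2 : clp A B x ≤ clp A B y := max_le_max_left _ (min_le_min_right _ hxy)
  have a3 : Wf n lam (max x B) ≤ Wf n lam (max y B) :=
    hRr ⟨le_max_right _ _, max_lt (hx.2.trans_lt hR) hB⟩
      ⟨le_max_right _ _, max_lt (hy.2.trans_lt hR) hB⟩ (max_le_max_right _ hxy)
  have a4 := mul_le_mul_of_nonneg_left a2 hs
  linarith

/-- **The cross-entropy inequality in the presence of a bump.** -/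
theorem ineqN_of_bump {η₀ : ℝ} (M : ℝ) (hn : 4 ≤ n) (hA : 0 ≤ A) (hAB : A ≤ B) (hB : B < n)
    (hs : 0 ≤ s) (hlam : 0 ≤ lam) (h0 : 0 < η₀) (h1 : η₀ < 1)
    (hpos : ∀ x ∈ Icc A B, Wf n lam B - s * (B - x) ≤ Wf n lam x)
    (hL : MonotoneOn (Wf n lam) (Icc 0 A)) (hRr : MonotoneOn (Wf n lam) (Ico B n))
    (hκ : A * (Wf n lam A - Wf n lam B + s * (B - A)) +
      (Va n B - Va n A - lam * (B ^ 3 - A ^ 3) / 3 - (B - A) * Wf n lam B + s * (B - A) ^ 2 / 2)
        ≤ 4 / 15 * lam * η₀ ^ 3) : IneqN n M := by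
  apply ineqN_of_step (η₀ := η₀) hn h0 h1
  intro η hη0 hη1 a b l hlen hb hbη hηa haM hl hsq hsum
  have hη : 0 < η := by linarith
  have hnpos : (0:ℝ) < n := by linarith
  have hR0 : 0 ≤ n * η := by positivity
  have hRn : n * η < n := by nlinarith
  have hc : Continuous fun y => rho n lam A B s |y| :=
    (rho_continuous (by omega) hA hAB hB).comp continuous_abs
  have hnn : ∀ y, 0 ≤ rho n lam A B s |y| := fun y => rho_nonneg hAB hpos _
  have hKmono : Monotone fun x => ∫ y in (0:ℝ)..x, rho n lam A B s |y| := by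
    apply monotone_of_deriv_nonneg
      (fun x => (hasDerivAt_primitive hc 0 x).differentiableAt)
    intro x
    rw [(hasDerivAt_primitive hc 0 x).deriv]
    exact hnn x
  have hK : ∀ x, ∫ y in (0:ℝ)..x, rho n lam A B s |y| ≤ ∫ y in (0:ℝ)..B, rho n lam A B s |y| := by
    intro x
    have h2 := hKmono (le_max_left x B)
    simp only at h2
    refine h2.trans ?_
    rw [← intervalIntegral.integral_add_adjacent_intervals (b := B)
      (hc.intervalIntegrable _ _) (hc.intervalIntegrable _ _)]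
    have e : ∫ y in B..(max x B), rho n lam A B s |y| = ∫ y in B..(max x B), (0:ℝ) := by
      apply intervalIntegral.integral_congr
      intro y hy
      rw [uIcc_of_le (le_max_right x B)] at hy
      simp only
      rw [rho_right hAB (hy.1.trans (le_abs_self y))]
    rw [e]
    simp
  rw [← integral_rho hn hA hAB hB] at hκ
  refine step_bump (X := n * η - l.sum) (lam := lam) (Rb := fun y => rho n lam A B s |y|)
    hn hR0 hRn hc (fun x => by simp only [abs_neg]) hnn hK (fun c hc => hb.trans (hl c hc).1) ?_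
    hlam hb hbη hηa ?_ (step_sum_le hlen hb hbη hηa hsq)
  · rw [sub_add_cancel]
    exact Mo_monotone hR0 hRn hA hAB hs hL hRr hB
  · refine hκ.trans ?_
    have : η₀ ^ 3 ≤ η ^ 3 := pow_le_pow_left₀ h0.le hη0.le 3
    have h4 : 0 ≤ 4 / 15 * lam := by positivity
    exact mul_le_mul_of_nonneg_left this h4

end

end Pool.Agent.Lib.MP391fb1
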