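import Pool.Agent.Lib.MP_391fb1_pr.Ect

/-!
# MP_391fb1_pr: convolution with the 9-fold B-spline is variation diminishing of order 4
-/

namespace Pool.Agent.Lib.MP391fb1

open MeasureTheory Set

theorem det_fin3_eq (M : Matrix (Fin 3) (Fin 3) ℝ) :
    M.det = d3 (M 0 0) (M 1 0) (M 2 0) (M 0 1) (M 1 1) (M 2 1) (M 0 2) (M 1 2) (M 2 2) := by
  rw [Matrix.det_fin_three]
  unfold d3
  ring

theorem det_fin4_eq (M : Matrix (Fin 4) (Fin 4) ℝ) :
    M.det = d4 (M 0 0) (M 1 0) (M 2 0) (M 3 0) (M 0 1) (M 1 1) (M 2 1) (M 3 1)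
      (M 0 2) (M 1 2) (M 2 2) (M 3 2) (M 0 3) (M 1 3) (M 2 3) (M 3 3) := by
  rw [Matrix.det_succ_row_zero, Fin.sum_univ_four]
  simp only [Matrix.det_fin_three, Matrix.submatrix_apply]
  simp [Fin.succAbove, d4, d3]
  ring

theorem det_b_pos {k : ℕ} (w : ℝ → ℝ) (hw0 : ∀ y, 0 < w y) {z : Fin k → ℝ} (hz : StrictMono z) :
    0 < (Matrix.of fun (j : Fin k) (l : Fin k) => w (z l) * (z l) ^ (j : ℕ)).det := by
  have h1 : (Matrix.of fun (j : Fin k) (l : Fin k) => w (z l) * (z l) ^ (j : ℕ))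
      = Matrix.of fun j l => w (z l) * (Matrix.vandermonde z).transpose j l := by
    ext j l; simp [Matrix.vandermonde]
  rw [h1, Matrix.det_mul_row, Matrix.det_transpose, Matrix.det_vandermonde]
  apply mul_pos (Finset.prod_pos fun i _ => hw0 _)
  apply Finset.prod_pos
  intro i _
  apply Finset.prod_pos
  intro j hj
  rw [Finset.mem_Ioi] at hj
  exact sub_pos.2 (hz hj)

theorem wronsk_pos {k : ℕ} {R P Q : ℝ} (a : Fin k → ℝ → ℝ) (w : ℝ → ℝ)
    (hw : Continuous w) (hw0 : ∀ y, 0 < w y) (ha : ∀ i, Continuous (a i))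
    (hpos : ∀ z : Fin k → ℝ, StrictMono z → (∀ l, z l ∈ Ioo P Q) →
      0 < (Matrix.of fun i l => a i (z l)).det)
    (hzero : ∀ i y, y ∉ Ioo P Q → a i y = 0)
    (hJ : max P (-R) < min Q R) :
    0 < (Matrix.of fun (i : Fin k) (j : Fin k) =>
      ∫ y in Ioo (-R) R, a i y * (w y * y ^ (j : ℕ))).det := by
  set μ := volume.restrict (Ioo (-R) R) with hμ
  set b : Fin k → ℝ → ℝ := fun j y => w y * y ^ (j : ℕ) with hb
  have hint : ∀ i j, Integrable (fun y => a i y * b j y) μ := by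
    intro i j
    have hc : Continuous fun y => a i y * b j y := by
      have := ha i
      simp only [hb]
      fun_prop
    exact (hc.continuousOn.integrableOn_compact (isCompact_Icc (a := -R) (b := R))).mono_set
      Ioo_subset_Icc_self
  obtain ⟨hI, hE⟩ := andreief a b hint
  have hfac : (0:ℝ) < ((k.factorial : ℕ) : ℝ) := by positivity
  suffices h : 0 < ∫ z : Fin k → ℝ, (Matrix.of fun i l => a i (z l)).det *
        (Matrix.of fun j l => b j (z l)).det ∂(Measure.pi fun _ => μ) by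
    rw [← hE] at h
    exact (mul_pos_iff_of_pos_left hfac).1 h
  set g : (Fin k → ℝ) → ℝ := fun z => (Matrix.of fun i l => a i (z l)).det *
        (Matrix.of fun j l => b j (z l)).det with hg
  have gpos : ∀ z : Fin k → ℝ, StrictMono z → (∀ l, z l ∈ Ioo P Q) → 0 < g z := by
    intro z hz hl
    exact mul_pos (hpos z hz hl) (det_b_pos w hw0 hz)
  have gperm : ∀ (z : Fin k → ℝ) (σ : Equiv.Perm (Fin k)), g (z ∘ σ) = g z := by
    intro z σ
    simp only [hg]
    have h1 : (Matrix.of fun i l => a i ((z ∘ σ) l))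
        = (Matrix.of fun i l => a i (z l)).submatrix id σ := by ext i j; rfl
    have h2 : (Matrix.of fun j l => b j ((z ∘ σ) l))
        = (Matrix.of fun j l => b j (z l)).submatrix id σ := by ext i j; rfl
    rw [h1, h2, Matrix.det_permute', Matrix.det_permute']
    have h3 : (((Equiv.Perm.sign σ : ℤ) : ℝ)) * ((Equiv.Perm.sign σ : ℤ) : ℝ) = 1 := by
      rw [← Int.cast_mul, ← Units.val_mul, Int.units_mul_self]
      simp
    calc _ = ((((Equiv.Perm.sign σ : ℤ) : ℝ)) * ((Equiv.Perm.sign σ : ℤ) : ℝ)) *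
        ((Matrix.of fun i l => a i (z l)).det * (Matrix.of fun j l => b j (z l)).det) := by ring
      _ = _ := by rw [h3, one_mul]
  have gnonneg : ∀ z, 0 ≤ g z := by
    intro z
    by_cases hinj : Function.Injective z
    · by_cases hl : ∀ l, z l ∈ Ioo P Q
      · rw [← gperm z (Tuple.sort z)]
        have hm : StrictMono (z ∘ Tuple.sort z) :=
          (Tuple.monotone_sort z).strictMono_of_injective (hinj.comp (Tuple.sort z).injective)
        exact (gpos _ hm fun l => hl _).le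
      · push Not at hl
        obtain ⟨l, hl⟩ := hl
        have : (Matrix.of fun i l => a i (z l)).det = 0 := by
          apply Matrix.det_eq_zero_of_column_eq_zero l
          intro i
          exact hzero i _ hl
        simp only [hg, this, zero_mul, le_refl]
    · rw [Function.not_injective_iff] at hinj
      obtain ⟨i, j, hij, hne⟩ := hinj
      have : (Matrix.of fun i l => a i (z l)).det = 0 := by
        apply Matrix.det_zero_of_column_eq hne
        intro m
        show a m (z i) = a m (z j)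
        rw [hij]
      simp only [hg, this, zero_mul, le_refl]
  rw [integral_pos_iff_support_of_nonneg gnonneg hI]
  -- a small box
  set p := max P (-R) with hp
  set q := min Q R with hq
  set ε := (q - p) / (k + 1) with hε
  have hε0 : 0 < ε := div_pos (by linarith) (by positivity)
  set box : Set (Fin k → ℝ) := Set.pi univ fun l : Fin k =>
    Ioo (p + l * ε) (p + (l + 1) * ε) with hbox
  have hsubI : ∀ l : Fin k, Ioo (p + l * ε) (p + (l + 1) * ε) ⊆ Ioo p q := by
    intro l y hy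
    constructor
    · have : (0:ℝ) ≤ l * ε := by positivity
      linarith [hy.1]
    · have h1 : ((l:ℝ) + 1) ≤ k := by exact_mod_cast l.2
      have h2 : ((l:ℝ) + 1) * ε ≤ k * ε := by gcongr
      have h3 : (k:ℝ) * ε + ε = q - p := by
        rw [hε]; field_simp
      linarith [hy.2]
  have hbs : box ⊆ Function.support g := by
    intro z hz
    have hz' : ∀ l : Fin k, z l ∈ Ioo (p + l * ε) (p + (l + 1) * ε) := fun l => hz l (mem_univ l)
    apply ne_of_gt
    apply gpos
    · intro i j hij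
      have h1 : ((i:ℝ) + 1) ≤ j := by exact_mod_cast hij
      have h2 : ((i:ℝ) + 1) * ε ≤ j * ε := by gcongr
      linarith [(hz' i).2, (hz' j).1]
    · intro l
      have := hsubI l (hz' l)
      exact ⟨(le_max_left _ _).trans_lt this.1, this.2.trans_le (min_le_left _ _)⟩
  refine lt_of_lt_of_le ?_ (measure_mono hbs)
  rw [hbox, Measure.pi_pi]
  apply CanonicallyOrderedAdd.prod_pos.2
  intro l _
  rw [hμ, Measure.restrict_apply measurableSet_Ioo]
  have : Ioo (p + l * ε) (p + (l + 1) * ε) ∩ Ioo (-R) R = Ioo (p + l * ε) (p + (l + 1) * ε) := by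
    apply inter_eq_left.2
    intro y hy
    have := hsubI l hy
    exact ⟨(le_max_right _ _).trans_lt this.1, this.2.trans_le (min_le_right _ _)⟩
  rw [this, Real.volume_Ioo, ENNReal.ofReal_pos]
  linarith

theorem hasDerivAt_conv {f f' g : ℝ → ℝ} (hf : ∀ x, HasDerivAt f (f' x) x)
    (hf' : Continuous f') (hg : Continuous g) {R : ℝ} (hR : 0 ≤ R) (x : ℝ) :
    HasDerivAt (fun x => ∫ y in (-R)..R, f (x - y) * g y)
      (∫ y in (-R)..R, f' (x - y) * g y) x := by
  have hfc : Continuous f := continuous_iff_continuousAt.2 fun y => (hf y).continuousAt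
  -- bound
  have hcomp : IsCompact (Icc (x - 1) (x + 1) ×ˢ Icc (-R) R) := isCompact_Icc.prod isCompact_Icc
  have hc2 : Continuous fun p : ℝ × ℝ => f' (p.1 - p.2) * g p.2 := by fun_prop
  obtain ⟨C, hC⟩ := hcomp.exists_bound_of_continuousOn hc2.continuousOn
  have h := intervalIntegral.hasDerivAt_integral_of_dominated_loc_of_deriv_le
    (μ := volume) (a := -R) (b := R) (F := fun x y => f (x - y) * g y)
    (F' := fun x y => f' (x - y) * g y) (x₀ := x) (s := Icc (x - 1) (x + 1))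
    (bound := fun _ => C)
    (Icc_mem_nhds (by linarith) (by linarith))
    (Filter.Eventually.of_forall fun z =>
      (by fun_prop : Continuous fun y => f (z - y) * g y).aestronglyMeasurable)
    ((by fun_prop : Continuous fun y => f (x - y) * g y).intervalIntegrable _ _)
    ((by fun_prop : Continuous fun y => f' (x - y) * g y).aestronglyMeasurable)
    (Filter.Eventually.of_forall fun y hy z hz => hC (z, y) ⟨hz, by
      rw [uIoc_of_le (by linarith)] at hy
      exact Ioc_subset_Icc_self hy⟩)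
    (continuous_const.intervalIntegrable _ _)
    (Filter.Eventually.of_forall fun y _ z _ => by
      have := (hf (z - y)).comp_sub_const z y
      exact this.mul_const (g y))
  exact h.2

/-- the positivity of the Hankel determinants of `bs 9` of orders `≤ 4` -/
def D9 : Prop := ∀ x : ℝ, |x| < 9 →
  0 < bs 9 0 x * (- bs 9 2 x) - (- bs 9 1 x) * bs 9 1 x ∧
  0 < d3 (bs 9 0 x) (bs 9 1 x) (bs 9 2 x) (- bs 9 1 x) (- bs 9 2 x) (- bs 9 3 x)
    (bs 9 2 x) (bs 9 3 x) (bs 9 4 x) ∧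
  0 < d4 (bs 9 0 x) (bs 9 1 x) (bs 9 2 x) (bs 9 3 x)
    (- bs 9 1 x) (- bs 9 2 x) (- bs 9 3 x) (- bs 9 4 x)
    (bs 9 2 x) (bs 9 3 x) (bs 9 4 x) (bs 9 5 x)
    (- bs 9 3 x) (- bs 9 4 x) (- bs 9 5 x) (- bs 9 6 x)

theorem bs9_deriv (i : ℕ) (hi : i ≤ 6) (x y : ℝ) :
    HasDerivAt (fun y => bs 9 i (x - y)) (- bs 9 (i + 1) (x - y)) y := by
  have h1 : HasDerivAt (fun y : ℝ => x - y) (-1) y := by
    simpa using (hasDerivAt_id y).const_sub x
  have := HasDerivAt.comp (h₂ := bs 9 i) (h := fun y => x - y) y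
    (bs_hasDerivAt (n := 9) (i := i) (by omega) (x - y)) h1
  exact this.congr_deriv (by ring)

theorem bs9_deriv' (i : ℕ) (hi : i ≤ 6) (x y : ℝ) :
    HasDerivAt (fun y => - bs 9 i (x - y)) (bs 9 (i + 1) (x - y)) y := by
  exact (bs9_deriv i hi x y).fun_neg.congr_deriv (by ring)

theorem mem_window {x y : ℝ} : y ∈ Ioo (x - 9) (x + 9) ↔ |x - y| < 9 := by
  rw [abs_lt]; constructor
  · rintro ⟨h1, h2⟩; constructor <;> linarith
  · rintro ⟨h1, h2⟩; constructor <;> linarith

theorem bs9_zero (i : ℕ) (hi : i ≤ 7) {x y : ℝ} (h : y ∉ Ioo (x - 9) (x + 9)) :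
    bs 9 i (x - y) = 0 := by
  apply bs_zero' (by omega)
  rw [mem_window, not_lt] at h
  exact_mod_cast h

/-- one-sided confluent minors -/
theorem minor2 (hD : D9) (x : ℝ) {y1 y2 : ℝ} (h1 : y1 ∈ Ioo (x - 9) (x + 9))
    (h2 : y2 ∈ Ioo (x - 9) (x + 9)) (h12 : y1 < y2) :
    0 < bs 9 0 (x - y1) * bs 9 1 (x - y2) - bs 9 1 (x - y1) * bs 9 0 (x - y2) := by
  refine ect2 (p := x - 9) (q := x + 9) (f := fun y => bs 9 0 (x - y)) (g := fun y => bs 9 1 (x - y))
    (f' := fun y => - bs 9 1 (x - y)) (g' := fun y => - bs 9 2 (x - y))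
    (fun y _ => bs9_deriv 0 (by norm_num) x y) (fun y _ => bs9_deriv 1 (by norm_num) x y)
    (fun y hy => bs_pos (by norm_num) (by exact_mod_cast mem_window.1 hy))
    (fun y hy => (hD _ (mem_window.1 hy)).1) h1 h2 h12

theorem minor3 (hD : D9) (x : ℝ) {y1 y2 y3 : ℝ} (h1 : y1 ∈ Ioo (x - 9) (x + 9))
    (h3 : y3 ∈ Ioo (x - 9) (x + 9)) (h12 : y1 < y2) (h23 : y2 < y3) :
    0 < d3 (bs 9 0 (x - y1)) (bs 9 1 (x - y1)) (bs 9 2 (x - y1))
      (bs 9 0 (x - y2)) (bs 9 1 (x - y2)) (bs 9 2 (x - y2))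
      (bs 9 0 (x - y3)) (bs 9 1 (x - y3)) (bs 9 2 (x - y3)) := by
  refine ect3 (p := x - 9) (q := x + 9) (f := fun y => bs 9 0 (x - y)) (g := fun y => bs 9 1 (x - y))
    (h := fun y => bs 9 2 (x - y))
    (f1 := fun y => - bs 9 1 (x - y)) (g1 := fun y => - bs 9 2 (x - y))
    (h1 := fun y => - bs 9 3 (x - y))
    (f2 := fun y => bs 9 2 (x - y)) (g2 := fun y => bs 9 3 (x - y))
    (h2 := fun y => bs 9 4 (x - y))
    (fun y _ => bs9_deriv 0 (by norm_num) x y) (fun y _ => bs9_deriv 1 (by norm_num) x y)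
    (fun y _ => bs9_deriv 2 (by norm_num) x y)
    (fun y _ => bs9_deriv' 1 (by norm_num) x y) (fun y _ => bs9_deriv' 2 (by norm_num) x y)
    (fun y _ => bs9_deriv' 3 (by norm_num) x y)
    (fun y hy => bs_pos (by norm_num) (by exact_mod_cast mem_window.1 hy))
    (fun y hy => (hD _ (mem_window.1 hy)).1) (fun y hy => (hD _ (mem_window.1 hy)).2.1)
    h1 h3 h12 h23

theorem minor4 (hD : D9) (x : ℝ) {y1 y2 y3 y4 : ℝ} (h1 : y1 ∈ Ioo (x - 9) (x + 9))
    (h4 : y4 ∈ Ioo (x - 9) (x + 9)) (h12 : y1 < y2) (h23 : y2 < y3) (h34 : y3 < y4) :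
    0 < d4 (bs 9 0 (x - y1)) (bs 9 1 (x - y1)) (bs 9 2 (x - y1)) (bs 9 3 (x - y1))
      (bs 9 0 (x - y2)) (bs 9 1 (x - y2)) (bs 9 2 (x - y2)) (bs 9 3 (x - y2))
      (bs 9 0 (x - y3)) (bs 9 1 (x - y3)) (bs 9 2 (x - y3)) (bs 9 3 (x - y3))
      (bs 9 0 (x - y4)) (bs 9 1 (x - y4)) (bs 9 2 (x - y4)) (bs 9 3 (x - y4)) := by
  refine ect4 (p := x - 9) (q := x + 9) (f := fun y => bs 9 0 (x - y)) (g := fun y => bs 9 1 (x - y))
    (h := fun y => bs 9 2 (x - y)) (k := fun y => bs 9 3 (x - y))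
    (f1 := fun y => - bs 9 1 (x - y)) (g1 := fun y => - bs 9 2 (x - y))
    (h1 := fun y => - bs 9 3 (x - y)) (k1 := fun y => - bs 9 4 (x - y))
    (f2 := fun y => bs 9 2 (x - y)) (g2 := fun y => bs 9 3 (x - y))
    (h2 := fun y => bs 9 4 (x - y)) (k2 := fun y => bs 9 5 (x - y))
    (f3 := fun y => - bs 9 3 (x - y)) (g3 := fun y => - bs 9 4 (x - y))
    (h3 := fun y => - bs 9 5 (x - y)) (k3 := fun y => - bs 9 6 (x - y))
    (fun y _ => bs9_deriv 0 (by norm_num) x y) (fun y _ => bs9_deriv 1 (by norm_num) x y)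
    (fun y _ => bs9_deriv 2 (by norm_num) x y) (fun y _ => bs9_deriv 3 (by norm_num) x y)
    (fun y _ => bs9_deriv' 1 (by norm_num) x y) (fun y _ => bs9_deriv' 2 (by norm_num) x y)
    (fun y _ => bs9_deriv' 3 (by norm_num) x y) (fun y _ => bs9_deriv' 4 (by norm_num) x y)
    (fun y _ => bs9_deriv 2 (by norm_num) x y) (fun y _ => bs9_deriv 3 (by norm_num) x y)
    (fun y _ => bs9_deriv 4 (by norm_num) x y) (fun y _ => bs9_deriv 5 (by norm_num) x y)
    (fun y hy => bs_pos (by norm_num) (by exact_mod_cast mem_window.1 hy))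
    (fun y hy => (hD _ (mem_window.1 hy)).1) (fun y hy => (hD _ (mem_window.1 hy)).2.1)
    (fun y hy => (hD _ (mem_window.1 hy)).2.2)
    h1 h4 h12 h23 h34

end Pool.Agent.Lib.MP391fb1
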