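import Pool.Agent.Lib.MP_391fb1_pr.Poly
import Pool.Agent.Lib.MP_391fb1_pr.VD

/-!
# MP_391fb1_pr: certificates (Bernstein coefficients), checked by the kernel
-/

namespace Pool.Agent.Lib.MP391fb1

open Set

/-- the list polynomial of `f² f''' - 3 f f' f'' + 2 f'³` -/
def eL (n j r : ℕ) : List ℤ :=
  let p0 := pL n 0 j r
  let p1 := pL n 1 j r
  let p2 := pL n 2 j r
  let p3 := pL n 3 j r
  let N : ℤ := (n - 1 : ℕ)
  addL (smulL ((N - 1) * (N - 2)) (mulL (mulL p0 p0) p3))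
    (addL (smulL (-3 * N * (N - 1)) (mulL (mulL p0 p1) p2))
      (smulL (2 * N ^ 2) (mulL (mulL p1 p1) p1)))

def checkE (n : ℕ) : Bool :=
  (List.range (n / 2)).all (fun j => allNN (eL n j 2)) && (n % 2 == 0 || allNN (eL n (n / 2) 1))

theorem checkE7 : checkE 7 = true := by decide +kernel
theorem checkE8 : checkE 8 = true := by decide +kernel
theorem checkE9 : checkE 9 = true := by decide +kernel
theorem checkE10 : checkE 10 = true := by decide +kernel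
theorem checkE11 : checkE 11 = true := by decide +kernel
theorem checkE12 : checkE 12 = true := by decide +kernel
theorem checkE13 : checkE 13 = true := by decide +kernel
theorem checkE14 : checkE 14 = true := by decide +kernel
theorem checkE15 : checkE 15 = true := by decide +kernel

/-- scaled list polynomial of the `m`-th derivative of `bs 9 0` -/
def gL (j m : ℕ) : List ℤ := smulL ((Nat.descFactorial 8 m : ℕ) : ℤ) (pL 9 m j 2)

def subL (a b : List ℤ) : List ℤ := addL a (smulL (-1) b)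

@[simp] theorem ev_subL (l m : List ℤ) (y : ℝ) : ev (subL l m) y = ev l y - ev m y := by
  simp [subL]; ring

def d3L (a1 a2 a3 b1 b2 b3 c1 c2 c3 : List ℤ) : List ℤ :=
  addL (subL (mulL a1 (subL (mulL b2 c3) (mulL b3 c2))) (mulL a2 (subL (mulL b1 c3) (mulL b3 c1))))
    (mulL a3 (subL (mulL b1 c2) (mulL b2 c1)))

theorem ev_d3L (a1 a2 a3 b1 b2 b3 c1 c2 c3 : List ℤ) (y : ℝ) :
    ev (d3L a1 a2 a3 b1 b2 b3 c1 c2 c3) y = d3 (ev a1 y) (ev a2 y) (ev a3 y) (ev b1 y) (ev b2 y)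
      (ev b3 y) (ev c1 y) (ev c2 y) (ev c3 y) := by
  simp [d3L, d3]

def d4L (a1 a2 a3 a4 b1 b2 b3 b4 c1 c2 c3 c4 e1 e2 e3 e4 : List ℤ) : List ℤ :=
  addL (subL (subL (mulL b4 (d3L a1 a2 a3 c1 c2 c3 e1 e2 e3)) (mulL a4 (d3L b1 b2 b3 c1 c2 c3 e1 e2 e3)))
    (mulL c4 (d3L a1 a2 a3 b1 b2 b3 e1 e2 e3))) (mulL e4 (d3L a1 a2 a3 b1 b2 b3 c1 c2 c3))

theorem ev_d4L (a1 a2 a3 a4 b1 b2 b3 b4 c1 c2 c3 c4 e1 e2 e3 e4 : List ℤ) (y : ℝ) :
    ev (d4L a1 a2 a3 a4 b1 b2 b3 b4 c1 c2 c3 c4 e1 e2 e3 e4) y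
      = d4 (ev a1 y) (ev a2 y) (ev a3 y) (ev a4 y) (ev b1 y) (ev b2 y)
      (ev b3 y) (ev b4 y) (ev c1 y) (ev c2 y) (ev c3 y) (ev c4 y)
      (ev e1 y) (ev e2 y) (ev e3 y) (ev e4 y) := by
  simp only [d4L, d4, ev_addL, ev_subL, ev_mulL, ev_d3L]
  ring

def D2L (j : ℕ) : List ℤ := subL (mulL (gL j 1) (gL j 1)) (mulL (gL j 0) (gL j 2))

def D3L (j : ℕ) : List ℤ :=
  smulL (-1) (d3L (gL j 0) (gL j 1) (gL j 2) (gL j 1) (gL j 2) (gL j 3) (gL j 2) (gL j 3) (gL j 4))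

def D4L (j : ℕ) : List ℤ :=
  d4L (gL j 0) (gL j 1) (gL j 2) (gL j 3) (gL j 1) (gL j 2) (gL j 3) (gL j 4)
    (gL j 2) (gL j 3) (gL j 4) (gL j 5) (gL j 3) (gL j 4) (gL j 5) (gL j 6)

def checkD (j : ℕ) : Bool :=
  (allNN (D2L j) && (allNN (D3L j) && allNN (D4L j))) &&
  ((if j = 0 then anyPos (D2L j) else headPos (D2L j)) &&
   ((if j = 0 then anyPos (D3L j) else headPos (D3L j)) &&
    (if j = 0 then anyPos (D4L j) else headPos (D4L j))))

theorem checkD0 : checkD 0 = true := by decide +kernel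
theorem checkD1 : checkD 1 = true := by decide +kernel
theorem checkD2 : checkD 2 = true := by decide +kernel
theorem checkD3 : checkD 3 = true := by decide +kernel
theorem checkD4 : checkD 4 = true := by decide +kernel

end Pool.Agent.Lib.MP391fb1
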