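import Pool.Agent.Lib.MP_391fb1_pr.Cert

/-!
# MP_391fb1_pr: consequences of the certificates
-/

namespace Pool.Agent.Lib.MP391fb1

open Set

theorem bs_parity {n i : ℕ} (h : i + 2 ≤ n) (x : ℝ) : bs n i (-x) = (-1) ^ i * bs n i x := by
  induction i generalizing n x with
  | zero => rw [bs_even (by omega)]; simp
  | succ i ih =>
    obtain ⟨m, rfl⟩ : ∃ m, n = m + 1 := ⟨n - 1, by omega⟩
    rw [bs_succ_eq (by omega), bs_succ_eq (by omega)]
    have e1 : -x + 1 = -(x - 1) := by ring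
    have e2 : -x - 1 = -(x + 1) := by ring
    rw [e1, e2, ih (by omega), ih (by omega)]
    ring

/-- covering of `(-n, …)` by knot intervals of length `2` -/
theorem exists_knot {n : ℕ} {x : ℝ} (h1 : -(n:ℝ) < x) :
    ∃ (j : ℕ) (s : ℝ), 0 ≤ s ∧ s < 1 ∧ x = -(n:ℝ) + 2 * j + (2:ℕ) * s ∧ (j = 0 → 0 < s) := by
  refine ⟨⌊(x + n) / 2⌋₊, (x + n) / 2 - ⌊(x + n) / 2⌋₊, ?_, ?_, ?_, ?_⟩
  · have := Nat.floor_le (show 0 ≤ (x + n) / 2 by linarith)
    linarith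
  · have := Nat.lt_floor_add_one ((x + n) / 2)
    linarith
  · push_cast
    ring
  · intro h
    rw [h]
    push_cast
    linarith

theorem scale9 {m j : ℕ} (hm : m ≤ 6) (hj : j ≤ 9) {s : ℝ} (hs : 0 ≤ s) (hs1 : s < 1) :
    bs 9 m (-((9:ℕ):ℝ) + 2 * j + (2:ℕ) * s) = (1 / (2 ^ 9 * (Nat.factorial 8 : ℕ)) : ℝ) *
      ((1 - s) ^ (8 - m) * ev (gL j m) (s / (1 - s))) := by
  rw [bs_interval (by omega) hj le_rfl hs hs1, gL, ev_smulL]
  have h1 : 9 - 1 - m = 8 - m := by omega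
  rw [h1]
  have h2 : ((8 - m).factorial : ℝ) * (Nat.descFactorial 8 m : ℕ) = (Nat.factorial 8 : ℕ) := by
    exact_mod_cast Nat.factorial_mul_descFactorial (by omega : m ≤ 8)
  have h3 : ((8 - m).factorial : ℝ) ≠ 0 := by positivity
  rw [← h2]
  have h4 : ((Nat.descFactorial 8 m : ℕ) : ℝ) ≠ 0 := by
    have : Nat.descFactorial 8 m ≠ 0 := by
      rw [Ne, Nat.descFactorial_eq_zero_iff_lt]; omega
    exact_mod_cast this
  push_cast
  field_simp

theorem D9_left {x : ℝ} (h1 : -9 < x) (h2 : x < 1) :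
  0 < bs 9 0 x * (- bs 9 2 x) - (- bs 9 1 x) * bs 9 1 x ∧
  0 < d3 (bs 9 0 x) (bs 9 1 x) (bs 9 2 x) (- bs 9 1 x) (- bs 9 2 x) (- bs 9 3 x)
    (bs 9 2 x) (bs 9 3 x) (bs 9 4 x) ∧
  0 < d4 (bs 9 0 x) (bs 9 1 x) (bs 9 2 x) (bs 9 3 x)
    (- bs 9 1 x) (- bs 9 2 x) (- bs 9 3 x) (- bs 9 4 x)
    (bs 9 2 x) (bs 9 3 x) (bs 9 4 x) (bs 9 5 x)
    (- bs 9 3 x) (- bs 9 4 x) (- bs 9 5 x) (- bs 9 6 x) := by
  obtain ⟨j, s, hs, hs1, hx, hj0⟩ := exists_knot (n := 9) (by push_cast; exact h1)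
  have hj : j ≤ 4 := by
    by_contra hc
    have : (5:ℝ) ≤ j := by exact_mod_cast (by omega : 5 ≤ j)
    rw [hx] at h2
    push_cast at h2
    linarith
  have hchk : checkD j = true := by
    have hh : j = 0 ∨ j = 1 ∨ j = 2 ∨ j = 3 ∨ j = 4 := by omega
    rcases hh with rfl | rfl | rfl | rfl | rfl
    · exact checkD0
    · exact checkD1
    · exact checkD2
    · exact checkD3
    · exact checkD4
  unfold checkD at hchk
  simp only [Bool.and_eq_true] at hchk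
  obtain ⟨⟨c2, c3, c4⟩, e2, e3, e4⟩ := hchk
  have hu : 0 < 1 - s := by linarith
  set y := s / (1 - s) with hy
  have hy0 : 0 ≤ y := div_nonneg hs hu.le
  have pos : ∀ L : List ℤ, allNN L = true → (if j = 0 then anyPos L else headPos L) = true →
      0 < ev L y := by
    intro L hL hL'
    split_ifs at hL' with h0
    · exact ev_pos' hL hL' (div_pos (hj0 h0) hu)
    · exact ev_pos hL hL' hy0
  have p2 := pos _ c2 e2
  have p3 := pos _ c3 e3
  have p4 := pos _ c4 e4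
  rw [D2L, ev_subL, ev_mulL, ev_mulL] at p2
  rw [D3L, ev_smulL, ev_d3L] at p3
  rw [D4L, ev_d4L] at p4
  rw [hx, scale9 (m := 0) (by omega) (by omega) hs hs1, scale9 (m := 1) (by omega) (by omega) hs hs1,
    scale9 (m := 2) (by omega) (by omega) hs hs1, scale9 (m := 3) (by omega) (by omega) hs hs1,
    scale9 (m := 4) (by omega) (by omega) hs hs1, scale9 (m := 5) (by omega) (by omega) hs hs1,
    scale9 (m := 6) (by omega) (by omega) hs hs1]
  have hκ : (0:ℝ) < 1 / (2 ^ 9 * (Nat.factorial 8 : ℕ)) := by positivity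
  rw [← hy]
  generalize (1 / (2 ^ 9 * (Nat.factorial 8 : ℕ)) : ℝ) = κ at hκ ⊢
  generalize (1 - s) = u at hu ⊢
  generalize ev (gL j 0) y = g0 at p2 p3 p4 ⊢
  generalize ev (gL j 1) y = g1 at p2 p3 p4 ⊢
  generalize ev (gL j 2) y = g2 at p2 p3 p4 ⊢
  generalize ev (gL j 3) y = g3 at p2 p3 p4 ⊢
  generalize ev (gL j 4) y = g4 at p2 p3 p4 ⊢
  generalize ev (gL j 5) y = g5 at p2 p3 p4 ⊢
  generalize ev (gL j 6) y = g6 at p2 p3 p4 ⊢
  refine ⟨?_, ?_, ?_⟩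
  · have : κ * (u ^ (8 - 0) * g0) * -(κ * (u ^ (8 - 2) * g2)) -
      -(κ * (u ^ (8 - 1) * g1)) * (κ * (u ^ (8 - 1) * g1)) = κ ^ 2 * u ^ 14 * (g1 * g1 - g0 * g2) := by
      norm_num
      ring
    rw [this]
    positivity
  · have : d3 (κ * (u ^ (8 - 0) * g0)) (κ * (u ^ (8 - 1) * g1)) (κ * (u ^ (8 - 2) * g2))
        (-(κ * (u ^ (8 - 1) * g1))) (-(κ * (u ^ (8 - 2) * g2))) (-(κ * (u ^ (8 - 3) * g3)))
        (κ * (u ^ (8 - 2) * g2)) (κ * (u ^ (8 - 3) * g3)) (κ * (u ^ (8 - 4) * g4))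
        = κ ^ 3 * u ^ 18 * ((((-1 : ℤ) : ℝ)) * d3 g0 g1 g2 g1 g2 g3 g2 g3 g4) := by
      unfold d3
      norm_num
      ring
    rw [this]
    positivity
  · have : d4 (κ * (u ^ (8 - 0) * g0)) (κ * (u ^ (8 - 1) * g1)) (κ * (u ^ (8 - 2) * g2))
        (κ * (u ^ (8 - 3) * g3))
        (-(κ * (u ^ (8 - 1) * g1))) (-(κ * (u ^ (8 - 2) * g2))) (-(κ * (u ^ (8 - 3) * g3)))
        (-(κ * (u ^ (8 - 4) * g4)))
        (κ * (u ^ (8 - 2) * g2)) (κ * (u ^ (8 - 3) * g3)) (κ * (u ^ (8 - 4) * g4))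
        (κ * (u ^ (8 - 5) * g5))
        (-(κ * (u ^ (8 - 3) * g3))) (-(κ * (u ^ (8 - 4) * g4))) (-(κ * (u ^ (8 - 5) * g5)))
        (-(κ * (u ^ (8 - 6) * g6)))
        = κ ^ 4 * u ^ 20 * d4 g0 g1 g2 g3 g1 g2 g3 g4 g2 g3 g4 g5 g3 g4 g5 g6 := by
      unfold d4 d3
      norm_num
      ring
    rw [this]
    positivity

theorem D9_holds : D9 := by
  intro x hx
  rw [abs_lt] at hx
  rcases lt_or_ge x 1 with h | h
  · exact D9_left hx.1 h
  · have := D9_left (x := -x) (by linarith [hx.2]) (by linarith)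
    rw [bs_parity (n := 9) (i := 0) (by norm_num), bs_parity (n := 9) (i := 1) (by norm_num),
      bs_parity (n := 9) (i := 2) (by norm_num), bs_parity (n := 9) (i := 3) (by norm_num),
      bs_parity (n := 9) (i := 4) (by norm_num), bs_parity (n := 9) (i := 5) (by norm_num),
      bs_parity (n := 9) (i := 6) (by norm_num)] at this
    obtain ⟨t1, t2, t3⟩ := this
    refine ⟨?_, ?_, ?_⟩
    · linarith
    · unfold d3 at t2 ⊢
      linarith
    · unfold d4 d3 at t3 ⊢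
      linarith

end Pool.Agent.Lib.MP391fb1
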