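import Mathlib

/-!
# MP_391fb1_pr: definitions

`T c φ x = E φ(x + c U)` with `U` uniform on `[-1,1]`; `Ex l φ x = E φ(x + ∑ c_i U_i)`.
`bs n i` is the `i`-th derivative of the density of `U_1 + … + U_n` (truncated power formula).
-/

namespace Pool.Agent.Lib.MP391fb1

open MeasureTheory Set

/-- `T c φ x = E φ(x + c U)`, `U` uniform on `[-1,1]`. -/
noncomputable def T (c : ℝ) (φ : ℝ → ℝ) (x : ℝ) : ℝ :=
  (1/2) * ∫ u in (-1:ℝ)..1, φ (x + c * u)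

/-- `Ex l φ x = E φ(x + ∑_{c ∈ l} c U_c)`. -/
noncomputable def Ex (l : List ℝ) (φ : ℝ → ℝ) : ℝ → ℝ := l.foldr T φ

/-- the `i`-th derivative of the density of `U_1 + … + U_n` (for `i + 2 ≤ n`). -/
noncomputable def bs (n i : ℕ) (x : ℝ) : ℝ :=
  (1 / (2 ^ n * ((n - 1 - i).factorial : ℝ))) *
    ∑ k ∈ Finset.range (n + 1),
      (-1 : ℝ) ^ k * (n.choose k : ℝ) * (max (x + n - 2 * k) 0) ^ (n - 1 - i)

/-- `V n = - log` of the density of `U_1 + … + U_n`. -/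
noncomputable def V (n : ℕ) (x : ℝ) : ℝ := - Real.log (bs n 0 x)

/-- the derivative of `V n` on `(-n,n)`, `n ≥ 3`. -/
noncomputable def Va (n : ℕ) (x : ℝ) : ℝ := - bs n 1 x / bs n 0 x

/-- the second derivative of `V n` on `(-n,n)`, `n ≥ 4`. -/
noncomputable def V2 (n : ℕ) (x : ℝ) : ℝ :=
  ((bs n 1 x) ^ 2 - bs n 0 x * bs n 2 x) / (bs n 0 x) ^ 2

/-- The cross-entropy inequality for `n` weights bounded by `M` (slightly scaled down, so that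
all sums stay in a compact subset of `(-n,n)`). -/
def IneqN (n : ℕ) (M : ℝ) : Prop :=
  ∃ η₀ : ℝ, 0 < η₀ ∧ η₀ < 1 ∧ ∀ η, η₀ < η → η < 1 → ∀ l : List ℝ, l.length = n →
    (∀ c ∈ l, 0 ≤ c ∧ c ≤ M) → (l.map (fun c => c ^ 2)).sum = n * η ^ 2 →
    Ex l (V n) 0 ≤ Ex (List.replicate n η) (V n) 0

end Pool.Agent.Lib.MP391fb1
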