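import Pool.Agent.Lib.MP_391fb1_pr.Bs2

/-!
# MP_391fb1_pr: extended complete Chebyshev systems of order ≤ 4 and the Andréief identity
-/

namespace Pool.Agent.Lib.MP391fb1

open MeasureTheory Set

/-- 3×3 determinant, rows `(a1,a2,a3)`, … -/
def d3 (a1 a2 a3 b1 b2 b3 c1 c2 c3 : ℝ) : ℝ :=
  a1 * (b2 * c3 - b3 * c2) - a2 * (b1 * c3 - b3 * c1) + a3 * (b1 * c2 - b2 * c1)

/-- 4×4 determinant, expanded along the last column -/
def d4 (a1 a2 a3 a4 b1 b2 b3 b4 c1 c2 c3 c4 e1 e2 e3 e4 : ℝ) : ℝ :=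
  - a4 * d3 b1 b2 b3 c1 c2 c3 e1 e2 e3 + b4 * d3 a1 a2 a3 c1 c2 c3 e1 e2 e3
    - c4 * d3 a1 a2 a3 b1 b2 b3 e1 e2 e3 + e4 * d3 a1 a2 a3 b1 b2 b3 c1 c2 c3

theorem ect2 {p q : ℝ} {f g f' g' : ℝ → ℝ}
    (hf : ∀ x ∈ Ioo p q, HasDerivAt f (f' x) x) (hg : ∀ x ∈ Ioo p q, HasDerivAt g (g' x) x)
    (h1 : ∀ x ∈ Ioo p q, 0 < f x) (h2 : ∀ x ∈ Ioo p q, 0 < f x * g' x - f' x * g x)
    {x y : ℝ} (hx : x ∈ Ioo p q) (hy : y ∈ Ioo p q) (hxy : x < y) :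
    0 < f x * g y - g x * f y := by
  have hd : ∀ z ∈ Ioo p q, HasDerivAt (fun z => g z / f z)
      ((f z * g' z - f' z * g z) / (f z) ^ 2) z := by
    intro z hz
    refine ((hg z hz).div (hf z hz) (h1 z hz).ne').congr_deriv ?_
    ring
  have hmono : StrictMonoOn (fun z => g z / f z) (Ioo p q) := by
    apply strictMonoOn_of_deriv_pos (convex_Ioo p q)
    · intro z hz
      exact (hd z hz).continuousAt.continuousWithinAt
    · intro z hz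
      rw [interior_Ioo] at hz
      rw [(hd z hz).deriv]
      have := h1 z hz
      have := h2 z hz
      positivity
  have := hmono hx hy hxy
  simp only at this
  rw [div_lt_div_iff₀ (h1 x hx) (h1 y hy)] at this
  linarith

theorem exists_mvt2 {p q : ℝ} {ρ σ ρ' σ' : ℝ → ℝ}
    (hρ : ∀ x ∈ Ioo p q, HasDerivAt ρ (ρ' x) x) (hσ : ∀ x ∈ Ioo p q, HasDerivAt σ (σ' x) x)
    {x y : ℝ} (hx : x ∈ Ioo p q) (hy : y ∈ Ioo p q) (hxy : x < y) (α β : ℝ) :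
    ∃ ξ ∈ Ioo x y, α * (ρ y - ρ x) + β * (σ y - σ x) = (y - x) * (α * ρ' ξ + β * σ' ξ) := by
  have hsub : Icc x y ⊆ Ioo p q := fun z hz => ⟨hx.1.trans_le hz.1, hz.2.trans_lt hy.2⟩
  have hd : ∀ z ∈ Ioo p q, HasDerivAt (fun z => α * ρ z + β * σ z) (α * ρ' z + β * σ' z) z :=
    fun z hz => ((hρ z hz).const_mul α).add ((hσ z hz).const_mul β)
  obtain ⟨ξ, hξ, e⟩ := exists_hasDerivAt_eq_slope (fun z => α * ρ z + β * σ z)
    (fun z => α * ρ' z + β * σ' z) hxy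
    (fun z hz => (hd z (hsub hz)).continuousAt.continuousWithinAt)
    (fun z hz => hd z (hsub (Ioo_subset_Icc_self hz)))
  refine ⟨ξ, hξ, ?_⟩
  rw [eq_div_iff (by linarith)] at e
  linarith

theorem exists_mvt3 {p q : ℝ} {ρ σ τ ρ' σ' τ' : ℝ → ℝ}
    (hρ : ∀ x ∈ Ioo p q, HasDerivAt ρ (ρ' x) x) (hσ : ∀ x ∈ Ioo p q, HasDerivAt σ (σ' x) x)
    (hτ : ∀ x ∈ Ioo p q, HasDerivAt τ (τ' x) x)
    {x y : ℝ} (hx : x ∈ Ioo p q) (hy : y ∈ Ioo p q) (hxy : x < y) (α β γ : ℝ) :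
    ∃ ξ ∈ Ioo x y, α * (ρ y - ρ x) + β * (σ y - σ x) + γ * (τ y - τ x)
      = (y - x) * (α * ρ' ξ + β * σ' ξ + γ * τ' ξ) := by
  have h := exists_mvt2 (ρ := fun z => α * ρ z + β * σ z) (ρ' := fun z => α * ρ' z + β * σ' z)
    (fun z hz => ((hρ z hz).const_mul α).add ((hσ z hz).const_mul β)) hτ hx hy hxy 1 γ
  obtain ⟨ξ, hξ, e⟩ := h
  refine ⟨ξ, hξ, ?_⟩
  linarith

theorem ect3 {p q : ℝ} {f g h f1 g1 h1 f2 g2 h2 : ℝ → ℝ}
    (hf : ∀ x ∈ Ioo p q, HasDerivAt f (f1 x) x) (hg : ∀ x ∈ Ioo p q, HasDerivAt g (g1 x) x)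
    (hh : ∀ x ∈ Ioo p q, HasDerivAt h (h1 x) x)
    (hf1 : ∀ x ∈ Ioo p q, HasDerivAt f1 (f2 x) x) (hg1 : ∀ x ∈ Ioo p q, HasDerivAt g1 (g2 x) x)
    (hh1 : ∀ x ∈ Ioo p q, HasDerivAt h1 (h2 x) x)
    (w1 : ∀ x ∈ Ioo p q, 0 < f x) (w2 : ∀ x ∈ Ioo p q, 0 < f x * g1 x - f1 x * g x)
    (w3 : ∀ x ∈ Ioo p q, 0 < d3 (f x) (g x) (h x) (f1 x) (g1 x) (h1 x) (f2 x) (g2 x) (h2 x))
    {x y z : ℝ} (hx : x ∈ Ioo p q) (hz : z ∈ Ioo p q) (hxy : x < y) (hyz : y < z) :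
    0 < d3 (f x) (g x) (h x) (f y) (g y) (h y) (f z) (g z) (h z) := by
  have hy : y ∈ Ioo p q := ⟨hx.1.trans hxy, hyz.trans hz.2⟩
  -- A = W(f,g), B = W(f,h)
  have hA : ∀ x ∈ Ioo p q, HasDerivAt (fun x => f x * g1 x - f1 x * g x)
      (f x * g2 x - f2 x * g x) x := by
    intro x hx
    refine (((hf x hx).mul (hg1 x hx)).sub ((hf1 x hx).mul (hg x hx))).congr_deriv ?_
    ring
  have hB : ∀ x ∈ Ioo p q, HasDerivAt (fun x => f x * h1 x - f1 x * h x)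
      (f x * h2 x - f2 x * h x) x := by
    intro x hx
    refine (((hf x hx).mul (hh1 x hx)).sub ((hf1 x hx).mul (hh x hx))).congr_deriv ?_
    ring
  have hAB : ∀ {x y : ℝ}, x ∈ Ioo p q → y ∈ Ioo p q → x < y →
      0 < (f x * g1 x - f1 x * g x) * (f y * h1 y - f1 y * h y)
        - (f x * h1 x - f1 x * h x) * (f y * g1 y - f1 y * g y) := by
    intro x y hx hy hxy
    refine ect2 hA hB w2 ?_ hx hy hxy
    intro x hx
    have := mul_pos (w1 x hx) (w3 x hx)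
    unfold d3 at this
    nlinarith [this]
  have hρ : ∀ x ∈ Ioo p q, HasDerivAt (fun z => g z / f z)
      ((f x * g1 x - f1 x * g x) / (f x) ^ 2) x := by
    intro z hz
    refine ((hg z hz).div (hf z hz) (w1 z hz).ne').congr_deriv ?_
    ring
  have hσ : ∀ x ∈ Ioo p q, HasDerivAt (fun z => h z / f z)
      ((f x * h1 x - f1 x * h x) / (f x) ^ 2) x := by
    intro z hz
    refine ((hh z hz).div (hf z hz) (w1 z hz).ne').congr_deriv ?_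
    ring
  set ρ := fun z => g z / f z with hρd
  set σ := fun z => h z / f z with hσd
  obtain ⟨ξ, hξ, e1⟩ := exists_mvt2 hρ hσ hx hy hxy (σ z - σ y) (-(ρ z - ρ y))
  have hξ' : ξ ∈ Ioo p q := ⟨hx.1.trans hξ.1, hξ.2.trans hy.2⟩
  obtain ⟨η, hη, e2⟩ := exists_mvt2 hρ hσ hy hz hyz
    (-((f ξ * h1 ξ - f1 ξ * h ξ) / (f ξ) ^ 2)) ((f ξ * g1 ξ - f1 ξ * g ξ) / (f ξ) ^ 2)
  have hη' : η ∈ Ioo p q := ⟨hy.1.trans hη.1, hη.2.trans hz.2⟩
  have pos := hAB hξ' hη' (hξ.2.trans hη.1)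
  have fx := w1 x hx
  have fy := w1 y hy
  have fz := w1 z hz
  have fξ := w1 ξ hξ'
  have fη := w1 η hη'
  have key : d3 (f x) (g x) (h x) (f y) (g y) (h y) (f z) (g z) (h z)
      = f x * f y * f z * ((σ z - σ y) * (ρ y - ρ x) + -(ρ z - ρ y) * (σ y - σ x)) := by
    simp only [hρd, hσd, d3]
    field_simp
    ring
  have key2 : (σ z - σ y) * (ρ y - ρ x) + -(ρ z - ρ y) * (σ y - σ x)
      = (y - x) * (z - y) * (((f ξ * g1 ξ - f1 ξ * g ξ) * (f η * h1 η - f1 η * h η)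
        - (f ξ * h1 ξ - f1 ξ * h ξ) * (f η * g1 η - f1 η * g η)) / ((f ξ) ^ 2 * (f η) ^ 2)) := by
    rw [e1]
    have e3 : (σ z - σ y) * ((f ξ * g1 ξ - f1 ξ * g ξ) / f ξ ^ 2) +
        -(ρ z - ρ y) * ((f ξ * h1 ξ - f1 ξ * h ξ) / f ξ ^ 2)
        = -((f ξ * h1 ξ - f1 ξ * h ξ) / (f ξ) ^ 2) * (ρ z - ρ y)
          + ((f ξ * g1 ξ - f1 ξ * g ξ) / (f ξ) ^ 2) * (σ z - σ y) := by ring
    rw [e3, e2]
    field_simp
    ring
  rw [key, key2]
  have h1 : 0 < y - x := by linarith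
  have h2 : 0 < z - y := by linarith
  positivity

theorem ect4 {p q : ℝ} {f g h k f1 g1 h1 k1 f2 g2 h2 k2 f3 g3 h3 k3 : ℝ → ℝ}
    (hf : ∀ x ∈ Ioo p q, HasDerivAt f (f1 x) x) (hg : ∀ x ∈ Ioo p q, HasDerivAt g (g1 x) x)
    (hh : ∀ x ∈ Ioo p q, HasDerivAt h (h1 x) x) (hk : ∀ x ∈ Ioo p q, HasDerivAt k (k1 x) x)
    (hf1 : ∀ x ∈ Ioo p q, HasDerivAt f1 (f2 x) x) (hg1 : ∀ x ∈ Ioo p q, HasDerivAt g1 (g2 x) x)
    (hh1 : ∀ x ∈ Ioo p q, HasDerivAt h1 (h2 x) x) (hk1 : ∀ x ∈ Ioo p q, HasDerivAt k1 (k2 x) x)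
    (hf2 : ∀ x ∈ Ioo p q, HasDerivAt f2 (f3 x) x) (hg2 : ∀ x ∈ Ioo p q, HasDerivAt g2 (g3 x) x)
    (hh2 : ∀ x ∈ Ioo p q, HasDerivAt h2 (h3 x) x) (hk2 : ∀ x ∈ Ioo p q, HasDerivAt k2 (k3 x) x)
    (w1 : ∀ x ∈ Ioo p q, 0 < f x) (w2 : ∀ x ∈ Ioo p q, 0 < f x * g1 x - f1 x * g x)
    (w3 : ∀ x ∈ Ioo p q, 0 < d3 (f x) (g x) (h x) (f1 x) (g1 x) (h1 x) (f2 x) (g2 x) (h2 x))
    (w4 : ∀ x ∈ Ioo p q, 0 < d4 (f x) (g x) (h x) (k x) (f1 x) (g1 x) (h1 x) (k1 x)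
      (f2 x) (g2 x) (h2 x) (k2 x) (f3 x) (g3 x) (h3 x) (k3 x))
    {x y z t : ℝ} (hx : x ∈ Ioo p q) (ht : t ∈ Ioo p q) (hxy : x < y) (hyz : y < z) (hzt : z < t) :
    0 < d4 (f x) (g x) (h x) (k x) (f y) (g y) (h y) (k y) (f z) (g z) (h z) (k z)
      (f t) (g t) (h t) (k t) := by
  have hy : y ∈ Ioo p q := ⟨hx.1.trans hxy, (hyz.trans hzt).trans ht.2⟩
  have hz : z ∈ Ioo p q := ⟨hy.1.trans hyz, hzt.trans ht.2⟩
  have hA : ∀ x ∈ Ioo p q, HasDerivAt (fun x => f x * g1 x - f1 x * g x)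
      (f x * g2 x - f2 x * g x) x := by
    intro x hx
    refine (((hf x hx).mul (hg1 x hx)).sub ((hf1 x hx).mul (hg x hx))).congr_deriv ?_
    ring
  have hB : ∀ x ∈ Ioo p q, HasDerivAt (fun x => f x * h1 x - f1 x * h x)
      (f x * h2 x - f2 x * h x) x := by
    intro x hx
    refine (((hf x hx).mul (hh1 x hx)).sub ((hf1 x hx).mul (hh x hx))).congr_deriv ?_
    ring
  have hC : ∀ x ∈ Ioo p q, HasDerivAt (fun x => f x * k1 x - f1 x * k x)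
      (f x * k2 x - f2 x * k x) x := by
    intro x hx
    refine (((hf x hx).mul (hk1 x hx)).sub ((hf1 x hx).mul (hk x hx))).congr_deriv ?_
    ring
  have hA1 : ∀ x ∈ Ioo p q, HasDerivAt (fun x => f x * g2 x - f2 x * g x)
      (f x * g3 x + f1 x * g2 x - f2 x * g1 x - f3 x * g x) x := by
    intro x hx
    refine (((hf x hx).mul (hg2 x hx)).sub ((hf2 x hx).mul (hg x hx))).congr_deriv ?_
    ring
  have hB1 : ∀ x ∈ Ioo p q, HasDerivAt (fun x => f x * h2 x - f2 x * h x)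
      (f x * h3 x + f1 x * h2 x - f2 x * h1 x - f3 x * h x) x := by
    intro x hx
    refine (((hf x hx).mul (hh2 x hx)).sub ((hf2 x hx).mul (hh x hx))).congr_deriv ?_
    ring
  have hC1 : ∀ x ∈ Ioo p q, HasDerivAt (fun x => f x * k2 x - f2 x * k x)
      (f x * k3 x + f1 x * k2 x - f2 x * k1 x - f3 x * k x) x := by
    intro x hx
    refine (((hf x hx).mul (hk2 x hx)).sub ((hf2 x hx).mul (hk x hx))).congr_deriv ?_
    ring
  have hABC : ∀ {x y z : ℝ}, x ∈ Ioo p q → z ∈ Ioo p q → x < y → y < z →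
      0 < d3 (f x * g1 x - f1 x * g x) (f x * h1 x - f1 x * h x) (f x * k1 x - f1 x * k x)
        (f y * g1 y - f1 y * g y) (f y * h1 y - f1 y * h y) (f y * k1 y - f1 y * k y)
        (f z * g1 z - f1 z * g z) (f z * h1 z - f1 z * h z) (f z * k1 z - f1 z * k z) := by
    intro x y z hx hz hxy hyz
    refine ect3 hA hB hC hA1 hB1 hC1 w2 ?_ ?_ hx hz hxy hyz
    · intro x hx
      have := mul_pos (w1 x hx) (w3 x hx)
      unfold d3 at this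
      nlinarith [this]
    · intro x hx
      have h0 := mul_pos (pow_pos (w1 x hx) 2) (w4 x hx)
      have e : d3 (f x * g1 x - f1 x * g x) (f x * h1 x - f1 x * h x) (f x * k1 x - f1 x * k x)
        (f x * g2 x - f2 x * g x) (f x * h2 x - f2 x * h x) (f x * k2 x - f2 x * k x)
        (f x * g3 x + f1 x * g2 x - f2 x * g1 x - f3 x * g x)
        (f x * h3 x + f1 x * h2 x - f2 x * h1 x - f3 x * h x)
        (f x * k3 x + f1 x * k2 x - f2 x * k1 x - f3 x * k x)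
        = f x ^ 2 * d4 (f x) (g x) (h x) (k x) (f1 x) (g1 x) (h1 x) (k1 x)
          (f2 x) (g2 x) (h2 x) (k2 x) (f3 x) (g3 x) (h3 x) (k3 x) := by
        unfold d4 d3
        ring
      rw [e]
      exact h0
  have hρ : ∀ x ∈ Ioo p q, HasDerivAt (fun z => g z / f z)
      ((f x * g1 x - f1 x * g x) / (f x) ^ 2) x := by
    intro z hz
    refine ((hg z hz).div (hf z hz) (w1 z hz).ne').congr_deriv ?_
    ring
  have hσ : ∀ x ∈ Ioo p q, HasDerivAt (fun z => h z / f z)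
      ((f x * h1 x - f1 x * h x) / (f x) ^ 2) x := by
    intro z hz
    refine ((hh z hz).div (hf z hz) (w1 z hz).ne').congr_deriv ?_
    ring
  have hτ : ∀ x ∈ Ioo p q, HasDerivAt (fun z => k z / f z)
      ((f x * k1 x - f1 x * k x) / (f x) ^ 2) x := by
    intro z hz
    refine ((hk z hz).div (hf z hz) (w1 z hz).ne').congr_deriv ?_
    ring
  set ρ := fun z => g z / f z with hρd
  set σ := fun z => h z / f z with hσd
  set τ := fun z => k z / f z with hτd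
  set A := fun x => (f x * g1 x - f1 x * g x) / (f x) ^ 2 with hAd
  set B := fun x => (f x * h1 x - f1 x * h x) / (f x) ^ 2 with hBd
  set C := fun x => (f x * k1 x - f1 x * k x) / (f x) ^ 2 with hCd
  -- first row
  obtain ⟨ξ, hξ, e1⟩ := exists_mvt3 hρ hσ hτ hx hy hxy
    ((σ z - σ y) * (τ t - τ z) - (τ z - τ y) * (σ t - σ z))
    (-((ρ z - ρ y) * (τ t - τ z) - (τ z - τ y) * (ρ t - ρ z)))
    ((ρ z - ρ y) * (σ t - σ z) - (σ z - σ y) * (ρ t - ρ z))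
  have hξ' : ξ ∈ Ioo p q := ⟨hx.1.trans hξ.1, hξ.2.trans hy.2⟩
  obtain ⟨η, hη, e2⟩ := exists_mvt3 hρ hσ hτ hy hz hyz
    (-(B ξ * (τ t - τ z) - C ξ * (σ t - σ z)))
    (A ξ * (τ t - τ z) - C ξ * (ρ t - ρ z))
    (-(A ξ * (σ t - σ z) - B ξ * (ρ t - ρ z)))
  have hη' : η ∈ Ioo p q := ⟨hy.1.trans hη.1, hη.2.trans hz.2⟩
  obtain ⟨ζ, hζ, e3⟩ := exists_mvt3 hρ hσ hτ hz ht hzt
    (B ξ * C η - C ξ * B η) (-(A ξ * C η - C ξ * A η)) (A ξ * B η - B ξ * A η)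
  have hζ' : ζ ∈ Ioo p q := ⟨hz.1.trans hζ.1, hζ.2.trans ht.2⟩
  have pos := hABC hξ' hζ' (hξ.2.trans hη.1) (hη.2.trans hζ.1)
  have fx := w1 x hx
  have fy := w1 y hy
  have fz := w1 z hz
  have ft := w1 t ht
  have fξ := w1 ξ hξ'
  have fη := w1 η hη'
  have fζ := w1 ζ hζ'
  have key : d4 (f x) (g x) (h x) (k x) (f y) (g y) (h y) (k y) (f z) (g z) (h z) (k z)
      (f t) (g t) (h t) (k t)
      = f x * f y * f z * f t * (((σ z - σ y) * (τ t - τ z) - (τ z - τ y) * (σ t - σ z)) * (ρ y - ρ x)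
        + (-((ρ z - ρ y) * (τ t - τ z) - (τ z - τ y) * (ρ t - ρ z))) * (σ y - σ x)
        + ((ρ z - ρ y) * (σ t - σ z) - (σ z - σ y) * (ρ t - ρ z)) * (τ y - τ x)) := by
    simp only [hρd, hσd, hτd, d4, d3]
    field_simp
    ring
  have key2 : ((σ z - σ y) * (τ t - τ z) - (τ z - τ y) * (σ t - σ z)) * (ρ y - ρ x)
        + (-((ρ z - ρ y) * (τ t - τ z) - (τ z - τ y) * (ρ t - ρ z))) * (σ y - σ x)
        + ((ρ z - ρ y) * (σ t - σ z) - (σ z - σ y) * (ρ t - ρ z)) * (τ y - τ x)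
      = (y - x) * (z - y) * (t - z) * d3 (A ξ) (B ξ) (C ξ) (A η) (B η) (C η) (A ζ) (B ζ) (C ζ) := by
    rw [e1]
    change (y - x) * (((σ z - σ y) * (τ t - τ z) - (τ z - τ y) * (σ t - σ z)) * A ξ +
        -((ρ z - ρ y) * (τ t - τ z) - (τ z - τ y) * (ρ t - ρ z)) * B ξ +
        ((ρ z - ρ y) * (σ t - σ z) - (σ z - σ y) * (ρ t - ρ z)) * C ξ) = _
    have s1 : ((σ z - σ y) * (τ t - τ z) - (τ z - τ y) * (σ t - σ z)) * A ξ +
        -((ρ z - ρ y) * (τ t - τ z) - (τ z - τ y) * (ρ t - ρ z)) * B ξ +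
        ((ρ z - ρ y) * (σ t - σ z) - (σ z - σ y) * (ρ t - ρ z)) * C ξ
        = (-(B ξ * (τ t - τ z) - C ξ * (σ t - σ z))) * (ρ z - ρ y)
          + (A ξ * (τ t - τ z) - C ξ * (ρ t - ρ z)) * (σ z - σ y)
          + (-(A ξ * (σ t - σ z) - B ξ * (ρ t - ρ z))) * (τ z - τ y) := by ring
    rw [s1, e2]
    change (y - x) * ((z - y) * (-(B ξ * (τ t - τ z) - C ξ * (σ t - σ z)) * A η
          + (A ξ * (τ t - τ z) - C ξ * (ρ t - ρ z)) * B η
          + (-(A ξ * (σ t - σ z) - B ξ * (ρ t - ρ z))) * C η)) = _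
    have s2 : (-(B ξ * (τ t - τ z) - C ξ * (σ t - σ z)) * A η
          + (A ξ * (τ t - τ z) - C ξ * (ρ t - ρ z)) * B η
          + (-(A ξ * (σ t - σ z) - B ξ * (ρ t - ρ z))) * C η)
        = (B ξ * C η - C ξ * B η) * (ρ t - ρ z) + (-(A ξ * C η - C ξ * A η)) * (σ t - σ z)
          + (A ξ * B η - B ξ * A η) * (τ t - τ z) := by ring
    rw [s2, e3]
    change (y - x) * ((z - y) * ((t - z) * ((B ξ * C η - C ξ * B η) * A ζ
      + (-(A ξ * C η - C ξ * A η)) * B ζ + (A ξ * B η - B ξ * A η) * C ζ))) = _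
    unfold d3
    ring
  have key3 : d3 (A ξ) (B ξ) (C ξ) (A η) (B η) (C η) (A ζ) (B ζ) (C ζ)
      = d3 (f ξ * g1 ξ - f1 ξ * g ξ) (f ξ * h1 ξ - f1 ξ * h ξ) (f ξ * k1 ξ - f1 ξ * k ξ)
        (f η * g1 η - f1 η * g η) (f η * h1 η - f1 η * h η) (f η * k1 η - f1 η * k η)
        (f ζ * g1 ζ - f1 ζ * g ζ) (f ζ * h1 ζ - f1 ζ * h ζ) (f ζ * k1 ζ - f1 ζ * k ζ)
        / ((f ξ) ^ 2 * (f η) ^ 2 * (f ζ) ^ 2) := by
    simp only [hAd, hBd, hCd, d3]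
    field_simp
  rw [key, key2, key3]
  have h1 : 0 < y - x := by linarith
  have h2 : 0 < z - y := by linarith
  have h3 : 0 < t - z := by linarith
  positivity

/-! ### Andréief's identity -/

theorem andreief {k : ℕ} {μ : Measure ℝ} [SigmaFinite μ] (a b : Fin k → ℝ → ℝ)
    (hint : ∀ i j, Integrable (fun y => a i y * b j y) μ) :
    Integrable (fun z : Fin k → ℝ => (Matrix.of fun i l => a i (z l)).det *
      (Matrix.of fun j l => b j (z l)).det) (Measure.pi fun _ => μ) ∧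
    ((k.factorial : ℕ) : ℝ) * (Matrix.of fun i j => ∫ y, a i y * b j y ∂μ).det
      = ∫ z : Fin k → ℝ, (Matrix.of fun i l => a i (z l)).det *
        (Matrix.of fun j l => b j (z l)).det ∂(Measure.pi fun _ => μ) := by
  have expand : ∀ z : Fin k → ℝ, (Matrix.of fun i l => a i (z l)).det *
      (Matrix.of fun j l => b j (z l)).det
      = ∑ σ : Equiv.Perm (Fin k), ∑ τ : Equiv.Perm (Fin k),
        ((Equiv.Perm.sign σ : ℤ) : ℝ) * ((Equiv.Perm.sign τ : ℤ) : ℝ) *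
        ∏ l, (a (τ l) (z l) * b (σ l) (z l)) := by
    intro z
    rw [Matrix.det_apply', Matrix.det_apply', Finset.sum_mul_sum, Finset.sum_comm]
    apply Finset.sum_congr rfl
    intro σ _
    apply Finset.sum_congr rfl
    intro τ _
    simp only [Matrix.of_apply]
    rw [Finset.prod_mul_distrib]
    ring
  have hi : ∀ σ τ : Equiv.Perm (Fin k), Integrable (fun z : Fin k → ℝ =>
      ((Equiv.Perm.sign σ : ℤ) : ℝ) * ((Equiv.Perm.sign τ : ℤ) : ℝ) *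
        ∏ l, (a (τ l) (z l) * b (σ l) (z l))) (Measure.pi fun _ => μ) := by
    intro σ τ
    apply Integrable.const_mul
    exact Integrable.fintype_prod (f := fun l y => a (τ l) y * b (σ l) y) (fun l => hint _ _)
  have hE : (fun z : Fin k → ℝ => (Matrix.of fun i l => a i (z l)).det *
      (Matrix.of fun j l => b j (z l)).det) = fun z =>
      ∑ σ : Equiv.Perm (Fin k), ∑ τ : Equiv.Perm (Fin k),
        ((Equiv.Perm.sign σ : ℤ) : ℝ) * ((Equiv.Perm.sign τ : ℤ) : ℝ) *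
        ∏ l, (a (τ l) (z l) * b (σ l) (z l)) := funext expand
  rw [hE]
  refine ⟨integrable_finsetSum _ fun σ _ => integrable_finsetSum _ fun τ _ => hi σ τ, ?_⟩
  rw [integral_finsetSum _ fun σ _ => integrable_finsetSum _ fun τ _ => hi σ τ]
  have hσ : ∀ σ : Equiv.Perm (Fin k), ∫ z : Fin k → ℝ, ∑ τ : Equiv.Perm (Fin k),
        ((Equiv.Perm.sign σ : ℤ) : ℝ) * ((Equiv.Perm.sign τ : ℤ) : ℝ) *
        ∏ l, (a (τ l) (z l) * b (σ l) (z l)) ∂(Measure.pi fun _ => μ)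
      = (Matrix.of fun i j => ∫ y, a i y * b j y ∂μ).det := by
    intro σ
    rw [integral_finsetSum _ fun τ _ => hi σ τ]
    have h1 : ∀ τ : Equiv.Perm (Fin k), ∫ z : Fin k → ℝ,
        ((Equiv.Perm.sign σ : ℤ) : ℝ) * ((Equiv.Perm.sign τ : ℤ) : ℝ) *
        ∏ l, (a (τ l) (z l) * b (σ l) (z l)) ∂(Measure.pi fun _ => μ)
        = ((Equiv.Perm.sign σ : ℤ) : ℝ) * (((Equiv.Perm.sign τ : ℤ) : ℝ) *
          ∏ l, (Matrix.of fun i j => ∫ y, a i y * b (σ j) y ∂μ) (τ l) l) := by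
      intro τ
      rw [integral_const_mul,
        integral_fintype_prod_eq_prod (f := fun l y => a (τ l) y * b (σ l) y)]
      simp only [Matrix.of_apply]
      ring
    rw [Finset.sum_congr rfl fun τ _ => h1 τ, ← Finset.mul_sum, ← Matrix.det_apply']
    have h2 : (Matrix.of fun i j => ∫ y, a i y * b (σ j) y ∂μ)
        = (Matrix.of fun i j => ∫ y, a i y * b j y ∂μ).submatrix id σ := by
      ext i j; rfl
    rw [h2, Matrix.det_permute']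
    rw [← mul_assoc, ← Int.cast_mul, ← Units.val_mul, Int.units_mul_self]
    simp
  rw [Finset.sum_congr rfl fun σ _ => hσ σ]
  simp [Fintype.card_perm]

end Pool.Agent.Lib.MP391fb1
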