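import Pool.Agent.Lib.MP_391fb1_pr.Bs2

/-!
# MP_391fb1_pr: entropies of measures, Gibbs bound and the limit `η → 1`
-/

namespace Pool.Agent.Lib.MP391fb1

open MeasureTheory Set Filter

/-- the differential entropy, in the form of the frozen statement -/
noncomputable def Hent (μ : Measure ℝ) : ℝ :=
  -(∫ x, (μ.rnDeriv volume x).toReal * Real.log (μ.rnDeriv volume x).toReal)

/-- the entropy of `U_1 + … + U_n` -/
noncomputable def Hn (n : ℕ) : ℝ := ∫ x in (-(n:ℝ))..n, Real.negMulLog (bs n 0 x)

/-- the Gibbs inequality for a measure with the law of `∑ c_i U_i`, `l = [c_i]` -/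
def GibbsP (μ : Measure ℝ) (l : List ℝ) : Prop :=
  ∀ g : ℝ → ℝ, Continuous g → (∀ x, 0 < g x) → (∫ x in (-l.sum)..l.sum, g x) ≤ 1 →
    Hent μ ≤ Ex l (fun x => - Real.log (g x)) 0

theorem T_scale (θ c : ℝ) (φ : ℝ → ℝ) (x : ℝ) : T (θ * c) φ (θ * x) = T c (fun y => φ (θ * y)) x := by
  unfold T
  congr 1
  apply intervalIntegral.integral_congr
  intro u _
  show φ (θ * x + θ * c * u) = φ (θ * (x + c * u))
  congr 1
  ring

theorem Ex_scale (θ : ℝ) (l : List ℝ) (φ : ℝ → ℝ) (x : ℝ) :
    Ex (l.map (fun c => θ * c)) φ (θ * x) = Ex l (fun y => φ (θ * y)) x := by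
  induction l generalizing x with
  | nil => rfl
  | cons c l ih =>
    rw [List.map_cons, Ex_cons, Ex_cons, T_scale]
    congr 1
    funext y
    exact ih y

theorem Ex_scale_zero (θ : ℝ) (l : List ℝ) (φ : ℝ → ℝ) :
    Ex (l.map (fun c => θ * c)) φ 0 = Ex l (fun y => φ (θ * y)) 0 := by
  have := Ex_scale θ l φ 0
  rwa [mul_zero] at this

/-- clamping -/
noncomputable def clamp (R x : ℝ) : ℝ := max (-R) (min x R)

theorem clamp_continuous (R : ℝ) : Continuous (clamp R) := by
  unfold clamp; fun_prop

theorem clamp_mem {R : ℝ} (hR : 0 ≤ R) (x : ℝ) : |clamp R x| ≤ R := by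
  unfold clamp
  rw [abs_le]
  exact ⟨le_max_left _ _, max_le (by linarith) (min_le_right _ _)⟩

theorem clamp_eq {R x : ℝ} (hx : |x| ≤ R) : clamp R x = x := by
  unfold clamp
  rw [abs_le] at hx
  rw [min_eq_left hx.2, max_eq_right hx.1]

theorem list_sum_sq_le (l : List ℝ) : l.sum ^ 2 ≤ l.length * (l.map (fun c => c ^ 2)).sum := by
  induction l with
  | nil => simp
  | cons c l ih =>
    simp only [List.sum_cons, List.length_cons, List.map_cons]
    push_cast
    rcases Nat.eq_zero_or_pos l.length with h | h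
    · rw [List.length_eq_zero_iff] at h
      subst h
      simp
    · have h' : (0:ℝ) < l.length := by exact_mod_cast h
      have hS : 0 ≤ (l.map (fun c => c ^ 2)).sum := by
        apply List.sum_nonneg
        intro x hx
        rw [List.mem_map] at hx
        obtain ⟨y, _, rfl⟩ := hx
        positivity
      -- 2 c s ≤ L c² + s²/L
      have h1 : 2 * c * l.sum ≤ l.length * c ^ 2 + (l.map (fun c => c ^ 2)).sum := by
        have h2 : l.sum ^ 2 / l.length ≤ (l.map (fun c => c ^ 2)).sum := by
          rw [div_le_iff₀ h']; linarith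
        have h3 : 2 * c * l.sum ≤ l.length * c ^ 2 + l.sum ^ 2 / l.length := by
          have : 0 ≤ (l.length * c - l.sum) ^ 2 / l.length := by positivity
          have e : (l.length * c - l.sum) ^ 2 / l.length
              = l.length * c ^ 2 - 2 * c * l.sum + l.sum ^ 2 / l.length := by
            field_simp
            ring
          linarith
        linarith
      nlinarith

theorem map_sq_scale (θ : ℝ) (l : List ℝ) :
    ((l.map (fun c => θ * c)).map (fun c => c ^ 2)).sum = θ ^ 2 * (l.map (fun c => c ^ 2)).sum := by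
  induction l with
  | nil => simp
  | cons c l ih =>
    simp only [List.map_cons, List.sum_cons, ih]
    ring

theorem map_sum_scale (θ : ℝ) (l : List ℝ) :
    (l.map (fun c => θ * c)).sum = θ * l.sum := by
  induction l with
  | nil => simp
  | cons c l ih =>
    simp only [List.map_cons, List.sum_cons, ih]
    ring

theorem V_clamp_continuous {n : ℕ} (hn : 2 ≤ n) {R : ℝ} (hR0 : 0 ≤ R) (hR : R < n) :
    Continuous (fun x => V n (clamp R x)) := by
  unfold V
  have h1 : ∀ x, bs n 0 (clamp R x) ≠ 0 := fun x =>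
    (bs_pos hn (lt_of_le_of_lt (clamp_mem hR0 x) hR)).ne'
  exact (((bs_continuous n 0).comp (clamp_continuous R)).log h1).neg

theorem bs_le_of_abs_le {n : ℕ} (hn : 2 ≤ n) {x y : ℝ} (h : |x| ≤ |y|) : bs n 0 y ≤ bs n 0 x := by
  have e : ∀ z, bs n 0 z = bs n 0 |z| := by
    intro z
    rcases abs_cases z with ⟨h, _⟩ | ⟨h, _⟩ <;> rw [h]
    rw [bs_even hn]
  rw [e y, e x]
  exact bs_antitoneOn hn (abs_nonneg x) (abs_nonneg y) h

theorem gibbs_core_eta {n : ℕ} (hn : 2 ≤ n) {μ : Measure ℝ} {l : List ℝ}
    (hl : l.length = n) (hl0 : ∀ c ∈ l, 0 ≤ c) (hsq : (l.map (fun c => c ^ 2)).sum = 1)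
    (hG : GibbsP μ l) {η : ℝ} (h0 : 0 < η) (h1 : η < 1)
    (hI : Ex (l.map (fun c => (η * √n) * c)) (V n) 0 ≤ Ex (List.replicate n η) (V n) 0) :
    Hent μ ≤ - Real.log (η * √n) + Hn n := by
  have hn0 : (0:ℝ) < n := by exact_mod_cast (by omega : 0 < n)
  have hsn : 0 < √(n:ℝ) := Real.sqrt_pos.2 hn0
  have hsn2 : √(n:ℝ) * √(n:ℝ) = n := Real.mul_self_sqrt hn0.le
  set θ := η * √n with hθ
  have hθ0 : 0 < θ := by positivity
  set R := l.sum with hR
  have hR0 : 0 ≤ R := List.sum_nonneg hl0
  have hRn : R ≤ √n := by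
    have := list_sum_sq_le l
    rw [hsq, hl, mul_one] at this
    exact Real.le_sqrt_of_sq_le this
  have hθR : θ * R ≤ η * n := by
    calc θ * R ≤ θ * √n := by gcongr
      _ = η * (√n * √n) := by rw [hθ]; ring
      _ = η * n := by rw [hsn2]
  set K := η * n with hK
  have hK0 : 0 ≤ K := by positivity
  have hKn : K < n := by nlinarith
  have hbc := bs_continuous n 0
  have hcc := clamp_continuous K
  have hb : ∀ x, 0 < bs n 0 (clamp K x) := fun x => bs_pos hn (lt_of_le_of_lt (clamp_mem hK0 x) hKn)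
  have habs : ∀ y, |y| ≤ R → |θ * y| ≤ K := by
    intro y hy
    rw [abs_mul, abs_of_pos hθ0]
    exact (mul_le_mul_of_nonneg_left hy hθ0.le).trans hθR
  -- Gibbs
  have hg := hG (fun x => θ * bs n 0 (clamp K (θ * x))) (by fun_prop)
    (fun x => mul_pos hθ0 (hb _)) (by
      have e1 : (∫ x in (-R)..R, θ * bs n 0 (clamp K (θ * x))) = ∫ x in (-R)..R, θ * bs n 0 (θ * x) := by
        apply intervalIntegral.integral_congr
        intro x hx
        rw [uIcc_of_le (by linarith)] at hx
        simp only
        rw [clamp_eq (habs x (abs_le.2 hx))]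
      rw [e1, intervalIntegral.integral_const_mul]
      have e2 := intervalIntegral.mul_integral_comp_mul_left (a := -R) (b := R) (f := bs n 0) θ
      rw [e2, ← integral_bs hn]
      apply intervalIntegral.integral_mono_interval
      · linarith
      · nlinarith
      · nlinarith
      · exact Eventually.of_forall fun x => bs_nonneg hn x
      · exact hbc.intervalIntegrable _ _)
  refine hg.trans ?_
  have e3 : (fun x => - Real.log (θ * bs n 0 (clamp K (θ * x))))
      = fun x => (fun _ => - Real.log θ) x + (fun y => V n (clamp K (θ * y))) x := by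
    funext x
    simp only
    rw [Real.log_mul hθ0.ne' (hb _).ne']
    unfold V
    ring
  have hVc := V_clamp_continuous hn hK0 hKn
  have hVc1 : Continuous fun y => V n (clamp K (θ * y)) := hVc.comp (by fun_prop)
  have hVc2 : Continuous fun y => V n (clamp K (η * y)) := hVc.comp (by fun_prop)
  rw [e3, Ex_add l continuous_const hVc1, Ex_const]
  simp only
  gcongr
  rw [← Ex_scale_zero θ l (fun y => V n (clamp K y))]
  have e4 : Ex (l.map (fun c => θ * c)) (fun y => V n (clamp K y)) 0
      = Ex (l.map (fun c => θ * c)) (V n) 0 := by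
    apply Ex_congr
    · intro c hc
      rw [List.mem_map] at hc
      obtain ⟨c', hc', rfl⟩ := hc
      exact mul_nonneg hθ0.le (hl0 c' hc')
    · intro y hy
      rw [sub_zero, map_sum_scale] at hy
      rw [clamp_eq (hy.trans hθR)]
  rw [e4]
  refine hI.trans ?_
  -- E V_n(η S_n) ≤ H_n
  have e5 : Ex (List.replicate n η) (V n) 0 = Ex (List.replicate n η) (fun y => V n (clamp K y)) 0 := by
    apply Ex_congr
    · intro c hc
      rw [List.eq_of_mem_replicate hc]
      exact h0.le
    · intro y hy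
      rw [sub_zero, List.sum_replicate, nsmul_eq_mul] at hy
      rw [clamp_eq (by rw [hK]; linarith)]
  have e6 : List.replicate n η = (List.replicate n (1:ℝ)).map (fun c => η * c) := by
    simp
  rw [e5, e6, Ex_scale_zero, Ex_replicate hn hVc2]
  unfold Hn
  apply intervalIntegral.integral_mono_on (by linarith)
  · exact ((hVc2.comp (by fun_prop : Continuous fun y : ℝ => 0 + y)).mul hbc).intervalIntegrable _ _
  · exact Continuous.intervalIntegrable (by fun_prop) _ _
  intro y hy
  have hy' : |y| ≤ n := abs_le.2 hy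
  have hηy : |η * y| ≤ K := by
    rw [abs_mul, abs_of_pos h0, hK]
    gcongr
  rw [zero_add, clamp_eq hηy]
  rcases hy'.eq_or_lt with h | h
  · rw [bs_zero hn h.symm.le]
    simp
  · have hpos := bs_pos hn h
    rw [Real.negMulLog, neg_mul, ← mul_neg, mul_comm]
    apply mul_le_mul_of_nonneg_left _ hpos.le
    unfold V
    apply neg_le_neg
    apply Real.log_le_log hpos
    apply bs_le_of_abs_le hn
    rw [abs_mul, abs_of_pos h0]
    nlinarith [abs_nonneg y]

theorem gibbs_core {n : ℕ} (hn : 2 ≤ n) {M : ℝ} (hI : IneqN n M) {μ : Measure ℝ} {l : List ℝ}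
    (hl : l.length = n) (hl0 : ∀ c ∈ l, 0 ≤ c) (hM : ∀ c ∈ l, √n * c ≤ M)
    (hsq : (l.map (fun c => c ^ 2)).sum = 1) (hG : GibbsP μ l) :
    Hent μ ≤ - Real.log √n + Hn n := by
  have hn0 : (0:ℝ) < n := by exact_mod_cast (by omega : 0 < n)
  have hsn : 0 < √(n:ℝ) := Real.sqrt_pos.2 hn0
  obtain ⟨η₀, h0, h1, hI⟩ := hI
  have hev : ∀ᶠ η in nhdsWithin (1:ℝ) (Iio 1), Hent μ ≤ - Real.log (η * √n) + Hn n := by
    have : Ioo η₀ 1 ∈ nhdsWithin (1:ℝ) (Iio 1) := Ioo_mem_nhdsLT h1
    filter_upwards [this] with η hη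
    have hη0 : 0 < η := h0.trans hη.1
    refine gibbs_core_eta hn hl hl0 hsq hG hη0 hη.2 (hI η hη.1 hη.2 _ (by simp [hl]) ?_ ?_)
    · intro c hc
      rw [List.mem_map] at hc
      obtain ⟨c', hc', rfl⟩ := hc
      have hc0 := hl0 c' hc'
      constructor
      · positivity
      · calc η * √n * c' = η * (√n * c') := by ring
          _ ≤ 1 * (√n * c') := by gcongr; exact hη.2.le
          _ ≤ M := by rw [one_mul]; exact hM c' hc'
    · rw [map_sq_scale, hsq, mul_pow, Real.sq_sqrt hn0.le]
      ring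
  have hlim : Tendsto (fun η : ℝ => - Real.log (η * √n) + Hn n) (nhdsWithin (1:ℝ) (Iio 1))
      (nhds (- Real.log (1 * √n) + Hn n)) := by
    apply Tendsto.mono_left _ nhdsWithin_le_nhds
    apply ContinuousAt.tendsto
    have : (1:ℝ) * √n ≠ 0 := by positivity
    fun_prop (disch := exact this)
  have := ge_of_tendsto hlim hev
  rwa [one_mul] at this

/-- entropy of a measure with a given continuous density -/
theorem Hent_of_density {μ : Measure ℝ} [IsFiniteMeasure μ] {g : ℝ → ℝ} {R : ℝ} (hR : 0 ≤ R)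
    (hg : Continuous g) (hg0 : ∀ x, 0 ≤ g x) (hgR : ∀ x, R ≤ |x| → g x = 0)
    (h : ∀ φ : ℝ → ℝ, Continuous φ → ∫ x, φ x ∂μ = ∫ x in (-R)..R, φ x * g x) :
    Hent μ = ∫ x in (-R)..R, Real.negMulLog (g x) := by
  have hrestr : ∀ F : ℝ → ℝ, (∀ x, R ≤ |x| → F x = 0) → ∫ x, F x = ∫ x in (-R)..R, F x := by
    intro F hF
    rw [intervalIntegral.integral_of_le (by linarith)]
    symm
    apply setIntegral_eq_integral_of_forall_compl_eq_zero
    intro x hx
    apply hF
    rw [mem_Ioc, not_and_or, not_lt, not_le] at hx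
    rcases hx with hx | hx
    · rw [abs_of_nonpos (by linarith)]; linarith
    · rw [abs_of_nonneg (by linarith)]; linarith
  have hgm : Measurable fun x => ENNReal.ofReal (g x) := hg.measurable.ennreal_ofReal
  have hgint : Integrable g volume := by
    apply hg.integrable_of_hasCompactSupport
    apply HasCompactSupport.intro (isCompact_Icc (a := -R) (b := R))
    intro x hx
    apply hgR
    rw [mem_Icc, not_and_or, not_le, not_le] at hx
    rcases hx with hx | hx
    · rw [abs_of_nonpos (by linarith)]; linarith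
    · rw [abs_of_nonneg (by linarith)]; linarith
  have hfin : IsFiniteMeasure (volume.withDensity fun x => ENNReal.ofReal (g x)) :=
    isFiniteMeasure_withDensity_ofReal hgint.2
  have hμ : μ = volume.withDensity fun x => ENNReal.ofReal (g x) := by
    apply ext_of_forall_integral_eq_of_IsFiniteMeasure
    intro f
    rw [h f f.continuous, integral_withDensity_eq_integral_toReal_smul hgm
      (Eventually.of_forall fun x => ENNReal.ofReal_lt_top)]
    rw [← hrestr (fun x => f x * g x) (fun x hx => by simp only [hgR x hx, mul_zero])]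
    congr 1
    funext x
    rw [ENNReal.toReal_ofReal (hg0 x), smul_eq_mul, mul_comm]
  unfold Hent
  have hrn := Measure.rnDeriv_withDensity volume hgm
  rw [← hμ] at hrn
  have e1 : ∫ x, (μ.rnDeriv volume x).toReal * Real.log (μ.rnDeriv volume x).toReal
      = ∫ x, g x * Real.log (g x) := by
    apply integral_congr_ae
    filter_upwards [hrn] with x hx
    rw [hx, ENNReal.toReal_ofReal (hg0 x)]
  rw [e1, hrestr (fun x => g x * Real.log (g x)) (fun x hx => by simp only [hgR x hx, zero_mul]),
    ← intervalIntegral.integral_neg]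
  apply intervalIntegral.integral_congr
  intro x _
  simp only [Real.negMulLog]
  ring

theorem Hent_replicate {n : ℕ} (hn : 2 ≤ n) {μ : Measure ℝ} [IsFiniteMeasure μ]
    (h : ∀ φ : ℝ → ℝ, Continuous φ → ∫ x, φ x ∂μ = Ex (List.replicate n (√n)⁻¹) φ 0) :
    Hent μ = - Real.log √n + Hn n := by
  have hn0 : (0:ℝ) < n := by exact_mod_cast (by omega : 0 < n)
  have hsn : 0 < √(n:ℝ) := Real.sqrt_pos.2 hn0
  have hsn2 : √(n:ℝ) * √(n:ℝ) = n := Real.mul_self_sqrt hn0.le
  have hbc := bs_continuous n 0
  have key := Hent_of_density (μ := μ) (g := fun x => √n * bs n 0 (√n * x)) (R := √n) hsn.le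
    (by fun_prop) (fun x => mul_nonneg hsn.le (bs_nonneg hn _)) (fun x hx => by
      rw [bs_zero hn, mul_zero]
      rw [abs_mul, abs_of_pos hsn]
      calc (n:ℝ) = √n * √n := hsn2.symm
        _ ≤ √n * |x| := by gcongr) (fun φ hφ => by
      rw [h φ hφ]
      have e6 : List.replicate n (√(n:ℝ))⁻¹ = (List.replicate n (1:ℝ)).map (fun c => (√(n:ℝ))⁻¹ * c) := by
        simp
      rw [e6, Ex_scale_zero, Ex_replicate hn (by fun_prop)]
      have e7 := intervalIntegral.mul_integral_comp_mul_left (a := -√(n:ℝ)) (b := √n)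
        (f := fun y => φ ((√(n:ℝ))⁻¹ * (0 + y)) * bs n 0 y) √n
      have e8 : √(n:ℝ) * -√n = -n := by linarith
      rw [e8, hsn2] at e7
      rw [← e7, ← intervalIntegral.integral_const_mul]
      apply intervalIntegral.integral_congr
      intro x _
      simp only [zero_add]
      rw [inv_mul_cancel_left₀ hsn.ne']
      ring)
  rw [key]
  have e7 := intervalIntegral.integral_comp_mul_left (a := -√(n:ℝ)) (b := √n)
    (fun y => Real.negMulLog (√n * bs n 0 y)) hsn.ne'
  have e8 : √(n:ℝ) * -√n = -n := by linarith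
  rw [e8, hsn2] at e7
  rw [e7]
  simp_rw [Real.negMulLog_mul]
  rw [intervalIntegral.integral_add, intervalIntegral.integral_mul_const,
    intervalIntegral.integral_const_mul, integral_bs hn]
  · unfold Hn
    rw [smul_eq_mul, Real.negMulLog]
    field_simp
  · exact (hbc.mul continuous_const).intervalIntegrable _ _
  · exact Continuous.intervalIntegrable (by fun_prop) _ _

end Pool.Agent.Lib.MP391fb1
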