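import Pool.Agent.Lib.MP_391fb1_pr.Frame

/-!
# MP_391fb1_pr: the law of a weighted sum of uniform variables, and Gibbs' inequality
-/

namespace Pool.Agent.Lib.MP391fb1

open MeasureTheory Set ProbabilityTheory
open scoped ENNReal

/-- the uniform law on `[-1,1]` -/
noncomputable def nu : Measure ℝ := (2:ℝ≥0∞)⁻¹ • (volume : Measure ℝ).restrict (Icc (-1) 1)

theorem vol_Icc_two : (volume : Measure ℝ) (Icc (-1:ℝ) 1) = 2 := by
  rw [Real.volume_Icc]; norm_num

instance : IsProbabilityMeasure nu := by
  refine ⟨?_⟩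
  unfold nu
  rw [Measure.smul_apply, Measure.restrict_apply_univ, vol_Icc_two, smul_eq_mul]
  exact ENNReal.inv_mul_cancel (by norm_num) (by norm_num)

/-- the law of `∑ d i * U i` -/
noncomputable def L {n : ℕ} (d : Fin n → ℝ) : Measure ℝ :=
  (Measure.pi fun _ : Fin n => nu).map (fun u => ∑ i, d i * u i)

theorem measurable_sum {n : ℕ} (d : Fin n → ℝ) :
    Measurable (fun u : Fin n → ℝ => ∑ i, d i * u i) := by fun_prop

instance {n : ℕ} (d : Fin n → ℝ) : IsProbabilityMeasure (L d) :=
  Measure.isProbabilityMeasure_map (measurable_sum d).aemeasurable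

/-- (a) -/
theorem law_eq {n : ℕ} {Ω : Type*} [MeasurableSpace Ω] (P : Measure Ω) [IsProbabilityMeasure P]
    (U : Fin n → Ω → ℝ) (hm : ∀ i, Measurable (U i)) (hi : iIndepFun U P)
    (hu : ∀ i, pdf.IsUniform (U i) (Icc (-1 : ℝ) 1) P volume) (d : Fin n → ℝ) :
    P.map (fun ω => ∑ i, d i * U i ω) = L d := by
  have h1 := (iIndepFun_iff_map_fun_eq_pi_map (fun i => (hm i).aemeasurable)).1 hi
  have h2 : ∀ i, P.map (U i) = nu := by
    intro i
    have := hu i
    unfold pdf.IsUniform ProbabilityTheory.cond at this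
    rw [this, vol_Icc_two]
    rfl
  simp only [h2] at h1
  unfold L
  rw [← h1, Measure.map_map (measurable_sum d) (by fun_prop)]
  rfl

theorem nu_neg : nu.map (fun x => -x) = nu := by
  unfold nu
  rw [Measure.map_smul]
  congr 1
  have h := Measure.map_neg_eq_self (volume : Measure ℝ)
  have h2 : (volume : Measure ℝ).restrict (Icc (-1) 1) =
      ((volume : Measure ℝ).map Neg.neg).restrict (Icc (-1) 1) := by rw [h]
  rw [Measure.restrict_map measurable_neg measurableSet_Icc] at h2
  have h3 : (Neg.neg ⁻¹' Icc (-1:ℝ) 1) = Icc (-1) 1 := by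
    ext x; simp [and_comm, neg_le]
  rw [h3] at h2
  exact h2.symm

/-- (b) -/
theorem L_abs {n : ℕ} (d : Fin n → ℝ) : L d = L (fun i => |d i|) := by
  classical
  let s : Fin n → ℝ := fun i => if 0 ≤ d i then 1 else -1
  have h1 : ∀ i, MeasurePreserving (fun x : ℝ => s i * x) nu nu := by
    intro i
    refine ⟨by fun_prop, ?_⟩
    by_cases h : 0 ≤ d i
    · have : (fun x : ℝ => s i * x) = id := by
        funext x; simp [s, h]
      rw [this, Measure.map_id]
    · have : (fun x : ℝ => s i * x) = fun x => -x := by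
        funext x; simp [s, h]
      rw [this, nu_neg]
  have h2 := measurePreserving_pi (fun _ : Fin n => nu) (fun _ : Fin n => nu) h1
  have h3 : ∀ i, |d i| * s i = d i := by
    intro i
    by_cases h : 0 ≤ d i
    · simp [s, h, abs_of_nonneg h]
    · simp [s, h, abs_of_neg (not_le.1 h)]
  unfold L
  conv_rhs => rw [← h2.map_eq]
  rw [Measure.map_map (measurable_sum _) h2.measurable]
  congr 1
  funext u
  simp only [Function.comp]
  refine Finset.sum_congr rfl fun i _ => ?_
  rw [← mul_assoc, h3]

theorem ae_nu : ∀ᵐ x ∂nu, x ∈ Icc (-1:ℝ) 1 := by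
  unfold nu
  exact Measure.ae_smul_measure (ae_restrict_mem measurableSet_Icc) _

theorem ae_pi_nu (n : ℕ) :
    ∀ᵐ u ∂(Measure.pi fun _ : Fin n => nu), ∀ i, u i ∈ Icc (-1:ℝ) 1 := by
  rw [ae_all_iff]
  intro i
  exact (measurePreserving_eval (fun _ : Fin n => nu) i).quasiMeasurePreserving.ae ae_nu

theorem integrable_pi_nu {n : ℕ} {F : (Fin n → ℝ) → ℝ} (hF : Continuous F) :
    Integrable F (Measure.pi fun _ : Fin n => nu) := by
  obtain ⟨C, hC⟩ := (isCompact_univ_pi (fun _ : Fin n => isCompact_Icc (a := (-1:ℝ)) (b := 1))).exists_bound_of_continuousOn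
    hF.continuousOn
  refine Integrable.of_bound hF.aestronglyMeasurable C ?_
  filter_upwards [ae_pi_nu n] with u hu
  exact hC u fun i _ => hu i

theorem integral_nu (f : ℝ → ℝ) : ∫ u, f u ∂nu = (1/2) * ∫ u in (-1:ℝ)..1, f u := by
  unfold nu
  rw [integral_smul_measure, intervalIntegral.integral_of_le (by norm_num), integral_Icc_eq_integral_Ioc]
  simp

theorem integral_pi_nu {n : ℕ} (d : Fin n → ℝ) {φ : ℝ → ℝ} (hφ : Continuous φ) (x : ℝ) :
    ∫ u, φ (x + ∑ i, d i * u i) ∂(Measure.pi fun _ : Fin n => nu) = Ex (List.ofFn d) φ x := by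
  induction n generalizing x with
  | zero => simp
  | succ n ih =>
    have h := measurePreserving_piFinSuccAbove (fun _ : Fin (n + 1) => nu) 0
    let g : ℝ × (Fin n → ℝ) → ℝ := fun p => φ (x + d 0 * p.1 + ∑ j : Fin n, d j.succ * p.2 j)
    have hg : Continuous g := by
      refine hφ.comp ?_
      fun_prop
    have h1 : ∫ u, φ (x + ∑ i, d i * u i) ∂(Measure.pi fun _ : Fin (n+1) => nu) =
        ∫ p, g p ∂(nu.prod (Measure.pi fun _ : Fin n => nu)) := by
      rw [← h.integral_comp' (f := MeasurableEquiv.piFinSuccAbove (fun _ : Fin (n+1) => ℝ) 0)]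
      refine integral_congr_ae (Filter.Eventually.of_forall fun u => ?_)
      simp only [g, MeasurableEquiv.piFinSuccAbove_apply, Fin.sum_univ_succ, Fin.insertNthEquiv_zero,
        Fin.consEquiv_symm_apply, Fin.tail, add_assoc]
    have h2 : Integrable g (nu.prod (Measure.pi fun _ : Fin n => nu)) := by
      have h3 := integrable_pi_nu (n := n + 1)
        (F := fun u => g (MeasurableEquiv.piFinSuccAbove (fun _ : Fin (n+1) => ℝ) 0 u)) (by
          refine hg.comp ?_
          simp only [MeasurableEquiv.piFinSuccAbove_apply, Fin.insertNthEquiv_zero]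
          refine Continuous.prodMk (by fun_prop) ?_
          exact continuous_pi fun j => by simpa [Fin.tail] using continuous_apply _)
      exact (h.integrable_comp_emb (MeasurableEquiv.measurableEmbedding _)).1 h3
    rw [h1, integral_prod g h2, List.ofFn_succ, Ex_cons, T, ← integral_nu (fun u => Ex (List.ofFn fun i => d i.succ) φ (x + d 0 * u))]
    refine integral_congr_ae (Filter.Eventually.of_forall fun u => ?_)
    exact ih (fun j => d j.succ) (x + d 0 * u)

/-- (c) -/
theorem integral_L {n : ℕ} (d : Fin n → ℝ) {φ : ℝ → ℝ} (hφ : Continuous φ) :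
    ∫ x, φ x ∂(L d) = Ex (List.ofFn d) φ 0 := by
  unfold L
  rw [integral_map (measurable_sum d).aemeasurable hφ.aestronglyMeasurable, ← integral_pi_nu d hφ 0]
  simp

theorem nu_le (A : Set ℝ) : nu A ≤ 2⁻¹ * volume A := by
  unfold nu
  rw [Measure.smul_apply, smul_eq_mul]
  exact mul_le_mul_right (Measure.restrict_apply_le _ _) _

/-- (d), absolute continuity with a bounded density -/
theorem L_le {n : ℕ} (d : Fin n → ℝ) (i : Fin n) (hi : d i ≠ 0) :
    L d ≤ (2⁻¹ * ENNReal.ofReal |(d i)⁻¹|) • (volume : Measure ℝ) := by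
  obtain ⟨n, rfl⟩ : ∃ m, n = m + 1 := ⟨n - 1, by have := i.pos; omega⟩
  refine Measure.le_iff.2 fun s hs => ?_
  have h := measurePreserving_piFinSuccAbove (fun _ : Fin (n + 1) => nu) i
  let y : (Fin n → ℝ) → ℝ := fun v => ∑ j : Fin n, d (i.succAbove j) * v j
  have hy : Measurable y := by fun_prop
  let S : Set (ℝ × (Fin n → ℝ)) := {p | d i * p.1 + y p.2 ∈ s}
  have hS : MeasurableSet S := by
    have : Measurable fun p : ℝ × (Fin n → ℝ) => d i * p.1 + y p.2 := by fun_prop
    exact this hs
  have h1 : L d s = (nu.prod (Measure.pi fun _ : Fin n => nu)) S := by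
    unfold L
    rw [Measure.map_apply (measurable_sum d) hs, ← h.measure_preimage hS.nullMeasurableSet]
    congr 1
    ext u
    simp only [S, y, mem_preimage, mem_ofPred_eq, Fin.sum_univ_succAbove _ i]
    rfl
  rw [h1, Measure.prod_apply_symm hS]
  calc ∫⁻ v, nu ((fun x => (x, v)) ⁻¹' S) ∂(Measure.pi fun _ : Fin n => nu)
      ≤ ∫⁻ _v, 2⁻¹ * ENNReal.ofReal |(d i)⁻¹| * volume s ∂(Measure.pi fun _ : Fin n => nu) := by
        refine lintegral_mono fun v => ?_
        refine (nu_le _).trans ?_
        rw [mul_assoc]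
        gcongr
        have e : ((fun x => (x, v)) ⁻¹' S) = (fun x => d i * x) ⁻¹' ((fun x => x + y v) ⁻¹' s) := by
          ext x; rfl
        rw [e, Real.volume_preimage_mul_left hi, measure_preimage_add_right]
    _ = _ := by simp

theorem L_support {n : ℕ} (d : Fin n → ℝ) :
    ∀ᵐ x ∂(L d), x ∈ Icc (-∑ i, |d i|) (∑ i, |d i|) := by
  unfold L
  refine (ae_map_iff (p := fun x => x ∈ Icc (-∑ i, |d i|) (∑ i, |d i|))
    (measurable_sum d).aemeasurable measurableSet_Icc).2 ?_
  filter_upwards [ae_pi_nu n] with u hu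
  have : |∑ i, d i * u i| ≤ ∑ i, |d i| := by
    refine (Finset.abs_sum_le_sum_abs _ _).trans (Finset.sum_le_sum fun i _ => ?_)
    rw [abs_mul]
    have h1 : |u i| ≤ 1 := abs_le.2 (hu i)
    calc |d i| * |u i| ≤ |d i| * 1 := by gcongr
      _ = _ := mul_one _
  exact abs_le.1 this

/-- (e) Gibbs' inequality -/
theorem gibbs {μ : Measure ℝ} [IsProbabilityMeasure μ] {C : ℝ≥0∞} (hC : C ≠ ∞)
    (hμ : μ ≤ C • (volume : Measure ℝ)) {R : ℝ} (hR : ∀ᵐ x ∂μ, x ∈ Icc (-R) R) {g : ℝ → ℝ}
    (hg : ContinuousOn g (Icc (-R) R)) (hg0 : ∀ x ∈ Icc (-R) R, 0 < g x)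
    (hg1 : ∫ x in Icc (-R) R, g x ≤ 1) :
    -(∫ x : ℝ, (μ.rnDeriv volume x).toReal * Real.log (μ.rnDeriv volume x).toReal) ≤
      ∫ x, - Real.log (g x) ∂μ := by
  have hac : μ ≪ volume := (Measure.absolutelyContinuous_of_le hμ).trans
    (Measure.smul_absolutelyContinuous)
  set p : ℝ → ℝ := fun x => (μ.rnDeriv volume x).toReal with hp
  have hpm : Measurable p := (Measure.measurable_rnDeriv _ _).ennreal_toReal
  have hp0 : ∀ x, 0 ≤ p x := fun x => ENNReal.toReal_nonneg
  -- the density is bounded
  have hpC : ∀ᵐ x ∂(volume : Measure ℝ), p x ≤ C.toReal := by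
    have h1 : μ.rnDeriv volume ≤ᵐ[volume] fun _ => C := by
      refine ae_le_of_forall_setLIntegral_le_of_sigmaFinite (Measure.measurable_rnDeriv _ _) ?_
      intro s hs _
      rw [lintegral_const, Measure.restrict_apply_univ]
      exact (Measure.setLIntegral_rnDeriv_le s).trans (hμ s)
    filter_upwards [h1] with x hx
    exact ENNReal.toReal_mono hC hx
  -- the density vanishes outside
  have hpout : ∀ᵐ x ∂(volume : Measure ℝ), x ∉ Icc (-R) R → p x = 0 := by
    have h1 : ∫⁻ x in (Icc (-R) R)ᶜ, μ.rnDeriv volume x = 0 := by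
      refine le_antisymm ((Measure.setLIntegral_rnDeriv_le _).trans (le_of_eq ?_)) bot_le
      exact hR
    rw [lintegral_eq_zero_iff (Measure.measurable_rnDeriv _ _)] at h1
    rw [Filter.EventuallyEq, ae_restrict_iff' measurableSet_Icc.compl] at h1
    filter_upwards [h1] with x hx hxn
    have := hx hxn
    simp only [hp]
    rw [this]; simp
  have hlog : ∀ φ : ℝ → ℝ, ∫ x, φ x ∂μ = ∫ x in Icc (-R) R, p x * φ x := by
    intro φ
    rw [← integral_rnDeriv_smul hac]
    rw [← integral_indicator measurableSet_Icc]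
    refine integral_congr_ae ?_
    filter_upwards [hpout] with x hx
    by_cases h : x ∈ Icc (-R) R
    · rw [indicator_of_mem h]; rfl
    · rw [indicator_of_notMem h]
      have := hx h
      simp only [smul_eq_mul]
      change p x * φ x = 0
      rw [this, zero_mul]
  have hent : ∫ x : ℝ, p x * Real.log (p x) = ∫ x in Icc (-R) R, p x * Real.log (p x) := by
    rw [← integral_indicator measurableSet_Icc]
    refine integral_congr_ae ?_
    filter_upwards [hpout] with x hx
    by_cases h : x ∈ Icc (-R) R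
    · rw [indicator_of_mem h]
    · rw [indicator_of_notMem h, hx h, zero_mul]
  have hmass : ∫ x in Icc (-R) R, p x = 1 := by
    have := hlog (fun _ => 1)
    simp only [mul_one] at this
    rw [← this]
    simp
  -- integrability
  have hfin : IsFiniteMeasure ((volume : Measure ℝ).restrict (Icc (-R) R)) :=
    ⟨by rw [Measure.restrict_apply_univ]; exact measure_Icc_lt_top⟩
  have hip : Integrable p ((volume : Measure ℝ).restrict (Icc (-R) R)) := by
    refine Integrable.of_bound hpm.aestronglyMeasurable C.toReal ?_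
    filter_upwards [ae_restrict_of_ae hpC] with x hx
    rw [Real.norm_of_nonneg (hp0 x)]
    exact hx
  have higo : IntegrableOn g (Icc (-R) R) := hg.integrableOn_Icc
  obtain ⟨K, hK⟩ := isCompact_Icc.exists_bound_of_continuousOn
    (hg.log fun x hx => (hg0 x hx).ne')
  have hlm : AEStronglyMeasurable (fun x => Real.log (g x))
      ((volume : Measure ℝ).restrict (Icc (-R) R)) :=
    (hg.log fun x hx => (hg0 x hx).ne').aestronglyMeasurable measurableSet_Icc
  have hipl : Integrable (fun x => p x * (- Real.log (g x)))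
      ((volume : Measure ℝ).restrict (Icc (-R) R)) := by
    refine Integrable.of_bound (hpm.aestronglyMeasurable.mul hlm.neg) (C.toReal * K) ?_
    filter_upwards [ae_restrict_of_ae hpC, ae_restrict_mem measurableSet_Icc] with x hx hxI
    rw [norm_mul, Real.norm_of_nonneg (hp0 x), norm_neg]
    have := hK x hxI
    gcongr
  obtain ⟨K2, hK2⟩ := (isCompact_Icc (a := (0:ℝ)) (b := C.toReal)).exists_bound_of_continuousOn
    Real.continuous_mul_log.continuousOn
  have hipp : Integrable (fun x => p x * Real.log (p x))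
      ((volume : Measure ℝ).restrict (Icc (-R) R)) := by
    refine Integrable.of_bound (hpm.mul hpm.log).aestronglyMeasurable K2 ?_
    filter_upwards [ae_restrict_of_ae hpC] with x hx
    exact hK2 _ ⟨hp0 x, hx⟩
  -- pointwise inequality
  have hpt : ∀ x ∈ Icc (-R) R, - (p x * Real.log (p x)) ≤ p x * (- Real.log (g x)) + (g x - p x) := by
    intro x hx
    have hgx := hg0 x hx
    rcases (hp0 x).eq_or_lt with h0 | h0
    · rw [← h0]; simp; exact hgx.le
    · have h1 := Real.log_le_sub_one_of_pos (div_pos hgx h0)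
      rw [Real.log_div hgx.ne' h0.ne'] at h1
      have h2 := mul_le_mul_of_nonneg_left h1 h0.le
      have h3 : p x * (g x / p x - 1) = g x - p x := by field_simp
      rw [h3] at h2
      nlinarith
  rw [hent, hlog, ← integral_neg]
  calc ∫ x in Icc (-R) R, -(p x * Real.log (p x))
      ≤ ∫ x in Icc (-R) R, (p x * (- Real.log (g x)) + (g x - p x)) := by
        refine setIntegral_mono_on hipp.neg (hipl.add (higo.sub hip)) measurableSet_Icc hpt
    _ = (∫ x in Icc (-R) R, p x * (- Real.log (g x))) + ((∫ x in Icc (-R) R, g x) - 1) := by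
        rw [← hmass, ← integral_sub higo hip]
        exact integral_add hipl (higo.sub hip)
    _ ≤ _ := by linarith

end Pool.Agent.Lib.MP391fb1
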