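import Mathlib

/-!
# MP_391fb1_pr: Bernstein certificates for `n = 3`
-/

namespace Pool.Agent.Lib.MP391fb1
namespace N3

/-- the numerator of `2/(3-x)^2 - (6+2y^2)/(3-y^2)^2 + p - l s`, `x = y + 2c`, `s = y + c` -/
def PP (p l y c : ℝ) : ℝ :=
  2 * (3 - y^2)^2 - (6 + 2*y^2) * (3 - y - 2*c)^2 + (p - l * (y + c)) * ((3 - y - 2*c)^2 * (3 - y^2)^2)

theorem piece1 {y c : ℝ} (h1 : (-2/5) ≤ y) (h2 : y ≤ (3/10)) (h3 : (3/5) ≤ c) (h4 : c ≤ (7/10)) :
    0 ≤ PP (11/20) (3/4) y c := by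
  have e : PP (11/20) (3/4) y c =
      (11574016000/823543) * ((y - (-2/5))^0 * ((3/10) - y)^7) * ((c - (3/5))^0 * ((7/10) - c)^3)
      + (32669008000/823543) * ((y - (-2/5))^0 * ((3/10) - y)^7) * ((c - (3/5))^1 * ((7/10) - c)^2)
      + (34701760000/823543) * ((y - (-2/5))^0 * ((3/10) - y)^7) * ((c - (3/5))^2 * ((7/10) - c)^1)
      + (13364800000/823543) * ((y - (-2/5))^0 * ((3/10) - y)^7) * ((c - (3/5))^3 * ((7/10) - c)^0)
      + (21537616000/117649) * ((y - (-2/5))^1 * ((3/10) - y)^6) * ((c - (3/5))^0 * ((7/10) - c)^3)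
      + (64650288000/117649) * ((y - (-2/5))^1 * ((3/10) - y)^6) * ((c - (3/5))^1 * ((7/10) - c)^2)
      + (68726192000/117649) * ((y - (-2/5))^1 * ((3/10) - y)^6) * ((c - (3/5))^2 * ((7/10) - c)^1)
      + (3622560000/16807) * ((y - (-2/5))^1 * ((3/10) - y)^6) * ((c - (3/5))^3 * ((7/10) - c)^0)
      + (68234832000/117649) * ((y - (-2/5))^2 * ((3/10) - y)^5) * ((c - (3/5))^0 * ((7/10) - c)^3)
      + (216831476000/117649) * ((y - (-2/5))^2 * ((3/10) - y)^5) * ((c - (3/5))^1 * ((7/10) - c)^2)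
      + (240395720000/117649) * ((y - (-2/5))^2 * ((3/10) - y)^5) * ((c - (3/5))^2 * ((7/10) - c)^1)
      + (91001964000/117649) * ((y - (-2/5))^2 * ((3/10) - y)^5) * ((c - (3/5))^3 * ((7/10) - c)^0)
      + (96575484000/117649) * ((y - (-2/5))^3 * ((3/10) - y)^4) * ((c - (3/5))^0 * ((7/10) - c)^3)
      + (48004016000/16807) * ((y - (-2/5))^3 * ((3/10) - y)^4) * ((c - (3/5))^1 * ((7/10) - c)^2)
      + (399451980000/117649) * ((y - (-2/5))^3 * ((3/10) - y)^4) * ((c - (3/5))^2 * ((7/10) - c)^1)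
      + (158640304000/117649) * ((y - (-2/5))^3 * ((3/10) - y)^4) * ((c - (3/5))^3 * ((7/10) - c)^0)
      + (72892728000/117649) * ((y - (-2/5))^4 * ((3/10) - y)^3) * ((c - (3/5))^0 * ((7/10) - c)^3)
      + (293400929000/117649) * ((y - (-2/5))^4 * ((3/10) - y)^3) * ((c - (3/5))^1 * ((7/10) - c)^2)
      + (382641240000/117649) * ((y - (-2/5))^4 * ((3/10) - y)^3) * ((c - (3/5))^2 * ((7/10) - c)^1)
      + (160764778000/117649) * ((y - (-2/5))^4 * ((3/10) - y)^3) * ((c - (3/5))^3 * ((7/10) - c)^0)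
      + (641295000/2401) * ((y - (-2/5))^5 * ((3/10) - y)^2) * ((c - (3/5))^0 * ((7/10) - c)^3)
      + (155597895000/117649) * ((y - (-2/5))^5 * ((3/10) - y)^2) * ((c - (3/5))^1 * ((7/10) - c)^2)
      + (31969075000/16807) * ((y - (-2/5))^5 * ((3/10) - y)^2) * ((c - (3/5))^2 * ((7/10) - c)^1)
      + (98795566000/117649) * ((y - (-2/5))^5 * ((3/10) - y)^2) * ((c - (3/5))^3 * ((7/10) - c)^0)
      + (7771725000/117649) * ((y - (-2/5))^6 * ((3/10) - y)^1) * ((c - (3/5))^0 * ((7/10) - c)^3)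
      + (48588393750/117649) * ((y - (-2/5))^6 * ((3/10) - y)^1) * ((c - (3/5))^1 * ((7/10) - c)^2)
      + (75472618500/117649) * ((y - (-2/5))^6 * ((3/10) - y)^1) * ((c - (3/5))^2 * ((7/10) - c)^1)
      + (34391430750/117649) * ((y - (-2/5))^6 * ((3/10) - y)^1) * ((c - (3/5))^3 * ((7/10) - c)^0)
      + (6495468750/823543) * ((y - (-2/5))^7 * ((3/10) - y)^0) * ((c - (3/5))^0 * ((7/10) - c)^3)
      + (48627562500/823543) * ((y - (-2/5))^7 * ((3/10) - y)^0) * ((c - (3/5))^1 * ((7/10) - c)^2)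
      + (78683958750/823543) * ((y - (-2/5))^7 * ((3/10) - y)^0) * ((c - (3/5))^2 * ((7/10) - c)^1)
      + (36297822000/823543) * ((y - (-2/5))^7 * ((3/10) - y)^0) * ((c - (3/5))^3 * ((7/10) - c)^0) := by
    unfold PP
    ring
  rw [e]
  have hu := sub_nonneg.2 h1
  have hv := sub_nonneg.2 h2
  have hs := sub_nonneg.2 h3
  have ht := sub_nonneg.2 h4
  generalize y - (-2/5) = u at hu ⊢
  generalize (3/10) - y = v at hv ⊢
  generalize c - (3/5) = s at hs ⊢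
  generalize (7/10) - c = t at ht ⊢
  positivity

theorem piece2 {y c : ℝ} (h1 : (3/10) ≤ y) (h2 : y ≤ 1) (h3 : (3/5) ≤ c) (h4 : c ≤ (7/10)) :
    0 ≤ PP (11/20) (3/4) y c := by
  have e : PP (11/20) (3/4) y c =
      (6495468750/823543) * ((y - (3/10))^0 * (1 - y)^7) * ((c - (3/5))^0 * ((7/10) - c)^3)
      + (48627562500/823543) * ((y - (3/10))^0 * (1 - y)^7) * ((c - (3/5))^1 * ((7/10) - c)^2)
      + (78683958750/823543) * ((y - (3/10))^0 * (1 - y)^7) * ((c - (3/5))^2 * ((7/10) - c)^1)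
      + (36297822000/823543) * ((y - (3/10))^0 * (1 - y)^7) * ((c - (3/5))^3 * ((7/10) - c)^0)
      + (5219212500/117649) * ((y - (3/10))^1 * (1 - y)^6) * ((c - (3/5))^0 * ((7/10) - c)^3)
      + (48666731250/117649) * ((y - (3/10))^1 * (1 - y)^6) * ((c - (3/5))^1 * ((7/10) - c)^2)
      + (81895299000/117649) * ((y - (3/10))^1 * (1 - y)^6) * ((c - (3/5))^2 * ((7/10) - c)^1)
      + (5457744750/16807) * ((y - (3/10))^1 * (1 - y)^6) * ((c - (3/5))^3 * ((7/10) - c)^0)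
      + (16108380000/117649) * ((y - (3/10))^2 * (1 - y)^5) * ((c - (3/5))^0 * ((7/10) - c)^3)
      + (156067920000/117649) * ((y - (3/10))^2 * (1 - y)^5) * ((c - (3/5))^1 * ((7/10) - c)^2)
      + (262319608000/117649) * ((y - (3/10))^2 * (1 - y)^5) * ((c - (3/5))^2 * ((7/10) - c)^1)
      + (121672261000/117649) * ((y - (3/10))^2 * (1 - y)^5) * ((c - (3/5))^3 * ((7/10) - c)^0)
      + (34857072000/117649) * ((y - (3/10))^3 * (1 - y)^4) * ((c - (3/5))^0 * ((7/10) - c)^3)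
      + (41768128000/16807) * ((y - (3/10))^3 * (1 - y)^4) * ((c - (3/5))^1 * ((7/10) - c)^2)
      + (474195250000/117649) * ((y - (3/10))^3 * (1 - y)^4) * ((c - (3/5))^2 * ((7/10) - c)^1)
      + (215617917000/117649) * ((y - (3/10))^3 * (1 - y)^4) * ((c - (3/5))^3 * ((7/10) - c)^0)
      + (46533360000/117649) * ((y - (3/10))^4 * (1 - y)^3) * ((c - (3/5))^0 * ((7/10) - c)^3)
      + (328798480000/117649) * ((y - (3/10))^4 * (1 - y)^3) * ((c - (3/5))^1 * ((7/10) - c)^2)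
      + (508760800000/117649) * ((y - (3/10))^4 * (1 - y)^3) * ((c - (3/5))^2 * ((7/10) - c)^1)
      + (225541560000/117649) * ((y - (3/10))^4 * (1 - y)^3) * ((c - (3/5))^3 * ((7/10) - c)^0)
      + (4860000000/16807) * ((y - (3/10))^5 * (1 - y)^2) * ((c - (3/5))^0 * ((7/10) - c)^3)
      + (212578000000/117649) * ((y - (3/10))^5 * (1 - y)^2) * ((c - (3/5))^1 * ((7/10) - c)^2)
      + (45120000000/16807) * ((y - (3/10))^5 * (1 - y)^2) * ((c - (3/5))^2 * ((7/10) - c)^1)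
      + (136778000000/117649) * ((y - (3/10))^5 * (1 - y)^2) * ((c - (3/5))^3 * ((7/10) - c)^0)
      + (12352000000/117649) * ((y - (3/10))^6 * (1 - y)^1) * ((c - (3/5))^0 * ((7/10) - c)^3)
      + (71856000000/117649) * ((y - (3/10))^6 * (1 - y)^1) * ((c - (3/5))^1 * ((7/10) - c)^2)
      + (103760000000/117649) * ((y - (3/10))^6 * (1 - y)^1) * ((c - (3/5))^2 * ((7/10) - c)^1)
      + (44112000000/117649) * ((y - (3/10))^6 * (1 - y)^1) * ((c - (3/5))^3 * ((7/10) - c)^0)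
      + (12160000000/823543) * ((y - (3/10))^7 * (1 - y)^0) * ((c - (3/5))^0 * ((7/10) - c)^3)
      + (68480000000/823543) * ((y - (3/10))^7 * (1 - y)^0) * ((c - (3/5))^1 * ((7/10) - c)^2)
      + (97200000000/823543) * ((y - (3/10))^7 * (1 - y)^0) * ((c - (3/5))^2 * ((7/10) - c)^1)
      + (40760000000/823543) * ((y - (3/10))^7 * (1 - y)^0) * ((c - (3/5))^3 * ((7/10) - c)^0) := by
    unfold PP
    ring
  rw [e]
  have hu := sub_nonneg.2 h1
  have hv := sub_nonneg.2 h2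
  have hs := sub_nonneg.2 h3
  have ht := sub_nonneg.2 h4
  generalize y - (3/10) = u at hu ⊢
  generalize 1 - y = v at hv ⊢
  generalize c - (3/5) = s at hs ⊢
  generalize (7/10) - c = t at ht ⊢
  positivity

theorem piece3 {y c : ℝ} (h1 : (-3/5) ≤ y) (h2 : y ≤ 1) (h3 : (7/10) ≤ c) (h4 : c ≤ (4/5)) :
    0 ≤ PP (7/10) 1 y c := by
  have e : PP (7/10) 1 y c =
      (4038375/65536) * ((y - (-3/5))^0 * (1 - y)^7) * ((c - (7/10))^0 * ((4/5) - c)^3)
      + (18665625/131072) * ((y - (-3/5))^0 * (1 - y)^7) * ((c - (7/10))^1 * ((4/5) - c)^2)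
      + (121875/1024) * ((y - (-3/5))^0 * (1 - y)^7) * ((c - (7/10))^2 * ((4/5) - c)^1)
      + (609375/16384) * ((y - (-3/5))^0 * (1 - y)^7) * ((c - (7/10))^3 * ((4/5) - c)^0)
      + (106874625/65536) * ((y - (-3/5))^1 * (1 - y)^6) * ((c - (7/10))^0 * ((4/5) - c)^3)
      + (599643375/131072) * ((y - (-3/5))^1 * (1 - y)^6) * ((c - (7/10))^1 * ((4/5) - c)^2)
      + (36091875/8192) * ((y - (-3/5))^1 * (1 - y)^6) * ((c - (7/10))^2 * ((4/5) - c)^1)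
      + (23803125/16384) * ((y - (-3/5))^1 * (1 - y)^6) * ((c - (7/10))^3 * ((4/5) - c)^0)
      + (191837875/65536) * ((y - (-3/5))^2 * (1 - y)^5) * ((c - (7/10))^0 * ((4/5) - c)^3)
      + (1180826125/131072) * ((y - (-3/5))^2 * (1 - y)^5) * ((c - (7/10))^1 * ((4/5) - c)^2)
      + (39438125/4096) * ((y - (-3/5))^2 * (1 - y)^5) * ((c - (7/10))^2 * ((4/5) - c)^1)
      + (57626875/16384) * ((y - (-3/5))^2 * (1 - y)^5) * ((c - (7/10))^3 * ((4/5) - c)^0)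
      + (26053125/65536) * ((y - (-3/5))^3 * (1 - y)^4) * ((c - (7/10))^0 * ((4/5) - c)^3)
      + (584024875/131072) * ((y - (-3/5))^3 * (1 - y)^4) * ((c - (7/10))^1 * ((4/5) - c)^2)
      + (66592125/8192) * ((y - (-3/5))^3 * (1 - y)^4) * ((c - (7/10))^2 * ((4/5) - c)^1)
      + (65871625/16384) * ((y - (-3/5))^3 * (1 - y)^4) * ((c - (7/10))^3 * ((4/5) - c)^0)
      + (107103125/65536) * ((y - (-3/5))^4 * (1 - y)^3) * ((c - (7/10))^0 * ((4/5) - c)^3)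
      + (1327376875/131072) * ((y - (-3/5))^4 * (1 - y)^3) * ((c - (7/10))^1 * ((4/5) - c)^2)
      + (31625625/2048) * ((y - (-3/5))^4 * (1 - y)^3) * ((c - (7/10))^2 * ((4/5) - c)^1)
      + (113088125/16384) * ((y - (-3/5))^4 * (1 - y)^3) * ((c - (7/10))^3 * ((4/5) - c)^0)
      + (164671875/65536) * ((y - (-3/5))^5 * (1 - y)^2) * ((c - (7/10))^0 * ((4/5) - c)^3)
      + (1422578125/131072) * ((y - (-3/5))^5 * (1 - y)^2) * ((c - (7/10))^1 * ((4/5) - c)^2)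
      + (115078125/8192) * ((y - (-3/5))^5 * (1 - y)^2) * ((c - (7/10))^2 * ((4/5) - c)^1)
      + (93109375/16384) * ((y - (-3/5))^5 * (1 - y)^2) * ((c - (7/10))^3 * ((4/5) - c)^0)
      + (69140625/65536) * ((y - (-3/5))^6 * (1 - y)^1) * ((c - (7/10))^0 * ((4/5) - c)^3)
      + (539859375/131072) * ((y - (-3/5))^6 * (1 - y)^1) * ((c - (7/10))^1 * ((4/5) - c)^2)
      + (20453125/4096) * ((y - (-3/5))^6 * (1 - y)^1) * ((c - (7/10))^2 * ((4/5) - c)^1)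
      + (31515625/16384) * ((y - (-3/5))^6 * (1 - y)^1) * ((c - (7/10))^3 * ((4/5) - c)^0)
      + (8984375/65536) * ((y - (-3/5))^7 * (1 - y)^0) * ((c - (7/10))^0 * ((4/5) - c)^3)
      + (67265625/131072) * ((y - (-3/5))^7 * (1 - y)^0) * ((c - (7/10))^1 * ((4/5) - c)^2)
      + (4921875/8192) * ((y - (-3/5))^7 * (1 - y)^0) * ((c - (7/10))^2 * ((4/5) - c)^1)
      + (3671875/16384) * ((y - (-3/5))^7 * (1 - y)^0) * ((c - (7/10))^3 * ((4/5) - c)^0) := by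
    unfold PP
    ring
  rw [e]
  have hu := sub_nonneg.2 h1
  have hv := sub_nonneg.2 h2
  have hs := sub_nonneg.2 h3
  have ht := sub_nonneg.2 h4
  generalize y - (-3/5) = u at hu ⊢
  generalize 1 - y = v at hv ⊢
  generalize c - (7/10) = s at hs ⊢
  generalize (4/5) - c = t at ht ⊢
  positivity

theorem piece4 {y c : ℝ} (h1 : (-4/5) ≤ y) (h2 : y ≤ (1/10)) (h3 : (4/5) ≤ c) (h4 : c ≤ (9/10)) :
    0 ≤ PP (19/20) (7/5) y c := by
  have e : PP (19/20) (7/5) y c =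
      (15130208000/4782969) * ((y - (-4/5))^0 * ((1/10) - y)^7) * ((c - (4/5))^0 * ((9/10) - c)^3)
      + (25153158400/4782969) * ((y - (-4/5))^0 * ((1/10) - y)^7) * ((c - (4/5))^1 * ((9/10) - c)^2)
      + (10981888000/4782969) * ((y - (-4/5))^0 * ((1/10) - y)^7) * ((c - (4/5))^2 * ((9/10) - c)^1)
      + (215680000/1594323) * ((y - (-4/5))^0 * ((1/10) - y)^7) * ((c - (4/5))^3 * ((9/10) - c)^0)
      + (432859481600/4782969) * ((y - (-4/5))^1 * ((1/10) - y)^6) * ((c - (4/5))^0 * ((9/10) - c)^3)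
      + (1114169440000/4782969) * ((y - (-4/5))^1 * ((1/10) - y)^6) * ((c - (4/5))^1 * ((9/10) - c)^2)
      + (978718086400/4782969) * ((y - (-4/5))^1 * ((1/10) - y)^6) * ((c - (4/5))^2 * ((9/10) - c)^1)
      + (98281408000/1594323) * ((y - (-4/5))^1 * ((1/10) - y)^6) * ((c - (4/5))^3 * ((9/10) - c)^0)
      + (521042360000/1594323) * ((y - (-4/5))^2 * ((1/10) - y)^5) * ((c - (4/5))^0 * ((9/10) - c)^3)
      + (1387909912000/1594323) * ((y - (-4/5))^2 * ((1/10) - y)^5) * ((c - (4/5))^1 * ((9/10) - c)^2)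
      + (1264704836800/1594323) * ((y - (-4/5))^2 * ((1/10) - y)^5) * ((c - (4/5))^2 * ((9/10) - c)^1)
      + (131641806400/531441) * ((y - (-4/5))^2 * ((1/10) - y)^5) * ((c - (4/5))^3 * ((9/10) - c)^0)
      + (2292971041600/4782969) * ((y - (-4/5))^3 * ((1/10) - y)^4) * ((c - (4/5))^0 * ((9/10) - c)^3)
      + (6264335806400/4782969) * ((y - (-4/5))^3 * ((1/10) - y)^4) * ((c - (4/5))^1 * ((9/10) - c)^2)
      + (5905895067200/4782969) * ((y - (-4/5))^3 * ((1/10) - y)^4) * ((c - (4/5))^2 * ((9/10) - c)^1)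
      + (639508366400/1594323) * ((y - (-4/5))^3 * ((1/10) - y)^4) * ((c - (4/5))^3 * ((9/10) - c)^0)
      + (1758307253200/4782969) * ((y - (-4/5))^4 * ((1/10) - y)^3) * ((c - (4/5))^0 * ((9/10) - c)^3)
      + (5046470922800/4782969) * ((y - (-4/5))^4 * ((1/10) - y)^3) * ((c - (4/5))^1 * ((9/10) - c)^2)
      + (5052448906400/4782969) * ((y - (-4/5))^4 * ((1/10) - y)^3) * ((c - (4/5))^2 * ((9/10) - c)^1)
      + (582407328800/1594323) * ((y - (-4/5))^4 * ((1/10) - y)^3) * ((c - (4/5))^3 * ((9/10) - c)^0)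
      + (264007500800/1594323) * ((y - (-4/5))^5 * ((1/10) - y)^2) * ((c - (4/5))^0 * ((9/10) - c)^3)
      + (829731751600/1594323) * ((y - (-4/5))^5 * ((1/10) - y)^2) * ((c - (4/5))^1 * ((9/10) - c)^2)
      + (907172251600/1594323) * ((y - (-4/5))^5 * ((1/10) - y)^2) * ((c - (4/5))^2 * ((9/10) - c)^1)
      + (112637579200/531441) * ((y - (-4/5))^5 * ((1/10) - y)^2) * ((c - (4/5))^3 * ((9/10) - c)^0)
      + (218211457100/4782969) * ((y - (-4/5))^6 * ((1/10) - y)^1) * ((c - (4/5))^0 * ((9/10) - c)^3)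
      + (767678766700/4782969) * ((y - (-4/5))^6 * ((1/10) - y)^1) * ((c - (4/5))^1 * ((9/10) - c)^2)
      + (911471671300/4782969) * ((y - (-4/5))^6 * ((1/10) - y)^1) * ((c - (4/5))^2 * ((9/10) - c)^1)
      + (119479854700/1594323) * ((y - (-4/5))^6 * ((1/10) - y)^1) * ((c - (4/5))^3 * ((9/10) - c)^0)
      + (30226816100/4782969) * ((y - (-4/5))^7 * ((1/10) - y)^0) * ((c - (4/5))^0 * ((9/10) - c)^3)
      + (115243612900/4782969) * ((y - (-4/5))^7 * ((1/10) - y)^0) * ((c - (4/5))^1 * ((9/10) - c)^2)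
      + (142798597900/4782969) * ((y - (-4/5))^7 * ((1/10) - y)^0) * ((c - (4/5))^2 * ((9/10) - c)^1)
      + (19093718500/1594323) * ((y - (-4/5))^7 * ((1/10) - y)^0) * ((c - (4/5))^3 * ((9/10) - c)^0) := by
    unfold PP
    ring
  rw [e]
  have hu := sub_nonneg.2 h1
  have hv := sub_nonneg.2 h2
  have hs := sub_nonneg.2 h3
  have ht := sub_nonneg.2 h4
  generalize y - (-4/5) = u at hu ⊢
  generalize (1/10) - y = v at hv ⊢
  generalize c - (4/5) = s at hs ⊢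
  generalize (9/10) - c = t at ht ⊢
  positivity

theorem piece5 {y c : ℝ} (h1 : (1/10) ≤ y) (h2 : y ≤ 1) (h3 : (4/5) ≤ c) (h4 : c ≤ (9/10)) :
    0 ≤ PP (19/20) (7/5) y c := by
  have e : PP (19/20) (7/5) y c =
      (30226816100/4782969) * ((y - (1/10))^0 * (1 - y)^7) * ((c - (4/5))^0 * ((9/10) - c)^3)
      + (115243612900/4782969) * ((y - (1/10))^0 * (1 - y)^7) * ((c - (4/5))^1 * ((9/10) - c)^2)
      + (142798597900/4782969) * ((y - (1/10))^0 * (1 - y)^7) * ((c - (4/5))^2 * ((9/10) - c)^1)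
      + (19093718500/1594323) * ((y - (1/10))^0 * (1 - y)^7) * ((c - (4/5))^3 * ((9/10) - c)^0)
      + (204963968300/4782969) * ((y - (1/10))^1 * (1 - y)^6) * ((c - (4/5))^0 * ((9/10) - c)^3)
      + (845731813900/4782969) * ((y - (1/10))^1 * (1 - y)^6) * ((c - (4/5))^1 * ((9/10) - c)^2)
      + (1087708699300/4782969) * ((y - (1/10))^1 * (1 - y)^6) * ((c - (4/5))^2 * ((9/10) - c)^1)
      + (147832204300/1594323) * ((y - (1/10))^1 * (1 - y)^6) * ((c - (4/5))^3 * ((9/10) - c)^0)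
      + (237512523200/1594323) * ((y - (1/10))^2 * (1 - y)^5) * ((c - (4/5))^0 * ((9/10) - c)^3)
      + (985837846000/1594323) * ((y - (1/10))^2 * (1 - y)^5) * ((c - (4/5))^1 * ((9/10) - c)^2)
      + (1259646307600/1594323) * ((y - (1/10))^2 * (1 - y)^5) * ((c - (4/5))^2 * ((9/10) - c)^1)
      + (169342278400/531441) * ((y - (1/10))^2 * (1 - y)^5) * ((c - (4/5))^3 * ((9/10) - c)^0)
      + (1532738852800/4782969) * ((y - (1/10))^3 * (1 - y)^4) * ((c - (4/5))^0 * ((9/10) - c)^3)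
      + (6052967235200/4782969) * ((y - (1/10))^3 * (1 - y)^4) * ((c - (4/5))^1 * ((9/10) - c)^2)
      + (7458025775600/4782969) * ((y - (1/10))^3 * (1 - y)^4) * ((c - (4/5))^2 * ((9/10) - c)^1)
      + (974169945200/1594323) * ((y - (1/10))^3 * (1 - y)^4) * ((c - (4/5))^3 * ((9/10) - c)^0)
      + (1920596992000/4782969) * ((y - (1/10))^4 * (1 - y)^3) * ((c - (4/5))^0 * ((9/10) - c)^3)
      + (7168199168000/4782969) * ((y - (1/10))^4 * (1 - y)^3) * ((c - (4/5))^1 * ((9/10) - c)^2)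
      + (8478721424000/4782969) * ((y - (1/10))^4 * (1 - y)^3) * ((c - (4/5))^2 * ((9/10) - c)^1)
      + (1072464848000/1594323) * ((y - (1/10))^4 * (1 - y)^3) * ((c - (4/5))^3 * ((9/10) - c)^0)
      + (432932000000/1594323) * ((y - (1/10))^5 * (1 - y)^2) * ((c - (4/5))^0 * ((9/10) - c)^3)
      + (1547802400000/1594323) * ((y - (1/10))^5 * (1 - y)^2) * ((c - (4/5))^1 * ((9/10) - c)^2)
      + (1770426400000/1594323) * ((y - (1/10))^5 * (1 - y)^2) * ((c - (4/5))^2 * ((9/10) - c)^1)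
      + (217727200000/531441) * ((y - (1/10))^5 * (1 - y)^2) * ((c - (4/5))^3 * ((9/10) - c)^0)
      + (436985600000/4782969) * ((y - (1/10))^6 * (1 - y)^1) * ((c - (4/5))^0 * ((9/10) - c)^3)
      + (1514646400000/4782969) * ((y - (1/10))^6 * (1 - y)^1) * ((c - (4/5))^1 * ((9/10) - c)^2)
      + (1687187200000/4782969) * ((y - (1/10))^6 * (1 - y)^1) * ((c - (4/5))^2 * ((9/10) - c)^1)
      + (202518400000/1594323) * ((y - (1/10))^6 * (1 - y)^1) * ((c - (4/5))^3 * ((9/10) - c)^0)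
      + (57152000000/4782969) * ((y - (1/10))^7 * (1 - y)^0) * ((c - (4/5))^0 * ((9/10) - c)^3)
      + (193408000000/4782969) * ((y - (1/10))^7 * (1 - y)^0) * ((c - (4/5))^1 * ((9/10) - c)^2)
      + (210544000000/4782969) * ((y - (1/10))^7 * (1 - y)^0) * ((c - (4/5))^2 * ((9/10) - c)^1)
      + (24688000000/1594323) * ((y - (1/10))^7 * (1 - y)^0) * ((c - (4/5))^3 * ((9/10) - c)^0) := by
    unfold PP
    ring
  rw [e]
  have hu := sub_nonneg.2 h1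
  have hv := sub_nonneg.2 h2
  have hs := sub_nonneg.2 h3
  have ht := sub_nonneg.2 h4
  generalize y - (1/10) = u at hu ⊢
  generalize 1 - y = v at hv ⊢
  generalize c - (4/5) = s at hs ⊢
  generalize (9/10) - c = t at ht ⊢
  positivity

theorem piece6 {y c : ℝ} (h1 : (-1) ≤ y) (h2 : y ≤ 0) (h3 : (9/10) ≤ c) (h4 : c ≤ 1) :
    0 ≤ PP (3/2) (23/10) y c := by
  have e : PP (3/2) (23/10) y c =
      (13864/5) * ((y - (-1))^0 * (0 - y)^7) * ((c - (9/10))^0 * (1 - c)^3)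
      + 4816 * ((y - (-1))^0 * (0 - y)^7) * ((c - (9/10))^1 * (1 - c)^2)
      + 2080 * ((y - (-1))^0 * (0 - y)^7) * ((c - (9/10))^2 * (1 - c)^1)
      + (409896/5) * ((y - (-1))^1 * (0 - y)^6) * ((c - (9/10))^0 * (1 - c)^3)
      + 208528 * ((y - (-1))^1 * (0 - y)^6) * ((c - (9/10))^1 * (1 - c)^2)
      + 178080 * ((y - (-1))^1 * (0 - y)^6) * ((c - (9/10))^2 * (1 - c)^1)
      + 51200 * ((y - (-1))^1 * (0 - y)^6) * ((c - (9/10))^3 * (1 - c)^0)
      + (1479072/5) * ((y - (-1))^2 * (0 - y)^5) * ((c - (9/10))^0 * (1 - c)^3)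
      + 765120 * ((y - (-1))^2 * (0 - y)^5) * ((c - (9/10))^1 * (1 - c)^2)
      + 666920 * ((y - (-1))^2 * (0 - y)^5) * ((c - (9/10))^2 * (1 - c)^1)
      + 196400 * ((y - (-1))^2 * (0 - y)^5) * ((c - (9/10))^3 * (1 - c)^0)
      + (2016696/5) * ((y - (-1))^3 * (0 - y)^4) * ((c - (9/10))^0 * (1 - c)^3)
      + 1037504 * ((y - (-1))^3 * (0 - y)^4) * ((c - (9/10))^1 * (1 - c)^2)
      + 906920 * ((y - (-1))^3 * (0 - y)^4) * ((c - (9/10))^2 * (1 - c)^1)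
      + 270400 * ((y - (-1))^3 * (0 - y)^4) * ((c - (9/10))^3 * (1 - c)^0)
      + 262698 * ((y - (-1))^4 * (0 - y)^3) * ((c - (9/10))^0 * (1 - c)^3)
      + 678116 * ((y - (-1))^4 * (0 - y)^3) * ((c - (9/10))^1 * (1 - c)^2)
      + 608040 * ((y - (-1))^4 * (0 - y)^3) * ((c - (9/10))^2 * (1 - c)^1)
      + 190000 * ((y - (-1))^4 * (0 - y)^3) * ((c - (9/10))^3 * (1 - c)^0)
      + (442998/5) * ((y - (-1))^5 * (0 - y)^2) * ((c - (9/10))^0 * (1 - c)^3)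
      + 243636 * ((y - (-1))^5 * (0 - y)^2) * ((c - (9/10))^1 * (1 - c)^2)
      + 242320 * ((y - (-1))^5 * (0 - y)^2) * ((c - (9/10))^2 * (1 - c)^1)
      + 85600 * ((y - (-1))^5 * (0 - y)^2) * ((c - (9/10))^3 * (1 - c)^0)
      + (84528/5) * ((y - (-1))^6 * (0 - y)^1) * ((c - (9/10))^0 * (1 - c)^3)
      + 56796 * ((y - (-1))^6 * (0 - y)^1) * ((c - (9/10))^1 * (1 - c)^2)
      + 68370 * ((y - (-1))^6 * (0 - y)^1) * ((c - (9/10))^2 * (1 - c)^1)
      + 27900 * ((y - (-1))^6 * (0 - y)^1) * ((c - (9/10))^3 * (1 - c)^0)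
      + (9864/5) * ((y - (-1))^7 * (0 - y)^0) * ((c - (9/10))^0 * (1 - c)^3)
      + 8280 * ((y - (-1))^7 * (0 - y)^0) * ((c - (9/10))^1 * (1 - c)^2)
      + 11190 * ((y - (-1))^7 * (0 - y)^0) * ((c - (9/10))^2 * (1 - c)^1)
      + 4800 * ((y - (-1))^7 * (0 - y)^0) * ((c - (9/10))^3 * (1 - c)^0) := by
    unfold PP
    ring
  rw [e]
  have hu := sub_nonneg.2 h1
  have hv := sub_nonneg.2 h2
  have hs := sub_nonneg.2 h3
  have ht := sub_nonneg.2 h4
  generalize y - (-1) = u at hu ⊢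
  generalize 0 - y = v at hv ⊢
  generalize c - (9/10) = s at hs ⊢
  generalize 1 - c = t at ht ⊢
  positivity

theorem piece7 {y c : ℝ} (h1 : 0 ≤ y) (h2 : y ≤ 1) (h3 : (9/10) ≤ c) (h4 : c ≤ 1) :
    0 ≤ PP (3/2) (23/10) y c := by
  have e : PP (3/2) (23/10) y c =
      (9864/5) * ((y - 0)^0 * (1 - y)^7) * ((c - (9/10))^0 * (1 - c)^3)
      + 8280 * ((y - 0)^0 * (1 - y)^7) * ((c - (9/10))^1 * (1 - c)^2)
      + 11190 * ((y - 0)^0 * (1 - y)^7) * ((c - (9/10))^2 * (1 - c)^1)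
      + 4800 * ((y - 0)^0 * (1 - y)^7) * ((c - (9/10))^3 * (1 - c)^0)
      + (53568/5) * ((y - 0)^1 * (1 - y)^6) * ((c - (9/10))^0 * (1 - c)^3)
      + 59124 * ((y - 0)^1 * (1 - y)^6) * ((c - (9/10))^1 * (1 - c)^2)
      + 88290 * ((y - 0)^1 * (1 - y)^6) * ((c - (9/10))^2 * (1 - c)^1)
      + 39300 * ((y - 0)^1 * (1 - y)^6) * ((c - (9/10))^3 * (1 - c)^0)
      + (257238/5) * ((y - 0)^2 * (1 - y)^5) * ((c - (9/10))^0 * (1 - c)^3)
      + 257604 * ((y - 0)^2 * (1 - y)^5) * ((c - (9/10))^1 * (1 - c)^2)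
      + 361840 * ((y - 0)^2 * (1 - y)^5) * ((c - (9/10))^2 * (1 - c)^1)
      + 154000 * ((y - 0)^2 * (1 - y)^5) * ((c - (9/10))^3 * (1 - c)^0)
      + 161346 * ((y - 0)^3 * (1 - y)^4) * ((c - (9/10))^0 * (1 - c)^3)
      + 668884 * ((y - 0)^3 * (1 - y)^4) * ((c - (9/10))^1 * (1 - c)^2)
      + 846160 * ((y - 0)^3 * (1 - y)^4) * ((c - (9/10))^2 * (1 - c)^1)
      + 336000 * ((y - 0)^3 * (1 - y)^4) * ((c - (9/10))^3 * (1 - c)^0)
      + (1228056/5) * ((y - 0)^4 * (1 - y)^3) * ((c - (9/10))^0 * (1 - c)^3)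
      + 907456 * ((y - 0)^4 * (1 - y)^3) * ((c - (9/10))^1 * (1 - c)^2)
      + 1062600 * ((y - 0)^4 * (1 - y)^3) * ((c - (9/10))^2 * (1 - c)^1)
      + 398400 * ((y - 0)^4 * (1 - y)^3) * ((c - (9/10))^3 * (1 - c)^0)
      + (879072/5) * ((y - 0)^5 * (1 - y)^2) * ((c - (9/10))^0 * (1 - c)^3)
      + 609120 * ((y - 0)^5 * (1 - y)^2) * ((c - (9/10))^1 * (1 - c)^2)
      + 678120 * ((y - 0)^5 * (1 - y)^2) * ((c - (9/10))^2 * (1 - c)^1)
      + 243600 * ((y - 0)^5 * (1 - y)^2) * ((c - (9/10))^3 * (1 - c)^0)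
      + (291816/5) * ((y - 0)^6 * (1 - y)^1) * ((c - (9/10))^0 * (1 - c)^3)
      + 193872 * ((y - 0)^6 * (1 - y)^1) * ((c - (9/10))^1 * (1 - c)^2)
      + 207840 * ((y - 0)^6 * (1 - y)^1) * ((c - (9/10))^2 * (1 - c)^1)
      + 72000 * ((y - 0)^6 * (1 - y)^1) * ((c - (9/10))^3 * (1 - c)^0)
      + (36104/5) * ((y - 0)^7 * (1 - y)^0) * ((c - (9/10))^0 * (1 - c)^3)
      + 23184 * ((y - 0)^7 * (1 - y)^0) * ((c - (9/10))^1 * (1 - c)^2)
      + 24000 * ((y - 0)^7 * (1 - y)^0) * ((c - (9/10))^2 * (1 - c)^1)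
      + 8000 * ((y - 0)^7 * (1 - y)^0) * ((c - (9/10))^3 * (1 - c)^0) := by
    unfold PP
    ring
  rw [e]
  have hu := sub_nonneg.2 h1
  have hv := sub_nonneg.2 h2
  have hs := sub_nonneg.2 h3
  have ht := sub_nonneg.2 h4
  generalize y - 0 = u at hu ⊢
  generalize 1 - y = v at hv ⊢
  generalize c - (9/10) = s at hs ⊢
  generalize 1 - c = t at ht ⊢
  positivity

theorem piece8 {y c : ℝ} (h1 : (-1) ≤ y) (h2 : y ≤ 0) (h3 : 1 ≤ c) (h4 : c ≤ (11/10)) :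
    0 ≤ PP (33/20) (53/20) y c := by
  have e : PP (33/20) (53/20) y c =
      2400 * ((y - (-1))^0 * (0 - y)^7) * ((c - 1)^0 * ((11/10) - c)^3)
      + 4080 * ((y - (-1))^0 * (0 - y)^7) * ((c - 1)^1 * ((11/10) - c)^2)
      + 1752 * ((y - (-1))^0 * (0 - y)^7) * ((c - 1)^2 * ((11/10) - c)^1)
      + (148/5) * ((y - (-1))^0 * (0 - y)^7) * ((c - 1)^3 * ((11/10) - c)^0)
      + 64800 * ((y - (-1))^1 * (0 - y)^6) * ((c - 1)^0 * ((11/10) - c)^3)
      + 162480 * ((y - (-1))^1 * (0 - y)^6) * ((c - 1)^1 * ((11/10) - c)^2)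
      + 137640 * ((y - (-1))^1 * (0 - y)^6) * ((c - 1)^2 * ((11/10) - c)^1)
      + (197892/5) * ((y - (-1))^1 * (0 - y)^6) * ((c - 1)^3 * ((11/10) - c)^0)
      + 217800 * ((y - (-1))^2 * (0 - y)^5) * ((c - 1)^0 * ((11/10) - c)^3)
      + 556020 * ((y - (-1))^2 * (0 - y)^5) * ((c - 1)^1 * ((11/10) - c)^2)
      + 482712 * ((y - (-1))^2 * (0 - y)^5) * ((c - 1)^2 * ((11/10) - c)^1)
      + (715464/5) * ((y - (-1))^2 * (0 - y)^5) * ((c - 1)^3 * ((11/10) - c)^0)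
      + 266000 * ((y - (-1))^3 * (0 - y)^4) * ((c - 1)^0 * ((11/10) - c)^3)
      + 678820 * ((y - (-1))^3 * (0 - y)^4) * ((c - 1)^1 * ((11/10) - c)^2)
      + 600408 * ((y - (-1))^3 * (0 - y)^4) * ((c - 1)^2 * ((11/10) - c)^1)
      + (924372/5) * ((y - (-1))^3 * (0 - y)^4) * ((c - 1)^3 * ((11/10) - c)^0)
      + 152200 * ((y - (-1))^4 * (0 - y)^3) * ((c - 1)^0 * ((11/10) - c)^3)
      + 406740 * ((y - (-1))^4 * (0 - y)^3) * ((c - 1)^1 * ((11/10) - c)^2)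
      + 394238 * ((y - (-1))^4 * (0 - y)^3) * ((c - 1)^2 * ((11/10) - c)^1)
      + 136677 * ((y - (-1))^4 * (0 - y)^3) * ((c - 1)^3 * ((11/10) - c)^0)
      + 50800 * ((y - (-1))^5 * (0 - y)^2) * ((c - 1)^0 * ((11/10) - c)^3)
      + 166520 * ((y - (-1))^5 * (0 - y)^2) * ((c - 1)^1 * ((11/10) - c)^2)
      + 199046 * ((y - (-1))^5 * (0 - y)^2) * ((c - 1)^2 * ((11/10) - c)^1)
      + (406931/5) * ((y - (-1))^5 * (0 - y)^2) * ((c - 1)^3 * ((11/10) - c)^0)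
      + 14850 * ((y - (-1))^6 * (0 - y)^1) * ((c - 1)^0 * ((11/10) - c)^3)
      + 61545 * ((y - (-1))^6 * (0 - y)^1) * ((c - 1)^1 * ((11/10) - c)^2)
      + 82926 * ((y - (-1))^6 * (0 - y)^1) * ((c - 1)^2 * ((11/10) - c)^1)
      + (177816/5) * ((y - (-1))^6 * (0 - y)^1) * ((c - 1)^3 * ((11/10) - c)^0)
      + 3000 * ((y - (-1))^7 * (0 - y)^0) * ((c - 1)^0 * ((11/10) - c)^3)
      + 12615 * ((y - (-1))^7 * (0 - y)^0) * ((c - 1)^1 * ((11/10) - c)^2)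
      + 16584 * ((y - (-1))^7 * (0 - y)^0) * ((c - 1)^2 * ((11/10) - c)^1)
      + (34368/5) * ((y - (-1))^7 * (0 - y)^0) * ((c - 1)^3 * ((11/10) - c)^0) := by
    unfold PP
    ring
  rw [e]
  have hu := sub_nonneg.2 h1
  have hv := sub_nonneg.2 h2
  have hs := sub_nonneg.2 h3
  have ht := sub_nonneg.2 h4
  generalize y - (-1) = u at hu ⊢
  generalize 0 - y = v at hv ⊢
  generalize c - 1 = s at hs ⊢
  generalize (11/10) - c = t at ht ⊢
  positivity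

theorem piece9 {y c : ℝ} (h1 : 0 ≤ y) (h2 : y ≤ 1) (h3 : 1 ≤ c) (h4 : c ≤ (11/10)) :
    0 ≤ PP (33/20) (53/20) y c := by
  have e : PP (33/20) (53/20) y c =
      3000 * ((y - 0)^0 * (1 - y)^7) * ((c - 1)^0 * ((11/10) - c)^3)
      + 12615 * ((y - 0)^0 * (1 - y)^7) * ((c - 1)^1 * ((11/10) - c)^2)
      + 16584 * ((y - 0)^0 * (1 - y)^7) * ((c - 1)^2 * ((11/10) - c)^1)
      + (34368/5) * ((y - 0)^0 * (1 - y)^7) * ((c - 1)^3 * ((11/10) - c)^0)
      + 27150 * ((y - 0)^1 * (1 - y)^6) * ((c - 1)^0 * ((11/10) - c)^3)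
      + 115065 * ((y - 0)^1 * (1 - y)^6) * ((c - 1)^1 * ((11/10) - c)^2)
      + 149250 * ((y - 0)^1 * (1 - y)^6) * ((c - 1)^2 * ((11/10) - c)^1)
      + (303336/5) * ((y - 0)^1 * (1 - y)^6) * ((c - 1)^3 * ((11/10) - c)^0)
      + 124600 * ((y - 0)^2 * (1 - y)^5) * ((c - 1)^0 * ((11/10) - c)^3)
      + 487640 * ((y - 0)^2 * (1 - y)^5) * ((c - 1)^1 * ((11/10) - c)^2)
      + 596990 * ((y - 0)^2 * (1 - y)^5) * ((c - 1)^2 * ((11/10) - c)^1)
      + (1160051/5) * ((y - 0)^2 * (1 - y)^5) * ((c - 1)^3 * ((11/10) - c)^0)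
      + 304800 * ((y - 0)^3 * (1 - y)^4) * ((c - 1)^0 * ((11/10) - c)^3)
      + 1097960 * ((y - 0)^3 * (1 - y)^4) * ((c - 1)^1 * ((11/10) - c)^2)
      + 1264182 * ((y - 0)^3 * (1 - y)^4) * ((c - 1)^2 * ((11/10) - c)^1)
      + 468001 * ((y - 0)^3 * (1 - y)^4) * ((c - 1)^3 * ((11/10) - c)^0)
      + 384400 * ((y - 0)^4 * (1 - y)^3) * ((c - 1)^0 * ((11/10) - c)^3)
      + 1302900 * ((y - 0)^4 * (1 - y)^3) * ((c - 1)^1 * ((11/10) - c)^2)
      + 1427224 * ((y - 0)^4 * (1 - y)^3) * ((c - 1)^2 * ((11/10) - c)^1)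
      + (2530052/5) * ((y - 0)^4 * (1 - y)^3) * ((c - 1)^3 * ((11/10) - c)^0)
      + 241400 * ((y - 0)^5 * (1 - y)^2) * ((c - 1)^0 * ((11/10) - c)^3)
      + 783220 * ((y - 0)^5 * (1 - y)^2) * ((c - 1)^1 * ((11/10) - c)^2)
      + 823912 * ((y - 0)^5 * (1 - y)^2) * ((c - 1)^2 * ((11/10) - c)^1)
      + (1403464/5) * ((y - 0)^5 * (1 - y)^2) * ((c - 1)^3 * ((11/10) - c)^0)
      + 72000 * ((y - 0)^6 * (1 - y)^1) * ((c - 1)^0 * ((11/10) - c)^3)
      + 225040 * ((y - 0)^6 * (1 - y)^1) * ((c - 1)^1 * ((11/10) - c)^2)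
      + 227592 * ((y - 0)^6 * (1 - y)^1) * ((c - 1)^2 * ((11/10) - c)^1)
      + (370852/5) * ((y - 0)^6 * (1 - y)^1) * ((c - 1)^3 * ((11/10) - c)^0)
      + 8000 * ((y - 0)^7 * (1 - y)^0) * ((c - 1)^0 * ((11/10) - c)^3)
      + 24000 * ((y - 0)^7 * (1 - y)^0) * ((c - 1)^1 * ((11/10) - c)^2)
      + 23096 * ((y - 0)^7 * (1 - y)^0) * ((c - 1)^2 * ((11/10) - c)^1)
      + (35268/5) * ((y - 0)^7 * (1 - y)^0) * ((c - 1)^3 * ((11/10) - c)^0) := by
    unfold PP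
    ring
  rw [e]
  have hu := sub_nonneg.2 h1
  have hv := sub_nonneg.2 h2
  have hs := sub_nonneg.2 h3
  have ht := sub_nonneg.2 h4
  generalize y - 0 = u at hu ⊢
  generalize 1 - y = v at hv ⊢
  generalize c - 1 = s at hs ⊢
  generalize (11/10) - c = t at ht ⊢
  positivity

theorem piece10 {y c : ℝ} (h1 : (-1) ≤ y) (h2 : y ≤ 0) (h3 : (11/10) ≤ c) (h4 : c ≤ (49/40)) :
    0 ≤ PP (39/20) (17/5) y c := by
  have e : PP (39/20) (17/5) y c =
      (942592/625) * ((y - (-1))^0 * (0 - y)^7) * ((c - (11/10))^0 * ((49/40) - c)^3)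
      + (1514496/625) * ((y - (-1))^0 * (0 - y)^7) * ((c - (11/10))^1 * ((49/40) - c)^2)
      + (659616/625) * ((y - (-1))^0 * (0 - y)^7) * ((c - (11/10))^2 * ((49/40) - c)^1)
      + (53712/625) * ((y - (-1))^0 * (0 - y)^7) * ((c - (11/10))^3 * ((49/40) - c)^0)
      + (16915968/625) * ((y - (-1))^1 * (0 - y)^6) * ((c - (11/10))^0 * ((49/40) - c)^3)
      + (38793984/625) * ((y - (-1))^1 * (0 - y)^6) * ((c - (11/10))^1 * ((49/40) - c)^2)
      + (30821664/625) * ((y - (-1))^1 * (0 - y)^6) * ((c - (11/10))^2 * ((49/40) - c)^1)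
      + (8637648/625) * ((y - (-1))^1 * (0 - y)^6) * ((c - (11/10))^3 * ((49/40) - c)^0)
      + (47149056/625) * ((y - (-1))^2 * (0 - y)^5) * ((c - (11/10))^0 * ((49/40) - c)^3)
      + (109609728/625) * ((y - (-1))^2 * (0 - y)^5) * ((c - (11/10))^1 * ((49/40) - c)^2)
      + (90907488/625) * ((y - (-1))^2 * (0 - y)^5) * ((c - (11/10))^2 * ((49/40) - c)^1)
      + (27324816/625) * ((y - (-1))^2 * (0 - y)^5) * ((c - (11/10))^3 * ((49/40) - c)^0)
      + (40447488/625) * ((y - (-1))^3 * (0 - y)^4) * ((c - (11/10))^0 * ((49/40) - c)^3)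
      + (93356544/625) * ((y - (-1))^3 * (0 - y)^4) * ((c - (11/10))^1 * ((49/40) - c)^2)
      + (86748224/625) * ((y - (-1))^3 * (0 - y)^4) * ((c - (11/10))^2 * ((49/40) - c)^1)
      + (31663168/625) * ((y - (-1))^3 * (0 - y)^4) * ((c - (11/10))^3 * ((49/40) - c)^0)
      + (2022528/125) * ((y - (-1))^4 * (0 - y)^3) * ((c - (11/10))^0 * ((49/40) - c)^3)
      + (7169024/125) * ((y - (-1))^4 * (0 - y)^3) * ((c - (11/10))^1 * ((49/40) - c)^2)
      + (11959464/125) * ((y - (-1))^4 * (0 - y)^3) * ((c - (11/10))^2 * ((49/40) - c)^1)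
      + (6328468/125) * ((y - (-1))^4 * (0 - y)^3) * ((c - (11/10))^3 * ((49/40) - c)^0)
      + (2090624/625) * ((y - (-1))^5 * (0 - y)^2) * ((c - (11/10))^0 * ((49/40) - c)^3)
      + (28510912/625) * ((y - (-1))^5 * (0 - y)^2) * ((c - (11/10))^1 * ((49/40) - c)^2)
      + (58937752/625) * ((y - (-1))^5 * (0 - y)^2) * ((c - (11/10))^2 * ((49/40) - c)^1)
      + (30961964/625) * ((y - (-1))^5 * (0 - y)^2) * ((c - (11/10))^3 * ((49/40) - c)^0)
      + (3569664/625) * ((y - (-1))^6 * (0 - y)^1) * ((c - (11/10))^0 * ((49/40) - c)^3)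
      + (22698432/625) * ((y - (-1))^6 * (0 - y)^1) * ((c - (11/10))^1 * ((49/40) - c)^2)
      + (36243672/625) * ((y - (-1))^6 * (0 - y)^1) * ((c - (11/10))^2 * ((49/40) - c)^1)
      + (16579404/625) * ((y - (-1))^6 * (0 - y)^1) * ((c - (11/10))^3 * ((49/40) - c)^0)
      + (1231872/625) * ((y - (-1))^7 * (0 - y)^0) * ((c - (11/10))^0 * ((49/40) - c)^3)
      + (5742336/625) * ((y - (-1))^7 * (0 - y)^0) * ((c - (11/10))^1 * ((49/40) - c)^2)
      + (7836456/625) * ((y - (-1))^7 * (0 - y)^0) * ((c - (11/10))^2 * ((49/40) - c)^1)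
      + (3249492/625) * ((y - (-1))^7 * (0 - y)^0) * ((c - (11/10))^3 * ((49/40) - c)^0) := by
    unfold PP
    ring
  rw [e]
  have hu := sub_nonneg.2 h1
  have hv := sub_nonneg.2 h2
  have hs := sub_nonneg.2 h3
  have ht := sub_nonneg.2 h4
  generalize y - (-1) = u at hu ⊢
  generalize 0 - y = v at hv ⊢
  generalize c - (11/10) = s at hs ⊢
  generalize (49/40) - c = t at ht ⊢
  positivity

theorem piece11 {y c : ℝ} (h1 : 0 ≤ y) (h2 : y ≤ 1) (h3 : (11/10) ≤ c) (h4 : c ≤ (49/40)) :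
    0 ≤ PP (39/20) (17/5) y c := by
  have e : PP (39/20) (17/5) y c =
      (1231872/625) * ((y - 0)^0 * (1 - y)^7) * ((c - (11/10))^0 * ((49/40) - c)^3)
      + (5742336/625) * ((y - 0)^0 * (1 - y)^7) * ((c - (11/10))^1 * ((49/40) - c)^2)
      + (7836456/625) * ((y - 0)^0 * (1 - y)^7) * ((c - (11/10))^2 * ((49/40) - c)^1)
      + (3249492/625) * ((y - 0)^0 * (1 - y)^7) * ((c - (11/10))^3 * ((49/40) - c)^0)
      + (13676544/625) * ((y - 0)^1 * (1 - y)^6) * ((c - (11/10))^0 * ((49/40) - c)^3)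
      + (57694272/625) * ((y - 0)^1 * (1 - y)^6) * ((c - (11/10))^1 * ((49/40) - c)^2)
      + (73466712/625) * ((y - 0)^1 * (1 - y)^6) * ((c - (11/10))^2 * ((49/40) - c)^1)
      + (28913484/625) * ((y - 0)^1 * (1 - y)^6) * ((c - (11/10))^3 * ((49/40) - c)^0)
      + (62731904/625) * ((y - 0)^2 * (1 - y)^5) * ((c - (11/10))^0 * ((49/40) - c)^3)
      + (238485952/625) * ((y - 0)^2 * (1 - y)^5) * ((c - (11/10))^1 * ((49/40) - c)^2)
      + (282275992/625) * ((y - 0)^2 * (1 - y)^5) * ((c - (11/10))^2 * ((49/40) - c)^1)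
      + (104966444/625) * ((y - 0)^2 * (1 - y)^5) * ((c - (11/10))^3 * ((49/40) - c)^0)
      + (28307584/125) * ((y - 0)^3 * (1 - y)^4) * ((c - (11/10))^0 * ((49/40) - c)^3)
      + (99042432/125) * ((y - 0)^3 * (1 - y)^4) * ((c - (11/10))^1 * ((49/40) - c)^2)
      + (109833512/125) * ((y - 0)^3 * (1 - y)^4) * ((c - (11/10))^2 * ((49/40) - c)^1)
      + (38614164/125) * ((y - 0)^3 * (1 - y)^4) * ((c - (11/10))^3 * ((49/40) - c)^0)
      + (161873408/625) * ((y - 0)^4 * (1 - y)^3) * ((c - (11/10))^0 * ((49/40) - c)^3)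
      + (530991104/625) * ((y - 0)^4 * (1 - y)^3) * ((c - (11/10))^1 * ((49/40) - c)^2)
      + (555307584/625) * ((y - 0)^4 * (1 - y)^3) * ((c - (11/10))^2 * ((49/40) - c)^1)
      + (184013888/625) * ((y - 0)^4 * (1 - y)^3) * ((c - (11/10))^3 * ((49/40) - c)^0)
      + (91181056/625) * ((y - 0)^5 * (1 - y)^2) * ((c - (11/10))^0 * ((49/40) - c)^3)
      + (282345728/625) * ((y - 0)^5 * (1 - y)^2) * ((c - (11/10))^1 * ((49/40) - c)^2)
      + (277083488/625) * ((y - 0)^5 * (1 - y)^2) * ((c - (11/10))^2 * ((49/40) - c)^1)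
      + (84796816/625) * ((y - 0)^5 * (1 - y)^2) * ((c - (11/10))^3 * ((49/40) - c)^0)
      + (23838208/625) * ((y - 0)^6 * (1 - y)^1) * ((c - (11/10))^0 * ((49/40) - c)^3)
      + (68930304/625) * ((y - 0)^6 * (1 - y)^1) * ((c - (11/10))^1 * ((49/40) - c)^2)
      + (61623584/625) * ((y - 0)^6 * (1 - y)^1) * ((c - (11/10))^2 * ((49/40) - c)^1)
      + (16225488/625) * ((y - 0)^6 * (1 - y)^1) * ((c - (11/10))^3 * ((49/40) - c)^0)
      + (2191872/625) * ((y - 0)^7 * (1 - y)^0) * ((c - (11/10))^0 * ((49/40) - c)^3)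
      + (5633536/625) * ((y - 0)^7 * (1 - y)^0) * ((c - (11/10))^1 * ((49/40) - c)^2)
      + (4061856/625) * ((y - 0)^7 * (1 - y)^0) * ((c - (11/10))^2 * ((49/40) - c)^1)
      + (586192/625) * ((y - 0)^7 * (1 - y)^0) * ((c - (11/10))^3 * ((49/40) - c)^0) := by
    unfold PP
    ring
  rw [e]
  have hu := sub_nonneg.2 h1
  have hv := sub_nonneg.2 h2
  have hs := sub_nonneg.2 h3
  have ht := sub_nonneg.2 h4
  generalize y - 0 = u at hu ⊢
  generalize 1 - y = v at hv ⊢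
  generalize c - (11/10) = s at hs ⊢
  generalize (49/40) - c = t at ht ⊢
  positivity

end N3
end Pool.Agent.Lib.MP391fb1
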