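import Pool.Agent.Lib.MP_391fb1_pr.Bs2
import Pool.Agent.Lib.MP_391fb1_pr.N3cert

/-!
# MP_391fb1_pr: the case `n = 3`
-/

namespace Pool.Agent.Lib.MP391fb1
namespace N3

open MeasureTheory Set intervalIntegral

/-- right derivative of `(V 3)'` -/
noncomputable def W (x : ℝ) : ℝ :=
  if x < -1 then 2 / (3 + x) ^ 2 else if x < 1 then (6 + 2 * x ^ 2) / (3 - x ^ 2) ^ 2
    else 2 / (3 - x) ^ 2

/-- the derivative of `V 3` on `(-3,3)` -/
noncomputable def g (x : ℝ) : ℝ := 2 * x / (3 * max |x| 1 - x ^ 2)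

theorem den_pos {x : ℝ} (hx : |x| < 3) : 0 < 3 * max |x| 1 - x ^ 2 := by
  have h0 := abs_nonneg x
  have hsq : x ^ 2 = |x| ^ 2 := (sq_abs x).symm
  rw [hsq]
  rcases max_cases |x| 1 with ⟨h1, h2⟩ | ⟨h1, h2⟩
  · rw [h1]; nlinarith
  · rw [h1]; nlinarith

theorem g_right {x : ℝ} (h1 : 1 ≤ x) (h3 : x < 3) : g x = 2 / (3 - x) := by
  unfold g
  rw [abs_of_nonneg (by linarith), max_eq_left h1]
  have e : 3 * x - x ^ 2 = x * (3 - x) := by ring
  have : 3 - x ≠ 0 := by linarith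
  have : x ≠ 0 := by linarith
  rw [e]
  field_simp

theorem g_mid {x : ℝ} (h : |x| ≤ 1) : g x = 2 * x / (3 - x ^ 2) := by
  unfold g
  rw [max_eq_right h, mul_one]

theorem g_left {x : ℝ} (h1 : x ≤ -1) (h3 : -3 < x) : g x = -2 / (3 + x) := by
  unfold g
  rw [abs_of_nonpos (by linarith), max_eq_left (by linarith)]
  have e : 3 * (-x) - x ^ 2 = (-x) * (3 + x) := by ring
  have : 3 + x ≠ 0 := by linarith
  have : x ≠ 0 := by linarith
  rw [e]
  field_simp

theorem g_odd (x : ℝ) : g (-x) = - g x := by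
  unfold g
  rw [abs_neg, neg_sq]
  ring

theorem g_continuousOn : ContinuousOn g (Ioo (-3) 3) := by
  unfold g
  apply ContinuousOn.div (by fun_prop) (by fun_prop)
  intro x hx
  exact (den_pos (abs_lt.2 hx)).ne'

theorem g_hasDerivWithinAt {x : ℝ} (h1 : -3 < x) (h2 : x < 3) :
    HasDerivWithinAt g (W x) (Ici x) x := by
  unfold W
  split_ifs with h h'
  · have hd : HasDerivAt (fun y : ℝ => -2 / (3 + y)) (2 / (3 + x) ^ 2) x := by
      have h0 : (3 + x) ≠ 0 := by linarith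
      have := ((hasDerivAt_id x).const_add 3).inv h0
      have := this.const_mul (-2)
      refine (this.congr_deriv ?_).congr_of_eventuallyEq ?_
      · simp; ring
      · filter_upwards with y
        simp [div_eq_mul_inv]
    apply HasDerivAt.hasDerivWithinAt
    apply hd.congr_of_eventuallyEq
    filter_upwards [Ioo_mem_nhds h1 h] with y hy
    exact g_left hy.2.le hy.1
  · push Not at h
    have hd : HasDerivAt (fun y : ℝ => 2 * y / (3 - y ^ 2)) ((6 + 2 * x ^ 2) / (3 - x ^ 2) ^ 2) x := by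
      have h0 : (3 - x ^ 2) ≠ 0 := by nlinarith
      have := ((hasDerivAt_id x).const_mul 2).div ((hasDerivAt_pow 2 x).const_sub 3) h0
      refine this.congr_deriv ?_
      simp only [id, mul_one]
      congr 1
      push_cast
      ring
    apply (hd.hasDerivWithinAt (s := Ici x)).congr_of_eventuallyEq
    · filter_upwards [self_mem_nhdsWithin, mem_nhdsWithin_of_mem_nhds (Iio_mem_nhds h')] with y hy hy'
      exact g_mid (abs_le.2 ⟨h.trans hy, le_of_lt hy'⟩)
    · exact g_mid (abs_le.2 ⟨h, h'.le⟩)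
  · push Not at h h'
    have hd : HasDerivAt (fun y : ℝ => 2 / (3 - y)) (2 / (3 - x) ^ 2) x := by
      have h0 : (3 - x) ≠ 0 := by linarith
      have := ((hasDerivAt_id x).const_sub 3).inv h0
      have := this.const_mul 2
      refine (this.congr_deriv ?_).congr_of_eventuallyEq ?_
      · simp; ring
      · filter_upwards with y
        simp [div_eq_mul_inv]
    apply (hd.hasDerivWithinAt (s := Ici x)).congr_of_eventuallyEq
    · filter_upwards [self_mem_nhdsWithin, mem_nhdsWithin_of_mem_nhds (Iio_mem_nhds h2)] with y hy hy'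
      exact g_right (h'.trans hy) hy'
    · exact g_right h' h2

/-! ### explicit density -/

theorem bs30_right {x : ℝ} (h1 : 1 ≤ x) (h3 : x < 3) : bs 3 0 x = (3 - x) ^ 2 / 16 := by
  unfold bs
  simp only [Finset.sum_range_succ, Finset.sum_range_zero]
  norm_num [Nat.choose]
  rw [max_eq_left (by linarith : 0 ≤ x + 3), max_eq_left (by linarith : 0 ≤ x + 3 - 2),
    max_eq_left (by linarith : 0 ≤ x + 3 - 4), max_eq_right (by linarith : x + 3 - 6 ≤ 0)]
  ring

theorem bs30_mid {x : ℝ} (h1 : -1 ≤ x) (h3 : x ≤ 1) : bs 3 0 x = (3 - x ^ 2) / 8 := by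
  unfold bs
  simp only [Finset.sum_range_succ, Finset.sum_range_zero]
  norm_num [Nat.choose]
  rw [max_eq_left (by linarith : 0 ≤ x + 3), max_eq_left (by linarith : 0 ≤ x + 3 - 2),
    max_eq_right (by linarith : x + 3 - 4 ≤ 0), max_eq_right (by linarith : x + 3 - 6 ≤ 0)]
  ring

theorem bs30_left {x : ℝ} (h1 : -3 < x) (h3 : x ≤ -1) : bs 3 0 x = (3 + x) ^ 2 / 16 := by
  unfold bs
  simp only [Finset.sum_range_succ, Finset.sum_range_zero]
  norm_num [Nat.choose]
  rw [max_eq_left (by linarith : 0 ≤ x + 3), max_eq_right (by linarith : x + 3 - 2 ≤ 0),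
    max_eq_right (by linarith : x + 3 - 4 ≤ 0), max_eq_right (by linarith : x + 3 - 6 ≤ 0)]
  ring

theorem bs31_right {x : ℝ} (h1 : 1 ≤ x) (h3 : x < 3) : bs 3 1 x = (x - 3) / 8 := by
  unfold bs
  simp only [Finset.sum_range_succ, Finset.sum_range_zero]
  norm_num [Nat.choose]
  rw [max_eq_left (by linarith : 0 ≤ x + 3), max_eq_left (by linarith : 0 ≤ x + 3 - 2),
    max_eq_left (by linarith : 0 ≤ x + 3 - 4), max_eq_right (by linarith : x + 3 - 6 ≤ 0)]
  ring

theorem bs31_mid {x : ℝ} (h1 : -1 ≤ x) (h3 : x ≤ 1) : bs 3 1 x = - x / 4 := by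
  unfold bs
  simp only [Finset.sum_range_succ, Finset.sum_range_zero]
  norm_num [Nat.choose]
  rw [max_eq_left (by linarith : 0 ≤ x + 3), max_eq_left (by linarith : 0 ≤ x + 3 - 2),
    max_eq_right (by linarith : x + 3 - 4 ≤ 0), max_eq_right (by linarith : x + 3 - 6 ≤ 0)]
  ring

theorem bs31_left {x : ℝ} (h1 : -3 < x) (h3 : x ≤ -1) : bs 3 1 x = (x + 3) / 8 := by
  unfold bs
  simp only [Finset.sum_range_succ, Finset.sum_range_zero]
  norm_num [Nat.choose]
  rw [max_eq_left (by linarith : 0 ≤ x + 3), max_eq_right (by linarith : x + 3 - 2 ≤ 0),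
    max_eq_right (by linarith : x + 3 - 4 ≤ 0), max_eq_right (by linarith : x + 3 - 6 ≤ 0)]
  ring

theorem V_hasDerivAt {x : ℝ} (hx : |x| < 3) : HasDerivAt (V 3) (g x) x := by
  have hp : 0 < bs 3 0 x := bs_pos (by norm_num) (by exact_mod_cast hx)
  have h := (bs_hasDerivAt (n := 3) (i := 0) (by norm_num) x).log hp.ne'
  have h2 : HasDerivAt (V 3) (-(bs 3 (0 + 1) x / bs 3 0 x)) x := h.neg
  refine h2.congr_deriv ?_
  have hx' := abs_lt.1 hx
  rcases le_total 1 x with h1 | h1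
  · rw [g_right h1 hx'.2]
    norm_num
    rw [bs31_right h1 hx'.2, bs30_right h1 hx'.2]
    have : 3 - x ≠ 0 := by linarith [hx'.2]
    field_simp
    ring
  · rcases le_total x (-1) with h3 | h3
    · rw [g_left h3 hx'.1]
      norm_num
      rw [bs31_left hx'.1 h3, bs30_left hx'.1 h3]
      have : 3 + x ≠ 0 := by linarith [hx'.1]
      field_simp
      ring
    · rw [g_mid (abs_le.2 ⟨h3, h1⟩)]
      norm_num
      rw [bs31_mid h3 h1, bs30_mid h3 h1]
      have : 3 - x ^ 2 ≠ 0 := by nlinarith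
      field_simp
      ring

/-! ### smooth extension -/

/-- clamp to `[-R,R]` -/
noncomputable def cl (R x : ℝ) : ℝ := max (-R) (min R x)

theorem cl_eq {R x : ℝ} (h : |x| ≤ R) : cl R x = x := by
  have := abs_le.1 h
  unfold cl
  rw [min_eq_right this.2, max_eq_right this.1]

theorem cl_abs {R x : ℝ} (hR : 0 ≤ R) : |cl R x| ≤ R := by
  unfold cl
  rw [abs_le]
  exact ⟨le_max_left _ _, max_le (by linarith) (min_le_left _ _)⟩

theorem cl_neg {R x : ℝ} (hR : 0 ≤ R) : cl R (-x) = - cl R x := by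
  unfold cl
  rcases le_total x R with h1 | h1 <;> rcases le_total (-R) x with h2 | h2
  · rw [min_eq_right h1, max_eq_right h2, min_eq_right (by linarith), max_eq_right (by linarith)]
  · rw [min_eq_right h1, max_eq_left h2, min_eq_left (by linarith), max_eq_right (by linarith)]
    ring
  · rw [min_eq_left h1, min_eq_right (by linarith : -x ≤ R), max_eq_left (by linarith : -x ≤ -R),
      max_eq_right (by linarith : -R ≤ R)]
  · have : R = 0 := by linarith
    subst this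
    have hx : x = 0 := by linarith
    subst hx
    simp

/-- clamped derivative -/
noncomputable def gt (R x : ℝ) : ℝ := g (cl R x)

theorem gt_eq {R x : ℝ} (h : |x| ≤ R) : gt R x = g x := by
  unfold gt; rw [cl_eq h]

theorem gt_odd {R x : ℝ} (hR : 0 ≤ R) : gt R (-x) = - gt R x := by
  unfold gt; rw [cl_neg hR, g_odd]

theorem gt_continuous {R : ℝ} (hR : 0 ≤ R) (hR3 : R < 3) : Continuous (gt R) := by
  unfold gt
  have hc : Continuous (cl R) := by unfold cl; fun_prop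
  apply g_continuousOn.comp_continuous hc
  intro x
  exact abs_lt.1 (lt_of_le_of_lt (cl_abs hR) hR3)

/-- smooth extension of `V 3` -/
noncomputable def Vt (R x : ℝ) : ℝ := V 3 0 + ∫ y in (0:ℝ)..x, gt R y

theorem Vt_hasDerivAt {R : ℝ} (hR : 0 ≤ R) (hR3 : R < 3) (x : ℝ) :
    HasDerivAt (Vt R) (gt R x) x := by
  have := (hasDerivAt_primitive (gt_continuous hR hR3) 0 x).const_add (V 3 0)
  exact this

theorem Vt_eq {R x : ℝ} (hR : 0 ≤ R) (hR3 : R < 3) (hx : |x| ≤ R) : Vt R x = V 3 x := by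
  unfold Vt
  have : ∫ y in (0:ℝ)..x, gt R y = V 3 x - V 3 0 := by
    apply intervalIntegral.integral_eq_sub_of_hasDerivAt
    · intro y hy
      have hyx : |y| ≤ R := by
        have h1 : |y| ≤ |x| := by
          rcases le_total 0 x with h | h
          · rw [uIcc_of_le h] at hy
            rw [abs_of_nonneg hy.1, abs_of_nonneg h]; exact hy.2
          · rw [uIcc_of_ge h] at hy
            rw [abs_of_nonpos hy.2, abs_of_nonpos h]; linarith [hy.1]
        exact h1.trans hx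
      rw [gt_eq hyx]
      exact V_hasDerivAt (lt_of_le_of_lt hyx hR3)
    · exact (gt_continuous hR hR3).intervalIntegrable _ _
  rw [this]; ring

theorem Vt_continuous {R : ℝ} (hR : 0 ≤ R) (hR3 : R < 3) : Continuous (Vt R) :=
  continuous_iff_continuousAt.2 fun x => (Vt_hasDerivAt hR hR3 x).continuousAt

theorem Vt_even {R : ℝ} (hR : 0 ≤ R) (x : ℝ) : Vt R (-x) = Vt R x := by
  unfold Vt
  congr 1
  have := intervalIntegral.integral_comp_neg (a := (0:ℝ)) (b := x) (gt R)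
  rw [neg_zero] at this
  rw [intervalIntegral.integral_symm, ← this, ← intervalIntegral.integral_neg]
  apply intervalIntegral.integral_congr
  intro y _
  show -gt R (-y) = gt R y
  rw [gt_odd hR, neg_neg]

/-! ### the key inequality -/

/-- what we need of the pair `(p, l)` attached to `c` -/
def Good (c p l : ℝ) : Prop :=
  0 < p ∧ 0 < l ∧ 91 / 20 * p ^ 2 ≤ l ^ 2 * (3 - c ^ 2) ∧
    ∀ s, 0 ≤ s → s + c < 3 → 0 ≤ W (s + c) - W (s - c) + p - l * s

theorem mid_of_PP {p l s c : ℝ} (h1 : -1 ≤ s - c) (h2 : s - c < 1) (h3 : 1 ≤ s + c)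
    (h4 : s + c < 3) (hP : 0 ≤ PP p l (s - c) c) :
    0 ≤ W (s + c) - W (s - c) + p - l * s := by
  unfold W
  rw [if_neg (by linarith), if_neg (by linarith), if_neg (by linarith), if_pos h2]
  have d1 : 0 < 3 - (s + c) := by linarith
  have d2 : 0 < 3 - (s - c) ^ 2 := by nlinarith
  have e : 2 / (3 - (s + c)) ^ 2 - (6 + 2 * (s - c) ^ 2) / (3 - (s - c) ^ 2) ^ 2 + p - l * s
      = PP p l (s - c) c / ((3 - (s + c)) ^ 2 * (3 - (s - c) ^ 2) ^ 2) := by
    unfold PP
    field_simp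
    ring
  rw [e]
  positivity

theorem W_mono_mid {x y : ℝ} (hx : |x| ≤ y) (hy : y < 1) : W x ≤ W y := by
  have h0 := abs_nonneg x
  have hx' := abs_le.1 hx
  unfold W
  rw [if_neg (by linarith), if_pos (by linarith), if_neg (by linarith), if_pos hy]
  have hsq : x ^ 2 ≤ y ^ 2 := by
    have := pow_le_pow_left₀ h0 hx 2
    rwa [sq_abs] at this
  have d1 : 0 < 3 - y ^ 2 := by nlinarith
  have d2 : 0 < 3 - x ^ 2 := by linarith
  gcongr

theorem good_of {c p l : ℝ} (hp : 0 < p) (hl : 0 < l) (hr : 91 / 20 * p ^ 2 ≤ l ^ 2 * (3 - c ^ 2))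
    (hc : 3 / 5 ≤ c) (hA : l * |1 - c| ≤ p)
    (hB : ∀ y, -1 ≤ y → 1 - 2 * c ≤ y → y ≤ 1 → 0 ≤ PP p l y c)
    (hD : c < 1 → l * (3 - c) - p ≤ 2 / (2 - 2 * c) ^ 2 - 2 / (2 * c) ^ 2) : Good c p l := by
  refine ⟨hp, hl, hr, ?_⟩
  intro s hs hsc
  rcases lt_or_ge (s + c) 1 with h1 | h1
  · -- both arguments in the middle
    have h2 : W (s - c) ≤ W (s + c) := by
      apply W_mono_mid _ h1
      rw [abs_le]; constructor <;> linarith
    have h3 : l * s ≤ l * |1 - c| := by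
      apply mul_le_mul_of_nonneg_left _ hl.le
      rw [abs_of_nonneg (by linarith)]
      linarith
    linarith
  rcases lt_or_ge (s - c) (-1) with h2 | h2
  · -- left and right
    have h3 : l * s ≤ l * |1 - c| := by
      apply mul_le_mul_of_nonneg_left _ hl.le
      rw [abs_of_nonpos (by linarith)]
      linarith
    have h4 : W (s - c) ≤ W (s + c) := by
      unfold W
      rw [if_pos h2, if_neg (by linarith), if_neg (by linarith)]
      have d1 : 0 < 3 - (s + c) := by linarith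
      have d2 : 3 - (s + c) ≤ 3 + (s - c) := by linarith
      gcongr
    linarith
  rcases lt_or_ge (s - c) 1 with h3 | h3
  · exact mid_of_PP h2 h3 h1 hsc (hB _ h2 (by linarith) h3.le)
  · -- both to the right of 1
    have hc1 : c < 1 := by linarith
    have h4 := hD hc1
    unfold W
    rw [if_neg (by linarith), if_neg (by linarith), if_neg (by linarith), if_neg (by linarith)]
    have d1 : 0 < 3 - (s + c) := by linarith
    have d2 : 3 - (s + c) ≤ 2 - 2 * c := by linarith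
    have d3 : 2 * c ≤ 3 - (s - c) := by linarith
    have e1 : 2 / (2 - 2 * c) ^ 2 ≤ 2 / (3 - (s + c)) ^ 2 := by gcongr
    have e2 : 2 / (3 - (s - c)) ^ 2 ≤ 2 / (2 * c) ^ 2 := by
      have : 0 < 2 * c := by linarith
      gcongr
    have e3 : l * s ≤ l * (3 - c) := by
      apply mul_le_mul_of_nonneg_left _ hl.le
      linarith
    linarith

theorem good_exists {c : ℝ} (h1 : 3 / 5 ≤ c) (h2 : c ≤ 49 / 40) : ∃ p l, Good c p l := by
  have hDgen : ∀ {u p l : ℝ}, 0 < u → c < 1 → 2 - 2 * c ≤ u → 0 < l → 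
      l * (12 / 5) - p ≤ 2 / u ^ 2 - 25 / 18 → 
      l * (3 - c) - p ≤ 2 / (2 - 2 * c) ^ 2 - 2 / (2 * c) ^ 2 := by
    intro u p l hu hc1 hcu hl h
    have d1 : 0 < 2 - 2 * c := by linarith
    have e1 : 2 / u ^ 2 ≤ 2 / (2 - 2 * c) ^ 2 := by gcongr
    have e2 : 2 / (2 * c) ^ 2 ≤ 25 / 18 := by
      rw [div_le_iff₀ (by positivity)]
      nlinarith
    have e3 : l * (3 - c) ≤ l * (12 / 5) := by
      apply mul_le_mul_of_nonneg_left _ hl.le
      linarith
    linarith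
  rcases le_total c (7 / 10) with h | h
  · refine ⟨11 / 20, 3 / 4, good_of (by norm_num) (by norm_num) (by nlinarith) h1 ?_ ?_ ?_⟩
    · rw [abs_of_nonneg (by linarith)]; linarith
    · intro y hy0 hy1 hy2
      rcases le_total y (3 / 10) with hy | hy
      · exact piece1 (by linarith) hy h1 h
      · exact piece2 hy hy2 h1 h
    · intro hc1
      exact hDgen (u := 4 / 5) (by norm_num) hc1 (by linarith) (by norm_num) (by norm_num)
  rcases le_total c (4 / 5) with h' | h'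
  · refine ⟨7 / 10, 1, good_of (by norm_num) (by norm_num) (by nlinarith) h1 ?_ ?_ ?_⟩
    · rw [abs_of_nonneg (by linarith)]; linarith
    · intro y hy0 hy1 hy2
      exact piece3 (by linarith) hy2 h h'
    · intro hc1
      exact hDgen (u := 3 / 5) (by norm_num) hc1 (by linarith) (by norm_num) (by norm_num)
  clear h
  rcases le_total c (9 / 10) with h | h
  · refine ⟨19 / 20, 7 / 5, good_of (by norm_num) (by norm_num) (by nlinarith) h1 ?_ ?_ ?_⟩
    · rw [abs_of_nonneg (by linarith)]; linarith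
    · intro y hy0 hy1 hy2
      rcases le_total y (1 / 10) with hy | hy
      · exact piece4 (by linarith) hy h' h
      · exact piece5 hy hy2 h' h
    · intro hc1
      exact hDgen (u := 2 / 5) (by norm_num) hc1 (by linarith) (by norm_num) (by norm_num)
  clear h'
  rcases le_total c 1 with h' | h'
  · refine ⟨3 / 2, 23 / 10, good_of (by norm_num) (by norm_num) (by nlinarith) h1 ?_ ?_ ?_⟩
    · rw [abs_of_nonneg (by linarith)]; linarith
    · intro y hy0 hy1 hy2
      rcases le_total y 0 with hy | hy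
      · exact piece6 (by linarith) hy h h'
      · exact piece7 hy hy2 h h'
    · intro hc1
      exact hDgen (u := 1 / 5) (by norm_num) hc1 (by linarith) (by norm_num) (by norm_num)
  clear h
  rcases le_total c (11 / 10) with h | h
  · refine ⟨33 / 20, 53 / 20, good_of (by norm_num) (by norm_num) (by nlinarith) h1 ?_ ?_ ?_⟩
    · rw [abs_of_nonpos (by linarith)]; linarith
    · intro y hy0 hy1 hy2
      rcases le_total y 0 with hy | hy
      · exact piece8 (by linarith) hy h' h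
      · exact piece9 hy hy2 h' h
    · intro hc1; linarith
  clear h'
  · refine ⟨39 / 20, 17 / 5, good_of (by norm_num) (by norm_num) (by nlinarith) h1 ?_ ?_ ?_⟩
    · rw [abs_of_nonpos (by linarith)]; linarith
    · intro y hy0 hy1 hy2
      rcases le_total y 0 with hy | hy
      · exact piece10 (by linarith) hy h h2
      · exact piece11 hy hy2 h h2
    · intro hc1; linarith


/-! ### monotonicity, convexity -/

theorem key_mono {c p l X : ℝ} (hc : 0 < c) (hX : X + c < 3) (hG : Good c p l) :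
    MonotoneOn (fun s => g (s + c) - g (s - c) + p * s - l * s ^ 2 / 2) (Icc 0 X) := by
  intro a ha b hb hab
  have hcont : ContinuousOn (fun s => g (s + c) - g (s - c) + p * s - l * s ^ 2 / 2) (Icc a b) := by
    have h1 : ContinuousOn (fun s => g (s + c)) (Icc a b) := by
      apply g_continuousOn.comp (by fun_prop)
      intro s hs
      constructor <;> simp only <;> linarith [hs.1, hs.2, ha.1, hb.2]
    have h2 : ContinuousOn (fun s => g (s - c)) (Icc a b) := by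
      apply g_continuousOn.comp (by fun_prop)
      intro s hs
      constructor <;> simp only <;> linarith [hs.1, hs.2, ha.1, hb.2]
    have h3 : ContinuousOn (fun s : ℝ => p * s) (Icc a b) := by fun_prop
    have h4 : ContinuousOn (fun s : ℝ => l * s ^ 2 / 2) (Icc a b) := by fun_prop
    exact ((h1.sub h2).add h3).sub h4
  refine image_le_of_deriv_right_le_deriv_boundary
    (f := fun _ => g (a + c) - g (a - c) + p * a - l * a ^ 2 / 2) (f' := fun _ => 0)
    (a := a) (b := b) continuousOn_const (fun x _ => hasDerivWithinAt_const _ _ _)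
    (B := fun s => g (s + c) - g (s - c) + p * s - l * s ^ 2 / 2)
    (B' := fun s => W (s + c) - W (s - c) + p - l * s) le_rfl hcont ?_ ?_ (right_mem_Icc.2 hab)
  · intro s hs
    have hs0 : 0 ≤ s := ha.1.trans hs.1
    have hs3 : s + c < 3 := by linarith [hs.2, hb.2]
    have g1 : HasDerivWithinAt (fun s => g (s + c)) (W (s + c) * 1) (Ici s) s := by
      have := g_hasDerivWithinAt (x := s + c) (by linarith) hs3
      have h' : HasDerivWithinAt (fun s => s + c) 1 (Ici s) s :=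
        ((hasDerivAt_id s).add_const c).hasDerivWithinAt
      exact HasDerivWithinAt.comp (h₂ := g) (h := fun s => s + c) s this h'
        (fun y hy => by simp only [mem_Ici] at hy ⊢; linarith)
    have g2 : HasDerivWithinAt (fun s => g (s - c)) (W (s - c) * 1) (Ici s) s := by
      have := g_hasDerivWithinAt (x := s - c) (by linarith) (by linarith)
      have h' : HasDerivWithinAt (fun s => s - c) 1 (Ici s) s :=
        ((hasDerivAt_id s).sub_const c).hasDerivWithinAt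
      exact HasDerivWithinAt.comp (h₂ := g) (h := fun s => s - c) s this h'
        (fun y hy => by simp only [mem_Ici] at hy ⊢; linarith)
    have g3 : HasDerivWithinAt (fun s : ℝ => p * s) (p * 1) (Ici s) s :=
      ((hasDerivAt_id s).const_mul p).hasDerivWithinAt
    have g4 : HasDerivWithinAt (fun s : ℝ => l * s ^ 2 / 2) (l * (2 * s) / 2) (Ici s) s := by
      have := (((hasDerivAt_pow 2 s).const_mul l).div_const 2).hasDerivWithinAt (s := Ici s)
      refine this.congr_deriv ?_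
      push_cast
      ring
    refine (((g1.sub g2).add g3).sub g4).congr_deriv ?_
    ring
  · intro s hs
    exact hG.2.2.2 s (ha.1.trans hs.1) (by linarith [hs.2, hb.2])

theorem convexOn_sqrt {χ χ1 χ2 : ℝ → ℝ} {X : ℝ} (hX : 0 ≤ X)
    (h1 : ∀ x, HasDerivAt χ (χ1 x) x) (h2 : ∀ x, HasDerivAt χ1 (χ2 x) x) (h0 : χ1 0 = 0)
    (hm : MonotoneOn χ2 (Icc 0 X)) : ConvexOn ℝ (Icc 0 (X ^ 2)) (fun s => χ (√s)) := by
  have hc : Continuous χ := continuous_iff_continuousAt.2 fun y => (h1 y).continuousAt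
  have hc1 : Continuous χ1 := continuous_iff_continuousAt.2 fun y => (h2 y).continuousAt
  have ratio : ∀ r r' : ℝ, 0 < r → r ≤ r' → r' ≤ X → χ1 r / r ≤ χ1 r' / r' := by
    intro r r' hr hrr hrX
    rcases hrr.eq_or_lt with rfl | hlt
    · exact le_rfl
    obtain ⟨ξ, hξ, eξ⟩ := exists_hasDerivAt_eq_slope χ1 χ2 hr hc1.continuousOn (fun x _ => h2 x)
    obtain ⟨ξ', hξ', eξ'⟩ := exists_hasDerivAt_eq_slope χ1 χ2 hlt hc1.continuousOn (fun x _ => h2 x)
    have hle : χ2 ξ ≤ χ2 ξ' := hm ⟨hξ.1.le, by linarith [hξ.2]⟩ ⟨by linarith [hξ'.1], by linarith [hξ'.2]⟩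
      (by linarith [hξ.2, hξ'.1])
    rw [h0, sub_zero, sub_zero, eq_div_iff hr.ne'] at eξ
    rw [eq_div_iff (by linarith)] at eξ'
    have hr' : 0 < r' := hr.trans hlt
    rw [div_le_div_iff₀ hr hr']
    nlinarith [mul_le_mul_of_nonneg_right hle (by linarith : 0 ≤ r' - r)]
  have hd : ∀ s ∈ Ioo (0:ℝ) (X ^ 2), HasDerivAt (fun s => χ (√s)) (χ1 (√s) * (1 / (2 * √s))) s := by
    intro s hs
    exact (h1 (√s)).comp s (Real.hasDerivAt_sqrt hs.1.ne')
  have hcc : Continuous (fun s => χ (√s)) := hc.comp Real.continuous_sqrt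
  apply MonotoneOn.convexOn_of_deriv (convex_Icc _ _) hcc.continuousOn
  · rw [interior_Icc]
    intro s hs
    exact (hd s hs).differentiableAt.differentiableWithinAt
  · rw [interior_Icc]
    intro s hs t ht hst
    rw [(hd s hs).deriv, (hd t ht).deriv]
    have hs0 : 0 < √s := Real.sqrt_pos.2 hs.1
    have ht0 : 0 < √t := Real.sqrt_pos.2 ht.1
    have := ratio (√s) (√t) hs0 (Real.sqrt_le_sqrt hst) (by
      rw [Real.sqrt_le_left hX]; exact ht.2.le)
    have e1 : χ1 (√s) * (1 / (2 * √s)) = (χ1 (√s) / √s) / 2 := by field_simp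
    have e2 : χ1 (√t) * (1 / (2 * √t)) = (χ1 (√t) / √t) / 2 := by field_simp
    rw [e1, e2]
    linarith

/-! ### moments -/

theorem hasDerivAt_mul_abs (x : ℝ) : HasDerivAt (fun x : ℝ => x * |x|) (2 * |x|) x := by
  have hne : ∀ y : ℝ, y ≠ 0 → HasDerivAt (fun x : ℝ => x * |x|) (2 * |y|) y := by
    intro y hy
    rcases lt_or_gt_of_ne hy with h | h
    · have e : (fun x : ℝ => x * |x|) =ᶠ[nhds y] fun x => - x ^ 2 := by
        filter_upwards [Iio_mem_nhds h] with z hz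
        rw [abs_of_neg hz]; ring
      rw [abs_of_neg h]
      refine ((hasDerivAt_pow 2 y).neg.congr_of_eventuallyEq e).congr_deriv ?_
      push_cast; ring
    · have e : (fun x : ℝ => x * |x|) =ᶠ[nhds y] fun x => x ^ 2 := by
        filter_upwards [Ioi_mem_nhds h] with z hz
        rw [abs_of_pos hz]; ring
      rw [abs_of_pos h]
      refine ((hasDerivAt_pow 2 y).congr_of_eventuallyEq e).congr_deriv ?_
      push_cast; ring
  rcases eq_or_ne x 0 with rfl | hx
  · exact hasDerivAt_of_hasDerivAt_of_ne (g := fun y => 2 * |y|) hne (by fun_prop) (by fun_prop)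
  · exact hne x hx

theorem hasDerivAt_sq_abs (x : ℝ) : HasDerivAt (fun x : ℝ => x ^ 2 * |x|) (3 * (x * |x|)) x := by
  have := (hasDerivAt_id x).mul (hasDerivAt_mul_abs x)
  refine (this.congr_of_eventuallyEq ?_).congr_deriv ?_
  · filter_upwards with y
    simp only [Pi.mul_apply, id]; ring
  · simp only [id]; ring

theorem hasDerivAt_F1 (x : ℝ) : HasDerivAt (fun x : ℝ => x ^ 3 * |x| / 4) (x ^ 2 * |x|) x := by
  have := ((hasDerivAt_pow 2 x).mul (hasDerivAt_mul_abs x)).div_const 4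
  refine (this.congr_of_eventuallyEq ?_).congr_deriv ?_
  · filter_upwards with y
    simp only [Pi.mul_apply]; ring
  · push_cast; ring

theorem hasDerivAt_F2 (x : ℝ) : HasDerivAt (fun x : ℝ => x ^ 4 * |x| / 20) (x ^ 3 * |x| / 4) x := by
  have := ((hasDerivAt_pow 3 x).mul (hasDerivAt_mul_abs x)).div_const 20
  refine (this.congr_of_eventuallyEq ?_).congr_deriv ?_
  · filter_upwards with y
    simp only [Pi.mul_apply]; ring
  · push_cast; ring

theorem mom3 {a b : ℝ} (ha : 0 < a) (hb : 0 ≤ b) (hab : b ≤ a) :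
    T a (T b (fun x => x ^ 2 * |x|)) 0 = (5 * a ^ 4 + 10 * a ^ 2 * b ^ 2 + b ^ 4) / (20 * a) := by
  rcases hb.eq_or_lt with rfl | hb
  · rw [T_zero, T_at_zero ha.ne' (by fun_prop) hasDerivAt_F1, abs_neg, abs_of_pos ha]
    field_simp
    ring
  · rw [TT_eq ha.ne' hb.ne' (by fun_prop) hasDerivAt_F1 hasDerivAt_F2]
    rw [abs_of_pos (by linarith : 0 < a + b), abs_of_nonneg (by linarith : 0 ≤ a - b),
      abs_of_nonpos (by linarith : b - a ≤ 0), abs_of_neg (by linarith : -a - b < 0)]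
    field_simp
    ring

theorem mom4 {a b : ℝ} (ha : 0 < a) (hb : 0 ≤ b) :
    T a (T b (fun x => x ^ 4)) 0 = (3 * (a ^ 2 + b ^ 2) ^ 2 + 4 * (a ^ 2 * b ^ 2)) / 15 := by
  have f1 : ∀ x : ℝ, HasDerivAt (fun x : ℝ => x ^ 5 / 5) (x ^ 4) x := by
    intro x
    refine ((hasDerivAt_pow 5 x).div_const 5).congr_deriv ?_
    push_cast; ring
  have f2 : ∀ x : ℝ, HasDerivAt (fun x : ℝ => x ^ 6 / 30) (x ^ 5 / 5) x := by
    intro x
    refine ((hasDerivAt_pow 6 x).div_const 30).congr_deriv ?_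
    push_cast; ring
  rcases hb.eq_or_lt with rfl | hb
  · rw [T_zero, T_at_zero ha.ne' (by fun_prop) f1]
    field_simp
    ring
  · rw [TT_eq ha.ne' hb.ne' (by fun_prop) f1 f2]
    field_simp
    ring

/-! ### algebra -/

theorem alg1 {p l q r : ℝ} (hp : 0 < p) (hl : 0 < l) (hq : 0 < q) (h : 9 / 2 * p ^ 2 ≤ l ^ 2 * r) :
    3 * p * (6 * q ^ 2 - r) ≤ 8 * l * q ^ 3 := by
  have h1 : 0 ≤ (l * q - 3 / 2 * p) ^ 2 * (8 * (l * q) + 6 * p) := by positivity
  have h2 : l ^ 2 * (3 * p * (6 * q ^ 2 - r)) ≤ l ^ 2 * (8 * l * q ^ 3) := by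
    nlinarith [mul_le_mul_of_nonneg_left h (by positivity : 0 ≤ 3 * p)]
  exact le_of_mul_le_mul_left h2 (by positivity)

theorem alg2 {a q r : ℝ} (hq : 0 < q) (haq : q ≤ a) (h1 : r ≤ 2 * q ^ 2) (h2 : 0 ≤ r) :
    2 * q ^ 2 * (4 * a * q * (a ^ 2 + a * q + q ^ 2) - 8 * r * a * q + r ^ 2)
      ≤ a * (6 * q ^ 2 - r) * (a + q) * (a ^ 2 + q ^ 2 - r) := by
  obtain ⟨t, rfl, ht⟩ : ∃ t, a = q + t ∧ 0 ≤ t := ⟨a - q, by ring, by linarith⟩
  have e : (q + t) * (6 * q ^ 2 - r) * ((q + t) + q) * ((q + t) ^ 2 + q ^ 2 - r)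
      - 2 * q ^ 2 * (4 * (q + t) * q * ((q + t) ^ 2 + (q + t) * q + q ^ 2) - 8 * r * (q + t) * q + r ^ 2)
      = t * q * (3 * (2 * q ^ 2 - r) ^ 2) + t ^ 2 * ((2 * q ^ 2 - r) * (14 * q ^ 2 - r))
        + t ^ 3 * q * (22 * q ^ 2 - 5 * r) + t ^ 4 * (6 * q ^ 2 - r) := by ring
  have k1 : 0 ≤ 2 * q ^ 2 - r := by linarith
  have hq2 : 0 < q ^ 2 := by positivity
  have k2 : 0 ≤ 14 * q ^ 2 - r := by linarith
  have k3 : 0 ≤ 22 * q ^ 2 - 5 * r := by linarith
  have k4 : 0 ≤ 6 * q ^ 2 - r := by linarith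
  have : 0 ≤ t * q * (3 * (2 * q ^ 2 - r) ^ 2) + t ^ 2 * ((2 * q ^ 2 - r) * (14 * q ^ 2 - r))
        + t ^ 3 * q * (22 * q ^ 2 - 5 * r) + t ^ 4 * (6 * q ^ 2 - r) := by positivity
  linarith

theorem alg3 {p l a b q b' : ℝ} (hp : 0 < p) (hl : 0 < l) (hq : 0 < q) (haq : q ≤ a)
    (hb : 0 ≤ b) (hb' : 0 ≤ b') (hb'q : b' ≤ q) (hr : a ^ 2 + b ^ 2 = q ^ 2 + b' ^ 2)
    (h : 9 / 2 * p ^ 2 ≤ l ^ 2 * (a ^ 2 + b ^ 2)) :
    p / 12 * ((5 * q ^ 4 + 10 * q ^ 2 * b' ^ 2 + b' ^ 4) / (20 * q)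
        - (5 * a ^ 4 + 10 * a ^ 2 * b ^ 2 + b ^ 4) / (20 * a))
      ≤ l / 48 * ((3 * (q ^ 2 + b' ^ 2) ^ 2 + 4 * (q ^ 2 * b' ^ 2)) / 15
        - (3 * (a ^ 2 + b ^ 2) ^ 2 + 4 * (a ^ 2 * b ^ 2)) / 15) := by
  have ha : 0 < a := lt_of_lt_of_le hq haq
  set r := a ^ 2 + b ^ 2 with hrd
  have hr0 : 0 ≤ r := by positivity
  have hr2 : r ≤ 2 * q ^ 2 := by
    rw [hr]; nlinarith
  have hbb : b ^ 2 = r - a ^ 2 := by rw [hrd]; ring
  have hbb' : b' ^ 2 = r - q ^ 2 := by rw [hr]; ring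
  have hb4 : b ^ 4 = (r - a ^ 2) ^ 2 := by rw [← hbb]; ring
  have hb4' : b' ^ 4 = (r - q ^ 2) ^ 2 := by rw [← hbb']; ring
  have c1 := alg1 hp hl hq h
  have c2 := alg2 hq haq hr2 hr0
  set K := 4 * a * q * (a ^ 2 + a * q + q ^ 2) - 8 * r * a * q + r ^ 2 with hK
  have hN : 0 ≤ a ^ 2 + q ^ 2 - r := by
    have : a ^ 2 = r - b ^ 2 := by rw [hrd]; ring
    nlinarith [pow_le_pow_left₀ hq.le haq 2]
  have c3 : 3 * p * K ≤ 4 * l * a * q * (a + q) * (a ^ 2 + q ^ 2 - r) := by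
    have s1 : 3 * p * (2 * q ^ 2 * K) ≤ 3 * p * (a * (6 * q ^ 2 - r) * (a + q) * (a ^ 2 + q ^ 2 - r)) :=
      mul_le_mul_of_nonneg_left c2 (by positivity)
    have s2 : (3 * p * (6 * q ^ 2 - r)) * (a * (a + q) * (a ^ 2 + q ^ 2 - r))
        ≤ (8 * l * q ^ 3) * (a * (a + q) * (a ^ 2 + q ^ 2 - r)) :=
      mul_le_mul_of_nonneg_right c1 (by positivity)
    have s3 : (2 * q ^ 2) * (3 * p * K) ≤ (2 * q ^ 2) * (4 * l * a * q * (a + q) * (a ^ 2 + q ^ 2 - r)) := by
      nlinarith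
    exact le_of_mul_le_mul_left s3 (by positivity)
  rw [hb4, hb4', hbb, hbb']
  have e1 : (5 * q ^ 4 + 10 * q ^ 2 * (r - q ^ 2) + (r - q ^ 2) ^ 2) / (20 * q)
        - (5 * a ^ 4 + 10 * a ^ 2 * (r - a ^ 2) + (r - a ^ 2) ^ 2) / (20 * a)
      = (a - q) * K / (20 * a * q) := by
    rw [hK]
    field_simp
    ring
  have e2 : (3 * (q ^ 2 + (r - q ^ 2)) ^ 2 + 4 * (q ^ 2 * (r - q ^ 2))) / 15
        - (3 * (a ^ 2 + (r - a ^ 2)) ^ 2 + 4 * (a ^ 2 * (r - a ^ 2))) / 15
      = 4 / 15 * ((a - q) * (a + q) * (a ^ 2 + q ^ 2 - r)) := by ring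
  have e3 : 3 * r ^ 2 = 3 * (q ^ 2 + (r - q ^ 2)) ^ 2 := by ring
  have e4 : 3 * r ^ 2 = 3 * (a ^ 2 + (r - a ^ 2)) ^ 2 := by ring
  rw [e1]
  have e5 : l / 48 * ((3 * (q ^ 2 + (r - q ^ 2)) ^ 2 + 4 * (q ^ 2 * (r - q ^ 2))) / 15
        - (3 * r ^ 2 + 4 * (a ^ 2 * (r - a ^ 2))) / 15)
      = l / 180 * ((a - q) * (a + q) * (a ^ 2 + q ^ 2 - r)) := by
    ring
  rw [e5]
  have e6 : p / 12 * ((a - q) * K / (20 * a * q)) = (a - q) * (3 * p * K) / (720 * a * q) := by
    field_simp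
    ring
  have e7 : l / 180 * ((a - q) * (a + q) * (a ^ 2 + q ^ 2 - r))
      = (a - q) * (4 * l * a * q * (a + q) * (a ^ 2 + q ^ 2 - r)) / (720 * a * q) := by
    field_simp
    ring
  rw [e6, e7]
  have : 0 ≤ a - q := by linarith
  gcongr


/-! ### the pair step -/

theorem T_gt_zero {R : ℝ} (hR : 0 ≤ R) (c : ℝ) : T c (gt R) 0 = 0 := by
  unfold T
  have := intervalIntegral.integral_comp_neg (a := (-1:ℝ)) (b := 1) (fun u => gt R (0 + c * u))
  rw [neg_neg] at this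
  have e : (∫ u in (-1:ℝ)..1, gt R (0 + c * -u)) = - ∫ u in (-1:ℝ)..1, gt R (0 + c * u) := by
    rw [← intervalIntegral.integral_neg]
    apply intervalIntegral.integral_congr
    intro u _
    show gt R (0 + c * -u) = - gt R (0 + c * u)
    rw [← gt_odd hR]
    congr 1
    ring
  rw [e] at this
  have h0 : (∫ u in (-1:ℝ)..1, gt R (0 + c * u)) = 0 := by linarith
  rw [h0, mul_zero]

theorem pair_step {η c a b a' b' : ℝ} (hη : 0 < η) (hη1 : η < 1) (hη2 : 998 / 1000 ≤ η ^ 2)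
    (hc1 : 3 / 5 ≤ c) (hc2 : c ≤ 49 / 40) (hcη : c < 3 * η) (hb : 0 ≤ b) (hab : b ≤ a)
    (hb' : 0 ≤ b') (hab' : b' ≤ a')
    (hr : a ^ 2 + b ^ 2 = a' ^ 2 + b' ^ 2) (hrc : a ^ 2 + b ^ 2 = 3 * η ^ 2 - c ^ 2)
    (hprod : a * b ≤ a' * b') :
    T a (T b (T c (Vt (3 * η)))) 0 ≤ T a' (T b' (T c (Vt (3 * η)))) 0 := by
  have hc : 0 < c := by linarith
  set R := 3 * η with hRd
  have hR : 0 ≤ R := by positivity
  have hR3 : R < 3 := by linarith
  obtain ⟨p, l, hG⟩ := good_exists hc1 hc2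
  have hp := hG.1
  have hl := hG.2.1
  have hrat := hG.2.2.1
  set X := R - c with hXd
  have hX : 0 ≤ X := by rw [hXd]; linarith
  have hXc : X + c < 3 := by rw [hXd]; linarith
  have hpos : 0 < a ^ 2 + b ^ 2 := by
    rw [hrc]; nlinarith
  have ha' : 0 < a' := by
    by_contra h
    have h1 : a' = 0 := le_antisymm (not_lt.1 h) (hb'.trans hab')
    have h2 : b' = 0 := le_antisymm (h1 ▸ hab') hb'
    rw [h1, h2] at hr
    linarith
  have haa : a' ≤ a := by
    have h1 : (a * b) ^ 2 ≤ (a' * b') ^ 2 := pow_le_pow_left₀ (mul_nonneg (hb.trans hab) hb) hprod 2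
    have h2 : (a' ^ 2 - b' ^ 2) ^ 2 ≤ (a ^ 2 - b ^ 2) ^ 2 := by
      have e1 : (a' ^ 2 - b' ^ 2) ^ 2 = (a' ^ 2 + b' ^ 2) ^ 2 - 4 * (a' * b') ^ 2 := by ring
      have e2 : (a ^ 2 - b ^ 2) ^ 2 = (a ^ 2 + b ^ 2) ^ 2 - 4 * (a * b) ^ 2 := by ring
      rw [e1, e2, hr]
      linarith
    have h3 : a' ^ 2 - b' ^ 2 ≤ a ^ 2 - b ^ 2 := by
      refine abs_le_of_sq_le_sq' h2 ?_ |>.2
      have := pow_le_pow_left₀ hb hab 2
      linarith
    have h4 : a' ^ 2 ≤ a ^ 2 := by linarith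
    exact (abs_le_of_sq_le_sq' h4 (hb.trans hab)).2
  have ha : 0 < a := lt_of_lt_of_le ha' haa
  set χ : ℝ → ℝ := fun x => (T c (Vt R) x + p / (12 * c) * (x ^ 2 * |x|)) - l / (48 * c) * x ^ 4
    with hχd
  set χ1 : ℝ → ℝ := fun x => (T c (gt R) x + p / (4 * c) * (x * |x|)) - l / (12 * c) * x ^ 3
    with hχ1d
  set χ2 : ℝ → ℝ := fun x => ((gt R (x + c) - gt R (x - c)) / (2 * c) + p / (2 * c) * |x|)
    - l / (4 * c) * x ^ 2 with hχ2d
  have h1 : ∀ x, HasDerivAt χ (χ1 x) x := by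
    intro x
    have d1 := T_hasDerivAt c (Vt_hasDerivAt hR hR3) (gt_continuous hR hR3) x
    have d2 := (hasDerivAt_sq_abs x).const_mul (p / (12 * c))
    have d3 := (hasDerivAt_pow 4 x).const_mul (l / (48 * c))
    refine ((d1.add d2).sub d3).congr_deriv ?_
    rw [hχ1d]
    push_cast
    field_simp
    ring
  have h2 : ∀ x, HasDerivAt χ1 (χ2 x) x := by
    intro x
    have d1 := T_hasDerivAt_of_primitive hc.ne' (gt_continuous hR hR3) x
    have d2 := (hasDerivAt_mul_abs x).const_mul (p / (4 * c))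
    have d3 := (hasDerivAt_pow 3 x).const_mul (l / (12 * c))
    refine ((d1.add d2).sub d3).congr_deriv ?_
    rw [hχ2d]
    push_cast
    field_simp
    ring
  have h0 : χ1 0 = 0 := by
    rw [hχ1d]
    simp only [T_gt_zero hR c]
    norm_num
  have hm : MonotoneOn χ2 (Icc 0 X) := by
    have hk := key_mono hc hXc hG
    intro s hs t ht hst
    have conv : ∀ x ∈ Icc (0:ℝ) X, χ2 x
        = (g (x + c) - g (x - c) + p * x - l * x ^ 2 / 2) / (2 * c) := by
      intro x hx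
      rw [hχ2d]
      simp only
      have hxX := hx.2
      rw [hXd] at hxX
      rw [gt_eq (R := R) (x := x + c) (by rw [abs_of_nonneg (by linarith [hx.1])]; linarith),
        gt_eq (R := R) (x := x - c) (by rw [abs_le]; constructor <;> linarith [hx.1]),
        abs_of_nonneg hx.1]
      field_simp
      ring
    rw [conv s hs, conv t ht]
    have := hk hs ht hst
    simp only at this
    gcongr
  have hconv := convexOn_sqrt hX h1 h2 h0 hm
  have hχc : Continuous χ := continuous_iff_continuousAt.2 fun y => (h1 y).continuousAt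
  have hχe : ∀ x, χ (-x) = χ x := by
    intro x
    rw [hχd]
    simp only
    rw [T_even c (Vt_even hR), abs_neg]
    ring
  have hS : (a' + b') ^ 2 ≤ X ^ 2 := by
    have e : (a' + b') ^ 2 ≤ 2 * (a' ^ 2 + b' ^ 2) := by nlinarith [sq_nonneg (a' - b')]
    rw [← hr, hrc] at e
    rw [hXd, hRd]
    nlinarith [sq_nonneg (η - c)]
  have hstep := step hχc hχe hconv (hb.trans hab) hb ha'.le hb' hr hprod hS
  have hVc := T_continuous c (Vt_continuous hR hR3)
  have dec : ∀ u v : ℝ, T u (T v χ) 0 = T u (T v (T c (Vt R))) 0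
      + p / (12 * c) * T u (T v (fun x => x ^ 2 * |x|)) 0
      - l / (48 * c) * T u (T v (fun x => x ^ 4)) 0 := by
    intro u v
    have e1 := Ex_sub [u, v] (φ := fun x => T c (Vt R) x + p / (12 * c) * (x ^ 2 * |x|))
      (ψ := fun x => l / (48 * c) * x ^ 4) (by fun_prop) (by fun_prop)
    have e2 := Ex_add [u, v] (φ := T c (Vt R)) (ψ := fun x => p / (12 * c) * (x ^ 2 * |x|))
      hVc (by fun_prop)
    have e3 := Ex_smul [u, v] (p / (12 * c)) (fun x => x ^ 2 * |x|)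
    have e4 := Ex_smul [u, v] (l / (48 * c)) (fun x => x ^ 4)
    have e1' := congrFun e1 0
    have e2' := congrFun e2 0
    have e3' := congrFun e3 0
    have e4' := congrFun e4 0
    simp only [Ex_cons, Ex_nil] at e1' e2' e3' e4'
    rw [hχd, e1', e2', e3', e4']
  rw [dec, dec, mom3 ha hb hab, mom3 ha' hb' hab', mom4 ha hb, mom4 ha' hb'] at hstep
  have hrr : 9 / 2 * p ^ 2 ≤ l ^ 2 * (a ^ 2 + b ^ 2) := by
    rw [hrc]
    have h5 : 3 - c ^ 2 ≤ 91 / 90 * (3 * η ^ 2 - c ^ 2) := by nlinarith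
    have h6 : l ^ 2 * (3 - c ^ 2) ≤ l ^ 2 * (91 / 90 * (3 * η ^ 2 - c ^ 2)) :=
      mul_le_mul_of_nonneg_left h5 (by positivity)
    nlinarith
  have halg := alg3 hp hl ha' haa hb hb' hab' hr hrr
  have halg' : p / (12 * c) * ((5 * a' ^ 4 + 10 * a' ^ 2 * b' ^ 2 + b' ^ 4) / (20 * a')
        - (5 * a ^ 4 + 10 * a ^ 2 * b ^ 2 + b ^ 4) / (20 * a))
      ≤ l / (48 * c) * ((3 * (a' ^ 2 + b' ^ 2) ^ 2 + 4 * (a' ^ 2 * b' ^ 2)) / 15
        - (3 * (a ^ 2 + b ^ 2) ^ 2 + 4 * (a ^ 2 * b ^ 2)) / 15) := by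
    have e1 : ∀ z : ℝ, p / (12 * c) * z = (p / 12 * z) / c := by intro z; field_simp
    have e2 : ∀ z : ℝ, l / (48 * c) * z = (l / 48 * z) / c := by intro z; field_simp
    rw [e1, e2]
    gcongr
  linarith


/-! ### the theorem -/

theorem swap12 {R x y z : ℝ} (hR : 0 ≤ R) (hR3 : R < 3) :
    Ex [x, y, z] (Vt R) 0 = Ex [y, x, z] (Vt R) 0 := by
  rw [Ex_perm (List.Perm.swap y x [z]) (Vt_continuous hR hR3)]

theorem swap23 {R x y z : ℝ} (hR : 0 ≤ R) (hR3 : R < 3) :
    Ex [x, y, z] (Vt R) 0 = Ex [x, z, y] (Vt R) 0 := by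
  rw [Ex_perm ((List.Perm.swap z y []).cons x) (Vt_continuous hR hR3)]

theorem core {η a b c : ℝ} (hη : 0 < η) (hη1 : η < 1) (hη2 : 998 / 1000 ≤ η ^ 2)
    (hb : 0 ≤ b) (hbc : b ≤ c) (hca : c ≤ a) (ha : a ≤ 3 / 2)
    (hs : a ^ 2 + b ^ 2 + c ^ 2 = 3 * η ^ 2) :
    Ex [a, b, c] (Vt (3 * η)) 0 ≤ Ex [η, η, η] (Vt (3 * η)) 0 := by
  have hR : 0 ≤ 3 * η := by positivity
  have hR3 : 3 * η < 3 := by linarith
  have hη4 : η ^ 2 < 1 := by nlinarith
  have hc0 : 0 ≤ c := hb.trans hbc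
  have hbc2 : b ^ 2 ≤ c ^ 2 := pow_le_pow_left₀ hb hbc 2
  have hca2 : c ^ 2 ≤ a ^ 2 := pow_le_pow_left₀ hc0 hca 2
  have ha2 : a ^ 2 ≤ 9 / 4 := by nlinarith
  have hc1 : 3 / 5 ≤ c := by
    by_contra h
    push Not at h
    nlinarith
  have hc2 : c ≤ 49 / 40 := by
    by_contra h
    push Not at h
    nlinarith [sq_nonneg b]
  have hηlow : 9 / 10 < η := by
    by_contra h
    push Not at h
    nlinarith
  have hcη : c < 3 * η := by linarith
  set d := √(2 * η ^ 2 - c ^ 2) with hd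
  have hd0 : 0 ≤ d := Real.sqrt_nonneg _
  have hdsq : d ^ 2 = 2 * η ^ 2 - c ^ 2 := by
    rw [hd, Real.sq_sqrt]
    nlinarith [sq_nonneg b]
  have haη : η ^ 2 ≤ a ^ 2 := by nlinarith
  have hbη : b ^ 2 ≤ η ^ 2 := by nlinarith
  have hprod : a * b ≤ η * d := by
    apply (abs_le_of_sq_le_sq' _ (mul_nonneg hη.le hd0)).2
    rw [mul_pow, mul_pow, hdsq]
    nlinarith [mul_nonneg (sub_nonneg.2 haη) (sub_nonneg.2 hbη)]
  have step1 : Ex [a, b, c] (Vt (3 * η)) 0 ≤ Ex [η, d, c] (Vt (3 * η)) 0 := by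
    rcases le_total d η with h | h
    · exact pair_step hη hη1 hη2 hc1 hc2 hcη hb (hbc.trans hca) hd0 h (by linarith) (by linarith) hprod
    · rw [swap12 (x := η) hR hR3]
      exact pair_step hη hη1 hη2 hc1 hc2 hcη hb (hbc.trans hca) hη.le h (by linarith) (by linarith)
        (by linarith)
  have hcd : c * d ≤ η * η := by nlinarith [sq_nonneg (c - d)]
  have step2 : Ex [η, d, c] (Vt (3 * η)) 0 ≤ Ex [η, η, η] (Vt (3 * η)) 0 := by
    rw [swap12 hR hR3, swap23 hR hR3]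
    rcases le_total d c with h | h
    · rw [swap12 hR hR3]
      exact pair_step hη hη1 hη2 (by linarith) (by linarith) (by linarith) hd0 h hη.le le_rfl
        (by linarith) (by linarith) hcd
    · exact pair_step hη hη1 hη2 (by linarith) (by linarith) (by linarith) hc0 h hη.le le_rfl
        (by linarith) (by linarith) (by linarith)
  exact step1.trans step2

theorem core' {η x y z : ℝ} (hη : 0 < η) (hη1 : η < 1) (hη2 : 998 / 1000 ≤ η ^ 2)
    (hx : 0 ≤ x ∧ x ≤ 3 / 2) (hy : 0 ≤ y ∧ y ≤ 3 / 2) (hz : 0 ≤ z ∧ z ≤ 3 / 2)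
    (hs : x ^ 2 + y ^ 2 + z ^ 2 = 3 * η ^ 2) :
    Ex [x, y, z] (Vt (3 * η)) 0 ≤ Ex [η, η, η] (Vt (3 * η)) 0 := by
  have hR : 0 ≤ 3 * η := by positivity
  have hR3 : 3 * η < 3 := by linarith
  rcases le_total x y with hxy | hxy <;> rcases le_total y z with hyz | hyz <;>
    rcases le_total x z with hxz | hxz
  · -- x ≤ y ≤ z : max z, min x, mid y
    rw [swap23 hR hR3, swap12 hR hR3]
    exact core hη hη1 hη2 hx.1 hxy hyz hz.2 (by linarith)
  · rw [swap23 hR hR3, swap12 hR hR3]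
    exact core hη hη1 hη2 hx.1 hxy hyz hz.2 (by linarith)
  · -- x ≤ z ≤ y : max y, min x, mid z
    rw [swap12 hR hR3]
    exact core hη hη1 hη2 hx.1 hxz hyz hy.2 (by linarith)
  · -- z ≤ x ≤ y : max y, min z, mid x
    rw [swap12 hR hR3, swap23 hR hR3]
    exact core hη hη1 hη2 hz.1 hxz hxy hy.2 (by linarith)
  · -- y ≤ x ≤ z : max z, min y, mid x
    rw [swap12 hR hR3, swap23 hR hR3, swap12 hR hR3, swap23 hR hR3, swap23 hR hR3]
    exact core hη hη1 hη2 hy.1 hxy hxz hz.2 (by linarith)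
  · -- y ≤ z ≤ x : max x, min y, mid z
    exact core hη hη1 hη2 hy.1 hyz hxz hx.2 (by linarith)
  · exact core hη hη1 hη2 hy.1 (by linarith) (by linarith) hx.2 (by linarith)
  · -- z ≤ y ≤ x : max x, min z, mid y
    rw [swap23 hR hR3]
    exact core hη hη1 hη2 hz.1 hyz hxy hx.2 (by linarith)

end N3

theorem ineq3 : IneqN 3 (3 / 2) := by
  refine ⟨999 / 1000, by norm_num, by norm_num, ?_⟩
  intro η h1 h2 l hl hb hs
  have hη : 0 < η := by linarith
  have hR : 0 ≤ 3 * η := by positivity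
  have hR3 : 3 * η < 3 := by linarith
  obtain ⟨x, y, z, rfl⟩ := List.length_eq_three.1 hl
  have hx := hb x (by simp)
  have hy := hb y (by simp)
  have hz := hb z (by simp)
  have hs' : x ^ 2 + y ^ 2 + z ^ 2 = 3 * η ^ 2 := by
    simp only [List.map_cons, List.map_nil, List.sum_cons, List.sum_nil, add_zero] at hs
    push_cast at hs
    linarith
  have hsum : x + y + z ≤ 3 * η := by
    apply (abs_le_of_sq_le_sq' _ hR).2
    nlinarith [sq_nonneg (x - y), sq_nonneg (y - z), sq_nonneg (x - z)]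
  have e1 : Ex [x, y, z] (V 3) 0 = Ex [x, y, z] (N3.Vt (3 * η)) 0 := by
    apply Ex_congr (fun c hc => (hb c hc).1)
    intro w hw
    symm
    apply N3.Vt_eq hR hR3
    simp only [List.sum_cons, List.sum_nil, add_zero, sub_zero] at hw
    linarith
  have e2 : Ex (List.replicate 3 η) (V 3) 0 = Ex [η, η, η] (N3.Vt (3 * η)) 0 := by
    show Ex [η, η, η] (V 3) 0 = _
    apply Ex_congr
    · intro c hc
      simp at hc
      rw [hc]; exact hη.le
    intro w hw
    symm
    apply N3.Vt_eq hR hR3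
    simp only [List.sum_cons, List.sum_nil, add_zero, sub_zero] at hw
    linarith
  rw [e1, e2]
  exact N3.core' hη h2 (by nlinarith) hx hy hz hs'

end Pool.Agent.Lib.MP391fb1
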