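import Pool.Agent.Lib.MP_391fb1_pr.Reg
import Pool.Agent.Lib.MP_391fb1_pr.Bs2

/-!
# MP_391fb1_pr: normalization of the reference density, entropy of `U_1 + U_2 + U_3`
-/

namespace Pool.Agent.Lib.MP391fb1

open MeasureTheory Set intervalIntegral

section Gauss

theorem gauss_integrable {x0 s : ℝ} (hs : 0 < s) :
    Integrable (fun x : ℝ => Real.exp (-(Psi x0 x) / (2 * s ^ 2))) := by
  have h1 : Integrable (fun x : ℝ => Real.exp (x0 ^ 2 / (2 * s ^ 2)) *
      Real.exp (-(1 / (4 * s ^ 2)) * x ^ 2)) :=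
    (integrable_exp_neg_mul_sq (b := 1 / (4 * s ^ 2)) (by positivity)).const_mul _
  refine h1.mono' ?_ ?_
  · exact (Continuous.aestronglyMeasurable (by
      have := Psi_continuous x0
      fun_prop))
  · filter_upwards with x
    rw [Real.norm_eq_abs, abs_of_pos (Real.exp_pos _), ← Real.exp_add]
    apply Real.exp_le_exp.2
    have key : x ^ 2 ≤ 2 * Psi x0 x + 2 * x0 ^ 2 := by
      unfold Psi
      have hm := le_max_left (|x| - x0) 0
      have h0 : 0 ≤ max (|x| - x0) 0 := le_max_right _ _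
      set m := max (|x| - x0) 0
      have hx : |x| ≤ m + x0 := by linarith
      rcases le_or_gt 0 x0 with h | h
      · have : |x| ^ 2 ≤ (m + x0) ^ 2 := pow_le_pow_left₀ (abs_nonneg x) hx 2
        rw [sq_abs] at this
        nlinarith [sq_nonneg (m - x0)]
      · have h2 : |x| ≤ m := by linarith
        have : |x| ^ 2 ≤ m ^ 2 := pow_le_pow_left₀ (abs_nonneg x) h2 2
        rw [sq_abs] at this
        nlinarith [sq_nonneg m, sq_nonneg x0]
    have hs2 : 0 < 4 * s ^ 2 := by positivity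
    have e1 : x0 ^ 2 / (2 * s ^ 2) + -(1 / (4 * s ^ 2)) * x ^ 2 - -(Psi x0 x) / (2 * s ^ 2)
        = (2 * x0 ^ 2 - x ^ 2 + 2 * Psi x0 x) / (4 * s ^ 2) := by
      field_simp
      ring
    have e2 : 0 ≤ (2 * x0 ^ 2 - x ^ 2 + 2 * Psi x0 x) / (4 * s ^ 2) :=
      div_nonneg (by linarith) hs2.le
    linarith

theorem integral_Ioi_shift (g : ℝ → ℝ) (x0 : ℝ) :
    ∫ x in Ioi x0, g (x - x0) = ∫ x in Ioi (0:ℝ), g x := by
  rw [← MeasureTheory.integral_indicator measurableSet_Ioi,
    ← MeasureTheory.integral_indicator measurableSet_Ioi]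
  rw [← MeasureTheory.integral_sub_right_eq_self (fun x => (Ioi (0:ℝ)).indicator g x) x0]
  congr 1
  funext x
  by_cases h : x0 < x
  · rw [indicator_of_mem (by exact h), indicator_of_mem (by show 0 < x - x0; linarith)]
  · rw [indicator_of_notMem (by exact h), indicator_of_notMem (by
      intro h'
      have : 0 < x - x0 := h'
      exact h (by linarith))]

theorem integral_gauss_flat {x0 s : ℝ} (hx0 : 0 ≤ x0) (hs : 0 < s) :
    ∫ x : ℝ, Real.exp (-(Psi x0 x) / (2 * s ^ 2)) = 2 * x0 + s * √(2 * Real.pi) := by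
  have hint := gauss_integrable (x0 := x0) hs
  set f : ℝ → ℝ := fun t => Real.exp (-((max (t - x0) 0) ^ 2) / (2 * s ^ 2)) with hf
  have e : (fun x : ℝ => Real.exp (-(Psi x0 x) / (2 * s ^ 2))) = fun x => f |x| := by
    funext x
    simp [hf, Psi]
  have hIoi : IntegrableOn f (Ioi 0) := by
    rw [e] at hint
    refine (hint.integrableOn (s := Ioi 0)).congr_fun ?_ measurableSet_Ioi
    intro x hx
    show f |x| = f x
    rw [abs_of_pos hx]
  rw [e, integral_comp_abs]
  rw [← intervalIntegral.integral_interval_add_Ioi hIoi (hIoi.mono_set (Ioi_subset_Ioi hx0))]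
  have h1 : ∫ x in (0:ℝ)..x0, f x = x0 := by
    have : ∫ x in (0:ℝ)..x0, f x = ∫ x in (0:ℝ)..x0, (1:ℝ) := by
      apply intervalIntegral.integral_congr
      intro x hx
      rw [uIcc_of_le hx0] at hx
      simp only [hf]
      rw [max_eq_right (by linarith [hx.2])]
      simp
    rw [this]
    simp
  have h2 : ∫ x in Ioi x0, f x = s * √(2 * Real.pi) / 2 := by
    have h3 : ∫ x in Ioi x0, f x = ∫ x in Ioi x0, Real.exp (-(1 / (2 * s ^ 2)) * (x - x0) ^ 2) := by
      apply setIntegral_congr_fun measurableSet_Ioi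
      intro x hx
      have hx' : x0 < x := hx
      simp only [hf]
      rw [max_eq_left (by linarith)]
      congr 1
      ring
    rw [h3, integral_Ioi_shift (fun y => Real.exp (-(1 / (2 * s ^ 2)) * y ^ 2)),
      integral_gaussian_Ioi]
    have : Real.pi / (1 / (2 * s ^ 2)) = s ^ 2 * (2 * Real.pi) := by
      field_simp
    rw [this, Real.sqrt_mul (sq_nonneg s), Real.sqrt_sq hs.le]
  rw [h1, h2]
  ring

end Gauss

section Entropy3

theorem bs3_inner {x : ℝ} (h : |x| ≤ 1) : bs 3 0 x = (3 - x ^ 2) / 8 := by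
  rw [abs_le] at h
  unfold bs
  simp only [Finset.sum_range_succ, Finset.sum_range_zero]
  norm_num
  rw [max_eq_left (by linarith : (0:ℝ) ≤ x + 3), max_eq_left (by linarith : (0:ℝ) ≤ x + 3 - 2),
    max_eq_right (by linarith : x + 3 - 4 ≤ (0:ℝ)), max_eq_right (by linarith : x + 3 - 6 ≤ (0:ℝ))]
  ring

theorem bs3_outer {x : ℝ} (h1 : 1 ≤ x) (h3 : x ≤ 3) : bs 3 0 x = (3 - x) ^ 2 / 16 := by
  unfold bs
  simp only [Finset.sum_range_succ, Finset.sum_range_zero]
  norm_num
  rw [max_eq_left (by linarith : (0:ℝ) ≤ x + 3), max_eq_left (by linarith : (0:ℝ) ≤ x + 3 - 2),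
    max_eq_left (by linarith : (0:ℝ) ≤ x + 3 - 4), max_eq_right (by linarith : x + 3 - 6 ≤ (0:ℝ))]
  ring

theorem bsV_eq (n : ℕ) (x : ℝ) : bs n 0 x * V n x = Real.negMulLog (bs n 0 x) := by
  unfold V Real.negMulLog
  ring

theorem bsV_continuous (n : ℕ) : Continuous (fun x => bs n 0 x * V n x) := by
  simp_rw [bsV_eq]
  exact Real.continuous_negMulLog.comp (bs_continuous n 0)

theorem ent3_inner : ∫ x in (0:ℝ)..1, bs 3 0 x * V 3 x
    = 2 / 3 * Real.log 2 + 17 / 36 - √3 / 4 * Real.log (2 + √3) := by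
  have hs3 : √3 ^ 2 = 3 := Real.sq_sqrt (by norm_num)
  have hs1 : 1 < √3 := by
    rw [Real.lt_sqrt (by norm_num)]
    norm_num
  have hs2 : √3 < 2 := by
    rw [Real.sqrt_lt' (by norm_num)]
    norm_num
  have hF : ∀ x ∈ uIcc (0:ℝ) 1, HasDerivAt (fun x : ℝ =>
      -(1/8) * ((3 * x - x ^ 3 / 3) * (Real.log (3 - x ^ 2) - 3 * Real.log 2)
        + 2 / 9 * x ^ 3 - 4 * x + 2 * √3 * (Real.log (√3 + x) - Real.log (√3 - x))))
      (bs 3 0 x * V 3 x) x := by
    intro x hx
    rw [uIcc_of_le (by norm_num)] at hx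
    have hx0 := hx.1
    have hx1 := hx.2
    have hp1 : 0 < 3 - x ^ 2 := by nlinarith
    have hp2 : 0 < √3 + x := by linarith
    have hp3 : 0 < √3 - x := by linarith
    have d1 : HasDerivAt (fun x : ℝ => 3 * x - x ^ 3 / 3) (3 - x ^ 2) x := by
      have := ((hasDerivAt_id x).const_mul 3).sub ((hasDerivAt_pow 3 x).div_const 3)
      refine this.congr_deriv ?_
      norm_num
    have d2 : HasDerivAt (fun x : ℝ => Real.log (3 - x ^ 2) - 3 * Real.log 2)
        (-(2 * x) / (3 - x ^ 2)) x := by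
      have h0 : HasDerivAt (fun x : ℝ => 3 - x ^ 2) (-(2 * x)) x := by
        have := (hasDerivAt_pow 2 x).const_sub 3
        refine this.congr_deriv ?_
        norm_num
      exact (h0.log hp1.ne').sub_const _
    have d3 : HasDerivAt (fun x : ℝ => Real.log (√3 + x)) (1 / (√3 + x)) x :=
      ((hasDerivAt_id x).const_add (√3)).log hp2.ne'
    have d4 : HasDerivAt (fun x : ℝ => Real.log (√3 - x)) (-1 / (√3 - x)) x :=
      ((hasDerivAt_id x).const_sub (√3)).log hp3.ne'
    have d5 : HasDerivAt (fun x : ℝ => 2 / 9 * x ^ 3) (2 / 3 * x ^ 2) x := by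
      have := (hasDerivAt_pow 3 x).const_mul (2/9)
      refine this.congr_deriv ?_
      norm_num
      ring
    have d6 : HasDerivAt (fun x : ℝ => 4 * x) 4 x := by
      simpa using (hasDerivAt_id x).const_mul 4
    have D := ((((d1.mul d2).add d5).sub d6).add ((d3.sub d4).const_mul (2 * √3))).const_mul (-(1/8))
    refine D.congr_deriv ?_
    unfold V
    rw [bs3_inner (by rw [abs_of_nonneg hx0]; exact hx1), Real.log_div hp1.ne' (by norm_num)]
    have h8 : Real.log 8 = 3 * Real.log 2 := by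
      rw [show (8:ℝ) = 2 ^ 3 by norm_num, Real.log_pow]
      norm_num
    rw [h8]
    have key : 2 * √3 * (1 / (√3 + x) - -1 / (√3 - x)) = 12 / (3 - x ^ 2) := by
      have : 3 - x ^ 2 = (√3 + x) * (√3 - x) := by nlinarith
      rw [this]
      field_simp
      nlinarith
    rw [key]
    field_simp
    ring
  rw [intervalIntegral.integral_eq_sub_of_hasDerivAt hF ((bsV_continuous 3).intervalIntegrable _ _)]
  have hlog : Real.log (√3 + 1) - Real.log (√3 - 1) = Real.log (2 + √3) := by
    rw [← Real.log_div (by linarith) (by linarith)]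
    congr 1
    have : √3 - 1 ≠ 0 := by linarith
    field_simp
    nlinarith
  rw [hlog]
  have : (3:ℝ) - 1 ^ 2 = 2 := by norm_num
  rw [this]
  simp only [mul_zero, add_zero, sub_zero]
  norm_num
  ring

theorem ent3_outer : ∫ x in (1:ℝ)..3, bs 3 0 x * V 3 x = 1 / 3 * Real.log 2 + 1 / 9 := by
  have hc : ContinuousOn (fun x : ℝ =>
      (1/16) * (2 / 3 * ((3 - x) ^ 2 * ((3 - x) * Real.log (3 - x))) - 2 / 9 * (3 - x) ^ 3
        - 4 / 3 * Real.log 2 * (3 - x) ^ 3)) (Icc 1 3) := by
    have h := Real.continuous_mul_log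
    have h2 : Continuous (fun x : ℝ => (3 - x) * Real.log (3 - x)) :=
      h.comp (by fun_prop : Continuous fun x : ℝ => 3 - x)
    exact Continuous.continuousOn (by fun_prop)
  have hF : ∀ x ∈ Ioo (1:ℝ) 3, HasDerivAt (fun x : ℝ =>
      (1/16) * (2 / 3 * ((3 - x) ^ 2 * ((3 - x) * Real.log (3 - x))) - 2 / 9 * (3 - x) ^ 3
        - 4 / 3 * Real.log 2 * (3 - x) ^ 3))
      (bs 3 0 x * V 3 x) x := by
    intro x hx
    have hx0 := hx.1
    have hx1 := hx.2
    have hp : 0 < 3 - x := by linarith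
    have d0 : HasDerivAt (fun x : ℝ => 3 - x) (-1) x := (hasDerivAt_id x).const_sub 3
    have d1 : HasDerivAt (fun x : ℝ => Real.log (3 - x)) (-1 / (3 - x)) x := d0.log hp.ne'
    have D := (((((d0.fun_pow 2).mul (d0.mul d1)).const_mul (2/3)).sub
      ((d0.fun_pow 3).const_mul (2/9))).sub ((d0.fun_pow 3).const_mul (4/3 * Real.log 2))).const_mul (1/16)
    refine D.congr_deriv ?_
    unfold V
    rw [bs3_outer hx0.le hx1.le, Real.log_div (by positivity) (by norm_num), Real.log_pow]
    have h16 : Real.log 16 = 4 * Real.log 2 := by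
      rw [show (16:ℝ) = 2 ^ 4 by norm_num, Real.log_pow]
      norm_num
    rw [h16]
    field_simp
    norm_num
    ring
  rw [intervalIntegral.integral_eq_sub_of_hasDerivAt_of_le (by norm_num) hc hF
    ((bsV_continuous 3).intervalIntegrable _ _)]
  norm_num
  ring

/-- the entropy of `U_1 + U_2 + U_3` -/
theorem ent3 : ∫ x, bs 3 0 x * V 3 x
    = 2 * Real.log 2 + 7 / 6 - √3 / 2 * Real.log (2 + √3) := by
  have e : (fun x => bs 3 0 x * V 3 x) = fun x => (fun y => bs 3 0 y * V 3 y) |x| := by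
    funext x
    rcases abs_cases x with ⟨h, _⟩ | ⟨h, _⟩ <;> simp only [h]
    simp only [V, bs_even (n := 3) (by norm_num)]
  rw [e, integral_comp_abs (f := fun y => bs 3 0 y * V 3 y)]
  have h3 : ∀ x ∈ Ioi (3:ℝ), bs 3 0 x * V 3 x = 0 := by
    intro x hx
    have hx' : (3:ℝ) < x := hx
    rw [bs_zero (n := 3) (by norm_num) (by rw [abs_of_pos (by linarith)]; push_cast; exact hx'.le)]
    simp
  have hIoi3 : IntegrableOn (fun x => bs 3 0 x * V 3 x) (Ioi 3) := by
    refine (integrableOn_zero).congr_fun ?_ measurableSet_Ioi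
    intro x hx
    exact (h3 x hx).symm
  have hint : IntervalIntegrable (fun x => bs 3 0 x * V 3 x) volume 0 3 :=
    (bsV_continuous 3).intervalIntegrable _ _
  rw [← intervalIntegral.integral_interval_add_Ioi' hint hIoi3,
    setIntegral_congr_fun measurableSet_Ioi h3,
    ← intervalIntegral.integral_add_adjacent_intervals (b := 1)
      ((bsV_continuous 3).intervalIntegrable _ _) ((bsV_continuous 3).intervalIntegrable _ _),
    ent3_inner, ent3_outer]
  simp
  ring

/-- the same on `[-3,3]` -/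
theorem ent3' : ∫ x in (-3:ℝ)..3, bs 3 0 x * V 3 x
    = 2 * Real.log 2 + 7 / 6 - √3 / 2 * Real.log (2 + √3) := by
  rw [← ent3, intervalIntegral.integral_of_le (by norm_num)]
  rw [← MeasureTheory.integral_indicator measurableSet_Ioc]
  congr 1
  funext x
  by_cases h : x ∈ Ioc (-3:ℝ) 3
  · rw [indicator_of_mem h]
  · rw [indicator_of_notMem h]
    have : (3:ℝ) ≤ |x| := by
      by_contra h'
      push Not at h'
      rw [abs_lt] at h'
      exact h ⟨h'.1, h'.2.le⟩
    rw [bs_zero (n := 3) (by norm_num) (by push_cast; exact this)]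
    simp

end Entropy3

end Pool.Agent.Lib.MP391fb1
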