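import Pool.Agent.Lib.MP_391fb1_pr.Fin0
import Pool.Agent.Lib.MP_391fb1_pr.Law
import Pool.Agent.Lib.MP_391fb1_pr.Reg2
import Pool.Agent.Lib.MP_391fb1_pr.N3

/-!
# MP_391fb1_pr: laws, far regions, small `n`
-/

namespace Pool.Agent.Lib.MP391fb1

open MeasureTheory ProbabilityTheory Set Filter
open scoped ENNReal

/-- the list of absolute values of the weights -/
noncomputable def absl {n : ℕ} (d : Fin n → ℝ) : List ℝ := List.ofFn (fun i => |d i|)

theorem absl_nonneg {n : ℕ} (d : Fin n → ℝ) : ∀ c ∈ absl d, 0 ≤ c := by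
  intro c hc
  unfold absl at hc
  rw [List.mem_ofFn] at hc
  obtain ⟨i, rfl⟩ := hc
  exact abs_nonneg _

theorem absl_length {n : ℕ} (d : Fin n → ℝ) : (absl d).length = n := by
  unfold absl; simp

theorem absl_sum {n : ℕ} (d : Fin n → ℝ) : (absl d).sum = ∑ i, |d i| := by
  unfold absl; rw [List.sum_ofFn]

theorem absl_sq {n : ℕ} (d : Fin n → ℝ) : ((absl d).map (fun c => c ^ 2)).sum = ∑ i, d i ^ 2 := by
  unfold absl
  rw [List.map_ofFn, List.sum_ofFn]
  apply Finset.sum_congr rfl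
  intro i _
  simp

theorem absl_le_one {n : ℕ} {d : Fin n → ℝ} (hd : ∑ i, d i ^ 2 = 1) : ∀ c ∈ absl d, c ≤ 1 := by
  intro c hc
  unfold absl at hc
  rw [List.mem_ofFn] at hc
  obtain ⟨i, rfl⟩ := hc
  have h1 : d i ^ 2 ≤ 1 := by
    rw [← hd]
    exact Finset.single_le_sum (f := fun i => d i ^ 2) (fun j _ => sq_nonneg _) (Finset.mem_univ i)
  rw [abs_le_one_iff_mul_self_le_one]
  nlinarith

theorem L_ex {n : ℕ} (d : Fin n → ℝ) {φ : ℝ → ℝ} (hφ : Continuous φ) :
    ∫ x, φ x ∂(L d) = Ex (absl d) φ 0 := by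
  rw [L_abs]
  exact integral_L _ hφ

theorem L_gibbs {n : ℕ} (d : Fin n → ℝ) (hd : ∑ i, d i ^ 2 = 1) : GibbsP (L d) (absl d) := by
  intro g hg hg0 hg1
  obtain ⟨i, hi⟩ : ∃ i, d i ≠ 0 := by
    by_contra hcon
    push Not at hcon
    simp [hcon] at hd
  rw [← L_ex d (φ := fun x => - Real.log (g x)) (hg.log fun x => (hg0 x).ne').neg]
  have hR : 0 ≤ (absl d).sum := List.sum_nonneg (absl_nonneg d)
  refine gibbs (C := 2⁻¹ * ENNReal.ofReal |(d i)⁻¹|) (R := (absl d).sum) ?_ (L_le d i hi) ?_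
    hg.continuousOn (fun x _ => hg0 x) ?_
  · exact ENNReal.mul_ne_top (by norm_num) ENNReal.ofReal_ne_top
  · rw [absl_sum]
    exact L_support d
  · rw [intervalIntegral.integral_of_le (by linarith), ← integral_Icc_eq_integral_Ioc] at hg1
    exact hg1

theorem far {n : ℕ} (hn : 1 ≤ n) {x0 s : ℝ} (hx0 : 0 ≤ x0) (hs : 0 < s) {μ : Measure ℝ}
    {l : List ℝ} (hl0 : ∀ c ∈ l, 0 ≤ c) (hG : GibbsP μ l) :
    Hent μ ≤ - Real.log √n + (Real.log (2 * x0 + s * √(2 * Real.pi))
      + Ex (l.map (fun c => √n * c)) (Psi x0) 0 / (2 * s ^ 2)) := by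
  have hn0 : (0:ℝ) < n := by exact_mod_cast (by omega : 0 < n)
  have hsn : 0 < √(n:ℝ) := Real.sqrt_pos.2 hn0
  set Z := 2 * x0 + s * √(2 * Real.pi) with hZ
  have hZ0 : 0 < Z := by
    have := Real.pi_pos
    positivity
  have hΨ := Psi_continuous x0
  have hR : 0 ≤ l.sum := List.sum_nonneg hl0
  have hint := gauss_integrable (x0 := x0) hs
  have hg := hG (fun x => √n / Z * Real.exp (-(Psi x0 (√n * x)) / (2 * s ^ 2))) (by fun_prop)
    (fun x => by positivity) (by
      rw [intervalIntegral.integral_const_mul]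
      have e := intervalIntegral.mul_integral_comp_mul_left (a := -l.sum) (b := l.sum)
        (f := fun x => Real.exp (-(Psi x0 x) / (2 * s ^ 2))) (√(n:ℝ))
      have h1 : ∫ x in (√(n:ℝ) * -l.sum)..(√n * l.sum), Real.exp (-(Psi x0 x) / (2 * s ^ 2)) ≤ Z := by
        rw [hZ, ← integral_gauss_flat hx0 hs]
        rw [intervalIntegral.integral_of_le (by nlinarith)]
        exact setIntegral_le_integral hint (Eventually.of_forall fun x => (Real.exp_pos _).le)
      rw [← e] at h1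
      calc √(n:ℝ) / Z * ∫ x in (-l.sum)..l.sum, Real.exp (-(Psi x0 (√n * x)) / (2 * s ^ 2))
          = (√n * ∫ x in (-l.sum)..l.sum, Real.exp (-(Psi x0 (√n * x)) / (2 * s ^ 2))) / Z := by ring
        _ ≤ Z / Z := by gcongr
        _ = 1 := div_self hZ0.ne')
  refine hg.trans (le_of_eq ?_)
  have e3 : (fun x => - Real.log (√n / Z * Real.exp (-(Psi x0 (√n * x)) / (2 * s ^ 2))))
      = fun x => (fun _ => - Real.log √n + Real.log Z) x +
        (fun x => (1 / (2 * s ^ 2)) * (fun y => Psi x0 (√n * y)) x) x := by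
    funext x
    simp only
    rw [Real.log_mul (by positivity) (by positivity), Real.log_exp, Real.log_div hsn.ne' hZ0.ne']
    ring
  rw [e3, Ex_add l continuous_const (by fun_prop), Ex_const, Ex_smul, Ex_scale_zero]
  simp only
  ring

theorem Hn_three : Hn 3 = 2 * Real.log 2 + 7 / 6 - √3 / 2 * Real.log (2 + √3) := by
  rw [← ent3']
  unfold Hn
  push_cast
  apply intervalIntegral.integral_congr
  intro x _
  simp only [Real.negMulLog, V]
  ring

theorem erase_sq {l : List ℝ} {c : ℝ} (hc : c ∈ l) (θ : ℝ) :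
    (θ * c) ^ 2 + (((l.erase c).map (fun c => θ * c)).map (fun c => c ^ 2)).sum
      = θ ^ 2 * (l.map (fun c => c ^ 2)).sum := by
  have hp := List.perm_cons_erase hc
  have : (l.map (fun c => c ^ 2)).sum = c ^ 2 + ((l.erase c).map (fun c => c ^ 2)).sum := by
    rw [(hp.map _).sum_eq]
    simp
  rw [map_sq_scale, this]
  ring

theorem case3 {d : Fin 3 → ℝ} (hd : ∑ i, d i ^ 2 = 1) : Hent (L d) ≤ - Real.log √(3:ℕ) + Hn 3 := by
  by_cases h : ∀ c ∈ absl d, √((3:ℕ):ℝ) * c ≤ 3 / 2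
  · exact gibbs_core (by norm_num) ineq3 (absl_length d) (absl_nonneg d) h (by rw [absl_sq, hd])
      (L_gibbs d hd)
  · push Not at h
    obtain ⟨c, hc, hlt⟩ := h
    refine (far (n := 3) (x0 := 3 / 5) (s := 18 / 25) (by norm_num) (by norm_num) (by norm_num)
      (absl_nonneg d) (L_gibbs d hd)).trans ?_
    rw [Hn_three]
    gcongr
    have hp : ((absl d).map (fun c => √((3:ℕ):ℝ) * c)).Perm
        ((√((3:ℕ):ℝ) * c) :: ((absl d).erase c).map (fun c => √((3:ℕ):ℝ) * c)) :=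
      (List.perm_cons_erase hc).map _
    rw [Ex_perm hp (Psi_continuous _)]
    apply reg3 hlt.le
    · rw [List.length_map, List.length_erase_of_mem hc, absl_length]
    · intro c' hc'
      rw [List.mem_map] at hc'
      obtain ⟨c'', h'', rfl⟩ := hc'
      exact mul_nonneg (Real.sqrt_nonneg _) (absl_nonneg d _ (List.mem_of_mem_erase h''))
    · rw [erase_sq hc, absl_sq, hd, Real.sq_sqrt (by positivity)]
      norm_num

theorem Hent_replicate_L (n : ℕ) (hn : 2 ≤ n) : Hent (L (fun _ : Fin n => (√(n:ℝ))⁻¹))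
    = - Real.log √n + Hn n := by
  apply Hent_replicate hn
  intro φ hφ
  rw [L_ex _ hφ]
  congr 1
  unfold absl
  rw [List.ofFn_const, abs_of_nonneg (by positivity)]

theorem Hn_four_ge (h4 : IneqN 4 (17 / 10)) : Hn 3 + 1 / 2 * Real.log (4 / 3) ≤ Hn 4 := by
  set c : ℝ := (√((3:ℕ):ℝ))⁻¹ with hc
  have hs3 : 0 < √((3:ℕ):ℝ) := Real.sqrt_pos.2 (by norm_num)
  have hc0 : 0 < c := by positivity
  have hc2 : c ^ 2 = 1 / 3 := by
    rw [hc, inv_pow, Real.sq_sqrt (by norm_num)]; norm_num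
  set d : Fin 4 → ℝ := ![c, c, c, 0] with hd
  have hdsq : ∑ i, d i ^ 2 = 1 := by
    rw [hd, Fin.sum_univ_four]
    simp [hc2]
    norm_num
  have hl : absl d = [c, c, c, 0] := by
    unfold absl
    rw [hd]
    simp [List.ofFn_succ, abs_of_pos hc0]
  have h1 : Hent (L d) = - Real.log √(3:ℕ) + Hn 3 := by
    apply Hent_replicate (n := 3) (by norm_num)
    intro φ hφ
    rw [L_ex _ hφ, hl]
    simp only [Ex_cons, Ex_nil, T_zero, List.replicate_succ, List.replicate_zero]
    rw [hc]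
  have h2 : Hent (L d) ≤ - Real.log √(4:ℕ) + Hn 4 := by
    apply gibbs_core (by norm_num) h4 (absl_length d) (absl_nonneg d) _ (by rw [absl_sq, hdsq])
      (L_gibbs d hdsq)
    intro x hx
    have hx' : x = c ∨ x = 0 := by
      rw [hl] at hx
      simp at hx
      tauto
    have h4' : √((4:ℕ):ℝ) = 2 := by
      push_cast
      rw [show (4:ℝ) = 2 ^ 2 by norm_num]
      exact Real.sqrt_sq (by norm_num)
    rw [h4']
    rcases hx' with rfl | rfl
    · nlinarith [sq_nonneg (2 * c - 17 / 10)]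
    · norm_num
  have h3 : Real.log √((4:ℕ):ℝ) - Real.log √((3:ℕ):ℝ) = 1 / 2 * Real.log (4 / 3) := by
    rw [Real.log_sqrt (by norm_num), Real.log_sqrt (by norm_num), Real.log_div (by norm_num) (by norm_num)]
    push_cast
    ring
  rw [h1] at h2
  rw [← h3]
  linarith

theorem case4 (h4 : IneqN 4 (17 / 10)) {d : Fin 4 → ℝ} (hd : ∑ i, d i ^ 2 = 1) :
    Hent (L d) ≤ - Real.log √(4:ℕ) + Hn 4 := by
  by_cases h : ∀ c ∈ absl d, √((4:ℕ):ℝ) * c ≤ 17 / 10
  · exact gibbs_core (by norm_num) h4 (absl_length d) (absl_nonneg d) h (by rw [absl_sq, hd])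
      (L_gibbs d hd)
  · push Not at h
    obtain ⟨c, hc, hlt⟩ := h
    refine (far (n := 4) (x0 := 1 / 2) (s := 93 / 100) (by norm_num) (by norm_num) (by norm_num)
      (absl_nonneg d) (L_gibbs d hd)).trans ?_
    gcongr
    refine le_trans ?_ (Hn_four_ge h4)
    rw [Hn_three]
    have hp : ((absl d).map (fun c => √((4:ℕ):ℝ) * c)).Perm
        ((√((4:ℕ):ℝ) * c) :: ((absl d).erase c).map (fun c => √((4:ℕ):ℝ) * c)) :=
      (List.perm_cons_erase hc).map _
    rw [Ex_perm hp (Psi_continuous _)]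
    apply reg4 hlt.le
    · rw [List.length_map, List.length_erase_of_mem hc, absl_length]
    · intro c' hc'
      rw [List.mem_map] at hc'
      obtain ⟨c'', h'', rfl⟩ := hc'
      exact mul_nonneg (Real.sqrt_nonneg _) (absl_nonneg d _ (List.mem_of_mem_erase h''))
    · rw [erase_sq hc, absl_sq, hd, Real.sq_sqrt (by positivity)]
      norm_num

/-- all `n` for which the cross-entropy inequality holds without restriction -/
theorem case_big {n : ℕ} (hn : 2 ≤ n) (hI : IneqN n n) {d : Fin n → ℝ} (hd : ∑ i, d i ^ 2 = 1) :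
    Hent (L d) ≤ - Real.log √n + Hn n := by
  apply gibbs_core hn hI (absl_length d) (absl_nonneg d) _ (by rw [absl_sq, hd]) (L_gibbs d hd)
  intro c hc
  have hc1 := absl_le_one hd c hc
  have hn1 : (1:ℝ) ≤ n := by exact_mod_cast (by omega : 1 ≤ n)
  have hsn := Real.sqrt_nonneg (n:ℝ)
  have : √(n:ℝ) ≤ n := by
    rw [Real.sqrt_le_left (by linarith)]
    nlinarith
  calc √(n:ℝ) * c ≤ √n * 1 := by gcongr
    _ ≤ n := by linarith

end Pool.Agent.Lib.MP391fb1
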