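import Pool.Agent.Lib.MP_391fb1_pr.Base

/-!
# MP_391fb1_pr: `V2 n` is nondecreasing on `[0,n)` for all `n ≥ 7`
-/

namespace Pool.Agent.Lib.MP391fb1

open Set

theorem Va_hasDerivAt {n : ℕ} (hn : 4 ≤ n) {x : ℝ} (hx : |x| < n) :
    HasDerivAt (Va n) (V2 n x) x := by
  have h0 := bs_hasDerivAt (n := n) (i := 0) (by omega) x
  have h1 := bs_hasDerivAt (n := n) (i := 1) (by omega) x
  have hp := bs_pos (by omega : 2 ≤ n) hx
  refine (h1.neg.div h0 hp.ne').congr_deriv ?_
  unfold V2
  simp only [Nat.reduceAdd, zero_add, Pi.neg_apply]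
  ring

theorem Va_odd {n : ℕ} (hn : 3 ≤ n) (x : ℝ) : Va n (-x) = - Va n x := by
  unfold Va
  rw [bs_even (by omega), bs_one_odd hn]
  ring

theorem Va_zero {n : ℕ} (hn : 3 ≤ n) : Va n 0 = 0 := by
  have := Va_odd hn 0
  rw [neg_zero] at this
  linarith

theorem bs_one_nonpos {n : ℕ} (hn : 3 ≤ n) {x : ℝ} (hx : 0 ≤ x) : bs n 1 x ≤ 0 := by
  have h := bs_hasDerivAt (n := n) (i := 0) (by omega) x
  have hanti := bs_antitoneOn (by omega : 2 ≤ n)
  have h1 := (h.hasDerivWithinAt (s := Ici x)).derivWithin (uniqueDiffWithinAt_Ici x)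
  have : AntitoneOn (bs n 0) (Ici x) := hanti.mono (Ici_subset_Ici.2 hx)
  have h2 := this.derivWithin_nonpos (x := x)
  rw [h1] at h2
  simpa using h2

theorem Va_nonneg {n : ℕ} (hn : 3 ≤ n) {x : ℝ} (hx : 0 ≤ x) : 0 ≤ Va n x := by
  unfold Va
  exact div_nonneg (by linarith [bs_one_nonpos hn hx]) (bs_nonneg (by omega) x)

theorem Fb_eq {n : ℕ} (hn : 3 ≤ n) (c b : ℝ) {x : ℝ} (hx : |x| < n) :
    Fb n c b x = bs n 0 x * (c * x + b - Va n x) := by
  have hp := (bs_pos (by omega : 2 ≤ n) hx).ne'
  unfold Fb Va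
  field_simp
  ring

theorem Fb_neg {n : ℕ} (hn : 3 ≤ n) {c b x : ℝ} : Fb n c b x < 0 ↔ |x| < n ∧ c * x + b - Va n x < 0 := by
  constructor
  · intro h
    have hx : |x| < n := by
      by_contra hc
      rw [Fb_zero hn c b (not_lt.1 hc)] at h
      exact lt_irrefl _ h
    refine ⟨hx, ?_⟩
    rw [Fb_eq hn c b hx] at h
    by_contra hcon
    have := mul_nonneg (bs_pos (by omega) hx).le (not_lt.1 hcon)
    linarith
  · rintro ⟨hx, h⟩
    rw [Fb_eq hn c b hx]
    exact mul_neg_of_pos_of_neg (bs_pos (by omega) hx) h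

theorem Fb_pos {n : ℕ} (hn : 3 ≤ n) {c b x : ℝ} : 0 < Fb n c b x ↔ |x| < n ∧ 0 < c * x + b - Va n x := by
  constructor
  · intro h
    have hx : |x| < n := by
      by_contra hc
      rw [Fb_zero hn c b (not_lt.1 hc)] at h
      exact lt_irrefl _ h
    refine ⟨hx, ?_⟩
    rw [Fb_eq hn c b hx] at h
    exact (mul_pos_iff_of_pos_left (bs_pos (by omega) hx)).1 h
  · rintro ⟨hx, h⟩
    rw [Fb_eq hn c b hx]
    exact (mul_pos_iff_of_pos_left (bs_pos (by omega) hx)).2 h

theorem Va_convexOn {n : ℕ} (hn : 4 ≤ n) (h : MonotoneOn (V2 n) (Ico 0 (n:ℝ))) :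
    ConvexOn ℝ (Ico 0 (n:ℝ)) (Va n) := by
  have hpos : (0:ℝ) < n := by exact_mod_cast (by omega : 0 < n)
  have hd : ∀ x ∈ Ico 0 (n:ℝ), HasDerivAt (Va n) (V2 n x) x := fun x hx =>
    Va_hasDerivAt hn (abs_lt.2 ⟨by linarith [hx.1], hx.2⟩)
  apply MonotoneOn.convexOn_of_deriv (convex_Ico _ _)
  · intro x hx
    exact (hd x hx).continuousAt.continuousWithinAt
  · intro x hx
    exact (hd x (interior_subset hx)).differentiableAt.differentiableWithinAt
  · intro x hx y hy hxy
    rw [(hd x (interior_subset hx)).deriv, (hd y (interior_subset hy)).deriv]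
    exact h (interior_subset hx) (interior_subset hy) hxy

/-- three-point form of convexity -/
theorem convex3 {s : Set ℝ} {g : ℝ → ℝ} (h : ConvexOn ℝ s g) {x y z : ℝ} (hx : x ∈ s) (hz : z ∈ s)
    (hxy : x < y) (hyz : y < z) : (z - x) * g y ≤ (z - y) * g x + (y - x) * g z := by
  have hzx : 0 < z - x := by linarith
  have c1 : 0 ≤ (z - y) / (z - x) := div_nonneg (by linarith) hzx.le
  have c2 : 0 ≤ (y - x) / (z - x) := div_nonneg (by linarith) hzx.le
  have c3 : (z - y) / (z - x) + (y - x) / (z - x) = 1 := by field_simp; ring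
  have h1 := h.2 hx hz c1 c2 c3
  simp only [smul_eq_mul] at h1
  have e : (z - y) / (z - x) * x + (y - x) / (z - x) * z = y := by field_simp; ring
  rw [e] at h1
  have h2 := mul_le_mul_of_nonneg_left h1 hzx.le
  have e2 : (z - x) * ((z - y) / (z - x) * g x + (y - x) / (z - x) * g z)
      = (z - y) * g x + (y - x) * g z := by field_simp
  linarith

theorem NP_of_mono {n : ℕ} (hn : 4 ≤ n) (h : MonotoneOn (V2 n) (Ico 0 (n:ℝ))) : NP n := by
  have hpos : (0:ℝ) < n := by exact_mod_cast (by omega : 0 < n)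
  have hconv := Va_convexOn hn h
  rintro c hc b ⟨x1, x2, x3, x4, h12, h23, h34, s1, s2, s3, s4⟩
  rw [Fb_neg (by omega)] at s1 s3
  rw [Fb_pos (by omega)] at s2 s4
  obtain ⟨a1, s1⟩ := s1
  obtain ⟨a2, s2⟩ := s2
  obtain ⟨a3, s3⟩ := s3
  obtain ⟨a4, s4⟩ := s4
  rw [abs_lt] at a1 a2 a3 a4
  have h00 : Va n 0 = 0 := Va_zero (by omega)
  -- convexity on the right
  have cr : ∀ x y z : ℝ, 0 ≤ x → x < y → y < z → z < n →
      (z - x) * Va n y ≤ (z - y) * Va n x + (y - x) * Va n z := by
    intro x y z g1 g2 g3 g4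
    exact convex3 hconv ⟨g1, by linarith⟩ ⟨by linarith, g4⟩ g2 g3
  -- concavity on the left
  have cl : ∀ x y z : ℝ, -(n:ℝ) < x → x < y → y < z → z ≤ 0 →
      (z - y) * Va n x + (y - x) * Va n z ≤ (z - x) * Va n y := by
    intro x y z g1 g2 g3 g4
    have := cr (-z) (-y) (-x) (by linarith) (by linarith) (by linarith) (by linarith)
    rw [Va_odd (by omega), Va_odd (by omega), Va_odd (by omega)] at this
    linarith
  rcases le_or_gt 0 b with hb | hb
  · -- b ≥ 0
    have hx3 : x3 ≤ 0 := by
      by_contra hcon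
      rw [not_le] at hcon
      have := cr 0 x3 x4 le_rfl hcon h34 a4.2
      rw [h00] at this
      nlinarith
    have := cl x1 x2 x3 a1.1 h12 h23 hx3
    nlinarith [mul_neg_of_pos_of_neg (sub_pos.2 h23) s1, mul_neg_of_pos_of_neg (sub_pos.2 h12) s3,
      mul_pos (sub_pos.2 (h12.trans h23)) s2]
  · have hx2 : 0 ≤ x2 := by
      by_contra hcon
      rw [not_le] at hcon
      have := cl x1 x2 0 a1.1 h12 hcon le_rfl
      rw [h00] at this
      nlinarith
    have := cr x2 x3 x4 hx2 h23 h34 a4.2
    nlinarith [mul_pos (sub_pos.2 h34) s2, mul_pos (sub_pos.2 h23) s4,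
      mul_neg_of_pos_of_neg (sub_pos.2 (h23.trans h34)) s3]

theorem mono_of_NP {n : ℕ} (hn : 4 ≤ n) (h : NP n) : MonotoneOn (V2 n) (Ico 0 (n:ℝ)) := by
  have hpos : (0:ℝ) < n := by exact_mod_cast (by omega : 0 < n)
  have h00 : Va n 0 = 0 := Va_zero (by omega)
  -- (i) `Va x / x` nondecreasing
  have hi : ∀ x y : ℝ, 0 < x → x < y → y < n → Va n x * y ≤ Va n y * x := by
    intro x y hx hxy hy
    by_contra hcon
    rw [not_le] at hcon
    have hy0 : 0 < y := by linarith
    have hlt : Va n y / y < Va n x / x := by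
      rw [div_lt_div_iff₀ hy0 hx]
      linarith
    obtain ⟨c, hc1, hc2⟩ := exists_between hlt
    have hc0 : 0 < c := lt_of_le_of_lt (div_nonneg (Va_nonneg (by omega) hy0.le) hy0.le) hc1
    rw [div_lt_iff₀ hy0] at hc1
    rw [lt_div_iff₀ hx] at hc2
    apply h c hc0 0
    refine ⟨-y, -x, x, y, by linarith, by linarith, hxy, ?_, ?_, ?_, ?_⟩
    · rw [Fb_neg (by omega), Va_odd (by omega), abs_neg]
      exact ⟨abs_lt.2 ⟨by linarith, hy⟩, by linarith⟩
    · rw [Fb_pos (by omega), Va_odd (by omega), abs_neg]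
      exact ⟨abs_lt.2 ⟨by linarith, by linarith⟩, by linarith⟩
    · rw [Fb_neg (by omega)]
      exact ⟨abs_lt.2 ⟨by linarith, by linarith⟩, by linarith⟩
    · rw [Fb_pos (by omega)]
      exact ⟨abs_lt.2 ⟨by linarith, by linarith⟩, by linarith⟩
  -- (ii) three-point convexity
  have hii : ∀ p t q : ℝ, 0 ≤ p → p < t → t < q → q < n →
      (q - p) * Va n t ≤ (q - t) * Va n p + (t - p) * Va n q := by
    intro p t q hp hpt htq hq
    rcases hp.eq_or_lt with rfl | hp
    · rw [h00]
      have := hi t q hpt htq hq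
      nlinarith
    by_contra hcon
    rw [not_le] at hcon
    have hqp : 0 < q - p := by linarith
    set c := (Va n q - Va n p) / (q - p) with hc
    set b := Va n p - c * p with hb
    have hcq : c * (q - p) = Va n q - Va n p := by rw [hc]; field_simp
    have e1 : c * p + b = Va n p := by rw [hb]; ring
    have e2 : c * q + b = Va n q := by rw [hb]; linarith
    -- b ≤ 0
    have hbq : b * (q - p) ≤ 0 := by
      have := hi p q hp (by linarith) hq
      have : b * (q - p) = Va n p * q - Va n q * p := by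
        rw [hb]
        calc (Va n p - c * p) * (q - p) = Va n p * (q - p) - (c * (q - p)) * p := by ring
          _ = _ := by rw [hcq]; ring
      linarith
    have hb0 : b ≤ 0 := by
      by_contra hcc
      rw [not_le] at hcc
      have := mul_pos hcc hqp
      linarith
    -- the value at t
    have ht : (q - p) * (c * t + b - Va n t) < 0 := by
      have : (q - p) * (c * t + b) = (q - t) * Va n p + (t - p) * Va n q := by
        rw [← e1, ← e2]; ring
      linarith
    have ht' : c * t + b - Va n t < 0 := by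
      by_contra hcc
      rw [not_lt] at hcc
      have := mul_nonneg hqp.le hcc
      linarith
    have hblt : b < 0 := by
      rcases hb0.eq_or_lt with hb1 | hb1
      · exfalso
        have := hi t q (by linarith) htq hq
        rw [hb1] at ht' e2
        have : (c * q) * t < Va n q * t := by nlinarith
        rw [add_zero] at e2
        rw [e2] at this
        exact lt_irrefl _ this
      · exact hb1
    have hc0 : 0 < c := by
      have h1 : 0 < c * p := by
        have := Va_nonneg (n := n) (by omega) hp.le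
        linarith
      exact (pos_iff_pos_of_mul_pos h1).2 hp
    set ε := min (-b) (-(c * t + b - Va n t)) / 2 with hε
    have hε0 : 0 < ε := by
      have : 0 < min (-b) (-(c * t + b - Va n t)) := lt_min (by linarith) (by linarith)
      rw [hε]; linarith
    have hε1 : ε < -b := by
      have := min_le_left (-b) (-(c * t + b - Va n t))
      linarith
    have hε2 : ε < -(c * t + b - Va n t) := by
      have := min_le_right (-b) (-(c * t + b - Va n t))
      linarith
    apply h c hc0 (b + ε)
    refine ⟨0, p, t, q, hp, hpt, htq, ?_, ?_, ?_, ?_⟩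
    · rw [Fb_neg (by omega), h00, abs_zero]
      exact ⟨hpos, by linarith⟩
    · rw [Fb_pos (by omega)]
      exact ⟨abs_lt.2 ⟨by linarith, by linarith⟩, by linarith⟩
    · rw [Fb_neg (by omega)]
      exact ⟨abs_lt.2 ⟨by linarith, by linarith⟩, by linarith⟩
    · rw [Fb_pos (by omega)]
      exact ⟨abs_lt.2 ⟨by linarith, by linarith⟩, by linarith⟩
  have hconv : ConvexOn ℝ (Ico 0 (n:ℝ)) (Va n) := by
    apply LinearOrder.convexOn_of_lt (convex_Ico _ _)
    intro x hx y hy hxy a b ha hb hab
    simp only [smul_eq_mul]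
    have hyx : 0 < y - x := by linarith
    have e1 : y - (a * x + b * y) = a * (y - x) := by
      have : b = 1 - a := by linarith
      rw [this]; ring
    have e2 : a * x + b * y - x = b * (y - x) := by
      have : a = 1 - b := by linarith
      rw [this]; ring
    have h1 : x < a * x + b * y := by
      have := mul_pos hb hyx
      linarith
    have h2 : a * x + b * y < y := by
      have := mul_pos ha hyx
      linarith
    have := hii x (a * x + b * y) y hx.1 h1 h2 hy.2
    rw [e1, e2] at this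
    have h3 : (y - x) * Va n (a * x + b * y) ≤ (y - x) * (a * Va n x + b * Va n y) := by linarith
    exact le_of_mul_le_mul_left h3 hyx
  have hd : ∀ x ∈ Ico 0 (n:ℝ), HasDerivAt (Va n) (V2 n x) x := fun x hx =>
    Va_hasDerivAt hn (abs_lt.2 ⟨by linarith [hx.1], hx.2⟩)
  have := hconv.monotoneOn_deriv (fun x hx => (hd x hx).differentiableAt)
  intro x hx y hy hxy
  have := this hx hy hxy
  rwa [(hd x hx).deriv, (hd y hy).deriv] at this

/-- **The second derivative of `-log f_n` is nondecreasing on `[0,n)` for every `n ≥ 7`.** -/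
theorem V2_monotoneOn {n : ℕ} (hn : 7 ≤ n) : MonotoneOn (V2 n) (Ico 0 (n:ℝ)) := by
  have main : ∀ k n : ℕ, 7 ≤ n → n < 16 + 9 * k → NP n := by
    intro k
    induction k with
    | zero =>
      intro n h1 h2
      apply NP_of_mono (by omega)
      apply V2_monotoneOn_of_check (by omega)
      have : n = 7 ∨ n = 8 ∨ n = 9 ∨ n = 10 ∨ n = 11 ∨ n = 12 ∨ n = 13 ∨ n = 14 ∨ n = 15 := by omega
      rcases this with rfl | rfl | rfl | rfl | rfl | rfl | rfl | rfl | rfl
      · exact checkE7
      · exact checkE8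
      · exact checkE9
      · exact checkE10
      · exact checkE11
      · exact checkE12
      · exact checkE13
      · exact checkE14
      · exact checkE15
    | succ k ih =>
      intro n h1 h2
      rcases Nat.lt_or_ge n (16 + 9 * k) with h | h
      · exact ih n h1 h
      · obtain ⟨m, rfl⟩ : ∃ m, n = m + 9 := ⟨n - 9, by omega⟩
        exact NP_add9 (by omega) (ih m (by omega) (by omega))
  exact mono_of_NP (by omega) (main n n hn (by omega))

end Pool.Agent.Lib.MP391fb1
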