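import Pool.Agent.Lib.MP_391fb1_pr.Bs2

/-!
# MP_391fb1_pr: C² extension of `V n`, convexity along square roots, finite-step scheme
-/

namespace Pool.Agent.Lib.MP391fb1

open MeasureTheory Set intervalIntegral

/-! ### (S1) C² extension of `V n` beyond `[-R,R]` -/

/-- clamp to `[-R,R]` -/
noncomputable def cl (R x : ℝ) : ℝ := max (-R) (min x R)

theorem cl_continuous (R : ℝ) : Continuous (cl R) := by unfold cl; fun_prop

theorem cl_mem {R : ℝ} (hR : 0 ≤ R) (x : ℝ) : |cl R x| ≤ R := by
  unfold cl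
  rw [abs_le]
  exact ⟨le_max_left _ _, max_le (by linarith) (min_le_right _ _)⟩

theorem cl_eq {R x : ℝ} (hx : |x| ≤ R) : cl R x = x := by
  have := abs_le.1 hx
  unfold cl
  rw [min_eq_left this.2, max_eq_right this.1]

theorem cl_neg {R : ℝ} (hR : 0 ≤ R) (x : ℝ) : cl R (-x) = - cl R x := by
  unfold cl
  rcases le_total x R with h1 | h1
  · rcases le_total (-R) x with h2 | h2
    · rw [min_eq_left h1, max_eq_right h2, min_eq_left (by linarith), max_eq_right (by linarith)]
    · rw [min_eq_left h1, max_eq_left h2, min_eq_right (by linarith), max_eq_right (by linarith),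
        neg_neg]
  · rw [min_eq_right h1, min_eq_left (by linarith : -x ≤ R), max_eq_left (by linarith : -x ≤ -R),
      max_eq_right (by linarith : -R ≤ R)]

theorem bs_one_zero {n : ℕ} (hn : 3 ≤ n) : bs n 1 0 = 0 := by
  have := bs_one_odd hn 0
  rw [neg_zero] at this
  linarith

theorem V_hasDerivAt {n : ℕ} (hn : 3 ≤ n) {x : ℝ} (hx : |x| < n) :
    HasDerivAt (V n) (Va n x) x := by
  have hp := bs_pos (by omega : 2 ≤ n) hx
  have := ((bs_hasDerivAt (n := n) (i := 0) (by omega) x).log hp.ne').neg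
  refine this.congr_deriv ?_
  unfold Va
  simp only [zero_add]
  ring

theorem Va_hasDeriv {n : ℕ} (hn : 4 ≤ n) {x : ℝ} (hx : |x| < n) :
    HasDerivAt (Va n) (V2 n x) x := by
  have hp := bs_pos (by omega : 2 ≤ n) hx
  have := ((bs_hasDerivAt (n := n) (i := 1) (by omega) x).div
    (bs_hasDerivAt (n := n) (i := 0) (by omega) x) hp.ne').neg
  have e : (fun y => -(bs n 1 y / bs n 0 y)) = Va n := by
    funext y; unfold Va; ring
  rw [← e]
  refine this.congr_deriv ?_
  unfold V2
  simp only [zero_add, Nat.reduceAdd]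
  ring

theorem V2_continuousAt {n : ℕ} (hn : 2 ≤ n) {x : ℝ} (hx : |x| < n) : ContinuousAt (V2 n) x := by
  have hp := bs_pos hn hx
  unfold V2
  refine ContinuousAt.div ?_ ?_ (by positivity)
  · have h0 := bs_continuous n 0
    have h1 := bs_continuous n 1
    have h2 := bs_continuous n 2
    fun_prop
  · have h0 := bs_continuous n 0
    fun_prop

theorem V2_evn {n : ℕ} (hn : 4 ≤ n) (x : ℝ) : V2 n (-x) = V2 n x := by
  unfold V2
  rw [bs_even (by omega), bs_one_odd (by omega), bs_two_even hn, neg_sq]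

/-- the truncated second derivative -/
noncomputable def w2 (n : ℕ) (R : ℝ) (x : ℝ) : ℝ := V2 n (cl R x)

/-- its primitive -/
noncomputable def w1 (n : ℕ) (R : ℝ) (x : ℝ) : ℝ := ∫ y in (0:ℝ)..x, w2 n R y

/-- the `C²` extension of `V n` -/
noncomputable def w0 (n : ℕ) (R : ℝ) (x : ℝ) : ℝ := V n 0 + ∫ y in (0:ℝ)..x, w1 n R y

section
variable {n : ℕ} {R : ℝ}

theorem w2_continuous (hn : 2 ≤ n) (h0 : 0 ≤ R) (hR : R < n) : Continuous (w2 n R) := by
  rw [continuous_iff_continuousAt]
  intro x
  have h1 : ContinuousAt (V2 n) (cl R x) := V2_continuousAt hn ((cl_mem h0 x).trans_lt hR)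
  exact ContinuousAt.comp h1 (cl_continuous R).continuousAt

theorem w2_even (hn : 4 ≤ n) (h0 : 0 ≤ R) (x : ℝ) : w2 n R (-x) = w2 n R x := by
  unfold w2
  rw [cl_neg h0, V2_evn hn]

theorem w1_hasDerivAt (hn : 2 ≤ n) (h0 : 0 ≤ R) (hR : R < n) (x : ℝ) :
    HasDerivAt (w1 n R) (w2 n R x) x := hasDerivAt_primitive (w2_continuous hn h0 hR) 0 x

theorem w1_continuous (hn : 2 ≤ n) (h0 : 0 ≤ R) (hR : R < n) : Continuous (w1 n R) :=
  continuous_iff_continuousAt.2 fun x => (w1_hasDerivAt hn h0 hR x).continuousAt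

theorem w0_hasDerivAt (hn : 2 ≤ n) (h0 : 0 ≤ R) (hR : R < n) (x : ℝ) :
    HasDerivAt (w0 n R) (w1 n R x) x :=
  (hasDerivAt_primitive (w1_continuous hn h0 hR) 0 x).const_add _

theorem w0_continuous (hn : 2 ≤ n) (h0 : 0 ≤ R) (hR : R < n) : Continuous (w0 n R) :=
  continuous_iff_continuousAt.2 fun x => (w0_hasDerivAt hn h0 hR x).continuousAt

theorem w1_zero : w1 n R 0 = 0 := by simp [w1]

theorem w1_odd (hn : 4 ≤ n) (h0 : 0 ≤ R) (x : ℝ) : w1 n R (-x) = - w1 n R x := by
  unfold w1
  have := intervalIntegral.integral_comp_neg (a := (0:ℝ)) (b := x) (w2 n R)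
  rw [neg_zero] at this
  rw [intervalIntegral.integral_symm, ← this]
  congr 1
  apply intervalIntegral.integral_congr
  intro y _
  exact w2_even hn h0 y

theorem w0_even (hn : 4 ≤ n) (h0 : 0 ≤ R) (x : ℝ) : w0 n R (-x) = w0 n R x := by
  unfold w0
  congr 1
  have := intervalIntegral.integral_comp_neg (a := (0:ℝ)) (b := x) (w1 n R)
  rw [neg_zero] at this
  rw [intervalIntegral.integral_symm, ← this, ← intervalIntegral.integral_neg]
  apply intervalIntegral.integral_congr
  intro y _
  show -w1 n R (-y) = w1 n R y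
  rw [w1_odd hn h0, neg_neg]

theorem w1_eq (hn : 4 ≤ n) (h0 : 0 ≤ R) (hR : R < n) {x : ℝ} (hx : |x| ≤ R) :
    w1 n R x = Va n x := by
  have hsub : uIcc 0 x ⊆ Icc (-R) R := by
    rw [abs_le] at hx
    intro y hy
    rcases le_total 0 x with h | h
    · rw [uIcc_of_le h] at hy; exact ⟨by linarith [hy.1], by linarith [hy.2]⟩
    · rw [uIcc_of_ge h] at hy; exact ⟨by linarith [hy.1], by linarith [hy.2]⟩
  have e : w1 n R x = ∫ y in (0:ℝ)..x, V2 n y := by
    unfold w1
    apply intervalIntegral.integral_congr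
    intro y hy
    show V2 n (cl R y) = V2 n y
    rw [cl_eq (abs_le.2 (hsub hy))]
  rw [e]
  have hd : ∀ y ∈ uIcc 0 x, HasDerivAt (Va n) (V2 n y) y := fun y hy =>
    Va_hasDeriv hn ((abs_le.2 (hsub hy)).trans_lt hR)
  have hc : ContinuousOn (V2 n) (uIcc 0 x) := fun y hy =>
    (V2_continuousAt (by omega) ((abs_le.2 (hsub hy)).trans_lt hR)).continuousWithinAt
  rw [intervalIntegral.integral_eq_sub_of_hasDerivAt hd hc.intervalIntegrable]
  have : Va n 0 = 0 := by unfold Va; rw [bs_one_zero (by omega)]; simp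
  rw [this, sub_zero]

theorem w0_eq (hn : 4 ≤ n) (h0 : 0 ≤ R) (hR : R < n) {x : ℝ} (hx : |x| ≤ R) :
    w0 n R x = V n x := by
  have hsub : uIcc 0 x ⊆ Icc (-R) R := by
    rw [abs_le] at hx
    intro y hy
    rcases le_total 0 x with h | h
    · rw [uIcc_of_le h] at hy; exact ⟨by linarith [hy.1], by linarith [hy.2]⟩
    · rw [uIcc_of_ge h] at hy; exact ⟨by linarith [hy.1], by linarith [hy.2]⟩
  have e : (∫ y in (0:ℝ)..x, w1 n R y) = ∫ y in (0:ℝ)..x, Va n y := by
    apply intervalIntegral.integral_congr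
    intro y hy
    exact w1_eq hn h0 hR (abs_le.2 (hsub hy))
  unfold w0
  rw [e]
  have hd : ∀ y ∈ uIcc 0 x, HasDerivAt (V n) (Va n y) y := fun y hy =>
    V_hasDerivAt (by omega) ((abs_le.2 (hsub hy)).trans_lt hR)
  have hc : ContinuousOn (Va n) (uIcc 0 x) := fun y hy =>
    (Va_hasDeriv hn ((abs_le.2 (hsub hy)).trans_lt hR)).continuousAt.continuousWithinAt
  rw [intervalIntegral.integral_eq_sub_of_hasDerivAt hd hc.intervalIntegrable]
  ring

end

/-! ### convexity of `s ↦ χ(√s)` -/

theorem convexOn_sqrt {χ χ1 : ℝ → ℝ} {X : ℝ} (hX : 0 ≤ X) (hc : Continuous χ)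
    (hd : ∀ x ∈ Ioo 0 X, HasDerivAt χ (χ1 x) x)
    (hm : MonotoneOn (fun x => χ1 x / x) (Ioo 0 X)) :
    ConvexOn ℝ (Icc 0 (X ^ 2)) (fun s => χ (√s)) := by
  have hsq : ∀ s ∈ Ioo (0:ℝ) (X ^ 2), √s ∈ Ioo 0 X := by
    intro s hs
    refine ⟨Real.sqrt_pos.2 hs.1, ?_⟩
    rw [← Real.sqrt_sq hX]
    exact Real.sqrt_lt_sqrt hs.1.le hs.2
  have hder : ∀ s ∈ Ioo (0:ℝ) (X ^ 2), HasDerivAt (fun s => χ (√s)) (1 / 2 * (χ1 (√s) / √s)) s := by
    intro s hs
    have h1 := (hd _ (hsq s hs)).comp s (Real.hasDerivAt_sqrt hs.1.ne')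
    refine h1.congr_deriv ?_
    ring
  apply MonotoneOn.convexOn_of_deriv (convex_Icc _ _)
  · exact (hc.comp Real.continuous_sqrt).continuousOn
  · rw [interior_Icc]
    intro s hs
    exact (hder s hs).differentiableAt.differentiableWithinAt
  · rw [interior_Icc]
    intro s hs t ht hst
    rw [(hder s hs).deriv, (hder t ht).deriv]
    have := hm (hsq s hs) (hsq t ht) (Real.sqrt_le_sqrt hst)
    simp only at this
    linarith

/-- `x⁻¹ ∫_0^x g` is nondecreasing if `g` is. -/
theorem avg_mono {χ1 g : ℝ → ℝ} {X : ℝ} (h0 : χ1 0 = 0) (hd : ∀ x, HasDerivAt χ1 (g x) x)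
    (hm : MonotoneOn g (Icc 0 X)) : MonotoneOn (fun x => χ1 x / x) (Ioo 0 X) := by
  have hconv : ConvexOn ℝ (Icc 0 X) χ1 := by
    apply MonotoneOn.convexOn_of_deriv (convex_Icc _ _)
    · exact fun x _ => (hd x).continuousAt.continuousWithinAt
    · exact fun x _ => (hd x).differentiableAt.differentiableWithinAt
    · rw [interior_Icc]
      intro x hx y hy hxy
      rw [(hd x).deriv, (hd y).deriv]
      exact hm (Ioo_subset_Icc_self hx) (Ioo_subset_Icc_self hy) hxy
  intro x hx y hy hxy
  simp only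
  have hy0 := hy.1
  have hx0 := hx.1
  have h1 : 0 ≤ x / y := by positivity
  have h2 : 0 ≤ 1 - x / y := by rw [sub_nonneg, div_le_one hy0]; exact hxy
  have := hconv.2 (Ioo_subset_Icc_self hy) (⟨le_rfl, by linarith [hx.2]⟩ : (0:ℝ) ∈ Icc 0 X) h1 h2 (by ring)
  simp only [smul_eq_mul, mul_zero, add_zero, h0] at this
  have e : x / y * y = x := by field_simp
  rw [e] at this
  rw [div_le_div_iff₀ hx0 hy0]
  calc χ1 x * y ≤ (x / y * χ1 y) * y := by gcongr
    _ = χ1 y * x := by field_simp

/-- sum of squares controls the sum -/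
theorem sum_le_of_sq {l : List ℝ} {η : ℝ} (hη : 0 ≤ η)
    (hs : (l.map (fun c => c ^ 2)).sum = l.length * η ^ 2) : l.sum ≤ l.length * η := by
  have key : ∀ l : List ℝ, 2 * η * l.sum ≤ (l.map (fun c => c ^ 2)).sum + l.length * η ^ 2 := by
    intro l
    induction l with
    | nil => simp
    | cons c l ih =>
      simp only [List.sum_cons, List.map_cons, List.length_cons, Nat.cast_add, Nat.cast_one]
      nlinarith [sq_nonneg (c - η)]
  have h := key l
  rw [hs] at h
  rcases hη.eq_or_lt with h0 | h0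
  · subst h0
    have hz : ∀ l : List ℝ, (l.map (fun c => c ^ 2)).sum = 0 → l.sum = 0 := by
      intro l
      induction l with
      | nil => simp
      | cons c l ih =>
        intro h
        simp only [List.map_cons, List.sum_cons] at h ⊢
        have h1 : 0 ≤ (l.map (fun c => c ^ 2)).sum := by
          apply List.sum_nonneg
          intro x hx
          obtain ⟨c, _, rfl⟩ := List.mem_map.1 hx
          positivity
        have h2 : c ^ 2 = 0 := by nlinarith [sq_nonneg c]
        rw [ih (by linarith), pow_eq_zero_iff (by norm_num)] at *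
        · simp at h2 ⊢
          exact h2
    rw [hz l (by rw [hs]; ring)]
    simp
  · nlinarith

/-! ### (S2) the finite-step scheme -/

theorem exists_max_mem {l : List ℝ} (hl : l ≠ []) : ∃ a ∈ l, ∀ c ∈ l, c ≤ a := by
  induction l with
  | nil => exact absurd rfl hl
  | cons x l ih =>
    rcases eq_or_ne l [] with h | h
    · subst h; exact ⟨x, by simp, by simp⟩
    · obtain ⟨a, ha, hm⟩ := ih h
      rcases le_total x a with hx | hx
      · exact ⟨a, by simp [ha], by simpa using ⟨hx, hm⟩⟩
      · refine ⟨x, by simp, ?_⟩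
        intro c hc
        rcases List.mem_cons.1 hc with rfl | hc
        · exact le_rfl
        · exact (hm c hc).trans hx

theorem exists_min_mem {l : List ℝ} (hl : l ≠ []) : ∃ a ∈ l, ∀ c ∈ l, a ≤ c := by
  induction l with
  | nil => exact absurd rfl hl
  | cons x l ih =>
    rcases eq_or_ne l [] with h | h
    · subst h; exact ⟨x, by simp, by simp⟩
    · obtain ⟨a, ha, hm⟩ := ih h
      rcases le_total a x with hx | hx
      · exact ⟨a, by simp [ha], by simpa using ⟨hx, hm⟩⟩
      · refine ⟨x, by simp, ?_⟩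
        intro c hc
        rcases List.mem_cons.1 hc with rfl | hc
        · exact le_rfl
        · exact hx.trans (hm c hc)

theorem sumsq_perm {l l' : List ℝ} (h : l.Perm l') :
    (l.map (fun c => c ^ 2)).sum = (l'.map (fun c => c ^ 2)).sum :=
  (h.map _).sum_eq

/-- **Finite-step scheme.** -/
theorem finite_steps {n : ℕ} {M η : ℝ} {w : ℝ → ℝ} (hw : Continuous w) (hη : 0 < η)
    (hstep : ∀ (a b : ℝ) (l : List ℝ), l.length + 2 = n → 0 ≤ b → b < η → η < a → a ≤ M →
      (∀ c ∈ l, b ≤ c ∧ c ≤ a) → a ^ 2 + b ^ 2 + (l.map (fun c => c ^ 2)).sum = n * η ^ 2 →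
      T a (T b (Ex l w)) 0 ≤ T η (T (√(a ^ 2 + b ^ 2 - η ^ 2)) (Ex l w)) 0) :
    ∀ l : List ℝ, l.length = n → (∀ c ∈ l, 0 ≤ c ∧ c ≤ M) →
      (l.map (fun c => c ^ 2)).sum = n * η ^ 2 → Ex l w 0 ≤ Ex (List.replicate n η) w 0 := by
  suffices H : ∀ k : ℕ, ∀ l : List ℝ, (l.filter (fun c => c ≠ η)).length ≤ k → l.length = n →
      (∀ c ∈ l, 0 ≤ c ∧ c ≤ M) → (l.map (fun c => c ^ 2)).sum = n * η ^ 2 →
      Ex l w 0 ≤ Ex (List.replicate n η) w 0 from
    fun l h1 h2 h3 => H _ l le_rfl h1 h2 h3
  intro k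
  induction k with
  | zero =>
    intro l hk hn _ _
    have h1 : l.filter (fun c => c ≠ η) = [] := List.eq_nil_of_length_eq_zero (by omega)
    have h2 : ∀ c ∈ l, c = η := by
      intro c hc
      by_contra hne
      have : c ∈ l.filter (fun c => c ≠ η) := List.mem_filter.2 ⟨hc, by simpa using hne⟩
      rw [h1] at this
      simp at this
    have : l = List.replicate n η := by
      rw [List.eq_replicate_iff]
      exact ⟨hn, h2⟩
    rw [this]
  | succ k ih =>
    intro l hk hn hM hs
    by_cases hall : ∀ c ∈ l, c = η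
    · have : l = List.replicate n η := by
        rw [List.eq_replicate_iff]
        exact ⟨hn, hall⟩
      rw [this]
    · push Not at hall
      obtain ⟨c0, hc0, hc0ne⟩ := hall
      have hne : l ≠ [] := List.ne_nil_of_mem hc0
      obtain ⟨a, ha, hmax⟩ := exists_max_mem hne
      obtain ⟨b, hb, hmin⟩ := exists_min_mem hne
      -- a > η > b
      have havg : ∀ l : List ℝ, (∀ c ∈ l, 0 ≤ c ∧ c ≤ η) → (l.map (fun c => c ^ 2)).sum = l.length * η ^ 2 →
          ∀ c ∈ l, c = η := by
        intro l
        induction l with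
        | nil => simp
        | cons x l ih' =>
          intro h1 h2 c hc
          have hx := h1 x (by simp)
          have hl : (l.map (fun c => c ^ 2)).sum ≤ l.length * η ^ 2 := by
            have : ∀ l : List ℝ, (∀ c ∈ l, 0 ≤ c ∧ c ≤ η) →
                (l.map (fun c => c ^ 2)).sum ≤ l.length * η ^ 2 := by
              intro l
              induction l with
              | nil => simp
              | cons y l ih'' =>
                intro h
                have hy := h y (by simp)
                have := ih'' (fun c hc => h c (by simp [hc]))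
                simp only [List.map_cons, List.sum_cons, List.length_cons, Nat.cast_add, Nat.cast_one]
                nlinarith
            exact this l (fun c hc => h1 c (by simp [hc]))
          simp only [List.map_cons, List.sum_cons, List.length_cons, Nat.cast_add, Nat.cast_one] at h2
          have hx2 : x ^ 2 = η ^ 2 := by nlinarith
          have hx3 : x = η := by nlinarith
          rcases List.mem_cons.1 hc with rfl | hc
          · exact hx3
          · exact ih' (fun c hc => h1 c (by simp [hc])) (by nlinarith) c hc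
      have havg2 : ∀ l : List ℝ, (∀ c ∈ l, η ≤ c) → (l.map (fun c => c ^ 2)).sum = l.length * η ^ 2 →
          ∀ c ∈ l, c = η := by
        intro l
        induction l with
        | nil => simp
        | cons x l ih' =>
          intro h1 h2 c hc
          have hx := h1 x (by simp)
          have hl : l.length * η ^ 2 ≤ (l.map (fun c => c ^ 2)).sum := by
            have : ∀ l : List ℝ, (∀ c ∈ l, η ≤ c) →
                l.length * η ^ 2 ≤ (l.map (fun c => c ^ 2)).sum := by
              intro l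
              induction l with
              | nil => simp
              | cons y l ih'' =>
                intro h
                have hy := h y (by simp)
                have := ih'' (fun c hc => h c (by simp [hc]))
                simp only [List.map_cons, List.sum_cons, List.length_cons, Nat.cast_add, Nat.cast_one]
                nlinarith
            exact this l (fun c hc => h1 c (by simp [hc]))
          simp only [List.map_cons, List.sum_cons, List.length_cons, Nat.cast_add, Nat.cast_one] at h2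
          have hx2 : x ^ 2 = η ^ 2 := by nlinarith
          have hx3 : x = η := by nlinarith
          rcases List.mem_cons.1 hc with rfl | hc
          · exact hx3
          · exact ih' (fun c hc => h1 c (by simp [hc])) (by nlinarith) c hc
      have hs' : (l.map (fun c => c ^ 2)).sum = l.length * η ^ 2 := by rw [hs, hn]
      have haη : η < a := by
        by_contra h
        push Not at h
        exact hc0ne (havg l (fun c hc => ⟨(hM c hc).1, (hmax c hc).trans h⟩) hs' c0 hc0)
      have hbη : b < η := by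
        by_contra h
        push Not at h
        exact hc0ne (havg2 l (fun c hc => h.trans (hmin c hc)) hs' c0 hc0)
      have hb' : b ∈ l.erase a := (List.mem_erase_of_ne (by linarith)).2 hb
      set r := (l.erase a).erase b with hr
      have p1 : l.Perm (a :: l.erase a) := List.perm_cons_erase ha
      have p2 : (l.erase a).Perm (b :: r) := List.perm_cons_erase hb'
      have p : l.Perm (a :: b :: r) := p1.trans (p2.cons a)
      have hlen : r.length + 2 = n := by
        have := p.length_eq
        simp only [List.length_cons] at this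
        omega
      have hrmem : ∀ c ∈ r, c ∈ l := fun c hc => List.mem_of_mem_erase (List.mem_of_mem_erase hc)
      have hsq : a ^ 2 + b ^ 2 + (r.map (fun c => c ^ 2)).sum = n * η ^ 2 := by
        rw [← hs, sumsq_perm p]
        simp only [List.map_cons, List.sum_cons]
        ring
      have h1 := hstep a b r hlen (hM b hb).1 hbη haη (hM a ha).2
        (fun c hc => ⟨hmin c (hrmem c hc), hmax c (hrmem c hc)⟩) hsq
      have e1 : Ex l w 0 = T a (T b (Ex r w)) 0 := by
        rw [Ex_perm p hw]; rfl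
      rw [e1]
      refine h1.trans ?_
      set b' := √(a ^ 2 + b ^ 2 - η ^ 2) with hb'd
      have hpos : 0 ≤ a ^ 2 + b ^ 2 - η ^ 2 := by nlinarith [sq_nonneg b]
      have hb'sq : b' ^ 2 = a ^ 2 + b ^ 2 - η ^ 2 := Real.sq_sqrt hpos
      have hb'0 : 0 ≤ b' := Real.sqrt_nonneg _
      have e2 : T η (T b' (Ex r w)) 0 = Ex (η :: b' :: r) w 0 := rfl
      rw [e2]
      apply ih
      · -- fewer entries different from η
        have c1 : (l.filter (fun c => c ≠ η)).length
            = ((a :: b :: r).filter (fun c => c ≠ η)).length := (p.filter _).length_eq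
        have c2 : ((a :: b :: r).filter (fun c => c ≠ η)).length
            = (r.filter (fun c => c ≠ η)).length + 2 := by
          rw [List.filter_cons_of_pos (by simpa using haη.ne'),
            List.filter_cons_of_pos (by simpa using hbη.ne)]
          simp
        have c3 : ((η :: b' :: r).filter (fun c => c ≠ η)).length
            ≤ (r.filter (fun c => c ≠ η)).length + 1 := by
          rw [List.filter_cons_of_neg (by simp)]
          by_cases hbb : b' = η
          · rw [List.filter_cons_of_neg (by simp [hbb])]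
            omega
          · rw [List.filter_cons_of_pos (by simpa using hbb)]
            simp
        omega
      · simp only [List.length_cons]
        omega
      · intro c hc
        rcases List.mem_cons.1 hc with rfl | hc
        · exact ⟨hη.le, haη.le.trans (hM a ha).2⟩
        rcases List.mem_cons.1 hc with rfl | hc
        · refine ⟨hb'0, ?_⟩
          have : b' ≤ a := by
            rw [← Real.sqrt_sq (hη.trans haη).le]
            apply Real.sqrt_le_sqrt
            nlinarith [(hM b hb).1]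
          exact this.trans (hM a ha).2
        · exact hM c (hrmem c hc)
      · simp only [List.map_cons, List.sum_cons]
        rw [hb'sq]
        linarith

/-! ### (S3) assembling `IneqN` -/

theorem sum_replicate (n : ℕ) (η : ℝ) : (List.replicate n η).sum = n * η := by
  simp

/-- Reduction of `IneqN` to the one-step inequality for the `C²` extension with `R = nη`. -/
theorem ineqN_of_step {n : ℕ} {M η₀ : ℝ} (hn : 4 ≤ n) (h0 : 0 < η₀) (h1 : η₀ < 1)
    (hstep : ∀ η, η₀ < η → η < 1 → ∀ (a b : ℝ) (l : List ℝ), l.length + 2 = n → 0 ≤ b → b < η →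
      η < a → a ≤ M → (∀ c ∈ l, b ≤ c ∧ c ≤ a) →
      a ^ 2 + b ^ 2 + (l.map (fun c => c ^ 2)).sum = n * η ^ 2 → a + b + l.sum ≤ n * η →
      T a (T b (Ex l (w0 n (n * η)))) 0 ≤
        T η (T (√(a ^ 2 + b ^ 2 - η ^ 2)) (Ex l (w0 n (n * η)))) 0) : IneqN n M := by
  refine ⟨η₀, h0, h1, ?_⟩
  intro η hη0 hη1 l hl hM hs
  have hη : 0 < η := h0.trans hη0
  have hnpos : (0:ℝ) < n := by
    have : (4:ℝ) ≤ n := by exact_mod_cast hn
    linarith
  have hR0 : 0 ≤ n * η := by positivity
  have hRn : n * η < n := by nlinarith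
  have hwc : Continuous (w0 n (n * η)) := w0_continuous (by omega) hR0 hRn
  have hsum : l.sum ≤ n * η := by
    have := sum_le_of_sq (l := l) hη.le (by rw [hs, hl])
    rwa [hl] at this
  have e1 : Ex l (V n) 0 = Ex l (w0 n (n * η)) 0 := by
    apply Ex_congr (fun c hc => (hM c hc).1)
    intro y hy
    rw [sub_zero] at hy
    exact (w0_eq hn hR0 hRn (hy.trans hsum)).symm
  have e2 : Ex (List.replicate n η) (V n) 0 = Ex (List.replicate n η) (w0 n (n * η)) 0 := by
    apply Ex_congr (fun c hc => by rw [List.eq_of_mem_replicate hc]; exact hη.le)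
    intro y hy
    rw [sub_zero, sum_replicate] at hy
    exact (w0_eq hn hR0 hRn hy).symm
  rw [e1, e2]
  refine finite_steps hwc hη ?_ l hl hM hs
  intro a b r hlen hb0 hbη haη haM hr hsq
  refine hstep η hη0 hη1 a b r hlen hb0 hbη haη haM hr hsq ?_
  have := sum_le_of_sq (l := a :: b :: r) hη.le (by
    simp only [List.map_cons, List.sum_cons, List.length_cons]
    rw [← hlen] at hsq
    push_cast at hsq ⊢
    linarith)
  simp only [List.sum_cons, List.length_cons] at this
  rw [← hlen]
  push_cast at this ⊢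
  linarith

/-! ### (S4) one step from monotonicity -/

/-- The derivative of an even function vanishes at `0`. -/
theorem deriv_even_zero {χ : ℝ → ℝ} {d : ℝ} (he : ∀ x, χ (-x) = χ x) (hd : HasDerivAt χ d 0) :
    d = 0 := by
  have h1 : HasDerivAt (fun x => χ (-x)) (-d) 0 := by
    have h2 : HasDerivAt χ d (-0) := by rwa [neg_zero]
    have := h2.scomp (0:ℝ) (hasDerivAt_neg (0:ℝ))
    simpa [Function.comp_def] using this
  have h3 : (fun x => χ (-x)) = χ := by funext x; exact he x
  rw [h3] at h1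
  have := hd.unique h1
  linarith

/-- One rotation step `(a,b) → (η, √(a²+b²-η²))` for a function `χ` with `χ'(x)/x` nondecreasing. -/
theorem step_of_div_mono {χ χ1 : ℝ → ℝ} {X a b η : ℝ} (hχ : Continuous χ)
    (he : ∀ x, χ (-x) = χ x) (hd : ∀ x ∈ Ioo 0 X, HasDerivAt χ (χ1 x) x)
    (hm : MonotoneOn (fun x => χ1 x / x) (Ioo 0 X)) (hb : 0 ≤ b) (hbη : b < η) (hηa : η < a)
    (hX : η + √(a ^ 2 + b ^ 2 - η ^ 2) ≤ X) :
    T a (T b χ) 0 ≤ T η (T (√(a ^ 2 + b ^ 2 - η ^ 2)) χ) 0 := by
  have hη : 0 < η := hb.trans_lt hbη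
  have ha : 0 < a := hη.trans hηa
  set b' := √(a ^ 2 + b ^ 2 - η ^ 2) with hb'd
  have hb'0 : 0 ≤ b' := Real.sqrt_nonneg _
  have hpos : 0 ≤ a ^ 2 + b ^ 2 - η ^ 2 := by nlinarith [sq_nonneg b]
  have hb'sq : b' ^ 2 = a ^ 2 + b ^ 2 - η ^ 2 := Real.sq_sqrt hpos
  have hX0 : 0 ≤ X := by linarith
  apply step hχ he (convexOn_sqrt hX0 hχ hd hm) ha.le hb hη.le hb'0
  · rw [hb'sq]; ring
  · rw [← abs_of_nonneg (mul_nonneg ha.le hb), ← abs_of_nonneg (mul_nonneg hη.le hb'0)]
    apply sq_le_sq.1
    rw [mul_pow, mul_pow, hb'sq]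
    nlinarith [mul_nonneg (by nlinarith : 0 ≤ a ^ 2 - η ^ 2) (by nlinarith : 0 ≤ η ^ 2 - b ^ 2)]
  · have : 0 ≤ η + b' := by positivity
    gcongr

/-- One rotation step for `Ex l (w0 n R)` when `Ex l (w2 n R)` is nondecreasing on `[0,X]`. -/
theorem step_of_Ex_mono {n : ℕ} {R X a b η : ℝ} {l : List ℝ} (hn : 4 ≤ n) (h0 : 0 ≤ R)
    (hR : R < n) (hm : MonotoneOn (Ex l (w2 n R)) (Icc 0 X)) (hb : 0 ≤ b) (hbη : b < η)
    (hηa : η < a) (hX : η + √(a ^ 2 + b ^ 2 - η ^ 2) ≤ X) :
    T a (T b (Ex l (w0 n R))) 0 ≤ T η (T (√(a ^ 2 + b ^ 2 - η ^ 2)) (Ex l (w0 n R))) 0 := by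
  have he := Ex_even l (w0_even hn h0)
  have hd0 := Ex_hasDerivAt l (w0_hasDerivAt (by omega) h0 hR)
    (w1_continuous (by omega) h0 hR)
  have hd1 := Ex_hasDerivAt l (w1_hasDerivAt (by omega) h0 hR)
    (w2_continuous (by omega) h0 hR)
  exact step_of_div_mono (Ex_continuous l (w0_continuous (by omega) h0 hR)) he
    (fun x _ => hd0 x) (avg_mono (deriv_even_zero he (hd0 0)) hd1 hm) hb hbη hηa hX

/-- the sum of the weights after a step -/
theorem step_sum_le {n : ℕ} {a b η : ℝ} {l : List ℝ} (hlen : l.length + 2 = n) (hb : 0 ≤ b)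
    (hbη : b < η) (hηa : η < a)
    (hsq : a ^ 2 + b ^ 2 + (l.map (fun c => c ^ 2)).sum = n * η ^ 2) :
    η + √(a ^ 2 + b ^ 2 - η ^ 2) ≤ n * η - l.sum := by
  have hη : 0 < η := hb.trans_lt hbη
  have hpos : 0 ≤ a ^ 2 + b ^ 2 - η ^ 2 := by nlinarith [sq_nonneg b]
  have := sum_le_of_sq (l := η :: √(a ^ 2 + b ^ 2 - η ^ 2) :: l) hη.le (by
    simp only [List.map_cons, List.sum_cons, List.length_cons, Real.sq_sqrt hpos]
    rw [← hlen] at hsq
    push_cast at hsq ⊢
    linarith)
  simp only [List.sum_cons, List.length_cons] at this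
  rw [← hlen]
  push_cast at this ⊢
  linarith

/-- `V2 n` nondecreasing on `[0,n)` gives the cross-entropy inequality for `n` weights. -/
theorem ineqN_of_mono {n : ℕ} (M : ℝ) (hn : 4 ≤ n) (hm : MonotoneOn (V2 n) (Ico 0 (n:ℝ))) :
    IneqN n M := by
  apply ineqN_of_step (η₀ := 1 / 2) hn (by norm_num) (by norm_num)
  intro η hη0 hη1 a b l hlen hb hbη hηa haM hl hsq hsum
  have hη : 0 < η := by linarith
  have hnpos : (0:ℝ) < n := by
    have : (4:ℝ) ≤ n := by exact_mod_cast hn
    linarith
  have hR0 : 0 ≤ n * η := by positivity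
  have hRn : n * η < n := by nlinarith
  apply step_of_Ex_mono (X := n * η - l.sum) hn hR0 hRn _ hb hbη hηa
    (step_sum_le hlen hb hbη hηa hsq)
  apply Ex_monotoneOn (fun c hc => hb.trans (hl c hc).1) (w2_continuous (by omega) hR0 hRn)
    (w2_even hn hR0)
  rw [sub_add_cancel]
  intro x hx y hy hxy
  unfold w2
  rw [cl_eq (abs_le.2 ⟨by linarith [hx.1], hx.2⟩), cl_eq (abs_le.2 ⟨by linarith [hy.1], hy.2⟩)]
  exact hm ⟨hx.1, hx.2.trans_lt hRn⟩ ⟨hy.1, hy.2.trans_lt hRn⟩ hxy

end Pool.Agent.Lib.MP391fb1
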