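import Pool.Agent.Lib.MP_391fb1_pr.Fin0

/-!
# MP_391fb1_pr: the case of two weights
-/

namespace Pool.Agent.Lib.MP391fb1

open MeasureTheory Set Filter

/-- the trapezoidal density of `aU + bV` -/
noncomputable def trap (a b x : ℝ) : ℝ := min (1 / (2 * a)) (max (a + b - |x|) 0 / (4 * a * b))

theorem trap_continuous (a b : ℝ) : Continuous (trap a b) := by
  unfold trap
  fun_prop

theorem trap_nonneg {a b : ℝ} (ha : 0 < a) (hb : 0 < b) (x : ℝ) : 0 ≤ trap a b x := by
  unfold trap
  apply le_min (by positivity)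
  positivity

theorem trap_out {a b : ℝ} (ha : 0 < a) (hb : 0 < b) {x : ℝ} (hx : a + b ≤ |x|) : trap a b x = 0 := by
  unfold trap
  rw [max_eq_right (by linarith), zero_div, min_eq_right (by positivity)]

theorem trap_mid {a b : ℝ} (ha : 0 < a) (hb : 0 < b) {x : ℝ} (hx : |x| ≤ a - b) :
    trap a b x = 1 / (2 * a) := by
  unfold trap
  rw [max_eq_left (by linarith), min_eq_left]
  rw [div_le_div_iff₀ (by positivity) (by positivity)]
  nlinarith [mul_pos ha hb]

theorem trap_ramp {a b : ℝ} (ha : 0 < a) (hb : 0 < b) {x : ℝ} (hx : a - b ≤ |x|) (hx' : |x| ≤ a + b) :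
    trap a b x = (a + b - |x|) / (4 * a * b) := by
  unfold trap
  rw [max_eq_left (by linarith), min_eq_right]
  rw [div_le_div_iff₀ (by positivity) (by positivity)]
  nlinarith [mul_pos ha hb]

theorem split3 {a b : ℝ} {F : ℝ → ℝ} (hF : Continuous F) :
    ∫ x in (-(a + b))..(a + b), F x = (∫ x in (-(a + b))..(-(a - b)), F x)
      + (∫ x in (-(a - b))..(a - b), F x) + ∫ x in (a - b)..(a + b), F x := by
  rw [intervalIntegral.integral_add_adjacent_intervals (hF.intervalIntegrable _ _)
    (hF.intervalIntegrable _ _), intervalIntegral.integral_add_adjacent_intervals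
    (hF.intervalIntegrable _ _) (hF.intervalIntegrable _ _)]

theorem trap_law {a b : ℝ} (ha : 0 < a) (hb : 0 < b) (hba : b ≤ a) {φ : ℝ → ℝ} (hφ : Continuous φ) :
    T a (T b φ) 0 = ∫ x in (-(a + b))..(a + b), φ x * trap a b x := by
  set F1 : ℝ → ℝ := fun x => ∫ y in (0:ℝ)..x, φ y with hF1d
  have h1 : ∀ x, HasDerivAt F1 (φ x) x := fun x => hasDerivAt_primitive hφ 0 x
  have hF1 : Continuous F1 := continuous_iff_continuousAt.2 fun y => (h1 y).continuousAt
  set F2 : ℝ → ℝ := fun x => ∫ y in (0:ℝ)..x, F1 y with hF2d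
  have h2 : ∀ x, HasDerivAt F2 (F1 x) x := fun x => hasDerivAt_primitive hF1 0 x
  rw [TT_eq ha.ne' hb.ne' hφ h1 h2]
  have htc := trap_continuous a b
  rw [split3 (by fun_prop)]
  have p1 : ∫ x in (-(a + b))..(-(a - b)), φ x * trap a b x
      = ∫ x in (-(a + b))..(-(a - b)), φ x * ((x + (a + b)) / (4 * a * b)) := by
    apply intervalIntegral.integral_congr
    intro x hx
    rw [uIcc_of_le (by linarith)] at hx
    simp only
    have hxn : x ≤ 0 := by linarith [hx.2]
    rw [trap_ramp ha hb (by rw [abs_of_nonpos hxn]; linarith [hx.2])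
      (by rw [abs_of_nonpos hxn]; linarith [hx.1]), abs_of_nonpos hxn]
    ring
  have p2 : ∫ x in (-(a - b))..(a - b), φ x * trap a b x
      = ∫ x in (-(a - b))..(a - b), φ x * (1 / (2 * a)) := by
    apply intervalIntegral.integral_congr
    intro x hx
    rw [uIcc_of_le (by linarith)] at hx
    simp only
    rw [trap_mid ha hb (abs_le.2 hx)]
  have p3 : ∫ x in (a - b)..(a + b), φ x * trap a b x
      = ∫ x in (a - b)..(a + b), φ x * ((a + b - x) / (4 * a * b)) := by
    apply intervalIntegral.integral_congr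
    intro x hx
    rw [uIcc_of_le (by linarith)] at hx
    simp only
    have hxn : 0 ≤ x := by linarith [hx.1]
    rw [trap_ramp ha hb (by rw [abs_of_nonneg hxn]; linarith [hx.1])
      (by rw [abs_of_nonneg hxn]; linarith [hx.2]), abs_of_nonneg hxn]
  rw [p1, p2, p3]
  have d1 : ∀ x, HasDerivAt (fun x => F1 x * ((x + (a + b)) / (4 * a * b)) - F2 x / (4 * a * b))
      (φ x * ((x + (a + b)) / (4 * a * b))) x := by
    intro x
    have hl : HasDerivAt (fun x : ℝ => (x + (a + b)) / (4 * a * b)) (1 / (4 * a * b)) x :=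
      ((hasDerivAt_id x).add_const (a + b)).div_const _
    refine (((h1 x).mul hl).sub ((h2 x).div_const _)).congr_deriv ?_
    ring
  have d3 : ∀ x, HasDerivAt (fun x => F1 x * ((a + b - x) / (4 * a * b)) + F2 x / (4 * a * b))
      (φ x * ((a + b - x) / (4 * a * b))) x := by
    intro x
    have hl : HasDerivAt (fun x : ℝ => (a + b - x) / (4 * a * b)) (-1 / (4 * a * b)) x :=
      ((hasDerivAt_id x).const_sub (a + b)).div_const _
    refine (((h1 x).mul hl).add ((h2 x).div_const _)).congr_deriv ?_
    ring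
  rw [intervalIntegral.integral_eq_sub_of_hasDerivAt (fun x _ => d1 x)
    (Continuous.intervalIntegrable (by fun_prop) _ _),
    intervalIntegral.integral_mul_const,
    intervalIntegral.integral_eq_sub_of_hasDerivAt (fun x _ => h1 x) (hφ.intervalIntegrable _ _),
    intervalIntegral.integral_eq_sub_of_hasDerivAt (fun x _ => d3 x)
    (Continuous.intervalIntegrable (by fun_prop) _ _)]
  have q1 : F2 (b - a) = F2 (-(a - b)) := by congr 1; ring
  have q2 : F2 (-a - b) = F2 (-(a + b)) := by congr 1; ring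
  rw [q1, q2]
  field_simp
  ring

theorem integral_negMulLog {c : ℝ} (hc : 0 ≤ c) :
    ∫ t in (0:ℝ)..c, Real.negMulLog t = c ^ 2 / 4 - c / 2 * (c * Real.log c) := by
  have hcont : Continuous fun t : ℝ => t ^ 2 / 4 - t / 2 * (t * Real.log t) := by
    have := Real.continuous_mul_log
    fun_prop
  have hd : ∀ t ∈ Ioo (0:ℝ) c, HasDerivAt (fun t : ℝ => t ^ 2 / 4 - t / 2 * (t * Real.log t))
      (Real.negMulLog t) t := by
    intro t ht
    have ht0 : t ≠ 0 := ht.1.ne'
    have h1 : HasDerivAt (fun t : ℝ => t ^ 2 / 4) (2 * t / 4) t := by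
      simpa using ((hasDerivAt_id t).pow 2).div_const 4
    have h2 : HasDerivAt (fun t : ℝ => t / 2) (1 / 2) t := (hasDerivAt_id t).div_const 2
    have h3 := Real.hasDerivAt_mul_log ht0
    refine (h1.sub (h2.mul h3)).congr_deriv ?_
    rw [Real.negMulLog]
    ring
  rw [intervalIntegral.integral_eq_sub_of_hasDerivAt_of_le hc hcont.continuousOn hd
    (Real.continuous_negMulLog.intervalIntegrable _ _)]
  simp

theorem Hent_two {a b : ℝ} (ha : 0 < a) (hb : 0 < b) (hba : b ≤ a) {μ : Measure ℝ}
    [IsFiniteMeasure μ] (h : ∀ φ : ℝ → ℝ, Continuous φ → ∫ x, φ x ∂μ = T a (T b φ) 0) :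
    Hent μ = Real.log (2 * a) + b / (2 * a) := by
  rw [Hent_of_density (g := trap a b) (R := a + b) (by positivity) (trap_continuous a b)
    (trap_nonneg ha hb) (fun x hx => trap_out ha hb hx)
    (fun φ hφ => by rw [h φ hφ, trap_law ha hb hba hφ])]
  have hc : Continuous fun x => Real.negMulLog (trap a b x) :=
    Real.continuous_negMulLog.comp (trap_continuous a b)
  rw [split3 hc]
  have hK : (0:ℝ) < 1 / (4 * a * b) := by positivity
  have hv : Real.negMulLog (1 / (2 * a)) = 1 / (2 * a) * Real.log (2 * a) := by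
    rw [Real.negMulLog, one_div, Real.log_inv]; ring
  have hI := integral_negMulLog (c := 1 / (2 * a)) (by positivity)
  have hl : Real.log (1 / (2 * a)) = - Real.log (2 * a) := by rw [one_div, Real.log_inv]
  have p1 : ∫ x in (-(a + b))..(-(a - b)), Real.negMulLog (trap a b x)
      = b / (4 * a) + b / (2 * a) * Real.log (2 * a) := by
    have e : ∫ x in (-(a + b))..(-(a - b)), Real.negMulLog (trap a b x)
      = ∫ x in (-(a + b))..(-(a - b)), Real.negMulLog (1 / (4 * a * b) * x + (a + b) / (4 * a * b)) := by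
      apply intervalIntegral.integral_congr
      intro x hx
      rw [uIcc_of_le (by linarith)] at hx
      simp only
      have hxn : x ≤ 0 := by linarith [hx.2]
      rw [trap_ramp ha hb (by rw [abs_of_nonpos hxn]; linarith [hx.2])
        (by rw [abs_of_nonpos hxn]; linarith [hx.1]), abs_of_nonpos hxn]
      congr 1
      ring
    rw [e, intervalIntegral.integral_comp_mul_add _ hK.ne']
    have e1 : 1 / (4 * a * b) * -(a + b) + (a + b) / (4 * a * b) = 0 := by field_simp; ring
    have e2 : 1 / (4 * a * b) * -(a - b) + (a + b) / (4 * a * b) = 1 / (2 * a) := by field_simp; ring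
    rw [e1, e2, hI, hl, smul_eq_mul]
    field_simp
    ring
  have p2 : ∫ x in (-(a - b))..(a - b), Real.negMulLog (trap a b x)
      = (a - b) / a * Real.log (2 * a) := by
    have e : ∫ x in (-(a - b))..(a - b), Real.negMulLog (trap a b x)
      = ∫ x in (-(a - b))..(a - b), 1 / (2 * a) * Real.log (2 * a) := by
      apply intervalIntegral.integral_congr
      intro x hx
      rw [uIcc_of_le (by linarith)] at hx
      simp only
      rw [trap_mid ha hb (abs_le.2 hx), hv]
    rw [e, intervalIntegral.integral_const, smul_eq_mul]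
    field_simp
    ring
  have p3 : ∫ x in (a - b)..(a + b), Real.negMulLog (trap a b x)
      = b / (4 * a) + b / (2 * a) * Real.log (2 * a) := by
    have e : ∫ x in (a - b)..(a + b), Real.negMulLog (trap a b x)
      = ∫ x in (a - b)..(a + b), Real.negMulLog (-(1 / (4 * a * b)) * x + (a + b) / (4 * a * b)) := by
      apply intervalIntegral.integral_congr
      intro x hx
      rw [uIcc_of_le (by linarith)] at hx
      simp only
      have hxn : 0 ≤ x := by linarith [hx.1]
      rw [trap_ramp ha hb (by rw [abs_of_nonneg hxn]; linarith [hx.1])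
        (by rw [abs_of_nonneg hxn]; linarith [hx.2]), abs_of_nonneg hxn]
      congr 1
      ring
    rw [e, intervalIntegral.integral_comp_mul_add _ (neg_ne_zero.2 hK.ne')]
    have e1 : -(1 / (4 * a * b)) * (a + b) + (a + b) / (4 * a * b) = 0 := by field_simp; ring
    have e2 : -(1 / (4 * a * b)) * (a - b) + (a + b) / (4 * a * b) = 1 / (2 * a) := by field_simp; ring
    rw [e1, e2, intervalIntegral.integral_symm, hI, hl, smul_eq_mul]
    field_simp
    ring
  rw [p1, p2, p3]
  field_simp
  ring

/-- `log (2a) + b/(2a)` is maximal at `a = b` on the unit circle -/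
theorem two_ineq {a b : ℝ} (ha : 0 < a) (hb : 0 ≤ b) (hba : b ≤ a) (hab : a ^ 2 + b ^ 2 = 1) :
    Real.log (2 * a) + b / (2 * a) ≤ Real.log 2 / 2 + 1 / 2 := by
  -- with t = b / a: - log (1 + t²) / 2 + t / 2 ≤ - log 2 / 2 + 1 / 2
  set t := b / a with ht
  have ht0 : 0 ≤ t := div_nonneg hb ha.le
  have ht1 : t ≤ 1 := (div_le_one ha).2 hba
  have hat : a ^ 2 * (1 + t ^ 2) = 1 := by
    rw [ht]; field_simp; exact hab
  have hla : 2 * Real.log a = - Real.log (1 + t ^ 2) := by
    have h1 : Real.log (a ^ 2 * (1 + t ^ 2)) = 0 := by rw [hat, Real.log_one]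
    rw [Real.log_mul (by positivity) (by positivity), Real.log_pow] at h1
    push_cast at h1
    linarith
  have hmono : MonotoneOn (fun t : ℝ => t - Real.log (1 + t ^ 2)) (Icc 0 1) := by
    have hd : ∀ x : ℝ, HasDerivAt (fun t : ℝ => t - Real.log (1 + t ^ 2))
        (1 - (2 * x) / (1 + x ^ 2)) x := by
      intro x
      have h1 : HasDerivAt (fun t : ℝ => 1 + t ^ 2) (2 * x) x := by
        simpa using ((hasDerivAt_id x).pow 2).const_add 1
      exact (hasDerivAt_id x).sub (h1.log (by positivity))
    apply monotoneOn_of_deriv_nonneg (convex_Icc _ _)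
    · exact fun x _ => (hd x).continuousAt.continuousWithinAt
    · exact fun x _ => (hd x).differentiableAt.differentiableWithinAt
    · intro x _
      rw [(hd x).deriv, sub_nonneg, div_le_one (by positivity)]
      nlinarith [sq_nonneg (x - 1)]
  have h1 := hmono ⟨ht0, ht1⟩ ⟨zero_le_one, le_rfl⟩ ht1
  simp only at h1
  have e : (1:ℝ) + 1 ^ 2 = 2 := by norm_num
  rw [e] at h1
  have e2 : b / (2 * a) = t / 2 := by rw [ht]; field_simp
  rw [Real.log_mul (by norm_num) ha.ne', e2]
  linarith

end Pool.Agent.Lib.MP391fb1
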