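import Pool.Agent.Lib.MP_391fb1_pr.Fin1
import Pool.Agent.Lib.MP_391fb1_pr.Two
import Pool.Agent.Lib.MP_391fb1_pr.Np
import Pool.Agent.Lib.MP_391fb1_pr.Steps

/-!
# MP_391fb1_pr: assembly
-/

namespace Pool.Agent.Lib.MP391fb1

open MeasureTheory ProbabilityTheory Set Filter
open scoped ENNReal

theorem ineq_ge7 {n : ℕ} (hn : 7 ≤ n) (M : ℝ) : IneqN n M :=
  ineqN_of_mono M (by omega) (V2_monotoneOn hn)

theorem rhs2 : - Real.log √((2:ℕ):ℝ) + Hn 2 = Real.log 2 / 2 + 1 / 2 := by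
  rw [← Hent_replicate_L 2 le_rfl]
  have h2 : 0 < √((2:ℕ):ℝ) := Real.sqrt_pos.2 (by norm_num)
  have hs : √((2:ℕ):ℝ) * √((2:ℕ):ℝ) = 2 := by
    rw [Real.mul_self_sqrt (by norm_num)]; norm_num
  set c : ℝ := (√((2:ℕ):ℝ))⁻¹ with hc
  have hc0 : 0 < c := by positivity
  rw [Hent_two hc0 hc0 le_rfl]
  · have e1 : 2 * c = √((2:ℕ):ℝ) := by
      rw [hc, ← hs]; field_simp
    have e2 : c / (2 * c) = 1 / 2 := by field_simp
    rw [e2, e1, Real.log_sqrt (by norm_num)]
    push_cast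
    ring
  · intro φ hφ
    rw [L_ex _ hφ]
    unfold absl
    rw [List.ofFn_const, abs_of_nonneg hc0.le]
    rfl

theorem case2 {d : Fin 2 → ℝ} (hd : ∑ i, d i ^ 2 = 1) : Hent (L d) ≤ - Real.log √((2:ℕ):ℝ) + Hn 2 := by
  rw [rhs2]
  have main : ∀ a b : ℝ, 0 ≤ b → b ≤ a → a ^ 2 + b ^ 2 = 1 → (absl d).Perm [a, b] →
      Hent (L d) ≤ Real.log 2 / 2 + 1 / 2 := by
    intro a b hb hba hab hp
    have ha : 0 < a := by
      by_contra hcon
      have ha0 : a = 0 := le_antisymm (not_lt.1 hcon) (hb.trans hba)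
      have hb0 : b = 0 := le_antisymm (ha0 ▸ hba) hb
      rw [ha0, hb0] at hab
      norm_num at hab
    rcases hb.eq_or_lt with hb0 | hb0
    · -- b = 0
      have h1 := L_gibbs d hd (fun _ => 1 / (2 * a)) continuous_const (fun _ => by positivity) (by
        rw [intervalIntegral.integral_const, hp.sum_eq, ← hb0, smul_eq_mul]
        simp only [List.sum_cons, List.sum_nil]
        apply le_of_eq
        field_simp
        ring)
      rw [Ex_const] at h1
      simp only at h1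
      have h2 := two_ineq ha hb hba hab
      rw [← hb0, zero_div, add_zero] at h2
      refine h1.trans (le_trans (le_of_eq ?_) h2)
      rw [one_div, Real.log_inv, neg_neg]
    · rw [Hent_two ha hb0 hba]
      · exact two_ineq ha hb hba hab
      · intro φ hφ
        rw [L_ex _ hφ, Ex_perm hp hφ]
        rfl
  have hl : absl d = [ |d 0|, |d 1| ] := by
    unfold absl
    simp [List.ofFn_succ]
  have hs : |d 0| ^ 2 + |d 1| ^ 2 = 1 := by
    rw [sq_abs, sq_abs, ← hd, Fin.sum_univ_two]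
  rcases le_total |d 1| |d 0| with h | h
  · exact main _ _ (abs_nonneg _) h hs (by rw [hl])
  · exact main _ _ (abs_nonneg _) h (by linarith) (by rw [hl]; exact List.Perm.swap _ _ _)

theorem assembly (h4 : IneqN 4 (17 / 10)) (h5 : IneqN 5 5) (h6 : IneqN 6 6) {n : ℕ} {d : Fin n → ℝ}
    (hd : ∑ i, d i ^ 2 = 1) : Hent (L d) ≤ Hent (L (fun _ : Fin n => (√(n:ℝ))⁻¹)) := by
  rcases Nat.lt_or_ge n 2 with hn | hn
  · have : n = 0 ∨ n = 1 := by omega
    rcases this with rfl | rfl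
    · simp at hd
    · apply le_of_eq
      rw [L_abs d, L_abs (fun _ : Fin 1 => (√((1:ℕ):ℝ))⁻¹)]
      congr 2
      funext i
      have hi : i = 0 := Subsingleton.elim _ _
      subst hi
      rw [Fin.sum_univ_one] at hd
      have h1 : |d 0| = 1 := by
        rw [← sq_abs] at hd
        have h0 := abs_nonneg (d 0)
        nlinarith
      rw [h1]
      simp
  · rw [Hent_replicate_L n hn]
    rcases Nat.lt_or_ge n 7 with h7 | h7
    · have : n = 2 ∨ n = 3 ∨ n = 4 ∨ n = 5 ∨ n = 6 := by omega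
      rcases this with rfl | rfl | rfl | rfl | rfl
      · exact case2 hd
      · exact case3 hd
      · exact case4 h4 hd
      · exact case_big (by norm_num) (by exact_mod_cast h5) hd
      · exact case_big (by norm_num) (by exact_mod_cast h6) hd
    · exact case_big hn (ineq_ge7 h7 n) hd

theorem final (h4 : IneqN 4 (17 / 10)) (h5 : IneqN 5 5) (h6 : IneqN 6 6) :
    ∀ (n : ℕ) (Ω : Type) [MeasurableSpace Ω] (P : Measure Ω) [IsProbabilityMeasure P]
      (U : Fin n → Ω → ℝ),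
      (∀ i, Measurable (U i)) →
      iIndepFun U P →
      (∀ i, MeasureTheory.pdf.IsUniform (U i) (Set.Icc (-1 : ℝ) 1) P volume) →
      ∀ d : Fin n → ℝ, ∑ i, d i ^ 2 = 1 →
        -(∫ x : ℝ, ((P.map (fun ω => ∑ i, d i * U i ω)).rnDeriv volume x).toReal *
            Real.log ((P.map (fun ω => ∑ i, d i * U i ω)).rnDeriv volume x).toReal)
          ≤ -(∫ x : ℝ, ((P.map (fun ω => (Real.sqrt n)⁻¹ * ∑ i, U i ω)).rnDeriv volume x).toReal *
            Real.log ((P.map (fun ω => (Real.sqrt n)⁻¹ * ∑ i, U i ω)).rnDeriv volume x).toReal) := by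
  intro n Ω _ P _ U hm hi hu d hd
  have e : (fun ω => (Real.sqrt n)⁻¹ * ∑ i, U i ω)
      = fun ω => ∑ i, (fun _ : Fin n => (Real.sqrt n)⁻¹) i * U i ω := by
    funext ω
    rw [Finset.mul_sum]
  rw [e, law_eq P U hm hi hu d, law_eq P U hm hi hu (fun _ : Fin n => (Real.sqrt n)⁻¹)]
  exact assembly h4 h5 h6 hd

end Pool.Agent.Lib.MP391fb1
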