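import Pool.Agent.Lib.MP_391fb1_pr.Defs

/-!
# MP_391fb1_pr: averaging operators, rotation inequality
-/

namespace Pool.Agent.Lib.MP391fb1

open MeasureTheory Set intervalIntegral

section Tbasic

theorem T_zero (φ : ℝ → ℝ) : T 0 φ = φ := by
  funext x
  simp [T]
  ring

theorem T_const (c k : ℝ) : T c (fun _ => k) = fun _ => k := by
  funext x
  simp [T]
  ring

theorem T_continuous (c : ℝ) {φ : ℝ → ℝ} (h : Continuous φ) : Continuous (T c φ) := by
  unfold T
  refine continuous_const.mul ?_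
  exact intervalIntegral.continuous_parametric_intervalIntegral_of_continuous'
    (f := fun x u => φ (x + c * u)) (by fun_prop) _ _

theorem T_eq_div {c : ℝ} (hc : c ≠ 0) (φ : ℝ → ℝ) (x : ℝ) :
    T c φ x = (1 / (2 * c)) * ∫ y in (x - c)..(x + c), φ y := by
  unfold T
  have := intervalIntegral.integral_comp_add_mul (a := (-1:ℝ)) (b := 1) φ hc x
  rw [this, smul_eq_mul]
  have e1 : x + c * (-1) = x - c := by ring
  have e2 : x + c * 1 = x + c := by ring
  rw [e1, e2]
  field_simp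

/-- explicit formula through an antiderivative -/
theorem T_eq_antideriv {c : ℝ} (hc : c ≠ 0) {φ F : ℝ → ℝ} (hφ : Continuous φ)
    (hF : ∀ x, HasDerivAt F (φ x) x) (x : ℝ) :
    T c φ x = (F (x + c) - F (x - c)) / (2 * c) := by
  rw [T_eq_div hc, intervalIntegral.integral_eq_sub_of_hasDerivAt (fun y _ => hF y)
    (hφ.intervalIntegrable _ _)]
  field_simp

theorem hasDerivAt_primitive {φ : ℝ → ℝ} (h : Continuous φ) (a x : ℝ) :
    HasDerivAt (fun y => ∫ z in a..y, φ z) (φ x) x :=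
  intervalIntegral.integral_hasDerivAt_right (h.intervalIntegrable _ _)
    (h.stronglyMeasurableAtFilter _ _) h.continuousAt

theorem T_hasDerivAt_of_primitive {c : ℝ} (hc : c ≠ 0) {φ : ℝ → ℝ} (h : Continuous φ) (x : ℝ) :
    HasDerivAt (T c φ) ((φ (x + c) - φ (x - c)) / (2 * c)) x := by
  have hF := fun x => hasDerivAt_primitive h 0 x
  have e : T c φ = fun x => ((∫ z in (0:ℝ)..(x + c), φ z) - ∫ z in (0:ℝ)..(x - c), φ z) / (2 * c) := by
    funext y
    exact T_eq_antideriv hc h hF y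
  rw [e]
  refine HasDerivAt.div_const (HasDerivAt.sub ?_ ?_) _
  · have := (hF (x + c)).comp_add_const x c
    simpa using this
  · have := (hF (x - c)).comp_sub_const x c
    simpa using this

theorem T_hasDerivAt (c : ℝ) {φ φ' : ℝ → ℝ} (h : ∀ x, HasDerivAt φ (φ' x) x)
    (h' : Continuous φ') (x : ℝ) : HasDerivAt (T c φ) (T c φ' x) x := by
  rcases eq_or_ne c 0 with hc | hc
  · subst hc
    rw [T_zero, T_zero]
    exact h x
  · have hφ : Continuous φ := continuous_iff_continuousAt.2 fun y => (h y).continuousAt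
    rw [T_eq_antideriv hc h' h]
    exact T_hasDerivAt_of_primitive hc hφ x

theorem T_even (c : ℝ) {φ : ℝ → ℝ} (h : ∀ x, φ (-x) = φ x) (x : ℝ) : T c φ (-x) = T c φ x := by
  unfold T
  congr 1
  have := intervalIntegral.integral_comp_neg (a := (-1:ℝ)) (b := 1) (fun u => φ (-x + c * u))
  rw [neg_neg] at this
  rw [← this]
  apply intervalIntegral.integral_congr
  intro u _
  show φ (-x + c * -u) = φ (x + c * u)
  rw [← h]
  congr 1
  ring

theorem T_add (c : ℝ) {φ ψ : ℝ → ℝ} (h : Continuous φ) (h' : Continuous ψ) :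
    T c (fun x => φ x + ψ x) = fun x => T c φ x + T c ψ x := by
  funext x
  unfold T
  rw [intervalIntegral.integral_add, mul_add]
  · exact (h.comp (by fun_prop : Continuous fun u : ℝ => x + c * u)).intervalIntegrable _ _
  · exact (h'.comp (by fun_prop : Continuous fun u : ℝ => x + c * u)).intervalIntegrable _ _

theorem T_sub (c : ℝ) {φ ψ : ℝ → ℝ} (h : Continuous φ) (h' : Continuous ψ) :
    T c (fun x => φ x - ψ x) = fun x => T c φ x - T c ψ x := by
  funext x
  unfold T
  rw [intervalIntegral.integral_sub, mul_sub]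
  · exact (h.comp (by fun_prop : Continuous fun u : ℝ => x + c * u)).intervalIntegrable _ _
  · exact (h'.comp (by fun_prop : Continuous fun u : ℝ => x + c * u)).intervalIntegrable _ _

theorem T_smul (c k : ℝ) (φ : ℝ → ℝ) : T c (fun x => k * φ x) = fun x => k * T c φ x := by
  funext x
  unfold T
  rw [intervalIntegral.integral_const_mul]
  ring

theorem T_comm (a b : ℝ) {φ : ℝ → ℝ} (h : Continuous φ) : T a (T b φ) = T b (T a φ) := by
  funext x
  unfold T
  rw [intervalIntegral.integral_const_mul, intervalIntegral.integral_const_mul]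
  congr 2
  rw [intervalIntegral.integral_of_le (by norm_num : (-1:ℝ) ≤ 1)]
  rw [intervalIntegral.integral_of_le (by norm_num : (-1:ℝ) ≤ 1)]
  simp_rw [intervalIntegral.integral_of_le (by norm_num : (-1:ℝ) ≤ 1)]
  rw [MeasureTheory.integral_integral_swap]
  · congr 1
    funext u
    congr 1
    funext v
    congr 1
    ring
  · have hc : Continuous (Function.uncurry fun u v : ℝ => φ (x + a * u + b * v)) := by
      unfold Function.uncurry
      fun_prop
    rw [Measure.prod_restrict]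
    exact (hc.continuousOn.integrableOn_compact (isCompact_Icc.prod isCompact_Icc)).mono_set
      (Set.prod_mono Ioc_subset_Icc_self Ioc_subset_Icc_self)

/-- `T c` only depends on values in a neighbourhood. -/
theorem T_congr {c : ℝ} (hc : 0 ≤ c) {φ ψ : ℝ → ℝ} {x : ℝ}
    (h : ∀ y, |y - x| ≤ c → φ y = ψ y) : T c φ x = T c ψ x := by
  unfold T
  congr 1
  apply intervalIntegral.integral_congr
  intro u hu
  rw [uIcc_of_le (by norm_num)] at hu
  apply h
  have : |u| ≤ 1 := abs_le.2 hu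
  calc |x + c * u - x| = c * |u| := by rw [add_sub_cancel_left, abs_mul, abs_of_nonneg hc]
    _ ≤ c * 1 := by gcongr
    _ = c := mul_one c

theorem T_mono {c : ℝ} (hc : 0 ≤ c) {φ ψ : ℝ → ℝ} (hφ : Continuous φ) (hψ : Continuous ψ) {x : ℝ}
    (h : ∀ y, |y - x| ≤ c → φ y ≤ ψ y) : T c φ x ≤ T c ψ x := by
  unfold T
  gcongr
  apply intervalIntegral.integral_mono_on (by norm_num)
  · exact (hφ.comp (by fun_prop : Continuous fun u : ℝ => x + c * u)).intervalIntegrable _ _
  · exact (hψ.comp (by fun_prop : Continuous fun u : ℝ => x + c * u)).intervalIntegrable _ _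
  intro u hu
  apply h
  have : |u| ≤ 1 := abs_le.2 hu
  calc |x + c * u - x| = c * |u| := by rw [add_sub_cancel_left, abs_mul, abs_of_nonneg hc]
    _ ≤ c * 1 := by gcongr
    _ = c := mul_one c

/-- `T c` preserves evenness and monotonicity on `[0,∞)`. -/
theorem T_monotoneOn {c : ℝ} (hc : 0 ≤ c) {g : ℝ → ℝ} (hg : Continuous g)
    (he : ∀ x, g (-x) = g x) {X : ℝ} (hm : MonotoneOn g (Icc 0 (X + c))) :
    MonotoneOn (T c g) (Icc 0 X) := by
  rcases hc.eq_or_lt with rfl | hc
  · rw [T_zero]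
    simpa using hm
  apply monotoneOn_of_deriv_nonneg (convex_Icc _ _) (T_continuous c hg).continuousOn
  · intro x _
    exact (T_hasDerivAt_of_primitive hc.ne' hg x).differentiableAt.differentiableWithinAt
  · intro x hx
    rw [interior_Icc] at hx
    rw [(T_hasDerivAt_of_primitive hc.ne' hg x).deriv]
    apply div_nonneg _ (by positivity)
    rw [sub_nonneg]
    have : g (x - c) = g |x - c| := by
      rcases abs_cases (x - c) with ⟨h, _⟩ | ⟨h, _⟩ <;> rw [h]
      rw [he]
    rw [this]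
    apply hm
    · refine ⟨abs_nonneg _, ?_⟩
      rw [abs_le]; constructor <;> linarith [hx.1, hx.2]
    · exact ⟨by linarith [hx.1], by linarith [hx.2]⟩
    · rw [abs_le]; constructor <;> linarith [hx.1, hx.2]

end Tbasic

section Exbasic

@[simp] theorem Ex_nil (φ : ℝ → ℝ) : Ex [] φ = φ := rfl
@[simp] theorem Ex_cons (c : ℝ) (l : List ℝ) (φ : ℝ → ℝ) : Ex (c :: l) φ = T c (Ex l φ) := rfl

theorem Ex_continuous (l : List ℝ) {φ : ℝ → ℝ} (h : Continuous φ) : Continuous (Ex l φ) := by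
  induction l with
  | nil => simpa using h
  | cons c l ih => simpa using T_continuous c ih

theorem Ex_hasDerivAt (l : List ℝ) {φ φ' : ℝ → ℝ} (h : ∀ x, HasDerivAt φ (φ' x) x)
    (h' : Continuous φ') (x : ℝ) : HasDerivAt (Ex l φ) (Ex l φ' x) x := by
  induction l generalizing x with
  | nil => simpa using h x
  | cons c l ih => simpa using T_hasDerivAt c ih (Ex_continuous l h') x

theorem Ex_even (l : List ℝ) {φ : ℝ → ℝ} (h : ∀ x, φ (-x) = φ x) (x : ℝ) :
    Ex l φ (-x) = Ex l φ x := by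
  induction l generalizing x with
  | nil => simpa using h x
  | cons c l ih => simpa using T_even c ih x

theorem Ex_add (l : List ℝ) {φ ψ : ℝ → ℝ} (h : Continuous φ) (h' : Continuous ψ) :
    Ex l (fun x => φ x + ψ x) = fun x => Ex l φ x + Ex l ψ x := by
  induction l with
  | nil => rfl
  | cons c l ih =>
    rw [Ex_cons, ih, T_add c (Ex_continuous l h) (Ex_continuous l h')]
    rfl

theorem Ex_sub (l : List ℝ) {φ ψ : ℝ → ℝ} (h : Continuous φ) (h' : Continuous ψ) :
    Ex l (fun x => φ x - ψ x) = fun x => Ex l φ x - Ex l ψ x := by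
  induction l with
  | nil => rfl
  | cons c l ih =>
    rw [Ex_cons, ih, T_sub c (Ex_continuous l h) (Ex_continuous l h')]
    rfl

theorem Ex_smul (l : List ℝ) (k : ℝ) (φ : ℝ → ℝ) :
    Ex l (fun x => k * φ x) = fun x => k * Ex l φ x := by
  induction l with
  | nil => rfl
  | cons c l ih =>
    rw [Ex_cons, ih, T_smul c]
    rfl

theorem Ex_const (l : List ℝ) (k : ℝ) : Ex l (fun _ => k) = fun _ => k := by
  induction l with
  | nil => rfl
  | cons c l ih => rw [Ex_cons, ih, T_const]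

theorem Ex_perm {l l' : List ℝ} (hl : l.Perm l') {φ : ℝ → ℝ} (h : Continuous φ) :
    Ex l φ = Ex l' φ := by
  induction hl with
  | nil => rfl
  | cons c _ ih => rw [Ex_cons, Ex_cons, ih]
  | swap a b l =>
    rw [Ex_cons, Ex_cons, Ex_cons, Ex_cons, T_comm _ _ (Ex_continuous l h)]
  | trans _ _ ih1 ih2 => rw [ih1, ih2]

/-- `Ex l φ x` only depends on `φ` on `[x - Σ c, x + Σ c]`. -/
theorem Ex_congr {l : List ℝ} (hl : ∀ c ∈ l, 0 ≤ c) {φ ψ : ℝ → ℝ} {x : ℝ}
    (h : ∀ y, |y - x| ≤ l.sum → φ y = ψ y) : Ex l φ x = Ex l ψ x := by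
  induction l generalizing x with
  | nil =>
    simp only [Ex_nil]
    exact h x (by simp)
  | cons c l ih =>
    simp only [Ex_cons]
    apply T_congr (hl c (by simp))
    intro y hy
    apply ih (fun c hc => hl c (by simp [hc]))
    intro z hz
    apply h
    rw [List.sum_cons]
    calc |z - x| ≤ |z - y| + |y - x| := abs_sub_le _ _ _
      _ ≤ l.sum + c := add_le_add hz hy
      _ = c + l.sum := add_comm _ _

theorem Ex_mono {l : List ℝ} (hl : ∀ c ∈ l, 0 ≤ c) {φ ψ : ℝ → ℝ} (hφ : Continuous φ)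
    (hψ : Continuous ψ) {x : ℝ}
    (h : ∀ y, |y - x| ≤ l.sum → φ y ≤ ψ y) : Ex l φ x ≤ Ex l ψ x := by
  induction l generalizing x with
  | nil =>
    simp only [Ex_nil]
    exact h x (by simp)
  | cons c l ih =>
    simp only [Ex_cons]
    apply T_mono (hl c (by simp)) (Ex_continuous l hφ) (Ex_continuous l hψ)
    intro y hy
    apply ih (fun c hc => hl c (by simp [hc]))
    intro z hz
    apply h
    rw [List.sum_cons]
    calc |z - x| ≤ |z - y| + |y - x| := abs_sub_le _ _ _
      _ ≤ l.sum + c := add_le_add hz hy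
      _ = c + l.sum := add_comm _ _

/-- `Ex l` preserves evenness and monotonicity on `[0,∞)`. -/
theorem Ex_monotoneOn {l : List ℝ} (hl : ∀ c ∈ l, 0 ≤ c) {g : ℝ → ℝ} (hg : Continuous g)
    (he : ∀ x, g (-x) = g x) {X : ℝ} (hm : MonotoneOn g (Icc 0 (X + l.sum))) :
    MonotoneOn (Ex l g) (Icc 0 X) := by
  induction l generalizing X with
  | nil => simpa using hm
  | cons c l ih =>
    simp only [Ex_cons]
    have hc := hl c (by simp)
    apply T_monotoneOn hc (Ex_continuous l hg) (Ex_even l he)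
    apply ih (fun c hc => hl c (by simp [hc]))
    rw [List.sum_cons, ← add_assoc] at hm
    exact hm

end Exbasic

section Step

/-- explicit formula of `T a (T b χ) 0` through a second antiderivative -/
theorem TT_eq {a b : ℝ} (ha : a ≠ 0) (hb : b ≠ 0) {χ F1 F2 : ℝ → ℝ} (hχ : Continuous χ)
    (h1 : ∀ x, HasDerivAt F1 (χ x) x) (h2 : ∀ x, HasDerivAt F2 (F1 x) x) :
    T a (T b χ) 0 = (F2 (a + b) - F2 (a - b) - F2 (b - a) + F2 (-a - b)) / (4 * a * b) := by
  have hF1 : Continuous F1 := continuous_iff_continuousAt.2 fun y => (h1 y).continuousAt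
  have e : T b χ = fun x => (F1 (x + b) - F1 (x - b)) / (2 * b) := by
    funext x; exact T_eq_antideriv hb hχ h1 x
  rw [e]
  have hG : ∀ x, HasDerivAt (fun x => (F2 (x + b) - F2 (x - b)) / (2 * b))
      ((F1 (x + b) - F1 (x - b)) / (2 * b)) x := by
    intro x
    refine HasDerivAt.div_const (HasDerivAt.sub ?_ ?_) _
    · simpa using (h2 (x + b)).comp_add_const x b
    · simpa using (h2 (x - b)).comp_sub_const x b
  rw [T_eq_antideriv ha (by fun_prop) hG]
  have e1 : 0 + a + b = a + b := by ring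
  have e2 : 0 + a - b = a - b := by ring
  have e3 : 0 - a + b = b - a := by ring
  have e4 : 0 - a - b = -a - b := by ring
  rw [e1, e2, e3, e4]
  field_simp
  ring

theorem T_at_zero {a : ℝ} (ha : a ≠ 0) {χ F1 : ℝ → ℝ} (hχ : Continuous χ)
    (h1 : ∀ x, HasDerivAt F1 (χ x) x) :
    T a χ 0 = (F1 a - F1 (-a)) / (2 * a) := by
  rw [T_eq_antideriv ha hχ h1]; simp

/-- `q s = E χ(√s U)` for even `χ` -/
noncomputable def qf (χ : ℝ → ℝ) (s : ℝ) : ℝ := ∫ t in (0:ℝ)..1, χ (t * √s)

theorem qf_continuous {χ : ℝ → ℝ} (h : Continuous χ) : Continuous (qf χ) := by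
  unfold qf
  exact intervalIntegral.continuous_parametric_intervalIntegral_of_continuous'
    (f := fun s t => χ (t * √s)) (by fun_prop) _ _

theorem qf_convexOn {χ : ℝ → ℝ} (h : Continuous χ) {S : ℝ}
    (hconv : ConvexOn ℝ (Icc 0 S) (fun s => χ (√s))) : ConvexOn ℝ (Icc 0 S) (qf χ) := by
  refine ⟨convex_Icc _ _, ?_⟩
  intro x hx y hy p q hp hq hpq
  simp only [smul_eq_mul]
  unfold qf
  rw [← intervalIntegral.integral_const_mul, ← intervalIntegral.integral_const_mul,
    ← intervalIntegral.integral_add]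
  rotate_left
  · exact (Continuous.intervalIntegrable (by fun_prop) _ _)
  · exact (Continuous.intervalIntegrable (by fun_prop) _ _)
  apply intervalIntegral.integral_mono_on (by norm_num)
  · exact (Continuous.intervalIntegrable (by fun_prop) _ _)
  · exact (Continuous.intervalIntegrable (by fun_prop) _ _)
  intro t ht
  have ht2 : 0 ≤ t ^ 2 ∧ t ^ 2 ≤ 1 := ⟨sq_nonneg t, by nlinarith [ht.1, ht.2]⟩
  have key : ∀ z, t * √z = √(t ^ 2 * z) := by
    intro z
    rw [Real.sqrt_mul (sq_nonneg t), Real.sqrt_sq ht.1]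
  rw [key, key, key]
  have e : t ^ 2 * (p * x + q * y) = p * (t ^ 2 * x) + q * (t ^ 2 * y) := by ring
  rw [e]
  have hx' : t ^ 2 * x ∈ Icc 0 S :=
    ⟨mul_nonneg ht2.1 hx.1, by nlinarith [hx.1, hx.2, ht2.2, ht2.1]⟩
  have hy' : t ^ 2 * y ∈ Icc 0 S :=
    ⟨mul_nonneg ht2.1 hy.1, by nlinarith [hy.1, hy.2, ht2.2, ht2.1]⟩
  simpa using hconv.2 hx' hy' hp hq hpq

theorem TT_polar_pos {χ : ℝ → ℝ} (hχ : Continuous χ) (he : ∀ x, χ (-x) = χ x) {a b : ℝ}
    (ha : 0 < a) (hb : 0 < b) :
    T a (T b χ) 0 = (1/2) * ∫ w in (-1:ℝ)..1, qf χ (a ^ 2 + b ^ 2 + 2 * a * b * w) := by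
  set F1 : ℝ → ℝ := fun x => ∫ y in (0:ℝ)..x, χ y with hF1d
  have h1 : ∀ x, HasDerivAt F1 (χ x) x := fun x => hasDerivAt_primitive hχ 0 x
  have hF1 : Continuous F1 := continuous_iff_continuousAt.2 fun y => (h1 y).continuousAt
  set F2 : ℝ → ℝ := fun x => ∫ y in (0:ℝ)..x, F1 y with hF2d
  have h2 : ∀ x, HasDerivAt F2 (F1 x) x := fun x => hasDerivAt_primitive hF1 0 x
  have hF2 : Continuous F2 := continuous_iff_continuousAt.2 fun y => (h2 y).continuousAt
  have odd1 : ∀ x, F1 (-x) = - F1 x := by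
    intro x
    simp only [hF1d]
    have := intervalIntegral.integral_comp_neg (a := (0:ℝ)) (b := x) χ
    rw [neg_zero] at this
    rw [intervalIntegral.integral_symm, ← this]
    congr 1
    apply intervalIntegral.integral_congr
    intro y _
    exact he y
  have even2 : ∀ x, F2 (-x) = F2 x := by
    intro x
    simp only [hF2d]
    have := intervalIntegral.integral_comp_neg (a := (0:ℝ)) (b := x) F1
    rw [neg_zero] at this
    rw [intervalIntegral.integral_symm, ← this, ← intervalIntegral.integral_neg]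
    apply intervalIntegral.integral_congr
    intro y _
    show -F1 (-y) = F1 y
    rw [odd1, neg_neg]
  rw [TT_eq ha.ne' hb.ne' hχ h1 h2]
  have e1 : F2 (b - a) = F2 (a - b) := by rw [← even2]; congr 1; ring
  have e2 : F2 (-a - b) = F2 (a + b) := by rw [← even2]; congr 1; ring
  rw [e1, e2]
  -- qf in terms of F1
  have hq : ∀ s, 0 < s → qf χ s = F1 (√s) / √s := by
    intro s hs
    have hs' : √s ≠ 0 := (Real.sqrt_pos.2 hs).ne'
    unfold qf
    rw [intervalIntegral.integral_comp_mul_right χ hs']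
    simp only [hF1d, smul_eq_mul, zero_mul, one_mul]
    rw [div_eq_inv_mul]
  have hab : 0 < a * b := mul_pos ha hb
  have hderiv : ∀ w ∈ Ioo (-1:ℝ) 1, HasDerivAt (fun w => F2 (√(a ^ 2 + b ^ 2 + 2 * a * b * w)))
      (a * b * qf χ (a ^ 2 + b ^ 2 + 2 * a * b * w)) w := by
    intro w hw
    have hpos : 0 < a ^ 2 + b ^ 2 + 2 * a * b * w := by nlinarith [sq_nonneg (a - b), hw.1]
    have hlin : HasDerivAt (fun w => a ^ 2 + b ^ 2 + 2 * a * b * w) (2 * a * b) w := by
      simpa using ((hasDerivAt_id w).const_mul (2 * a * b)).const_add (a ^ 2 + b ^ 2)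
    have hs := hlin.sqrt hpos.ne'
    have := (h2 (√(a ^ 2 + b ^ 2 + 2 * a * b * w))).comp w hs
    refine this.congr_deriv ?_
    rw [hq _ hpos]
    have : √(a ^ 2 + b ^ 2 + 2 * a * b * w) ≠ 0 := (Real.sqrt_pos.2 hpos).ne'
    field_simp
  have hcont : Continuous (fun w => F2 (√(a ^ 2 + b ^ 2 + 2 * a * b * w))) := by fun_prop
  have hqc := qf_continuous hχ
  have hint := intervalIntegral.integral_eq_sub_of_hasDerivAt_of_le (by norm_num : (-1:ℝ) ≤ 1)
    hcont.continuousOn hderiv (Continuous.intervalIntegrable (by fun_prop) _ _)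
  rw [intervalIntegral.integral_const_mul] at hint
  have f1 : √(a ^ 2 + b ^ 2 + 2 * a * b * 1) = a + b := by
    rw [show a ^ 2 + b ^ 2 + 2 * a * b * 1 = (a + b) ^ 2 by ring]
    exact Real.sqrt_sq (by positivity)
  have f2 : F2 (√(a ^ 2 + b ^ 2 + 2 * a * b * (-1))) = F2 (a - b) := by
    rw [show a ^ 2 + b ^ 2 + 2 * a * b * (-1) = (a - b) ^ 2 by ring, Real.sqrt_sq_eq_abs]
    rcases abs_cases (a - b) with ⟨h, _⟩ | ⟨h, _⟩ <;> rw [h]
    exact even2 _
  rw [f1, f2] at hint
  have : ∫ w in (-1:ℝ)..1, qf χ (a ^ 2 + b ^ 2 + 2 * a * b * w) = (F2 (a + b) - F2 (a - b)) / (a * b) := by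
    rw [← hint]; field_simp
  rw [this]
  field_simp
  ring

theorem qf_eq_T {χ : ℝ → ℝ} (hχ : Continuous χ) (he : ∀ x, χ (-x) = χ x) {a : ℝ} (ha : 0 ≤ a) :
    T a χ 0 = qf χ (a ^ 2) := by
  unfold T qf
  rw [Real.sqrt_sq ha]
  have hc : Continuous fun u => χ (0 + a * u) := by fun_prop
  rw [← intervalIntegral.integral_add_adjacent_intervals (b := 0)
    (hc.intervalIntegrable _ _) (hc.intervalIntegrable _ _)]
  have := intervalIntegral.integral_comp_neg (a := (0:ℝ)) (b := 1) (fun u => χ (0 + a * u))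
  rw [neg_zero] at this
  rw [← this]
  have e1 : (∫ x in (0:ℝ)..1, χ (0 + a * -x)) = ∫ t in (0:ℝ)..1, χ (t * a) := by
    apply intervalIntegral.integral_congr
    intro t _
    show χ (0 + a * -t) = χ (t * a)
    rw [← he]
    congr 1
    ring
  have e2 : (∫ x in (0:ℝ)..1, χ (0 + a * x)) = ∫ t in (0:ℝ)..1, χ (t * a) := by
    apply intervalIntegral.integral_congr
    intro t _
    show χ (0 + a * t) = χ (t * a)
    congr 1
    ring
  rw [e1, e2]
  ring

theorem TT_polar {χ : ℝ → ℝ} (hχ : Continuous χ) (he : ∀ x, χ (-x) = χ x) {a b : ℝ}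
    (ha : 0 ≤ a) (hb : 0 ≤ b) :
    T a (T b χ) 0 = (1/2) * ∫ w in (-1:ℝ)..1, qf χ (a ^ 2 + b ^ 2 + 2 * a * b * w) := by
  rcases ha.eq_or_lt with rfl | ha
  · rw [T_zero, qf_eq_T hχ he hb]
    simp
    ring
  rcases hb.eq_or_lt with rfl | hb
  · rw [T_zero, qf_eq_T hχ he ha.le]
    simp
    ring
  exact TT_polar_pos hχ he ha hb

theorem convex_symm_mono {q : ℝ → ℝ} {S m δ δ' : ℝ} (hq : ConvexOn ℝ (Icc 0 S) q)
    (h0 : 0 ≤ δ) (h1 : δ ≤ δ') (hm : 0 ≤ m - δ') (hS : m + δ' ≤ S) :
    q (m + δ) + q (m - δ) ≤ q (m + δ') + q (m - δ') := by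
  rcases (h0.trans h1).eq_or_lt with h | h
  · have : δ = 0 := le_antisymm (h1.trans h.symm.le) h0
    subst this; rw [← h]
  have hA : m + δ' ∈ Icc 0 S := ⟨by linarith, hS⟩
  have hB : m - δ' ∈ Icc 0 S := ⟨hm, by linarith⟩
  have c1 : 0 ≤ (δ' + δ) / (2 * δ') := by positivity
  have c2 : 0 ≤ (δ' - δ) / (2 * δ') := div_nonneg (by linarith) (by positivity)
  have c3 : (δ' + δ) / (2 * δ') + (δ' - δ) / (2 * δ') = 1 := by field_simp; ring
  have i1 := hq.2 hA hB c1 c2 c3
  have i2 := hq.2 hB hA c1 c2 c3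
  simp only [smul_eq_mul] at i1 i2
  have g1 : (δ' + δ) / (2 * δ') * (m + δ') + (δ' - δ) / (2 * δ') * (m - δ') = m + δ := by
    field_simp; ring
  have g2 : (δ' + δ) / (2 * δ') * (m - δ') + (δ' - δ) / (2 * δ') * (m + δ') = m - δ := by
    field_simp; ring
  rw [g1] at i1
  rw [g2] at i2
  calc q (m + δ) + q (m - δ) ≤ _ := add_le_add i1 i2
    _ = ((δ' + δ) / (2 * δ') + (δ' - δ) / (2 * δ')) * (q (m + δ') + q (m - δ')) := by ring
    _ = _ := by rw [c3, one_mul]

/-- **The rotation inequality.** If `s ↦ χ(√s)` is convex, then `E χ(aU + bV)` does not decrease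
when `(a,b)` becomes more equal. -/
theorem step {χ : ℝ → ℝ} (hχ : Continuous χ) (he : ∀ x, χ (-x) = χ x) {S : ℝ}
    (hconv : ConvexOn ℝ (Icc 0 S) (fun s => χ (√s))) {a b a' b' : ℝ}
    (ha : 0 ≤ a) (hb : 0 ≤ b) (ha' : 0 ≤ a') (hb' : 0 ≤ b')
    (hr : a ^ 2 + b ^ 2 = a' ^ 2 + b' ^ 2) (hab : a * b ≤ a' * b') (hS : (a' + b') ^ 2 ≤ S) :
    T a (T b χ) 0 ≤ T a' (T b' χ) 0 := by
  rw [TT_polar hχ he ha hb, TT_polar hχ he ha' hb', ← hr]
  gcongr
  have hqc := qf_continuous hχ
  have hq := qf_convexOn hχ hconv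
  have split : ∀ h : ℝ, ∫ w in (-1:ℝ)..1, qf χ (a ^ 2 + b ^ 2 + 2 * h * w)
      = ∫ w in (0:ℝ)..1, (qf χ (a ^ 2 + b ^ 2 + 2 * h * w) + qf χ (a ^ 2 + b ^ 2 - 2 * h * w)) := by
    intro h
    have hc : Continuous fun w => qf χ (a ^ 2 + b ^ 2 + 2 * h * w) := by fun_prop
    have hc' : Continuous fun w => qf χ (a ^ 2 + b ^ 2 - 2 * h * w) := by fun_prop
    rw [intervalIntegral.integral_add (hc.intervalIntegrable _ _) (hc'.intervalIntegrable _ _)]
    rw [← intervalIntegral.integral_add_adjacent_intervals (b := 0)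
      (hc.intervalIntegrable _ _) (hc.intervalIntegrable _ _)]
    have := intervalIntegral.integral_comp_neg (a := (0:ℝ)) (b := 1)
      (fun w => qf χ (a ^ 2 + b ^ 2 + 2 * h * w))
    rw [neg_zero] at this
    rw [← this, add_comm]
    congr 1
    apply intervalIntegral.integral_congr
    intro w _
    show qf χ (a ^ 2 + b ^ 2 + 2 * h * -w) = qf χ (a ^ 2 + b ^ 2 - 2 * h * w)
    congr 1
    ring
  have e1 := split (a * b)
  have e2 := split (a' * b')
  simp only [← mul_assoc] at e1 e2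
  rw [e1, e2]
  apply intervalIntegral.integral_mono_on (by norm_num)
  · exact Continuous.intervalIntegrable (by fun_prop) _ _
  · exact Continuous.intervalIntegrable (by fun_prop) _ _
  intro w hw
  have h1 : 0 ≤ a * b := mul_nonneg ha hb
  apply convex_symm_mono hq
  · have := hw.1; positivity
  · have h3 : 2 * a * b ≤ 2 * a' * b' := by nlinarith
    exact mul_le_mul_of_nonneg_right h3 hw.1
  · have := hw.1; have := hw.2
    nlinarith [sq_nonneg (a' - b'), mul_nonneg ha' hb']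
  · have := hw.1; have := hw.2
    nlinarith [mul_nonneg ha' hb']

end Step

end Pool.Agent.Lib.MP391fb1
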