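import Mathlib

/-!
# MP_391fb1_pr: Bernstein certificates for `n = 4`
-/

namespace Pool.Agent.Lib.MP391fb1
namespace N4

def qq (x : ℝ) : ℝ := 3 * x^3 - 12 * x^2 + 32
def NN (x : ℝ) : ℝ := 27 * x^4 - 144 * x^3 + 288 * x^2 - 576 * x + 768

/-- `(NN z * qq y ^ 2 - NN y * qq z ^ 2) / x` for `z = c + x`, `y = c - x`, as a polynomial in
`c` and `X = x ^ 2` -/
def GG (c X : ℝ) : ℝ :=
  (-1179648) * c^0 * X^0 + 294912 * c^0 * X^1 + 55296 * c^0 * X^2 + (-20736) * c^0 * X^3 + 1296 * c^0 * X^4 + 3538944 * c^1 * X^0 + (-1105920) * c^1 * X^1 + 20736 * c^1 * X^3 + (-972) * c^1 * X^4 + (-2654208) * c^2 * X^0 + 552960 * c^2 * X^1 + 103680 * c^2 * X^2 + (-15552) * c^2 * X^3 + (-221184) * c^3 * X^0 + 221184 * c^3 * X^1 + (-103680) * c^3 * X^2 + 3888 * c^3 * X^3 + 1161216 * c^4 * X^0 + (-311040) * c^4 * X^1 + 38880 * c^4 * X^2 + (-663552) * c^5 * X^0 + 145152 * c^5 * X^1 + (-5832) * c^5 * X^2 + 228096 * c^6 * X^0 + (-36288) * c^6 * X^1 + (-62208) * c^7 * X^0 + 3888 * c^7 * X^1 + 11664 *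 c^8 * X^0 + (-972) * c^9 * X^0

theorem GG_eq (c x : ℝ) : NN (c + x) * qq (c - x) ^ 2 - NN (c - x) * qq (c + x) ^ 2
    = x * GG c (x ^ 2) := by
  unfold NN qq GG
  ring

theorem gpiece1 {c X : ℝ} (h1 : (3/5) ≤ c) (h2 : c ≤ (6/5)) (h3 : 0 ≤ X) (h4 : X ≤ (9/25)) :
    0 ≤ GG c X := by
  have e : GG c X =
      (4103792154687500/14348907) * ((c - (3/5))^0 * ((6/5) - c)^9) * ((X - 0)^0 * ((9/25) - X)^4)
      + (11764087250000000/14348907) * ((c - (3/5))^0 * ((6/5) - c)^9) * ((X - 0)^1 * ((9/25) - X)^3)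
      + (3830470000000000/4782969) * ((c - (3/5))^0 * ((6/5) - c)^9) * ((X - 0)^2 * ((9/25) - X)^2)
      + (4054100000000000/14348907) * ((c - (3/5))^0 * ((6/5) - c)^9) * ((X - 0)^3 * ((9/25) - X)^1)
      + (224000000000000/14348907) * ((c - (3/5))^0 * ((6/5) - c)^9) * ((X - 0)^4 * ((9/25) - X)^0)
      + (8494331528125000/1594323) * ((c - (3/5))^1 * ((6/5) - c)^8) * ((X - 0)^0 * ((9/25) - X)^4)
      + (28524995387500000/1594323) * ((c - (3/5))^1 * ((6/5) - c)^8) * ((X - 0)^1 * ((9/25) - X)^3)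
      + (11820615500000000/531441) * ((c - (3/5))^1 * ((6/5) - c)^8) * ((X - 0)^2 * ((9/25) - X)^2)
      + (19276060000000000/1594323) * ((c - (3/5))^1 * ((6/5) - c)^8) * ((X - 0)^3 * ((9/25) - X)^1)
      + (3845800000000000/1594323) * ((c - (3/5))^1 * ((6/5) - c)^8) * ((X - 0)^4 * ((9/25) - X)^0)
      + (15347313325000000/531441) * ((c - (3/5))^2 * ((6/5) - c)^7) * ((X - 0)^0 * ((9/25) - X)^4)
      + (53266225543750000/531441) * ((c - (3/5))^2 * ((6/5) - c)^7) * ((X - 0)^1 * ((9/25) - X)^3)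
      + (22963833462500000/177147) * ((c - (3/5))^2 * ((6/5) - c)^7) * ((X - 0)^2 * ((9/25) - X)^2)
      + (39308701000000000/531441) * ((c - (3/5))^2 * ((6/5) - c)^7) * ((X - 0)^3 * ((9/25) - X)^1)
      + (8337220000000000/531441) * ((c - (3/5))^2 * ((6/5) - c)^7) * ((X - 0)^4 * ((9/25) - X)^0)
      + (373921815650000000/4782969) * ((c - (3/5))^3 * ((6/5) - c)^6) * ((X - 0)^0 * ((9/25) - X)^4)
      + (1311390239937500000/4782969) * ((c - (3/5))^3 * ((6/5) - c)^6) * ((X - 0)^1 * ((9/25) - X)^3)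
      + (572040408362500000/1594323) * ((c - (3/5))^3 * ((6/5) - c)^6) * ((X - 0)^2 * ((9/25) - X)^2)
      + (992425059650000000/4782969) * ((c - (3/5))^3 * ((6/5) - c)^6) * ((X - 0)^3 * ((9/25) - X)^1)
      + (213792926000000000/4782969) * ((c - (3/5))^3 * ((6/5) - c)^6) * ((X - 0)^4 * ((9/25) - X)^0)
      + (199226886650000000/1594323) * ((c - (3/5))^4 * ((6/5) - c)^5) * ((X - 0)^0 * ((9/25) - X)^4)
      + (699830347325000000/1594323) * ((c - (3/5))^4 * ((6/5) - c)^5) * ((X - 0)^1 * ((9/25) - X)^3)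
      + (305738841934375000/531441) * ((c - (3/5))^4 * ((6/5) - c)^5) * ((X - 0)^2 * ((9/25) - X)^2)
      + (531193196525000000/1594323) * ((c - (3/5))^4 * ((6/5) - c)^5) * ((X - 0)^3 * ((9/25) - X)^1)
      + (114589173275000000/1594323) * ((c - (3/5))^4 * ((6/5) - c)^5) * ((X - 0)^4 * ((9/25) - X)^0)
      + (7433548900000000/59049) * ((c - (3/5))^5 * ((6/5) - c)^4) * ((X - 0)^0 * ((9/25) - X)^4)
      + (78062674750000000/177147) * ((c - (3/5))^5 * ((6/5) - c)^4) * ((X - 0)^1 * ((9/25) - X)^3)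
      + (33957215031250000/59049) * ((c - (3/5))^5 * ((6/5) - c)^4) * ((X - 0)^2 * ((9/25) - X)^2)
      + (19561920237500000/59049) * ((c - (3/5))^5 * ((6/5) - c)^4) * ((X - 0)^3 * ((9/25) - X)^1)
      + (12577004800000000/177147) * ((c - (3/5))^5 * ((6/5) - c)^4) * ((X - 0)^4 * ((9/25) - X)^0)
      + (387925389200000000/4782969) * ((c - (3/5))^6 * ((6/5) - c)^3) * ((X - 0)^0 * ((9/25) - X)^4)
      + (1347949567700000000/4782969) * ((c - (3/5))^6 * ((6/5) - c)^3) * ((X - 0)^1 * ((9/25) - X)^3)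
      + (581191389625000000/1594323) * ((c - (3/5))^6 * ((6/5) - c)^3) * ((X - 0)^2 * ((9/25) - X)^2)
      + (993713554193750000/4782969) * ((c - (3/5))^6 * ((6/5) - c)^3) * ((X - 0)^3 * ((9/25) - X)^1)
      + (210176480787500000/4782969) * ((c - (3/5))^6 * ((6/5) - c)^3) * ((X - 0)^4 * ((9/25) - X)^0)
      + (51799919200000000/1594323) * ((c - (3/5))^7 * ((6/5) - c)^2) * ((X - 0)^0 * ((9/25) - X)^4)
      + (178026614200000000/1594323) * ((c - (3/5))^7 * ((6/5) - c)^2) * ((X - 0)^1 * ((9/25) - X)^3)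
      + (75744755150000000/531441) * ((c - (3/5))^7 * ((6/5) - c)^2) * ((X - 0)^2 * ((9/25) - X)^2)
      + (127405285862500000/1594323) * ((c - (3/5))^7 * ((6/5) - c)^2) * ((X - 0)^3 * ((9/25) - X)^1)
      + (26399191637500000/1594323) * ((c - (3/5))^7 * ((6/5) - c)^2) * ((X - 0)^4 * ((9/25) - X)^0)
      + (3921741200000000/531441) * ((c - (3/5))^8 * ((6/5) - c)^1) * ((X - 0)^0 * ((9/25) - X)^4)
      + (13279298000000000/531441) * ((c - (3/5))^8 * ((6/5) - c)^1) * ((X - 0)^1 * ((9/25) - X)^3)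
      + (5546816650000000/177147) * ((c - (3/5))^8 * ((6/5) - c)^1) * ((X - 0)^2 * ((9/25) - X)^2)
      + (9114752825000000/531441) * ((c - (3/5))^8 * ((6/5) - c)^1) * ((X - 0)^3 * ((9/25) - X)^1)
      + (1831951939062500/531441) * ((c - (3/5))^8 * ((6/5) - c)^1) * ((X - 0)^4 * ((9/25) - X)^0)
      + (10419495200000000/14348907) * ((c - (3/5))^9 * ((6/5) - c)^0) * ((X - 0)^0 * ((9/25) - X)^4)
      + (34599869600000000/14348907) * ((c - (3/5))^9 * ((6/5) - c)^0) * ((X - 0)^1 * ((9/25) - X)^3)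
      + (14096130100000000/4782969) * ((c - (3/5))^9 * ((6/5) - c)^0) * ((X - 0)^2 * ((9/25) - X)^2)
      + (22409553650000000/14348907) * ((c - (3/5))^9 * ((6/5) - c)^0) * ((X - 0)^3 * ((9/25) - X)^1)
      + (4301722278125000/14348907) * ((c - (3/5))^9 * ((6/5) - c)^0) * ((X - 0)^4 * ((9/25) - X)^0) := by
    unfold GG
    ring
  rw [e]
  have hu := sub_nonneg.2 h1
  have hv := sub_nonneg.2 h2
  have hs := sub_nonneg.2 h3
  have ht := sub_nonneg.2 h4
  generalize c - (3/5) = u at hu ⊢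
  generalize (6/5) - c = v at hv ⊢
  generalize X - 0 = s at hs ⊢
  generalize (9/25) - X = t at ht ⊢
  positivity

theorem gpiece2 {c X : ℝ} (h1 : (59/50) ≤ c) (h2 : c ≤ (71/50)) (h3 : 0 ≤ X) (h4 : X ≤ (36/625)) :
    0 ≤ GG c X := by
  have e : GG c X =
      (1056289072653234382171630859375/240734712102912) * ((c - (59/50))^0 * ((71/50) - c)^9) * ((X - 0)^0 * ((36/625) - X)^4)
      + (1028482215395523486175537109375/60183678025728) * ((c - (59/50))^0 * ((71/50) - c)^9) * ((X - 0)^1 * ((36/625) - X)^3)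
      + (1001093515869339426116943359375/40122452017152) * ((c - (59/50))^0 * ((71/50) - c)^9) * ((X - 0)^2 * ((36/625) - X)^2)
      + (974118412281092826995849609375/60183678025728) * ((c - (59/50))^0 * ((71/50) - c)^9) * ((X - 0)^3 * ((36/625) - X)^1)
      + (947552356418464313812255859375/240734712102912) * ((c - (59/50))^0 * ((71/50) - c)^9) * ((X - 0)^4 * ((36/625) - X)^0)
      + (1005545198881842047576904296875/26748301344768) * ((c - (59/50))^1 * ((71/50) - c)^8) * ((X - 0)^0 * ((36/625) - X)^4)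
      + (977933050778049579315185546875/6687075336192) * ((c - (59/50))^1 * ((71/50) - c)^8) * ((X - 0)^1 * ((36/625) - X)^3)
      + (950740352188151915740966796875/4458050224128) * ((c - (59/50))^1 * ((71/50) - c)^8) * ((X - 0)^2 * ((36/625) - X)^2)
      + (923962544210867181854248046875/6687075336192) * ((c - (59/50))^1 * ((71/50) - c)^8) * ((X - 0)^3 * ((36/625) - X)^1)
      + (897595079164223502655029296875/26748301344768) * ((c - (59/50))^1 * ((71/50) - c)^8) * ((X - 0)^4 * ((36/625) - X)^0)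
      + (317280924510089994659423828125/2229025112064) * ((c - (59/50))^2 * ((71/50) - c)^7) * ((X - 0)^0 * ((36/625) - X)^4)
      + (308157912323793429718017578125/557256278016) * ((c - (59/50))^2 * ((71/50) - c)^7) * ((X - 0)^1 * ((36/625) - X)^3)
      + (299175063374546435089111328125/371504185344) * ((c - (59/50))^2 * ((71/50) - c)^7) * ((X - 0)^2 * ((36/625) - X)^2)
      + (290330858615433385772705078125/557256278016) * ((c - (59/50))^2 * ((71/50) - c)^7) * ((X - 0)^3 * ((36/625) - X)^1)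
      + (281623781951988656768798828125/2229025112064) * ((c - (59/50))^2 * ((71/50) - c)^7) * ((X - 0)^4 * ((36/625) - X)^0)
      + (6271694114898111490020751953125/20061226008576) * ((c - (59/50))^3 * ((71/50) - c)^6) * ((X - 0)^0 * ((36/625) - X)^4)
      + (6082130246554661624298095703125/5015306502144) * ((c - (59/50))^3 * ((71/50) - c)^6) * ((X - 0)^1 * ((36/625) - X)^3)
      + (5895515319243462891387939453125/3343537668096) * ((c - (59/50))^3 * ((71/50) - c)^6) * ((X - 0)^2 * ((36/625) - X)^2)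
      + (5711817439152094666290283203125/5015306502144) * ((c - (59/50))^3 * ((71/50) - c)^6) * ((X - 0)^3 * ((36/625) - X)^1)
      + (5531004757935866324005126953125/20061226008576) * ((c - (59/50))^3 * ((71/50) - c)^6) * ((X - 0)^4 * ((36/625) - X)^0)
      + (5870218769935731141510009765625/13374150672384) * ((c - (59/50))^4 * ((71/50) - c)^5) * ((X - 0)^0 * ((36/625) - X)^4)
      + (5682970928278884459381103515625/3343537668096) * ((c - (59/50))^4 * ((71/50) - c)^5) * ((X - 0)^1 * ((36/625) - X)^3)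
      + (5498675768923738128814697265625/2229025112064) * ((c - (59/50))^4 * ((71/50) - c)^5) * ((X - 0)^2 * ((36/625) - X)^2)
      + (5317301399851211524810791015625/3343537668096) * ((c - (59/50))^4 * ((71/50) - c)^5) * ((X - 0)^3 * ((36/625) - X)^1)
      + (5138815957976234022369384765625/13374150672384) * ((c - (59/50))^4 * ((71/50) - c)^5) * ((X - 0)^4 * ((36/625) - X)^0)
      + (202336175073423892669677734375/495338913792) * ((c - (59/50))^5 * ((71/50) - c)^4) * ((X - 0)^0 * ((36/625) - X)^4)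
      + (586491203995807564239501953125/371504185344) * ((c - (59/50))^5 * ((71/50) - c)^4) * ((X - 0)^1 * ((36/625) - X)^3)
      + (566302177317986770782470703125/247669456896) * ((c - (59/50))^5 * ((71/50) - c)^4) * ((X - 0)^2 * ((36/625) - X)^2)
      + (60715322393179574737548828125/41278242816) * ((c - (59/50))^5 * ((71/50) - c)^4) * ((X - 0)^3 * ((36/625) - X)^1)
      + (526894834387312644805908203125/1486016741376) * ((c - (59/50))^5 * ((71/50) - c)^4) * ((X - 0)^4 * ((36/625) - X)^0)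
      + (5054449329662435920562744140625/20061226008576) * ((c - (59/50))^6 * ((71/50) - c)^3) * ((X - 0)^0 * ((36/625) - X)^4)
      + (4872640852730779756011962890625/5015306502144) * ((c - (59/50))^6 * ((71/50) - c)^3) * ((X - 0)^1 * ((36/625) - X)^3)
      + (4693787223229659568023681640625/3343537668096) * ((c - (59/50))^6 * ((71/50) - c)^3) * ((X - 0)^2 * ((36/625) - X)^2)
      + (4517856546674152231597900390625/5015306502144) * ((c - (59/50))^6 * ((71/50) - c)^3) * ((X - 0)^3 * ((36/625) - X)^1)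
      + (4344816924445904621734619140625/20061226008576) * ((c - (59/50))^6 * ((71/50) - c)^3) * ((X - 0)^4 * ((36/625) - X)^0)
      + (664013339842286084442138671875/6687075336192) * ((c - (59/50))^7 * ((71/50) - c)^2) * ((X - 0)^0 * ((36/625) - X)^4)
      + (638481081726819700164794921875/1671768834048) * ((c - (59/50))^7 * ((71/50) - c)^2) * ((X - 0)^1 * ((36/625) - X)^3)
      + (613370719698151870574951171875/1114512556032) * ((c - (59/50))^7 * ((71/50) - c)^2) * ((X - 0)^2 * ((36/625) - X)^2)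
      + (588677697298973220672607421875/1671768834048) * ((c - (59/50))^7 * ((71/50) - c)^2) * ((X - 0)^3 * ((36/625) - X)^1)
      + (564397455119524375457763671875/6687075336192) * ((c - (59/50))^7 * ((71/50) - c)^2) * ((X - 0)^4 * ((36/625) - X)^0)
      + (202254436303632920684814453125/8916100448256) * ((c - (59/50))^8 * ((71/50) - c)^1) * ((X - 0)^0 * ((36/625) - X)^4)
      + (193900729816508885040283203125/2229025112064) * ((c - (59/50))^8 * ((71/50) - c)^1) * ((X - 0)^1 * ((36/625) - X)^3)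
      + (185687496009063794708251953125/1486016741376) * ((c - (59/50))^8 * ((71/50) - c)^1) * ((X - 0)^2 * ((36/625) - X)^2)
      + (177613216156964524688720703125/2229025112064) * ((c - (59/50))^8 * ((71/50) - c)^1) * ((X - 0)^3 * ((36/625) - X)^1)
      + (169676369764407949981689453125/8916100448256) * ((c - (59/50))^8 * ((71/50) - c)^1) * ((X - 0)^4 * ((36/625) - X)^0)
      + (550731004755567071990966796875/240734712102912) * ((c - (59/50))^9 * ((71/50) - c)^0) * ((X - 0)^0 * ((36/625) - X)^4)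
      + (526168966797870814666748046875/60183678025728) * ((c - (59/50))^9 * ((71/50) - c)^0) * ((X - 0)^1 * ((36/625) - X)^3)
      + (502027615428391862030029296875/40122452017152) * ((c - (59/50))^9 * ((71/50) - c)^0) * ((X - 0)^2 * ((36/625) - X)^2)
      + (478302395398138339080810546875/60183678025728) * ((c - (59/50))^9 * ((71/50) - c)^0) * ((X - 0)^3 * ((36/625) - X)^1)
      + (454988743781748370819091796875/240734712102912) * ((c - (59/50))^9 * ((71/50) - c)^0) * ((X - 0)^4 * ((36/625) - X)^0) := by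
    unfold GG
    ring
  rw [e]
  have hu := sub_nonneg.2 h1
  have hv := sub_nonneg.2 h2
  have hs := sub_nonneg.2 h3
  have ht := sub_nonneg.2 h4
  generalize c - (59/50) = u at hu ⊢
  generalize (71/50) - c = v at hv ⊢
  generalize X - 0 = s at hs ⊢
  generalize (36/625) - X = t at ht ⊢
  positivity

theorem f1 {x : ℝ} (h1 : 0 ≤ x) (h2 : x ≤ (59/50)) :
    0 ≤ 256 - 384*x + 128*x^2 + 36*x^3 - 24*x^4 + 3*x^5 := by
  have e : 256 - 384*x + 128*x^2 + 36*x^3 - 24*x^4 + 3*x^5 =
      (80000000000/714924299) * ((x - 0)^0 * ((59/50) - x)^5)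
      + (258400000000/714924299) * ((x - 0)^1 * ((59/50) - x)^4)
      + (289296000000/714924299) * ((x - 0)^2 * ((59/50) - x)^3)
      + (135972110000/714924299) * ((x - 0)^3 * ((59/50) - x)^2)
      + (23115386800/714924299) * ((x - 0)^4 * ((59/50) - x)^1)
      + (184049697/714924299) * ((x - 0)^5 * ((59/50) - x)^0) := by
    ring
  rw [e]
  have hu := sub_nonneg.2 h1
  have hv := sub_nonneg.2 h2
  generalize x - 0 = u at hu ⊢
  generalize (59/50) - x = v at hv ⊢
  positivity

theorem f2 {x : ℝ} (h1 : (119/100) ≤ x) (h2 : x ≤ 2) :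
    0 ≤ -256 + 384*x - 128*x^2 - 36*x^3 + 24*x^4 - 3*x^5 := by
  have e : -256 + 384*x - 128*x^2 - 36*x^3 + 24*x^4 - 3*x^5 =
      (315563/43046721) * ((x - (119/100))^0 * (2 - x)^5)
      + (5813215400/43046721) * ((x - (119/100))^1 * (2 - x)^4)
      + (4964680000/14348907) * ((x - (119/100))^2 * (2 - x)^3)
      + (12152000000/43046721) * ((x - (119/100))^3 * (2 - x)^2)
      + (3200000000/43046721) * ((x - (119/100))^4 * (2 - x)^1) := by
    ring
  rw [e]
  have hu := sub_nonneg.2 h1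
  have hv := sub_nonneg.2 h2
  generalize x - (119/100) = u at hu ⊢
  generalize 2 - x = v at hv ⊢
  positivity

theorem f5 {x : ℝ} (h1 : (59/50) ≤ x) (h2 : x ≤ 2) :
    0 ≤ 11 * qq x ^ 2 - 10 * NN x := by
  have e : 11 * qq x ^ 2 - 10 * NN x =
      (22603877475059/4750104241) * ((x - (59/50))^0 * (2 - x)^6)
      + (86685649090200/4750104241) * ((x - (59/50))^1 * (2 - x)^5)
      + (116328493935000/4750104241) * ((x - (59/50))^2 * (2 - x)^4)
      + (67588462000000/4750104241) * ((x - (59/50))^3 * (2 - x)^3)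
      + (23472000000000/4750104241) * ((x - (59/50))^4 * (2 - x)^2)
      + (11160000000000/4750104241) * ((x - (59/50))^5 * (2 - x)^1)
      + (3500000000000/4750104241) * ((x - (59/50))^6 * (2 - x)^0) := by
    unfold qq NN
    ring
  rw [e]
  have hu := sub_nonneg.2 h1
  have hv := sub_nonneg.2 h2
  generalize x - (59/50) = u at hu ⊢
  generalize 2 - x = v at hv ⊢
  positivity

end N4
end Pool.Agent.Lib.MP391fb1
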