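import Pool.Agent.Lib.MP_391fb1_pr.Steps
import Pool.Agent.Lib.MP_391fb1_pr.N4cert

/-!
# MP_391fb1_pr: the case `n = 4`
-/

namespace Pool.Agent.Lib.MP391fb1
namespace N4

open MeasureTheory Set intervalIntegral

theorem bs40_left {x : ℝ} (h1 : 0 ≤ x) (h3 : x ≤ 2) : bs 4 0 x = qq x / 96 := by
  unfold bs qq
  simp only [Finset.sum_range_succ, Finset.sum_range_zero]
  norm_num [Nat.choose, Nat.factorial]
  rw [max_eq_left (by linarith : 0 ≤ x + 4), max_eq_left (by linarith : 0 ≤ x + 4 - 2),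
    max_eq_left (by linarith : 0 ≤ x), max_eq_right (by linarith : x + 4 - 6 ≤ 0),
    max_eq_right (by linarith : x + 4 - 8 ≤ 0)]
  ring

theorem bs41_left {x : ℝ} (h1 : 0 ≤ x) (h3 : x ≤ 2) : bs 4 1 x = (9 * x ^ 2 - 24 * x) / 96 := by
  unfold bs
  simp only [Finset.sum_range_succ, Finset.sum_range_zero]
  norm_num [Nat.choose, Nat.factorial]
  rw [max_eq_left (by linarith : 0 ≤ x + 4), max_eq_left (by linarith : 0 ≤ x + 4 - 2),
    max_eq_left (by linarith : 0 ≤ x), max_eq_right (by linarith : x + 4 - 6 ≤ 0),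
    max_eq_right (by linarith : x + 4 - 8 ≤ 0)]
  ring

theorem bs42_left {x : ℝ} (h1 : 0 ≤ x) (h3 : x ≤ 2) : bs 4 2 x = (18 * x - 24) / 96 := by
  unfold bs
  simp only [Finset.sum_range_succ, Finset.sum_range_zero]
  norm_num [Nat.choose, Nat.factorial]
  rw [max_eq_left (by linarith : 0 ≤ x + 4), max_eq_left (by linarith : 0 ≤ x + 4 - 2),
    max_eq_left (by linarith : 0 ≤ x), max_eq_right (by linarith : x + 4 - 6 ≤ 0),
    max_eq_right (by linarith : x + 4 - 8 ≤ 0)]
  ring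

theorem bs40_right {x : ℝ} (h1 : 2 ≤ x) (h3 : x < 4) : bs 4 0 x = (4 - x) ^ 3 / 96 := by
  unfold bs
  simp only [Finset.sum_range_succ, Finset.sum_range_zero]
  norm_num [Nat.choose, Nat.factorial]
  rw [max_eq_left (by linarith : 0 ≤ x + 4), max_eq_left (by linarith : 0 ≤ x + 4 - 2),
    max_eq_left (by linarith : 0 ≤ x), max_eq_left (by linarith : 0 ≤ x + 4 - 6),
    max_eq_right (by linarith : x + 4 - 8 ≤ 0)]
  ring

theorem bs41_right {x : ℝ} (h1 : 2 ≤ x) (h3 : x < 4) : bs 4 1 x = - (4 - x) ^ 2 / 32 := by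
  unfold bs
  simp only [Finset.sum_range_succ, Finset.sum_range_zero]
  norm_num [Nat.choose, Nat.factorial]
  rw [max_eq_left (by linarith : 0 ≤ x + 4), max_eq_left (by linarith : 0 ≤ x + 4 - 2),
    max_eq_left (by linarith : 0 ≤ x), max_eq_left (by linarith : 0 ≤ x + 4 - 6),
    max_eq_right (by linarith : x + 4 - 8 ≤ 0)]
  ring

theorem bs42_right {x : ℝ} (h1 : 2 ≤ x) (h3 : x < 4) : bs 4 2 x = (4 - x) / 16 := by
  unfold bs
  simp only [Finset.sum_range_succ, Finset.sum_range_zero]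
  norm_num [Nat.choose, Nat.factorial]
  rw [max_eq_left (by linarith : 0 ≤ x + 4), max_eq_left (by linarith : 0 ≤ x + 4 - 2),
    max_eq_left (by linarith : 0 ≤ x), max_eq_left (by linarith : 0 ≤ x + 4 - 6),
    max_eq_right (by linarith : x + 4 - 8 ≤ 0)]
  ring

theorem qq_pos {x : ℝ} (h1 : 0 ≤ x) (h2 : x ≤ 2) : 0 < qq x := by
  unfold qq
  nlinarith [mul_nonneg h1 (sub_nonneg.2 h2), mul_nonneg (mul_nonneg h1 (sub_nonneg.2 h2)) (sub_nonneg.2 h2),
    mul_nonneg (sub_nonneg.2 h2) (sub_nonneg.2 h2), mul_nonneg h1 h1]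

theorem V24_left {x : ℝ} (h1 : 0 ≤ x) (h2 : x ≤ 2) : V2 4 x = NN x / qq x ^ 2 := by
  have hq := qq_pos h1 h2
  unfold V2
  rw [bs40_left h1 h2, bs41_left h1 h2, bs42_left h1 h2]
  have e : ((9 * x ^ 2 - 24 * x) / 96) ^ 2 - qq x / 96 * ((18 * x - 24) / 96) = NN x / 96 ^ 2 := by
    unfold qq NN
    ring
  rw [e]
  field_simp

theorem V24_right {x : ℝ} (h1 : 2 ≤ x) (h2 : x < 4) : V2 4 x = 3 / (4 - x) ^ 2 := by
  unfold V2
  rw [bs40_right h1 h2, bs41_right h1 h2, bs42_right h1 h2]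
  have : 4 - x ≠ 0 := by linarith
  field_simp
  ring

theorem V24_le {x : ℝ} (h1 : 0 ≤ x) (h2 : x ≤ 59 / 50) : V2 4 x ≤ 3 / 4 := by
  rw [V24_left h1 (by linarith)]
  have hq := qq_pos h1 (by linarith : x ≤ 2)
  rw [div_le_div_iff₀ (by positivity) (by norm_num)]
  have := mul_nonneg (by positivity : 0 ≤ 9 * x) (f1 h1 (by linarith))
  have e : 3 * qq x ^ 2 - NN x * 4
      = 9 * x * (256 - 384*x + 128*x^2 + 36*x^3 - 24*x^4 + 3*x^5) := by
    unfold qq NN; ring
  linarith

theorem V24_ge {x : ℝ} (h1 : 119 / 100 ≤ x) (h2 : x < 4) : 3 / 4 ≤ V2 4 x := by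
  rcases le_total x 2 with h | h
  · have h0 : 0 ≤ x := by linarith
    rw [V24_left h0 h]
    have hq := qq_pos h0 h
    rw [div_le_div_iff₀ (by norm_num) (by positivity)]
    have := mul_nonneg (by positivity : 0 ≤ 9 * x) (f2 h1 h)
    have e : NN x * 4 - 3 * qq x ^ 2
        = 9 * x * (-256 + 384*x - 128*x^2 - 36*x^3 + 24*x^4 - 3*x^5) := by
      unfold qq NN; ring
    linarith
  · rw [V24_right h h2]
    have : 0 < 4 - x := by linarith
    rw [div_le_div_iff₀ (by norm_num) (by positivity)]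
    nlinarith

theorem V24_le' {x : ℝ} (h1 : 59 / 50 ≤ x) (h2 : x ≤ 2) : V2 4 x ≤ 11 / 10 := by
  have h0 : 0 ≤ x := by linarith
  rw [V24_left h0 h2]
  have hq := qq_pos h0 h2
  rw [div_le_div_iff₀ (by positivity) (by norm_num)]
  have := f5 h1 h2
  linarith

theorem V24_cmp {y z : ℝ} (h0 : 0 ≤ y) (hyz : y ≤ z) (hz : z ≤ 2)
    (hG : 0 ≤ GG ((z + y) / 2) (((z - y) / 2) ^ 2)) : V2 4 y ≤ V2 4 z := by
  rw [V24_left h0 (by linarith), V24_left (by linarith) hz]
  have hqy := qq_pos h0 (by linarith : y ≤ 2)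
  have hqz := qq_pos (h0.trans hyz) hz
  rw [div_le_div_iff₀ (by positivity) (by positivity)]
  have e := GG_eq ((z + y) / 2) ((z - y) / 2)
  have e1 : (z + y) / 2 + (z - y) / 2 = z := by ring
  have e2 : (z + y) / 2 - (z - y) / 2 = y := by ring
  rw [e1, e2] at e
  have := mul_nonneg (by linarith : 0 ≤ (z - y) / 2) hG
  linarith

theorem V24_mono {y z : ℝ} (h0 : 0 ≤ y) (hyz : y ≤ z) (hz : z < 4)
    (h : (6 / 5 ≤ y + z ∧ y + z ≤ 71 / 25) ∨ 6 / 5 ≤ z - y) : V2 4 y ≤ V2 4 z := by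
  rcases le_total y (59 / 50) with hy | hy
  · rcases le_total (119 / 100) z with hz1 | hz1
    · exact (V24_le h0 hy).trans (V24_ge hz1 hz)
    · -- both small
      rcases h with ⟨h1, h2⟩ | h1
      · apply V24_cmp h0 hyz (by linarith)
        apply gpiece1
        · linarith
        · linarith
        · positivity
        · have h3 : 0 ≤ (z - y) / 2 := by linarith
          have h4 : (z - y) / 2 ≤ 3 / 5 := by linarith
          nlinarith
      · linarith
  · rcases le_total 2 y with hy2 | hy2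
    · rw [V24_right hy2 (by linarith), V24_right (by linarith) hz]
      have : 0 < 4 - z := by linarith
      gcongr
    · rcases h with ⟨h1, h2⟩ | h1
      · apply V24_cmp h0 hyz (by linarith)
        apply gpiece2
        · linarith
        · linarith
        · positivity
        · have h3 : 0 ≤ (z - y) / 2 := by linarith
          have h4 : (z - y) / 2 ≤ 6 / 25 := by linarith
          nlinarith
      · have hz2 : 2 ≤ z := by linarith
        refine (V24_le' hy hy2).trans ?_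
        rw [V24_right hz2 hz]
        have : 0 < 4 - z := by linarith
        rw [div_le_div_iff₀ (by norm_num) (by positivity)]
        nlinarith

/-- the averaged second derivative is nondecreasing -/
theorem T_w2_monotoneOn {c R X : ℝ} (hR0 : 0 ≤ R) (hR : R < 4) (hc1 : 3 / 5 ≤ c)
    (hc2 : c ≤ 71 / 50) (hX : X + c ≤ R) : MonotoneOn (T c (w2 4 R)) (Icc 0 X) := by
  have hR4 : R < ((4 : ℕ) : ℝ) := by exact_mod_cast hR
  have hcont := w2_continuous (n := 4) (by norm_num) hR0 hR4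
  have hc : 0 < c := by linarith
  apply monotoneOn_of_deriv_nonneg (convex_Icc _ _) (T_continuous c hcont).continuousOn
  · intro x _
    exact (T_hasDerivAt_of_primitive hc.ne' hcont x).differentiableAt.differentiableWithinAt
  · intro x hx
    rw [interior_Icc] at hx
    rw [(T_hasDerivAt_of_primitive hc.ne' hcont x).deriv]
    apply div_nonneg _ (by positivity)
    rw [sub_nonneg]
    have e1 : w2 4 R (x - c) = w2 4 R |x - c| := by
      rcases abs_cases (x - c) with ⟨h, _⟩ | ⟨h, _⟩ <;> rw [h]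
      rw [w2_even (by norm_num) hR0]
    have hle : |x - c| ≤ x + c := by
      rw [abs_le]; constructor <;> linarith [hx.1]
    have hxc : x + c ≤ R := by linarith [hx.2]
    rw [e1]
    unfold w2
    rw [cl_eq (by rw [abs_abs]; linarith), cl_eq (by rw [abs_of_nonneg (by linarith [hx.1])]; exact hxc)]
    apply V24_mono (abs_nonneg _) hle (by linarith)
    rcases le_total x c with h | h
    · left
      rw [abs_of_nonpos (by linarith)]
      constructor <;> linarith
    · right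
      rw [abs_of_nonneg (by linarith)]
      linarith

end N4

open Set in
theorem ineq4 : IneqN 4 (17 / 10) := by
  apply ineqN_of_step (η₀ := 997 / 1000) (by norm_num) (by norm_num) (by norm_num)
  intro η hη0 hη1 a b l hlen hb hbη hηa haM hl hsq hsum
  have hη : 0 < η := by linarith
  obtain ⟨u, v, rfl⟩ := List.length_eq_two.1 (by omega : l.length = 2)
  have hu := hl u (by simp)
  have hv := hl v (by simp)
  simp only [List.map_cons, List.map_nil, List.sum_cons, List.sum_nil, add_zero] at hsq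
  simp only [List.sum_cons, List.sum_nil, add_zero] at hsum
  push_cast at hsq hsum
  have hR0 : (0:ℝ) ≤ ((4:ℕ):ℝ) * η := by positivity
  have hR4 : ((4:ℕ):ℝ) * η < 4 := by push_cast; linarith
  have hRn : ((4:ℕ):ℝ) * η < ((4:ℕ):ℝ) := by push_cast; linarith
  have hX := step_sum_le (n := 4) (l := [u, v]) hlen hb hbη hηa (by
    simp only [List.map_cons, List.map_nil, List.sum_cons, List.sum_nil, add_zero]
    push_cast
    exact hsq)
  apply step_of_Ex_mono (n := 4) (X := ((4:ℕ):ℝ) * η - [u, v].sum) (by norm_num) hR0 hRn _ hb hbη hηa hX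
  have hcont := w2_continuous (n := 4) (by norm_num) hR0 hRn
  have hηsq : (994:ℝ) / 1000 ≤ η ^ 2 := by nlinarith
  have hηsq1 : η ^ 2 < 1 := by nlinarith
  have ha2 : a ^ 2 ≤ (17 / 10) ^ 2 := by
    have : 0 ≤ a := by linarith
    exact pow_le_pow_left₀ this haM 2
  have key : ∀ u v : ℝ, b ≤ u → v ≤ a → u ≤ v → a ^ 2 + b ^ 2 + (u ^ 2 + v ^ 2) = 4 * η ^ 2 →
      MonotoneOn (T u (T v (w2 4 (((4:ℕ):ℝ) * η)))) (Icc 0 (((4:ℕ):ℝ) * η - (u + v))) := by
    intro u v hbu hva huv hsq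
    have hu0 : 0 ≤ u := hb.trans hbu
    have hv0 : 0 ≤ v := hu0.trans huv
    have hu2 : u ^ 2 ≤ v ^ 2 := pow_le_pow_left₀ hu0 huv 2
    have hb2 : b ^ 2 ≤ v ^ 2 := pow_le_pow_left₀ hb (hbu.trans huv) 2
    have hv2 : v ^ 2 ≤ a ^ 2 := pow_le_pow_left₀ hv0 hva 2
    have hv1 : 3 / 5 ≤ v := by
      by_contra h
      push Not at h
      have h5 : v ^ 2 ≤ (3 / 5) ^ 2 := pow_le_pow_left₀ hv0 h.le 2
      linarith
    have hv3 : v ≤ 71 / 50 := by
      by_contra h
      push Not at h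
      have h5 : (71 / 50 : ℝ) ^ 2 ≤ v ^ 2 := pow_le_pow_left₀ (by norm_num) h.le 2
      linarith [sq_nonneg b, sq_nonneg u]
    apply T_monotoneOn hu0 (T_continuous v hcont) (T_even v (w2_even (by norm_num) hR0))
    apply N4.T_w2_monotoneOn hR0 hR4 hv1 hv3
    linarith
  have hsumeq : [u, v].sum = u + v := by simp
  rw [hsumeq]
  rcases le_total u v with h | h
  · exact key u v hu.1 hv.2 h hsq
  · have e : Ex [u, v] (w2 4 (((4:ℕ):ℝ) * η)) = Ex [v, u] (w2 4 (((4:ℕ):ℝ) * η)) :=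
      Ex_perm (List.Perm.swap v u []) hcont
    rw [e, add_comm u v]
    exact key v u hv.1 hu.2 h (by linarith)

end Pool.Agent.Lib.MP391fb1
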