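import Pool.Agent.Lib.MP_391fb1_pr.Bump
import Pool.Agent.Lib.MP_391fb1_pr.Base

/-!
# MP_391fb1_pr: five and six weights
-/

namespace Pool.Agent.Lib.MP391fb1

open MeasureTheory Set intervalIntegral

/-! ### polynomial certificates (Bernstein form) -/

theorem c5_a {x : ℝ} (h1 : 0 ≤ x) (h2 : x ≤ (13 / 20)) :
    0 ≤ (2014225 / 8) - (1436175 / 4) * x ^ 2 + (449775 / 8) * x ^ 4 + (4455 / 2) * x ^ 6 - (3969 / 8) * x ^ 8 + (81 / 4) * x ^ 10 - (27 / 40) * x ^ 12 := by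
  have key : ∀ s t : ℝ, 0 ≤ s → 0 ≤ t → 0 ≤ (1031283200000000000000 / 23298085122481) * t ^ 12 +
      (12375398400000000000000 / 23298085122481) * s * t ^ 11 +
      (67443344448000000000000 / 23298085122481) * s ^ 2 * t ^ 10 +
      (220668836480000000000000 / 23298085122481) * s ^ 3 * t ^ 9 +
      (482565687436080000000000 / 23298085122481) * s ^ 4 * t ^ 8 +
      (742543542368640000000000 / 23298085122481) * s ^ 5 * t ^ 7 +
      (823574550720131040000000 / 23298085122481) * s ^ 6 * t ^ 6 +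
      (662503049015826240000000 / 23298085122481) * s ^ 7 * t ^ 5 +
      (382890132301260967020000 / 23298085122481) * s ^ 8 * t ^ 4 +
      (154636204407482268080000 / 23298085122481) * s ^ 9 * t ^ 3 +
      (41265025339031586096900 / 23298085122481) * s ^ 10 * t ^ 2 +
      (6494660970475276033800 / 23298085122481) * s ^ 11 * t +
      (18066727287759341569013 / 931923404899240) * s ^ 12 := by
    intro s t hs ht
    positivity
  have e : (2014225 / 8) - (1436175 / 4) * x ^ 2 + (449775 / 8) * x ^ 4 + (4455 / 2) * x ^ 6 - (3969 / 8) * x ^ 8 + (81 / 4) * x ^ 10 - (27 / 40) * x ^ 12 =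
      (1031283200000000000000 / 23298085122481) * ((13 / 20) - x) ^ 12 +
      (12375398400000000000000 / 23298085122481) * x * ((13 / 20) - x) ^ 11 +
      (67443344448000000000000 / 23298085122481) * x ^ 2 * ((13 / 20) - x) ^ 10 +
      (220668836480000000000000 / 23298085122481) * x ^ 3 * ((13 / 20) - x) ^ 9 +
      (482565687436080000000000 / 23298085122481) * x ^ 4 * ((13 / 20) - x) ^ 8 +
      (742543542368640000000000 / 23298085122481) * x ^ 5 * ((13 / 20) - x) ^ 7 +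
      (823574550720131040000000 / 23298085122481) * x ^ 6 * ((13 / 20) - x) ^ 6 +
      (662503049015826240000000 / 23298085122481) * x ^ 7 * ((13 / 20) - x) ^ 5 +
      (382890132301260967020000 / 23298085122481) * x ^ 8 * ((13 / 20) - x) ^ 4 +
      (154636204407482268080000 / 23298085122481) * x ^ 9 * ((13 / 20) - x) ^ 3 +
      (41265025339031586096900 / 23298085122481) * x ^ 10 * ((13 / 20) - x) ^ 2 +
      (6494660970475276033800 / 23298085122481) * x ^ 11 * ((13 / 20) - x) +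
      (18066727287759341569013 / 931923404899240) * x ^ 12 := by
    ring
  rw [e]
  exact key _ _ (by linarith) (by linarith)

theorem c5_b {x : ℝ} (h1 : (47 / 40) ≤ x) (h2 : x ≤ 2) :
    0 ≤ -((55 + 10 * x - 30 * x ^ 2 + 10 * x ^ 3 - x ^ 4) ^ 2 * (60 - 24 * x) - 3 * (55 + 10 * x - 30 * x ^ 2 + 10 * x ^ 3 - x ^ 4) * (10 - 60 * x + 30 * x ^ 2 - 4 * x ^ 3) * (-60 + 60 * x - 12 * x ^ 2) + 2 * (10 - 60 * x + 30 * x ^ 2 - 4 * x ^ 3) ^ 3) - 2 * (1 / 80) * x * (55 + 10 * x - 30 * x ^ 2 + 10 * x ^ 3 - x ^ 4) ^ 3 := by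
  have key : ∀ s t : ℝ, 0 ≤ s → 0 ≤ t → 0 ≤ (72646853169380572336301 / 81541265175479264760) * t ^ 13 +
      (4595870077835924525343412 / 18346784664482834571) * s * t ^ 12 +
      (15057082937110087413975760 / 6115594888160944857) * s ^ 2 * t ^ 11 +
      (6218894638565298103068800 / 555963171650994987) * s ^ 3 * t ^ 10 +
      (51291533161365225888320000 / 1667889514952984961) * s ^ 4 * t ^ 9 +
      (10535045753206037918720000 / 185321057216998329) * s ^ 5 * t ^ 8 +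
      (13781021223161364070400000 / 185321057216998329) * s ^ 6 * t ^ 7 +
      (39216631052494225408000000 / 555963171650994987) * s ^ 7 * t ^ 6 +
      (9055361208820858880000000 / 185321057216998329) * s ^ 8 * t ^ 5 +
      (1514851758505984000000000 / 61773685738999443) * s ^ 9 * t ^ 4 +
      (14497683843055616000000000 / 1667889514952984961) * s ^ 10 * t ^ 3 +
      (12628036566384640000000000 / 6115594888160944857) * s ^ 11 * t ^ 2 +
      (1804624042393600000000000 / 6115594888160944857) * s ^ 12 * t +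
      (351885328384000000000000 / 18346784664482834571) * s ^ 13 := by
    intro s t hs ht
    positivity
  have e : -((55 + 10 * x - 30 * x ^ 2 + 10 * x ^ 3 - x ^ 4) ^ 2 * (60 - 24 * x) - 3 * (55 + 10 * x - 30 * x ^ 2 + 10 * x ^ 3 - x ^ 4) * (10 - 60 * x + 30 * x ^ 2 - 4 * x ^ 3) * (-60 + 60 * x - 12 * x ^ 2) + 2 * (10 - 60 * x + 30 * x ^ 2 - 4 * x ^ 3) ^ 3) - 2 * (1 / 80) * x * (55 + 10 * x - 30 * x ^ 2 + 10 * x ^ 3 - x ^ 4) ^ 3 =
      (72646853169380572336301 / 81541265175479264760) * (2 - x) ^ 13 +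
      (4595870077835924525343412 / 18346784664482834571) * (x - (47 / 40)) * (2 - x) ^ 12 +
      (15057082937110087413975760 / 6115594888160944857) * (x - (47 / 40)) ^ 2 * (2 - x) ^ 11 +
      (6218894638565298103068800 / 555963171650994987) * (x - (47 / 40)) ^ 3 * (2 - x) ^ 10 +
      (51291533161365225888320000 / 1667889514952984961) * (x - (47 / 40)) ^ 4 * (2 - x) ^ 9 +
      (10535045753206037918720000 / 185321057216998329) * (x - (47 / 40)) ^ 5 * (2 - x) ^ 8 +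
      (13781021223161364070400000 / 185321057216998329) * (x - (47 / 40)) ^ 6 * (2 - x) ^ 7 +
      (39216631052494225408000000 / 555963171650994987) * (x - (47 / 40)) ^ 7 * (2 - x) ^ 6 +
      (9055361208820858880000000 / 185321057216998329) * (x - (47 / 40)) ^ 8 * (2 - x) ^ 5 +
      (1514851758505984000000000 / 61773685738999443) * (x - (47 / 40)) ^ 9 * (2 - x) ^ 4 +
      (14497683843055616000000000 / 1667889514952984961) * (x - (47 / 40)) ^ 10 * (2 - x) ^ 3 +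
      (12628036566384640000000000 / 6115594888160944857) * (x - (47 / 40)) ^ 11 * (2 - x) ^ 2 +
      (1804624042393600000000000 / 6115594888160944857) * (x - (47 / 40)) ^ 12 * (2 - x) +
      (351885328384000000000000 / 18346784664482834571) * (x - (47 / 40)) ^ 13 := by
    ring
  rw [e]
  exact key _ _ (by linarith) (by linarith)

theorem c5_c {x : ℝ} (h1 : 2 ≤ x) (h2 : x ≤ 3) :
    0 ≤ -((55 + 10 * x - 30 * x ^ 2 + 10 * x ^ 3 - x ^ 4) ^ 2 * (60 - 24 * x) - 3 * (55 + 10 * x - 30 * x ^ 2 + 10 * x ^ 3 - x ^ 4) * (10 - 60 * x + 30 * x ^ 2 - 4 * x ^ 3) * (-60 + 60 * x - 12 * x ^ 2) + 2 * (10 - 60 * x + 30 * x ^ 2 - 4 * x ^ 3) ^ 3) - 2 * (1 / 80) * x * (55 + 10 * x - 30 * x ^ 2 + 10 * x ^ 3 - x ^ 4) ^ 3 := by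
  have key : ∀ s t : ℝ, 0 ≤ s → 0 ≤ t → 0 ≤ (31461 / 20) * t ^ 13 +
      (636059 / 40) * s * t ^ 12 +
      (1410303 / 20) * s ^ 2 * t ^ 11 +
      (3612679 / 20) * s ^ 3 * t ^ 10 +
      295211 * s ^ 4 * t ^ 9 +
      (1598037 / 5) * s ^ 5 * t ^ 8 +
      (1146909 / 5) * s ^ 6 * t ^ 7 +
      (528891 / 5) * s ^ 7 * t ^ 6 +
      (151128 / 5) * s ^ 8 * t ^ 5 +
      7264 * s ^ 9 * t ^ 4 +
      (19004 / 5) * s ^ 10 * t ^ 3 +
      (10068 / 5) * s ^ 11 * t ^ 2 +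
      (2752 / 5) * s ^ 12 * t +
      (296 / 5) * s ^ 13 := by
    intro s t hs ht
    positivity
  have e : -((55 + 10 * x - 30 * x ^ 2 + 10 * x ^ 3 - x ^ 4) ^ 2 * (60 - 24 * x) - 3 * (55 + 10 * x - 30 * x ^ 2 + 10 * x ^ 3 - x ^ 4) * (10 - 60 * x + 30 * x ^ 2 - 4 * x ^ 3) * (-60 + 60 * x - 12 * x ^ 2) + 2 * (10 - 60 * x + 30 * x ^ 2 - 4 * x ^ 3) ^ 3) - 2 * (1 / 80) * x * (55 + 10 * x - 30 * x ^ 2 + 10 * x ^ 3 - x ^ 4) ^ 3 =
      (31461 / 20) * (3 - x) ^ 13 +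
      (636059 / 40) * (x - 2) * (3 - x) ^ 12 +
      (1410303 / 20) * (x - 2) ^ 2 * (3 - x) ^ 11 +
      (3612679 / 20) * (x - 2) ^ 3 * (3 - x) ^ 10 +
      295211 * (x - 2) ^ 4 * (3 - x) ^ 9 +
      (1598037 / 5) * (x - 2) ^ 5 * (3 - x) ^ 8 +
      (1146909 / 5) * (x - 2) ^ 6 * (3 - x) ^ 7 +
      (528891 / 5) * (x - 2) ^ 7 * (3 - x) ^ 6 +
      (151128 / 5) * (x - 2) ^ 8 * (3 - x) ^ 5 +
      7264 * (x - 2) ^ 9 * (3 - x) ^ 4 +
      (19004 / 5) * (x - 2) ^ 10 * (3 - x) ^ 3 +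
      (10068 / 5) * (x - 2) ^ 11 * (3 - x) ^ 2 +
      (2752 / 5) * (x - 2) ^ 12 * (3 - x) +
      (296 / 5) * (x - 2) ^ 13 := by
    ring
  rw [e]
  exact key _ _ (by linarith) (by linarith)

theorem c5_d {x : ℝ} (h1 : (13 / 20) ≤ x) (h2 : x ≤ 1) :
    0 ≤ ((-60 * x + 12 * x ^ 3) ^ 2 - (115 - 30 * x ^ 2 + 3 * x ^ 4) * (-60 + 36 * x ^ 2)) - ((727516769493466607551 / 1318623534483886208000) - (21 / 10000) * ((47 / 40) - x) + (1 / 80) * x ^ 2) * (115 - 30 * x ^ 2 + 3 * x ^ 4) ^ 2 := by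
  have key : ∀ s t : ℝ, 0 ≤ s → 0 ≤ t → 0 ≤ (38523051834599317098644846803891 / 3325700993219605741897016000) * t ^ 10 +
      (2060111579740909019378618561661697 / 237550070944257552992644000) * s * t ^ 9 +
      (245362042433301030722132976911589407 / 3325700993219605741897016000) * s ^ 2 * t ^ 8 +
      (5746315092177320527597500777579559 / 20785631207622535886856350) * s ^ 3 * t ^ 7 +
      (176770382355457465166179847934578 / 296937588680321941240805) * s ^ 4 * t ^ 6 +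
      (47991995409607736521889409952448 / 59387517736064388248161) * s ^ 5 * t ^ 5 +
      (42327156852631170061854417116800 / 59387517736064388248161) * s ^ 6 * t ^ 4 +
      (168146424355752157397480705561600 / 415712624152450717737127) * s ^ 7 * t ^ 3 +
      (8316549320859660166472705536000 / 59387517736064388248161) * s ^ 8 * t ^ 2 +
      (10783506819382621355349729280000 / 415712624152450717737127) * s ^ 9 * t +
      (745846905996048938922598400000 / 415712624152450717737127) * s ^ 10 := by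
    intro s t hs ht
    positivity
  have e : ((-60 * x + 12 * x ^ 3) ^ 2 - (115 - 30 * x ^ 2 + 3 * x ^ 4) * (-60 + 36 * x ^ 2)) - ((727516769493466607551 / 1318623534483886208000) - (21 / 10000) * ((47 / 40) - x) + (1 / 80) * x ^ 2) * (115 - 30 * x ^ 2 + 3 * x ^ 4) ^ 2 =
      (38523051834599317098644846803891 / 3325700993219605741897016000) * (1 - x) ^ 10 +
      (2060111579740909019378618561661697 / 237550070944257552992644000) * (x - (13 / 20)) * (1 - x) ^ 9 +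
      (245362042433301030722132976911589407 / 3325700993219605741897016000) * (x - (13 / 20)) ^ 2 * (1 - x) ^ 8 +
      (5746315092177320527597500777579559 / 20785631207622535886856350) * (x - (13 / 20)) ^ 3 * (1 - x) ^ 7 +
      (176770382355457465166179847934578 / 296937588680321941240805) * (x - (13 / 20)) ^ 4 * (1 - x) ^ 6 +
      (47991995409607736521889409952448 / 59387517736064388248161) * (x - (13 / 20)) ^ 5 * (1 - x) ^ 5 +
      (42327156852631170061854417116800 / 59387517736064388248161) * (x - (13 / 20)) ^ 6 * (1 - x) ^ 4 +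
      (168146424355752157397480705561600 / 415712624152450717737127) * (x - (13 / 20)) ^ 7 * (1 - x) ^ 3 +
      (8316549320859660166472705536000 / 59387517736064388248161) * (x - (13 / 20)) ^ 8 * (1 - x) ^ 2 +
      (10783506819382621355349729280000 / 415712624152450717737127) * (x - (13 / 20)) ^ 9 * (1 - x) +
      (745846905996048938922598400000 / 415712624152450717737127) * (x - (13 / 20)) ^ 10 := by
    ring
  rw [e]
  exact key _ _ (by linarith) (by linarith)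

theorem c5_e {x : ℝ} (h1 : 1 ≤ x) (h2 : x ≤ (47 / 40)) :
    0 ≤ ((10 - 60 * x + 30 * x ^ 2 - 4 * x ^ 3) ^ 2 - (55 + 10 * x - 30 * x ^ 2 + 10 * x ^ 3 - x ^ 4) * (-60 + 60 * x - 12 * x ^ 2)) - ((727516769493466607551 / 1318623534483886208000) - (21 / 10000) * ((47 / 40) - x) + (1 / 80) * x ^ 2) * (55 + 10 * x - 30 * x ^ 2 + 10 * x ^ 3 - x ^ 4) ^ 2 := by
  have key : ∀ s t : ℝ, 0 ≤ s → 0 ≤ t → 0 ≤ (190936807934988528364185190400000 / 415712624152450717737127) * t ^ 10 +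
      (1483763246143852391978012508160000 / 415712624152450717737127) * s * t ^ 9 +
      (5048091085951459307779494412288000 / 415712624152450717737127) * s ^ 2 * t ^ 8 +
      (1403691838426317545445362988646400 / 59387517736064388248161) * s ^ 3 * t ^ 7 +
      (1711130773081740257822292871961600 / 59387517736064388248161) * s ^ 4 * t ^ 6 +
      (1339962888056478090137962209006336 / 59387517736064388248161) * s ^ 5 * t ^ 5 +
      (3303946859031238423110875242909632 / 296937588680321941240805) * s ^ 6 * t ^ 4 +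
      (33197840005684548298480123339375226 / 10392815603811267943428175) * s ^ 7 * t ^ 3 +
      (357457019876662984604112541215052583 / 831425248304901435474254000) * s ^ 8 * t ^ 2 +
      (38793916677781654529142981 / 4095790993201033000) * s ^ 9 * t := by
    intro s t hs ht
    positivity
  have e : ((10 - 60 * x + 30 * x ^ 2 - 4 * x ^ 3) ^ 2 - (55 + 10 * x - 30 * x ^ 2 + 10 * x ^ 3 - x ^ 4) * (-60 + 60 * x - 12 * x ^ 2)) - ((727516769493466607551 / 1318623534483886208000) - (21 / 10000) * ((47 / 40) - x) + (1 / 80) * x ^ 2) * (55 + 10 * x - 30 * x ^ 2 + 10 * x ^ 3 - x ^ 4) ^ 2 =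
      (190936807934988528364185190400000 / 415712624152450717737127) * ((47 / 40) - x) ^ 10 +
      (1483763246143852391978012508160000 / 415712624152450717737127) * (x - 1) * ((47 / 40) - x) ^ 9 +
      (5048091085951459307779494412288000 / 415712624152450717737127) * (x - 1) ^ 2 * ((47 / 40) - x) ^ 8 +
      (1403691838426317545445362988646400 / 59387517736064388248161) * (x - 1) ^ 3 * ((47 / 40) - x) ^ 7 +
      (1711130773081740257822292871961600 / 59387517736064388248161) * (x - 1) ^ 4 * ((47 / 40) - x) ^ 6 +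
      (1339962888056478090137962209006336 / 59387517736064388248161) * (x - 1) ^ 5 * ((47 / 40) - x) ^ 5 +
      (3303946859031238423110875242909632 / 296937588680321941240805) * (x - 1) ^ 6 * ((47 / 40) - x) ^ 4 +
      (33197840005684548298480123339375226 / 10392815603811267943428175) * (x - 1) ^ 7 * ((47 / 40) - x) ^ 3 +
      (357457019876662984604112541215052583 / 831425248304901435474254000) * (x - 1) ^ 8 * ((47 / 40) - x) ^ 2 +
      (38793916677781654529142981 / 4095790993201033000) * (x - 1) ^ 9 * ((47 / 40) - x) := by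
    ring
  rw [e]
  exact key _ _ (by linarith) (by linarith)

theorem c6_a {x : ℝ} (h1 : (1 / 2) ≤ x) (h2 : x ≤ 2) :
    0 ≤ -((1056 - 240 * x ^ 2 + 30 * x ^ 4 - 5 * x ^ 5) ^ 2 * (720 * x - 300 * x ^ 2) - 3 * (1056 - 240 * x ^ 2 + 30 * x ^ 4 - 5 * x ^ 5) * (-480 * x + 120 * x ^ 3 - 25 * x ^ 4) * (-480 + 360 * x ^ 2 - 100 * x ^ 3) + 2 * (-480 * x + 120 * x ^ 3 - 25 * x ^ 4) ^ 3) - 2 * (1 / 100) * x * (1056 - 240 * x ^ 2 + 30 * x ^ 4 - 5 * x ^ 5) ^ 3 := by
  have key : ∀ s t : ℝ, 0 ≤ s → 0 ≤ t → 0 ≤ (938039084113 / 239148450) * t ^ 16 +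
      (64525769013658 / 358722675) * s * t ^ 15 +
      (53593501425184 / 23914845) * s ^ 2 * t ^ 14 +
      (7453494272128 / 531441) * s ^ 3 * t ^ 13 +
      (3863476747474528 / 71744535) * s ^ 4 * t ^ 12 +
      (16680655083564032 / 119574225) * s ^ 5 * t ^ 11 +
      (30706534974143488 / 119574225) * s ^ 6 * t ^ 10 +
      (24814650429108224 / 71744535) * s ^ 7 * t ^ 9 +
      (551643488493568 / 1594323) * s ^ 8 * t ^ 8 +
      (6178502368755712 / 23914845) * s ^ 9 * t ^ 7 +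
      (51499189949956096 / 358722675) * s ^ 10 * t ^ 6 +
      (7038581020295168 / 119574225) * s ^ 11 * t ^ 5 +
      (140645245124608 / 7971615) * s ^ 12 * t ^ 4 +
      (55541661433856 / 14348907) * s ^ 13 * t ^ 3 +
      (15238678183936 / 23914845) * s ^ 14 * t ^ 2 +
      (9415105183744 / 119574225) * s ^ 15 * t +
      (2028835176448 / 358722675) * s ^ 16 := by
    intro s t hs ht
    positivity
  have e : -((1056 - 240 * x ^ 2 + 30 * x ^ 4 - 5 * x ^ 5) ^ 2 * (720 * x - 300 * x ^ 2) - 3 * (1056 - 240 * x ^ 2 + 30 * x ^ 4 - 5 * x ^ 5) * (-480 * x + 120 * x ^ 3 - 25 * x ^ 4) * (-480 + 360 * x ^ 2 - 100 * x ^ 3) + 2 * (-480 * x + 120 * x ^ 3 - 25 * x ^ 4) ^ 3) - 2 * (1 / 100) * x * (1056 - 240 * x ^ 2 + 30 * x ^ 4 - 5 * x ^ 5) ^ 3 =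
      (938039084113 / 239148450) * (2 - x) ^ 16 +
      (64525769013658 / 358722675) * (x - (1 / 2)) * (2 - x) ^ 15 +
      (53593501425184 / 23914845) * (x - (1 / 2)) ^ 2 * (2 - x) ^ 14 +
      (7453494272128 / 531441) * (x - (1 / 2)) ^ 3 * (2 - x) ^ 13 +
      (3863476747474528 / 71744535) * (x - (1 / 2)) ^ 4 * (2 - x) ^ 12 +
      (16680655083564032 / 119574225) * (x - (1 / 2)) ^ 5 * (2 - x) ^ 11 +
      (30706534974143488 / 119574225) * (x - (1 / 2)) ^ 6 * (2 - x) ^ 10 +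
      (24814650429108224 / 71744535) * (x - (1 / 2)) ^ 7 * (2 - x) ^ 9 +
      (551643488493568 / 1594323) * (x - (1 / 2)) ^ 8 * (2 - x) ^ 8 +
      (6178502368755712 / 23914845) * (x - (1 / 2)) ^ 9 * (2 - x) ^ 7 +
      (51499189949956096 / 358722675) * (x - (1 / 2)) ^ 10 * (2 - x) ^ 6 +
      (7038581020295168 / 119574225) * (x - (1 / 2)) ^ 11 * (2 - x) ^ 5 +
      (140645245124608 / 7971615) * (x - (1 / 2)) ^ 12 * (2 - x) ^ 4 +
      (55541661433856 / 14348907) * (x - (1 / 2)) ^ 13 * (2 - x) ^ 3 +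
      (15238678183936 / 23914845) * (x - (1 / 2)) ^ 14 * (2 - x) ^ 2 +
      (9415105183744 / 119574225) * (x - (1 / 2)) ^ 15 * (2 - x) +
      (2028835176448 / 358722675) * (x - (1 / 2)) ^ 16 := by
    ring
  rw [e]
  exact key _ _ (by linarith) (by linarith)

theorem c6_b {x : ℝ} (h1 : 2 ≤ x) (h2 : x ≤ 4) :
    0 ≤ -((1632 + 1200 * x - 1680 * x ^ 2 + 600 * x ^ 3 - 90 * x ^ 4 + 5 * x ^ 5) ^ 2 * (3600 - 2160 * x + 300 * x ^ 2) - 3 * (1632 + 1200 * x - 1680 * x ^ 2 + 600 * x ^ 3 - 90 * x ^ 4 + 5 * x ^ 5) * (1200 - 3360 * x + 1800 * x ^ 2 - 360 * x ^ 3 + 25 * x ^ 4) * (-3360 + 3600 * x - 1080 * x ^ 2 + 100 * x ^ 3) + 2 * (1200 - 3360 * x + 1800 * x ^ 2 - 360 * x ^ 3 + 25 * x ^ 4) ^ 3) - 2 * (1 / 100) * x * (1632 + 1200 * x - 1680 * x ^ 2 + 600 * x ^ 3 - 90 * x ^ 4 + 5 * x ^ 5) ^ 3 := by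
  have key : ∀ s t : ℝ, 0 ≤ s → 0 ≤ t → 0 ≤ (11337 / 25) * t ^ 16 +
      (212804 / 25) * s * t ^ 15 +
      (272283 / 5) * s ^ 2 * t ^ 14 +
      186137 * s ^ 3 * t ^ 13 +
      (3994831 / 10) * s ^ 4 * t ^ 12 +
      (14569431 / 25) * s ^ 5 * t ^ 11 +
      (15154057 / 25) * s ^ 6 * t ^ 10 +
      (4667277 / 10) * s ^ 7 * t ^ 9 +
      (1108827 / 4) * s ^ 8 * t ^ 8 +
      (1338207 / 10) * s ^ 9 * t ^ 7 +
      (1381126 / 25) * s ^ 10 * t ^ 6 +
      (985629 / 50) * s ^ 11 * t ^ 5 +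
      (231019 / 40) * s ^ 12 * t ^ 4 +
      1271 * s ^ 13 * t ^ 3 +
      (3777 / 20) * s ^ 14 * t ^ 2 +
      (407 / 25) * s ^ 15 * t +
      (117 / 200) * s ^ 16 := by
    intro s t hs ht
    positivity
  have e : -((1632 + 1200 * x - 1680 * x ^ 2 + 600 * x ^ 3 - 90 * x ^ 4 + 5 * x ^ 5) ^ 2 * (3600 - 2160 * x + 300 * x ^ 2) - 3 * (1632 + 1200 * x - 1680 * x ^ 2 + 600 * x ^ 3 - 90 * x ^ 4 + 5 * x ^ 5) * (1200 - 3360 * x + 1800 * x ^ 2 - 360 * x ^ 3 + 25 * x ^ 4) * (-3360 + 3600 * x - 1080 * x ^ 2 + 100 * x ^ 3) + 2 * (1200 - 3360 * x + 1800 * x ^ 2 - 360 * x ^ 3 + 25 * x ^ 4) ^ 3) - 2 * (1 / 100) * x * (1632 + 1200 * x - 1680 * x ^ 2 + 600 * x ^ 3 - 90 * x ^ 4 + 5 * x ^ 5) ^ 3 =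
      (11337 / 25) * (4 - x) ^ 16 +
      (212804 / 25) * (x - 2) * (4 - x) ^ 15 +
      (272283 / 5) * (x - 2) ^ 2 * (4 - x) ^ 14 +
      186137 * (x - 2) ^ 3 * (4 - x) ^ 13 +
      (3994831 / 10) * (x - 2) ^ 4 * (4 - x) ^ 12 +
      (14569431 / 25) * (x - 2) ^ 5 * (4 - x) ^ 11 +
      (15154057 / 25) * (x - 2) ^ 6 * (4 - x) ^ 10 +
      (4667277 / 10) * (x - 2) ^ 7 * (4 - x) ^ 9 +
      (1108827 / 4) * (x - 2) ^ 8 * (4 - x) ^ 8 +
      (1338207 / 10) * (x - 2) ^ 9 * (4 - x) ^ 7 +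
      (1381126 / 25) * (x - 2) ^ 10 * (4 - x) ^ 6 +
      (985629 / 50) * (x - 2) ^ 11 * (4 - x) ^ 5 +
      (231019 / 40) * (x - 2) ^ 12 * (4 - x) ^ 4 +
      1271 * (x - 2) ^ 13 * (4 - x) ^ 3 +
      (3777 / 20) * (x - 2) ^ 14 * (4 - x) ^ 2 +
      (407 / 25) * (x - 2) ^ 15 * (4 - x) +
      (117 / 200) * (x - 2) ^ 16 := by
    ring
  rw [e]
  exact key _ _ (by linarith) (by linarith)

theorem c6_c {x : ℝ} (h1 : 0 ≤ x) (h2 : x ≤ (1 / 2)) :
    0 ≤ ((-480 * x + 120 * x ^ 3 - 25 * x ^ 4) ^ 2 - (1056 - 240 * x ^ 2 + 30 * x ^ 4 - 5 * x ^ 5) * (-480 + 360 * x ^ 2 - 100 * x ^ 3)) - ((184493570671 / 407733331600) - (1 / 300) * ((1 / 2) - x) + (1 / 100) * x ^ 2) * (1056 - 240 * x ^ 2 + 30 * x ^ 4 - 5 * x ^ 5) ^ 2 := by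
  have key : ∀ s t : ℝ, 0 ≤ s → 0 ≤ t → 0 ≤ (86745372590604288 / 5096666645) * t ^ 12 +
      (5010726359076962304 / 25483333225) * s * t ^ 11 +
      (5049978992944939008 / 5096666645) * s ^ 2 * t ^ 10 +
      (2949150688856309760 / 1019333329) * s ^ 3 * t ^ 9 +
      (27794412622698190848 / 5096666645) * s ^ 4 * t ^ 8 +
      (35501328522200748544 / 5096666645) * s ^ 5 * t ^ 7 +
      (156273735309456123648 / 25483333225) * s ^ 6 * t ^ 6 +
      (18828334909609288768 / 5096666645) * s ^ 7 * t ^ 5 +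
      (1499279446551289484 / 1019333329) * s ^ 8 * t ^ 4 +
      (1821996034506112358 / 5096666645) * s ^ 9 * t ^ 3 +
      (2699492195878766497 / 61159999740) * s ^ 10 * t ^ 2 +
      (3608599961966 / 2394525) * s ^ 11 * t := by
    intro s t hs ht
    positivity
  have e : ((-480 * x + 120 * x ^ 3 - 25 * x ^ 4) ^ 2 - (1056 - 240 * x ^ 2 + 30 * x ^ 4 - 5 * x ^ 5) * (-480 + 360 * x ^ 2 - 100 * x ^ 3)) - ((184493570671 / 407733331600) - (1 / 300) * ((1 / 2) - x) + (1 / 100) * x ^ 2) * (1056 - 240 * x ^ 2 + 30 * x ^ 4 - 5 * x ^ 5) ^ 2 =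
      (86745372590604288 / 5096666645) * ((1 / 2) - x) ^ 12 +
      (5010726359076962304 / 25483333225) * x * ((1 / 2) - x) ^ 11 +
      (5049978992944939008 / 5096666645) * x ^ 2 * ((1 / 2) - x) ^ 10 +
      (2949150688856309760 / 1019333329) * x ^ 3 * ((1 / 2) - x) ^ 9 +
      (27794412622698190848 / 5096666645) * x ^ 4 * ((1 / 2) - x) ^ 8 +
      (35501328522200748544 / 5096666645) * x ^ 5 * ((1 / 2) - x) ^ 7 +
      (156273735309456123648 / 25483333225) * x ^ 6 * ((1 / 2) - x) ^ 6 +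
      (18828334909609288768 / 5096666645) * x ^ 7 * ((1 / 2) - x) ^ 5 +
      (1499279446551289484 / 1019333329) * x ^ 8 * ((1 / 2) - x) ^ 4 +
      (1821996034506112358 / 5096666645) * x ^ 9 * ((1 / 2) - x) ^ 3 +
      (2699492195878766497 / 61159999740) * x ^ 10 * ((1 / 2) - x) ^ 2 +
      (3608599961966 / 2394525) * x ^ 11 * ((1 / 2) - x) := by
    ring
  rw [e]
  exact key _ _ (by linarith) (by linarith)


/-! ### generic facts -/

theorem Wf_deriv_nonneg {n : ℕ} {lam x D p0 p1 p2 p3 : ℝ} (hn : 5 ≤ n) (hx : |x| < n) (hD : 0 < D)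
    (h0 : bs n 0 x = p0 / D) (h1 : bs n 1 x = p1 / D) (h2 : bs n 2 x = p2 / D)
    (h3 : bs n 3 x = p3 / D)
    (hc : 0 ≤ -(p0 ^ 2 * p3 - 3 * p0 * p1 * p2 + 2 * p1 ^ 3) - 2 * lam * x * p0 ^ 3) :
    0 ≤ - E3 n x / (bs n 0 x) ^ 3 - lam * (2 * x) := by
  have hp := bs_pos (by omega : 2 ≤ n) hx
  have hp0 : 0 < p0 := by
    rw [h0] at hp
    exact (div_pos_iff_of_pos_right hD).1 hp
  have e : - E3 n x / (bs n 0 x) ^ 3 - lam * (2 * x) =
      (-(p0 ^ 2 * p3 - 3 * p0 * p1 * p2 + 2 * p1 ^ 3) - 2 * lam * x * p0 ^ 3) / p0 ^ 3 := by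
    unfold E3
    rw [h0, h1, h2, h3]
    field_simp
  rw [e]
  positivity

theorem Wf_hasDerivAt {n : ℕ} (hn : 5 ≤ n) (lam : ℝ) {x : ℝ} (hx : |x| < n) :
    HasDerivAt (Wf n lam) (- E3 n x / (bs n 0 x) ^ 3 - lam * (2 * x)) x := by
  have h := (V2_hasDerivAt hn hx).sub ((hasDerivAt_pow 2 x).const_mul lam)
  refine h.congr_deriv ?_
  push_cast
  ring

theorem Wf_mono_Icc {n : ℕ} (hn : 5 ≤ n) {lam a b : ℝ} (ha : 0 ≤ a) (hb : b < n)
    (h : ∀ x ∈ Ioo a b, 0 ≤ - E3 n x / (bs n 0 x) ^ 3 - lam * (2 * x)) :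
    MonotoneOn (Wf n lam) (Icc a b) := by
  have hx : ∀ x ∈ Icc a b, |x| < n := fun x hx => abs_lt.2 ⟨by linarith [hx.1, hx.2], by linarith [hx.2]⟩
  apply monotoneOn_of_deriv_nonneg (convex_Icc _ _)
  · exact fun x h1 => (Wf_hasDerivAt hn lam (hx x h1)).continuousAt.continuousWithinAt
  · exact fun x h1 => (Wf_hasDerivAt hn lam (hx x (interior_subset h1))).differentiableAt.differentiableWithinAt
  · intro x h1
    rw [(Wf_hasDerivAt hn lam (hx x (interior_subset h1))).deriv]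
    rw [interior_Icc] at h1
    exact h x h1

theorem Wf_mono_Ico {n : ℕ} (hn : 5 ≤ n) {lam a : ℝ} (ha : 0 ≤ a)
    (h : ∀ x ∈ Ioo a (n:ℝ), 0 ≤ - E3 n x / (bs n 0 x) ^ 3 - lam * (2 * x)) :
    MonotoneOn (Wf n lam) (Ico a n) := by
  intro x hx y hy hxy
  exact Wf_mono_Icc hn ha hy.2 (fun z hz => h z ⟨hz.1, hz.2.trans hy.2⟩)
    ⟨hx.1, hxy⟩ ⟨hy.1, le_rfl⟩ hxy

theorem Wf_ge {n : ℕ} {lam x D p0 p1 p2 L : ℝ} (hn : 2 ≤ n) (hx : |x| < n) (hD : 0 < D)
    (h0 : bs n 0 x = p0 / D) (h1 : bs n 1 x = p1 / D) (h2 : bs n 2 x = p2 / D)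
    (hc : 0 ≤ (p1 ^ 2 - p0 * p2) - (L + lam * x ^ 2) * p0 ^ 2) : L ≤ Wf n lam x := by
  have hp := bs_pos hn hx
  have hp0 : 0 < p0 := by
    rw [h0] at hp
    exact (div_pos_iff_of_pos_right hD).1 hp
  have e : Wf n lam x - L = ((p1 ^ 2 - p0 * p2) - (L + lam * x ^ 2) * p0 ^ 2) / p0 ^ 2 := by
    unfold Wf V2
    rw [h0, h1, h2]
    field_simp
    ring
  have : 0 ≤ Wf n lam x - L := by rw [e]; positivity
  linarith

theorem Wf_value {n : ℕ} {lam x D p0 p1 p2 : ℝ} (hn : 2 ≤ n) (hx : |x| < n) (hD : 0 < D)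
    (h0 : bs n 0 x = p0 / D) (h1 : bs n 1 x = p1 / D) (h2 : bs n 2 x = p2 / D) :
    Wf n lam x = (p1 ^ 2 - p0 * p2) / p0 ^ 2 - lam * x ^ 2 := by
  have hp := bs_pos hn hx
  have hp0 : 0 < p0 := by
    rw [h0] at hp
    exact (div_pos_iff_of_pos_right hD).1 hp
  unfold Wf V2
  rw [h0, h1, h2]
  field_simp

theorem Va_value {n : ℕ} {x D p0 p1 : ℝ} (hn : 2 ≤ n) (hx : |x| < n) (hD : 0 < D)
    (h0 : bs n 0 x = p0 / D) (h1 : bs n 1 x = p1 / D) : Va n x = - p1 / p0 := by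
  have hp := bs_pos hn hx
  have hp0 : 0 < p0 := by
    rw [h0] at hp
    exact (div_pos_iff_of_pos_right hD).1 hp
  unfold Va
  rw [h0, h1]
  field_simp

/-! ### the density for `n = 5` -/

theorem bs5_a {x : ℝ} (h0 : 0 ≤ x) (h1 : x ≤ 1) :
    bs 5 0 x = (115 - 30 * x ^ 2 + 3 * x ^ 4) / 384 ∧ bs 5 1 x = (-60 * x + 12 * x ^ 3) / 384 ∧
      bs 5 2 x = (-60 + 36 * x ^ 2) / 384 ∧ bs 5 3 x = (72 * x) / 384 := by
  unfold bs
  simp only [Finset.sum_range_succ, Finset.sum_range_zero]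
  norm_num [Nat.choose, Nat.factorial]
  rw [max_eq_left (by linarith : (0:ℝ) ≤ x + 5), max_eq_left (by linarith : (0:ℝ) ≤ x + 5 - 2),
    max_eq_left (by linarith : (0:ℝ) ≤ x + 5 - 4), max_eq_right (by linarith : x + 5 - 6 ≤ (0:ℝ)),
    max_eq_right (by linarith : x + 5 - 8 ≤ (0:ℝ)), max_eq_right (by linarith : x + 5 - 10 ≤ (0:ℝ))]
  refine ⟨by ring, by ring, by ring, by ring⟩

theorem bs5_b {x : ℝ} (h0 : 1 ≤ x) (h1 : x ≤ 3) :
    bs 5 0 x = (55 + 10 * x - 30 * x ^ 2 + 10 * x ^ 3 - x ^ 4) / 192 ∧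
      bs 5 1 x = (10 - 60 * x + 30 * x ^ 2 - 4 * x ^ 3) / 192 ∧
      bs 5 2 x = (-60 + 60 * x - 12 * x ^ 2) / 192 ∧ bs 5 3 x = (60 - 24 * x) / 192 := by
  unfold bs
  simp only [Finset.sum_range_succ, Finset.sum_range_zero]
  norm_num [Nat.choose, Nat.factorial]
  rw [max_eq_left (by linarith : (0:ℝ) ≤ x + 5), max_eq_left (by linarith : (0:ℝ) ≤ x + 5 - 2),
    max_eq_left (by linarith : (0:ℝ) ≤ x + 5 - 4), max_eq_left (by linarith : (0:ℝ) ≤ x + 5 - 6),
    max_eq_right (by linarith : x + 5 - 8 ≤ (0:ℝ)), max_eq_right (by linarith : x + 5 - 10 ≤ (0:ℝ))]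
  refine ⟨by ring, by ring, by ring, by ring⟩

theorem bs5_c {x : ℝ} (h0 : 3 ≤ x) (h1 : x ≤ 5) :
    bs 5 0 x = (5 - x) ^ 4 / 768 ∧ bs 5 1 x = (-4 * (5 - x) ^ 3) / 768 ∧
      bs 5 2 x = (12 * (5 - x) ^ 2) / 768 ∧ bs 5 3 x = (-24 * (5 - x)) / 768 := by
  unfold bs
  simp only [Finset.sum_range_succ, Finset.sum_range_zero]
  norm_num [Nat.choose, Nat.factorial]
  rw [max_eq_left (by linarith : (0:ℝ) ≤ x + 5), max_eq_left (by linarith : (0:ℝ) ≤ x + 5 - 2),
    max_eq_left (by linarith : (0:ℝ) ≤ x + 5 - 4), max_eq_left (by linarith : (0:ℝ) ≤ x + 5 - 6),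
    max_eq_left (by linarith : (0:ℝ) ≤ x + 5 - 8), max_eq_right (by linarith : x + 5 - 10 ≤ (0:ℝ))]
  refine ⟨by ring, by ring, by ring, by ring⟩

theorem W5_left : MonotoneOn (Wf 5 (1 / 80)) (Icc 0 (13 / 20)) := by
  apply Wf_mono_Icc (by norm_num) le_rfl (by norm_num)
  intro x hx
  obtain ⟨e0, e1, e2, e3⟩ := bs5_a hx.1.le (by linarith [hx.2])
  apply Wf_deriv_nonneg (by norm_num) _ (by norm_num) e0 e1 e2 e3
  · have := mul_nonneg hx.1.le (c5_a hx.1.le hx.2.le)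
    refine this.trans_eq ?_
    ring
  · rw [abs_of_pos hx.1]
    push_cast
    linarith [hx.2]

theorem W5_right : MonotoneOn (Wf 5 (1 / 80)) (Ico (47 / 40) ((5:ℕ):ℝ)) := by
  apply Wf_mono_Ico (by norm_num) (by norm_num)
  intro x hx
  have hx1 := hx.1
  have hx2 := hx.2
  push_cast at hx2
  have hxa : |x| < ((5:ℕ):ℝ) := by
    rw [abs_of_pos (by linarith)]
    push_cast
    linarith
  rcases le_total x 3 with h3 | h3
  · obtain ⟨e0, e1, e2, e3⟩ := bs5_b (by linarith) h3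
    apply Wf_deriv_nonneg (by norm_num) hxa (by norm_num) e0 e1 e2 e3
    rcases le_total x 2 with h2 | h2
    · exact c5_b hx1.le h2
    · exact c5_c h2 h3
  · obtain ⟨e0, e1, e2, e3⟩ := bs5_c h3 hx2.le
    apply Wf_deriv_nonneg (by norm_num) hxa (by norm_num) e0 e1 e2 e3
    have hu : 0 ≤ 5 - x := by linarith
    have hu2 : (5 - x) ^ 3 ≤ 2 ^ 3 := pow_le_pow_left₀ hu (by linarith) 3
    have h4 : 0 ≤ 8 - x * (5 - x) ^ 3 / 40 := by
      have : x * (5 - x) ^ 3 ≤ 5 * 2 ^ 3 := mul_le_mul hx2.le hu2 (by positivity) (by norm_num)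
      linarith
    have := mul_nonneg (pow_nonneg hu 9) h4
    refine this.trans_eq ?_
    ring

theorem W5_val : Wf 5 (1 / 80) (47 / 40) = 727516769493466607551 / 1318623534483886208000 := by
  obtain ⟨e0, e1, e2, _⟩ := bs5_b (x := 47 / 40) (by norm_num) (by norm_num)
  rw [Wf_value (by norm_num) (by rw [abs_of_pos (by norm_num)]; norm_num) (by norm_num) e0 e1 e2]
  norm_num

theorem ineq5 : IneqN 5 5 := by
  have hv := W5_val
  apply ineqN_of_bump (lam := 1 / 80) (A := 13 / 20) (B := 47 / 40) (s := 21 / 10000)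
    (η₀ := 39 / 40) 5 (by norm_num) (by norm_num) (by norm_num) (by norm_num) (by norm_num)
    (by norm_num) (by norm_num) (by norm_num) _ W5_left W5_right
  · obtain ⟨b0, b1, _, _⟩ := bs5_b (x := 47 / 40) (by norm_num) (by norm_num)
    obtain ⟨a0, a1, a2, _⟩ := bs5_a (x := 13 / 20) (by norm_num) (by norm_num)
    rw [hv, Va_value (by norm_num) (by rw [abs_of_pos (by norm_num)]; norm_num) (by norm_num) b0 b1,
      Va_value (by norm_num) (by rw [abs_of_pos (by norm_num)]; norm_num) (by norm_num) a0 a1,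
      Wf_value (by norm_num) (by rw [abs_of_pos (by norm_num)]; norm_num) (by norm_num) a0 a1 a2]
    norm_num
  · intro x hx
    rw [hv]
    have hx1 := hx.1
    have hx2 := hx.2
    have hxa : |x| < ((5:ℕ):ℝ) := by
      rw [abs_of_pos (by linarith)]
      push_cast
      linarith
    rcases le_total x 1 with h1 | h1
    · obtain ⟨e0, e1, e2, _⟩ := bs5_a (x := x) (by linarith) h1
      apply Wf_ge (by norm_num) hxa (by norm_num) e0 e1 e2
      refine (c5_d hx1 h1).trans_eq ?_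
      ring
    · obtain ⟨e0, e1, e2, _⟩ := bs5_b (x := x) h1 (by linarith)
      apply Wf_ge (by norm_num) hxa (by norm_num) e0 e1 e2
      refine (c5_e h1 hx2).trans_eq ?_
      ring

/-! ### the density for `n = 6` -/

theorem bs6_a {x : ℝ} (h0 : 0 ≤ x) (h1 : x ≤ 2) :
    bs 6 0 x = (1056 - 240 * x ^ 2 + 30 * x ^ 4 - 5 * x ^ 5) / 3840 ∧
      bs 6 1 x = (-480 * x + 120 * x ^ 3 - 25 * x ^ 4) / 3840 ∧
      bs 6 2 x = (-480 + 360 * x ^ 2 - 100 * x ^ 3) / 3840 ∧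
      bs 6 3 x = (720 * x - 300 * x ^ 2) / 3840 := by
  unfold bs
  simp only [Finset.sum_range_succ, Finset.sum_range_zero]
  norm_num [Nat.choose, Nat.factorial]
  rw [max_eq_left (by linarith : (0:ℝ) ≤ x + 6), max_eq_left (by linarith : (0:ℝ) ≤ x + 6 - 2),
    max_eq_left (by linarith : (0:ℝ) ≤ x + 6 - 4), max_eq_left (by linarith : (0:ℝ) ≤ x),
    max_eq_right (by linarith : x + 6 - 8 ≤ (0:ℝ)), max_eq_right (by linarith : x + 6 - 10 ≤ (0:ℝ)),
    max_eq_right (by linarith : x + 6 - 12 ≤ (0:ℝ))]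
  refine ⟨by ring, by ring, by ring, by ring⟩

theorem bs6_b {x : ℝ} (h0 : 2 ≤ x) (h1 : x ≤ 4) :
    bs 6 0 x = (1632 + 1200 * x - 1680 * x ^ 2 + 600 * x ^ 3 - 90 * x ^ 4 + 5 * x ^ 5) / 7680 ∧
      bs 6 1 x = (1200 - 3360 * x + 1800 * x ^ 2 - 360 * x ^ 3 + 25 * x ^ 4) / 7680 ∧
      bs 6 2 x = (-3360 + 3600 * x - 1080 * x ^ 2 + 100 * x ^ 3) / 7680 ∧
      bs 6 3 x = (3600 - 2160 * x + 300 * x ^ 2) / 7680 := by
  unfold bs
  simp only [Finset.sum_range_succ, Finset.sum_range_zero]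
  norm_num [Nat.choose, Nat.factorial]
  rw [max_eq_left (by linarith : (0:ℝ) ≤ x + 6), max_eq_left (by linarith : (0:ℝ) ≤ x + 6 - 2),
    max_eq_left (by linarith : (0:ℝ) ≤ x + 6 - 4), max_eq_left (by linarith : (0:ℝ) ≤ x),
    max_eq_left (by linarith : (0:ℝ) ≤ x + 6 - 8), max_eq_right (by linarith : x + 6 - 10 ≤ (0:ℝ)),
    max_eq_right (by linarith : x + 6 - 12 ≤ (0:ℝ))]
  refine ⟨by ring, by ring, by ring, by ring⟩

theorem bs6_c {x : ℝ} (h0 : 4 ≤ x) (h1 : x ≤ 6) :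
    bs 6 0 x = (6 - x) ^ 5 / 7680 ∧ bs 6 1 x = (-5 * (6 - x) ^ 4) / 7680 ∧
      bs 6 2 x = (20 * (6 - x) ^ 3) / 7680 ∧ bs 6 3 x = (-60 * (6 - x) ^ 2) / 7680 := by
  unfold bs
  simp only [Finset.sum_range_succ, Finset.sum_range_zero]
  norm_num [Nat.choose, Nat.factorial]
  rw [max_eq_left (by linarith : (0:ℝ) ≤ x + 6), max_eq_left (by linarith : (0:ℝ) ≤ x + 6 - 2),
    max_eq_left (by linarith : (0:ℝ) ≤ x + 6 - 4), max_eq_left (by linarith : (0:ℝ) ≤ x),
    max_eq_left (by linarith : (0:ℝ) ≤ x + 6 - 8), max_eq_left (by linarith : (0:ℝ) ≤ x + 6 - 10),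
    max_eq_right (by linarith : x + 6 - 12 ≤ (0:ℝ))]
  refine ⟨by ring, by ring, by ring, by ring⟩

theorem W6_right : MonotoneOn (Wf 6 (1 / 100)) (Ico (1 / 2) ((6:ℕ):ℝ)) := by
  apply Wf_mono_Ico (by norm_num) (by norm_num)
  intro x hx
  have hx1 := hx.1
  have hx2 := hx.2
  push_cast at hx2
  have hxa : |x| < ((6:ℕ):ℝ) := by
    rw [abs_of_pos (by linarith)]
    push_cast
    linarith
  rcases le_total x 2 with h2 | h2
  · obtain ⟨e0, e1, e2, e3⟩ := bs6_a (by linarith) h2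
    apply Wf_deriv_nonneg (by norm_num) hxa (by norm_num) e0 e1 e2 e3
    exact c6_a hx1.le h2
  rcases le_total x 4 with h4 | h4
  · obtain ⟨e0, e1, e2, e3⟩ := bs6_b h2 h4
    apply Wf_deriv_nonneg (by norm_num) hxa (by norm_num) e0 e1 e2 e3
    exact c6_b h2 h4
  · obtain ⟨e0, e1, e2, e3⟩ := bs6_c h4 hx2.le
    apply Wf_deriv_nonneg (by norm_num) hxa (by norm_num) e0 e1 e2 e3
    have hu : 0 ≤ 6 - x := by linarith
    have hu2 : (6 - x) ^ 3 ≤ 2 ^ 3 := pow_le_pow_left₀ hu (by linarith) 3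
    have h4 : 0 ≤ 10 - x * (6 - x) ^ 3 / 50 := by
      have : x * (6 - x) ^ 3 ≤ 6 * 2 ^ 3 := mul_le_mul hx2.le hu2 (by positivity) (by norm_num)
      linarith
    have := mul_nonneg (pow_nonneg hu 12) h4
    refine this.trans_eq ?_
    ring

theorem W6_val : Wf 6 (1 / 100) (1 / 2) = 184493570671 / 407733331600 := by
  obtain ⟨e0, e1, e2, _⟩ := bs6_a (x := 1 / 2) (by norm_num) (by norm_num)
  rw [Wf_value (by norm_num) (by rw [abs_of_pos (by norm_num)]; norm_num) (by norm_num) e0 e1 e2]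
  norm_num

theorem ineq6 : IneqN 6 6 := by
  have hv := W6_val
  apply ineqN_of_bump (lam := 1 / 100) (A := 0) (B := 1 / 2) (s := 1 / 300)
    (η₀ := 9 / 10) 6 (by norm_num) (by norm_num) (by norm_num) (by norm_num) (by norm_num)
    (by norm_num) (by norm_num) (by norm_num) _ _ W6_right
  · obtain ⟨b0, b1, _, _⟩ := bs6_a (x := 1 / 2) (by norm_num) (by norm_num)
    obtain ⟨a0, a1, _, _⟩ := bs6_a (x := 0) (by norm_num) (by norm_num)
    rw [hv, Va_value (by norm_num) (by rw [abs_of_pos (by norm_num)]; norm_num) (by norm_num) b0 b1,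
      Va_value (by norm_num) (by norm_num) (by norm_num) a0 a1]
    norm_num
  · intro x hx
    rw [hv]
    have hx1 := hx.1
    have hx2 := hx.2
    have hxa : |x| < ((6:ℕ):ℝ) := by
      rw [abs_of_nonneg hx1]
      push_cast
      linarith
    obtain ⟨e0, e1, e2, _⟩ := bs6_a (x := x) hx1 (by linarith)
    apply Wf_ge (by norm_num) hxa (by norm_num) e0 e1 e2
    refine (c6_c hx1 hx2).trans_eq ?_
    ring
  · intro x hx y hy _
    have : x = y := by linarith [hx.1, hx.2, hy.1, hy.2]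
    rw [this]

end Pool.Agent.Lib.MP391fb1
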