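import Pool.Agent.Lib.MP_391fb1_pr.Bs2

/-!
# MP_391fb1_pr: integer list polynomials, and `bs n i` on knot intervals
-/

namespace Pool.Agent.Lib.MP391fb1

open Set

/-- evaluation of an integer list polynomial -/
noncomputable def ev (l : List ℤ) (y : ℝ) : ℝ := l.foldr (fun c acc => (c:ℝ) + y * acc) 0

@[simp] theorem ev_nil (y : ℝ) : ev [] y = 0 := rfl
@[simp] theorem ev_cons (c : ℤ) (l : List ℤ) (y : ℝ) : ev (c :: l) y = c + y * ev l y := rfl

def addL : List ℤ → List ℤ → List ℤ
  | [], b => b
  | a :: as, [] => a :: as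
  | a :: as, b :: bs => (a + b) :: addL as bs

@[simp] theorem ev_addL (l m : List ℤ) (y : ℝ) : ev (addL l m) y = ev l y + ev m y := by
  induction l generalizing m with
  | nil => simp [addL]
  | cons a as ih =>
    cases m with
    | nil => simp [addL]
    | cons b bs =>
      simp only [addL, ev_cons, ih]
      push_cast
      ring

def smulL (c : ℤ) : List ℤ → List ℤ
  | [] => []
  | a :: as => (c * a) :: smulL c as

@[simp] theorem ev_smulL (c : ℤ) (l : List ℤ) (y : ℝ) : ev (smulL c l) y = c * ev l y := by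
  induction l with
  | nil => simp [smulL]
  | cons a as ih =>
    simp only [smulL, ev_cons, ih]
    push_cast
    ring

def mulL : List ℤ → List ℤ → List ℤ
  | [], _ => []
  | a :: as, b => addL (smulL a b) (0 :: mulL as b)

@[simp] theorem ev_mulL (l m : List ℤ) (y : ℝ) : ev (mulL l m) y = ev l y * ev m y := by
  induction l with
  | nil => simp [mulL]
  | cons a as ih =>
    simp only [mulL, ev_cons, ev_addL, ev_smulL, ih]
    push_cast
    ring

def powL (l : List ℤ) : ℕ → List ℤ
  | 0 => [1]
  | n + 1 => mulL l (powL l n)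

@[simp] theorem ev_powL (l : List ℤ) (n : ℕ) (y : ℝ) : ev (powL l n) y = ev l y ^ n := by
  induction n with
  | zero => simp [powL]
  | succ n ih =>
    simp only [powL, ev_mulL, ih]
    ring

def sumL (f : ℕ → List ℤ) : ℕ → List ℤ
  | 0 => f 0
  | k + 1 => addL (sumL f k) (f (k + 1))

@[simp] theorem ev_sumL (f : ℕ → List ℤ) (n : ℕ) (y : ℝ) :
    ev (sumL f n) y = ∑ k ∈ Finset.range (n + 1), ev (f k) y := by
  induction n with
  | zero => simp [sumL]
  | succ n ih =>
    rw [Finset.sum_range_succ]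
    simp only [sumL, ev_addL, ih]

def allNN : List ℤ → Bool
  | [] => true
  | a :: as => (decide (0 ≤ a)) && allNN as

theorem ev_nonneg {l : List ℤ} (h : allNN l = true) {y : ℝ} (hy : 0 ≤ y) : 0 ≤ ev l y := by
  induction l with
  | nil => simp
  | cons a as ih =>
    simp only [allNN, Bool.and_eq_true, decide_eq_true_eq] at h
    have h1 : (0:ℝ) ≤ a := by exact_mod_cast h.1
    have h2 := ih h.2
    simp only [ev_cons]
    positivity

def anyPos : List ℤ → Bool
  | [] => false
  | a :: as => (decide (0 < a)) || anyPos as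

theorem ev_pos' {l : List ℤ} (h : allNN l = true) (h' : anyPos l = true) {y : ℝ} (hy : 0 < y) :
    0 < ev l y := by
  induction l with
  | nil => simp [anyPos] at h'
  | cons a as ih =>
    have hall := h
    simp only [allNN, Bool.and_eq_true, decide_eq_true_eq] at h
    simp only [anyPos, Bool.or_eq_true, decide_eq_true_eq] at h'
    have h1 : (0:ℝ) ≤ a := by exact_mod_cast h.1
    have h2 := ev_nonneg h.2 hy.le
    simp only [ev_cons]
    rcases h' with h' | h'
    · have h1 : (0:ℝ) < a := by exact_mod_cast h'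
      positivity
    · have := ih h.2 h'
      positivity

def headPos : List ℤ → Bool
  | [] => false
  | a :: _ => decide (0 < a)

theorem ev_pos {l : List ℤ} (h : allNN l = true) (h' : headPos l = true) {y : ℝ} (hy : 0 ≤ y) :
    0 < ev l y := by
  cases l with
  | nil => simp [headPos] at h'
  | cons a as =>
    simp only [allNN, Bool.and_eq_true, decide_eq_true_eq] at h
    simp only [headPos, decide_eq_true_eq] at h'
    have h2 := ev_nonneg h.2 hy
    have h1 : (0:ℝ) < a := by exact_mod_cast h'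
    simp only [ev_cons]
    positivity

/-- the list polynomial of `bs n i` on the interval starting at the knot `-n + 2j`, of length `r` -/
def pL (n i j r : ℕ) : List ℤ :=
  sumL (fun k => smulL ((-1) ^ k * ((n.descFactorial k / k.factorial : ℕ) : ℤ))
    (powL [2 * ((j:ℤ) - k), 2 * ((j:ℤ) - k) + r] (n - 1 - i))) j

theorem bs_interval {n i j r : ℕ} (hi : i + 2 ≤ n) (hj : j ≤ n) (hr : r ≤ 2) {s : ℝ} (hs : 0 ≤ s)
    (hs1 : s < 1) :
    bs n i (-(n:ℝ) + 2 * j + r * s) = (1 - s) ^ (n - 1 - i) * ev (pL n i j r) (s / (1 - s)) /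
      (2 ^ n * ((n - 1 - i).factorial : ℝ)) := by
  have hu : 0 < 1 - s := by linarith
  have hr' : (r:ℝ) ≤ 2 := by exact_mod_cast hr
  have hr0 : (0:ℝ) ≤ r := Nat.cast_nonneg r
  obtain ⟨m, hm⟩ : ∃ m, n - 1 - i = m + 1 := ⟨n - 2 - i, by omega⟩
  unfold bs pL
  rw [hm, ev_sumL]
  have hsplit : ∑ k ∈ Finset.range (n + 1), (-1 : ℝ) ^ k * (n.choose k : ℝ) *
      (max (-(n:ℝ) + 2 * j + r * s + n - 2 * k) 0) ^ (m + 1)
      = ∑ k ∈ Finset.range (j + 1), (-1 : ℝ) ^ k * (n.choose k : ℝ) *
      (max (-(n:ℝ) + 2 * j + r * s + n - 2 * k) 0) ^ (m + 1) := by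
    symm
    apply Finset.sum_subset
    · intro k hk
      rw [Finset.mem_range] at hk ⊢
      omega
    · intro k _ hk
      rw [Finset.mem_range, not_lt] at hk
      have hk' : (j:ℝ) + 1 ≤ k := by exact_mod_cast hk
      rw [max_eq_right, zero_pow (by omega), mul_zero]
      nlinarith
  rw [hsplit, mul_comm (1 / _) _, mul_one_div]
  congr 1
  rw [Finset.mul_sum]
  apply Finset.sum_congr rfl
  intro k hk
  rw [Finset.mem_range] at hk
  have hk' : (k:ℝ) ≤ j := by exact_mod_cast (by omega : k ≤ j)
  rw [max_eq_left (by nlinarith [mul_nonneg hr0 hs]), ev_smulL, ev_powL,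
    ← Nat.choose_eq_descFactorial_div_factorial]
  have e : -(n:ℝ) + 2 * j + r * s + n - 2 * k
      = (1 - s) * ev [2 * ((j:ℤ) - k), 2 * ((j:ℤ) - k) + r] (s / (1 - s)) := by
    simp only [ev_cons, ev_nil]
    push_cast
    field_simp
    ring
  rw [e, mul_pow]
  push_cast
  ring

end Pool.Agent.Lib.MP391fb1
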